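import Pool.Agent.helper7.LT.ChA

/-!
# LT-ChB: the chain sum

author of the proofs: helper56

* `geo1`: `∑ d ∈ range dA, Nd n d ≤ 2 * n` (`Nd n d = n / 2 ^ d`, geometric series).
* `geo2`: `∑ d ∈ range dA, Nd n d ^ (-1 / 8) ≤ 12 * Nd n dA ^ (-1 / 8)`: induction on `dA`: `Nd n d = 2 * Nd n (d + 1)`, so with
  `ρ = 2 ^ (-1 / 8)`: `Nd n d ^ (-1 / 8) = ρ * Nd n (d + 1) ^ (-1 / 8)` and `ρ * (12 + 1) ≤ 12`, i.e. `13 ≤ 12 * 2 ^ (1 / 8)`,
  i.e. `(13 / 12) ^ 8 ≤ 2` (it is `1.897...`).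
* `geo3`: `∑ d ∈ range dA, 1 / Nd n d ≤ 1 / Nd n dA` (induction, the same way).
* `sD_sum`: every `v` with `v.1 ≠ t` is separated from `t` at exactly one depth (`sep_unique`), so
  `∑ d ∈ range m, sD c k t d ≤ ∑ v, Dg c k v = Oc c k`.
* `gp_chain`: `Xh` is the sum over `d ∈ range dA` of the left sides of `chain_step`.  With `e2 = 1912 * β + 984 * Nd n dA ^ (-1 / 8)`
  and `gp_load`: `6 / N * 1748 * β * N ^ 2 / n = 10488 * β * N / n`, sum at most `20976 * β`;
  `6 / N * 984 * N ^ (7 / 8) = 5904 * N ^ (-1 / 8)`, sum at most `70848 * Nd n dA ^ (-1 / 8)`;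
  `492 / n * 2 * Oc ≤ 984 * β`; `36 / N ^ 2 * e2 * N = 36 * e2 / N`, sum at most `36 * e2 / Nd n dA ≤ 36 * e2`.
* `gp_gc`: collect.
-/

set_option autoImplicit false

open Finset
open scoped Classical

namespace Pool.Agent.helper7.LT

variable {n : ℕ} {C : Type}

private theorem ChB_Nd_nonneg (n d : ℕ) : 0 ≤ Nd n d := by
  unfold Nd
  positivity

private theorem ChB_Nd_succ (n d : ℕ) : Nd n d = 2 * Nd n (d + 1) := by
  unfold Nd
  rw [pow_succ]
  field_simp

private theorem ChB_geo1 (dA : ℕ) : ∑ d ∈ range dA, Nd n d + 2 * Nd n dA = 2 * n := by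
  induction dA with
  | zero =>
    simp [Nd]
  | succ m ih =>
    rw [sum_range_succ]
    have h1 := ChB_Nd_succ n m
    linarith

theorem geo1 (dA : ℕ) : ∑ d ∈ range dA, Nd n d ≤ 2 * n := by
  have h1 := ChB_geo1 (n := n) dA
  have h2 := ChB_Nd_nonneg n dA
  linarith

private theorem ChB_rho : 13 * (2 : ℝ) ^ (-(1 / 8) : ℝ) ≤ 12 := by
  have h0 : (0 : ℝ) < (2 : ℝ) ^ (-(1 / 8) : ℝ) := by positivity
  have h1 : ((2 : ℝ) ^ (-(1 / 8) : ℝ)) ^ 8 = 1 / 2 := by
    rw [← Real.rpow_natCast, ← Real.rpow_mul (by norm_num)]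
    have h2 : (-(1 / 8) : ℝ) * ((8 : ℕ) : ℝ) = -1 := by norm_num
    rw [h2, Real.rpow_neg_one]
    norm_num
  by_contra hcon
  rw [not_le] at hcon
  have h2 : (12 / 13 : ℝ) < (2 : ℝ) ^ (-(1 / 8) : ℝ) := by linarith
  have h3 := pow_lt_pow_left₀ h2 (by norm_num) (n := 8) (by norm_num)
  rw [h1] at h3
  norm_num at h3

theorem geo2 (dA : ℕ) (h : 1 ≤ Nd n dA) :
    ∑ d ∈ range dA, Nd n d ^ (-(1 / 8) : ℝ) ≤ 12 * Nd n dA ^ (-(1 / 8) : ℝ) := by
  induction dA with
  | zero =>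
    rw [range_zero, sum_empty]
    have := ChB_Nd_nonneg n 0
    positivity
  | succ m ih =>
    have h1 := ChB_Nd_succ n m
    have h2 := ih (by linarith)
    rw [sum_range_succ]
    have h3 : Nd n m ^ (-(1 / 8) : ℝ) =
        (2 : ℝ) ^ (-(1 / 8) : ℝ) * Nd n (m + 1) ^ (-(1 / 8) : ℝ) := by
      rw [h1, Real.mul_rpow (by norm_num) (by linarith)]
    have h4 : 0 ≤ Nd n (m + 1) ^ (-(1 / 8) : ℝ) := by
      have := ChB_Nd_nonneg n (m + 1)
      positivity
    have h5 := mul_le_mul_of_nonneg_right ChB_rho h4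
    rw [h3] at h2 ⊢
    nlinarith

theorem geo3 (dA : ℕ) (h : 1 ≤ Nd n dA) : ∑ d ∈ range dA, 1 / Nd n d ≤ 1 / Nd n dA := by
  induction dA with
  | zero =>
    rw [range_zero, sum_empty]
    have := ChB_Nd_nonneg n 0
    positivity
  | succ m ih =>
    have h1 := ChB_Nd_succ n m
    have h2 := ih (by linarith)
    rw [sum_range_succ]
    have h3 : 1 / Nd n m + 1 / Nd n m = 1 / Nd n (m + 1) := by
      rw [h1]
      have : Nd n (m + 1) ≠ 0 := by
        intro h4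
        linarith
      field_simp
      norm_num
    linarith

theorem sD_sum (c : P n → P n → C) (k : C) (t : Fin n) (m : ℕ) :
    ∑ d ∈ range m, sD c k t d ≤ (Oc c k : ℝ) := by
  have h1 : (Oc c k : ℝ) = ∑ v : P n, (Dg c k v : ℝ) := by
    rw [← Dg_sum c k]
    push_cast
    rfl
  rw [h1]
  unfold sD
  have h2 : ∀ d ∈ range m, ∑ v ∈ univ.filter (fun v : P n => Sep d v.1 t), (Dg c k v : ℝ) =
      ∑ v : P n, if Sep d v.1 t then (Dg c k v : ℝ) else 0 := by
    intro d _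
    rw [sum_filter]
  rw [sum_congr rfl h2, sum_comm]
  refine sum_le_sum fun v _ => ?_
  rw [← sum_filter, sum_const, nsmul_eq_mul]
  have h3 : ((range m).filter fun d => Sep d v.1 t).card ≤ 1 := by
    rw [card_le_one]
    intro a ha b hb
    exact sep_unique (mem_filter.1 ha).2 (mem_filter.1 hb).2
  have h4 : (((range m).filter fun d => Sep d v.1 t).card : ℝ) ≤ 1 := by exact_mod_cast h3
  have h5 : (0 : ℝ) ≤ Dg c k v := Nat.cast_nonneg _
  nlinarith

theorem gp_chain {c : P n → P n → C} (hc : ∀ x y, c x y = c y x) {dA : ℕ} {β : ℝ}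
    (h : GP c dA β) (h3 : 3 ≤ Nd n dA) (h0 : 0 ≤ β) (hβ : ∀ k, (Oc c k : ℝ) ≤ β * n) (k : C)
    (t : Fin n) :
    Xh c dA k t ≤ 22000 * β + 71000 * Nd n dA ^ (-(1 / 8) : ℝ) +
      36 * (1912 * β + 984 * Nd n dA ^ (-(1 / 8) : ℝ)) := by
  have h1 : 1 ≤ Nd n dA := by linarith
  have hn : (0 : ℝ) < n := by
    have := Nd_le (n := n) dA
    linarith
  set X := Nd n dA ^ (-(1 / 8) : ℝ) with hX
  have hX0 : 0 ≤ X := by
    have := ChB_Nd_nonneg n dA
    positivity
  set e2 := 1912 * β + 984 * X with he2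
  have he0 : 0 ≤ e2 := by positivity
  have hstep : ∀ d ∈ range dA,
      (∑ x : P n, ∑ u : Fin n, if c x (par x u) = k then wd n d x.1 u t else 0) ≤
        10488 * β / n * Nd n d + 5904 * Nd n d ^ (-(1 / 8) : ℝ) +
          (492 / n * sD c k t d + 492 / n * sD c k t (d + 1)) + 36 * e2 * (1 / Nd n d) := by
    intro d hd
    have hd' : d < dA := mem_range.1 hd
    have hN : 1 ≤ Nd n d := le_trans h1 (Nd_mono hd'.le)
    have hN0 : Nd n d ≠ 0 := by
      intro h4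
      linarith
    have h4 := chain_step hc h h3 h0 hd' k t
    have h5 := gp_load hc h h1 h0 hβ hd'.le (blk n d t) k
    rw [← hX, ← he2] at h5
    have h6 : 36 / Nd n d ^ 2 * (oc c k d (blk n d t) : ℝ) ≤ 36 * e2 * (1 / Nd n d) := by
      have h7 : 36 * e2 * (1 / Nd n d) = 36 / Nd n d ^ 2 * (e2 * Nd n d) := by
        field_simp
      rw [h7]
      exact mul_le_mul_of_nonneg_left h5 (by positivity)
    have h8 : 6 / Nd n d * (1748 * β * Nd n d ^ 2 / n + 984 * Nd n d ^ (7 / 8 : ℝ)) =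
        10488 * β / n * Nd n d + 5904 * Nd n d ^ (-(1 / 8) : ℝ) := by
      have h9 : Nd n d ^ (7 / 8 : ℝ) = Nd n d * Nd n d ^ (-(1 / 8) : ℝ) := by
        nth_rewrite 2 [← Real.rpow_one (Nd n d)]
        rw [← Real.rpow_add (by linarith)]
        norm_num
      rw [h9]
      have hn0 : (n : ℝ) ≠ 0 := hn.ne'
      field_simp
      ring
    have h10 : 492 / (n : ℝ) * (sD c k t d + sD c k t (d + 1)) =
        492 / n * sD c k t d + 492 / n * sD c k t (d + 1) := by ring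
    rw [h8, h10] at h4
    linarith
  have hsum := sum_le_sum hstep
  have hXh : Xh c dA k t = ∑ d ∈ range dA, ∑ x : P n, ∑ u : Fin n,
      if c x (par x u) = k then wd n d x.1 u t else 0 := rfl
  rw [hXh]
  refine le_trans hsum ?_
  rw [sum_add_distrib, sum_add_distrib, sum_add_distrib, sum_add_distrib, ← mul_sum, ← mul_sum,
    ← mul_sum, ← mul_sum, ← mul_sum]
  have g1 := geo1 (n := n) dA
  have g2 := geo2 dA h1
  have g3 := geo3 dA h1
  have g4 := sD_sum c k t dA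
  have g5 := sD_sum c k t (dA + 1)
  rw [sum_range_succ'] at g5
  have hs0 : 0 ≤ sD c k t 0 := by
    unfold sD
    exact sum_nonneg fun v _ => Nat.cast_nonneg _
  have hO := hβ k
  have a1 : 10488 * β / n * ∑ d ∈ range dA, Nd n d ≤ 20976 * β := by
    have h4 : 10488 * β / n * ∑ d ∈ range dA, Nd n d ≤ 10488 * β / n * (2 * n) :=
      mul_le_mul_of_nonneg_left g1 (by positivity)
    have h5 : 10488 * β / n * (2 * n) = 20976 * β := by
      field_simp
      ring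
    linarith
  have a2 : ∀ S : ℝ, S ≤ (Oc c k : ℝ) → 492 / (n : ℝ) * S ≤ 492 * β := by
    intro S hS
    have h4 : 492 / (n : ℝ) * S ≤ 492 / (n : ℝ) * (β * n) :=
      mul_le_mul_of_nonneg_left (hS.trans hO) (by positivity)
    have h5 : 492 / (n : ℝ) * (β * n) = 492 * β := by
      field_simp
    linarith
  have a3 := a2 _ g4
  have a4 := a2 (∑ d ∈ range dA, sD c k t (d + 1)) (by linarith)
  have a5 : 36 * e2 * ∑ d ∈ range dA, 1 / Nd n d ≤ 36 * e2 := by
    have h4 : 1 / Nd n dA ≤ 1 := by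
      rw [div_le_one (by linarith)]
      exact h1
    have h5 : 36 * e2 * ∑ d ∈ range dA, 1 / Nd n d ≤ 36 * e2 * 1 :=
      mul_le_mul_of_nonneg_left (g3.trans h4) (by positivity)
    linarith
  rw [← hX] at g2
  linarith

theorem gp_gc {c : P n → P n → C} (hc : ∀ x y, c x y = c y x) {dA : ℕ} {β : ℝ}
    (h : GP c dA β) (h3 : 3 ≤ Nd n dA) (h0 : 0 ≤ β) (hβ : ∀ k, (Oc c k : ℝ) ≤ β * n) :
    GC c dA (22000 * β + 71000 * Nd n dA ^ (-(1 / 8) : ℝ) +
      36 * (1912 * β + 984 * Nd n dA ^ (-(1 / 8) : ℝ)))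
      (1912 * β + 984 * Nd n dA ^ (-(1 / 8) : ℝ))
      (81 * β + 82 * Nd n dA ^ (-(15 / 16) : ℝ)) where
  rain := h.rain
  chain k t := gp_chain hc h h3 h0 hβ k t
  load d hd b k := gp_load hc h (by linarith) h0 hβ hd b k
  deg d hd v k := gp_deg h (by linarith) hβ hd v k

end Pool.Agent.helper7.LT
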