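import Pool.Agent.helper7.LT.Blk

/-!
# LT-Glue: from the trees of the edges `(x, u)` to a decomposition

* `par_cases`: for `x.1 ≠ y.1` exactly one of `y = par x y.1`, `x = par y x.1` holds: cases `x.1 < y.1`, `y.1 < x.1` and
  the four values of the types.
PROOF of `glue`.  `T x y` is `x.1` if `x.1 = y.1`; `tr x y.1` if `x.1 ≠ y.1` and `y = par x y.1`; `tr y x.1` otherwise.
Symmetric by `par_cases`.
Connected: let `t : Fin n`.  `(t, false)` and `(t, true)` are adjacent.  By strong induction on `n - d` (or downwards on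
`d`) every `x` with `Sep d x.1 t` is reachable from `(t, false)`: `h1` gives `u` with `Sep d x.1 u`, `tr x u = t`; `x` and
`y = par x u` are adjacent (`T x y = tr x u = t`, `x ≠ y`), `y.1 = u`, and `u`, `t` are in the same block of depth `d + 1`
(`sep_block`), so `u = t` or `Sep e u t` with `e ≥ d + 1` (`same_iff`), and `e < n` (`sep_lt`).  Every `x` has `x.1 = t` or
`Sep d x.1 t` for some `d` (`sep_exists`).  The graph is nonempty because of `t`.
Rainbow: let `x ≠ y`, `z ≠ w`, `c x y = c z w`, `T x y = T z w = t`.  If `x.1 = y.1` then `{x, y} = {(x.1, false), (x.1, true)}`,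
`t = x.1`; otherwise after exchanging `x` and `y` (symmetry of `c`, `T`, `Sym2.eq_swap`) `y = par x u`, `u = y.1`,
`t = tr x u`.  Same for `z`, `w`.  Cases: both pair edges: both are the pair edge of `t`; one pair edge: against `h3` (use the
symmetry of `c` for the order of `(t, false)`, `(t, true)`); no pair edge: by `h2` `(x, u) = (z, u')`, so `x = z`, `y = w`.
-/

set_option autoImplicit false

open Finset
open scoped Classical

namespace Pool.Agent.helper7.LT

variable {n : ℕ} {C : Type}

theorem par_cases {x y : P n} (h : x.1 ≠ y.1) :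
    (y = par x y.1 ∧ x ≠ par y x.1) ∨ (y ≠ par x y.1 ∧ x = par y x.1) := by
  obtain ⟨a, p⟩ := x
  obtain ⟨b, q⟩ := y
  simp only [ne_eq] at h
  rcases lt_or_gt_of_ne h with h1 | h1
  · have h2 : ¬ b < a := not_lt.2 h1.le
    simp only [par, Prod.mk.injEq, true_and, h1, h2, if_true, if_false, ne_eq]
    cases p <;> cases q <;> simp
  · have h2 : ¬ a < b := not_lt.2 h1.le
    simp only [par, Prod.mk.injEq, true_and, h1, h2, if_true, if_false, ne_eq]
    cases p <;> cases q <;> simp

/-- the tree of the edge `x y` -/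
private noncomputable def GlueT (tr : P n → Fin n → Fin n) (x y : P n) : Fin n :=
  if x.1 = y.1 then x.1 else if y = par x y.1 then tr x y.1 else tr y x.1

private theorem glueT_symm (tr : P n → Fin n → Fin n) (x y : P n) :
    GlueT tr x y = GlueT tr y x := by
  unfold GlueT
  by_cases h : x.1 = y.1
  · rw [if_pos h, if_pos h.symm, h]
  · rw [if_neg h, if_neg (Ne.symm h)]
    rcases par_cases h with ⟨h1, h2⟩ | ⟨h1, h2⟩
    · rw [if_pos h1, if_neg h2]
    · rw [if_neg h1, if_pos h2]

private theorem glueT_par (tr : P n → Fin n → Fin n) (x : P n) (u : Fin n) (h : u ≠ x.1) :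
    GlueT tr x (par x u) = tr x u := by
  unfold GlueT
  have h1 : (par x u).1 = u := rfl
  rw [h1, if_neg (Ne.symm h), if_pos rfl]

private theorem glue_pair {x y : P n} (hxy : x ≠ y) (h : x.1 = y.1) :
    s(x, y) = s(((x.1, false) : P n), ((x.1, true) : P n)) := by
  obtain ⟨a, p⟩ := x
  obtain ⟨b, q⟩ := y
  simp only at h
  subst h
  cases p <;> cases q
  · exact absurd rfl hxy
  · rfl
  · exact Sym2.eq_swap
  · exact absurd rfl hxy

private theorem glue_form (c : P n → P n → C) (hc : ∀ x y, c x y = c y x)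
    (tr : P n → Fin n → Fin n) {x y : P n} (hxy : x ≠ y) :
    (∃ t : Fin n, s(x, y) = s(((t, false) : P n), ((t, true) : P n)) ∧ GlueT tr x y = t ∧
      c x y = c (t, false) (t, true)) ∨
    (∃ (p : P n) (u : Fin n), u ≠ p.1 ∧ s(x, y) = s(p, par p u) ∧ GlueT tr x y = tr p u ∧
      c x y = c p (par p u)) := by
  by_cases h : x.1 = y.1
  · left
    refine ⟨x.1, glue_pair hxy h, ?_, ?_⟩
    · unfold GlueT; rw [if_pos h]
    · have h1 := glue_pair hxy h
      rw [Sym2.eq_iff] at h1
      rcases h1 with ⟨h1, h2⟩ | ⟨h1, h2⟩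
      · rw [← h1, ← h2]
      · rw [← h1, ← h2, hc]
  · right
    rcases par_cases h with ⟨h1, _⟩ | ⟨_, h2⟩
    · refine ⟨x, y.1, Ne.symm h, ?_, ?_, ?_⟩
      · rw [← h1]
      · conv_lhs => rw [h1]
        exact glueT_par tr x y.1 (Ne.symm h)
      · rw [← h1]
    · refine ⟨y, x.1, h, ?_, ?_, ?_⟩
      · rw [← h2]; exact Sym2.eq_swap
      · rw [glueT_symm]
        conv_lhs => rw [h2]
        exact glueT_par tr y x.1 h
      · rw [← h2]; exact hc _ _

theorem glue (c : P n → P n → C) (hc : ∀ x y, c x y = c y x) (tr : P n → Fin n → Fin n)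
    (h1 : ∀ x d t, Sep d x.1 t → ∃ u, Sep d x.1 u ∧ tr x u = t)
    (h2 : ∀ x u x' u', u ≠ x.1 → u' ≠ x'.1 → (x, u) ≠ (x', u') →
      c x (par x u) = c x' (par x' u') → tr x u ≠ tr x' u')
    (h3 : ∀ x u, u ≠ x.1 → c (tr x u, false) (tr x u, true) ≠ c x (par x u)) :
    ∃ T : P n → P n → Fin n, (∀ x y, T x y = T y x) ∧
      (∀ t, (SimpleGraph.fromRel fun x y => T x y = t).Connected) ∧
      ∀ x y z w, x ≠ y → z ≠ w → c x y = c z w → T x y = T z w → s(x, y) = s(z, w) := by
  refine ⟨GlueT tr, glueT_symm tr, ?_, ?_⟩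
  · intro t
    set Gr := SimpleGraph.fromRel fun x y => GlueT tr x y = t with hGr
    have hpair : ∀ x : P n, x.1 = t → Gr.Reachable x (t, false) := by
      intro x hx
      obtain ⟨a, p⟩ := x
      simp only at hx
      subst hx
      cases p
      · exact SimpleGraph.Reachable.refl _
      · apply SimpleGraph.Adj.reachable
        rw [hGr, SimpleGraph.fromRel_adj]
        refine ⟨by simp, Or.inl ?_⟩
        simp [GlueT]
    have hstep : ∀ m : ℕ, ∀ d : ℕ, n - d ≤ m → ∀ x : P n, Sep d x.1 t →
        Gr.Reachable x (t, false) := by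
      intro m
      induction m with
      | zero =>
        intro d hd x hx
        have := sep_lt hx
        omega
      | succ m ih =>
        intro d hd x hx
        obtain ⟨u, hu, htr⟩ := h1 x d t hx
        have hux : u ≠ x.1 := (sep_ne hu).symm
        have hadj : Gr.Adj x (par x u) := by
          rw [hGr, SimpleGraph.fromRel_adj]
          refine ⟨?_, Or.inl ?_⟩
          · intro he
            exact hux (congrArg Prod.fst he).symm
          · rw [glueT_par tr x u hux, htr]
        refine hadj.reachable.trans ?_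
        have hb := sep_block hu hx
        rw [same_iff] at hb
        rcases hb with hb | ⟨e, he, hse⟩
        · exact hpair (par x u) hb
        · have hlt := sep_lt hx
          have hlt' := sep_lt hse
          exact ih e (by omega) (par x u) hse
    have hall : ∀ x : P n, Gr.Reachable x (t, false) := by
      intro x
      by_cases hx : x.1 = t
      · exact hpair x hx
      · obtain ⟨d, _, hd⟩ := sep_exists hx
        exact hstep n d (by omega) x hd
    haveI : Nonempty (P n) := ⟨(t, false)⟩
    exact ⟨fun x y => (hall x).trans (hall y).symm⟩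
  · intro x y z w hxy hzw hcc hTT
    rcases glue_form c hc tr hxy with ⟨t, hs, hT, hC⟩ | ⟨p, u, hu, hs, hT, hC⟩ <;>
      rcases glue_form c hc tr hzw with ⟨t', hs', hT', hC'⟩ | ⟨p', u', hu', hs', hT', hC'⟩
    · have : t = t' := by rw [← hT, ← hT', hTT]
      rw [hs, hs', this]
    · exfalso
      have ht : tr p' u' = t := by rw [← hT, ← hT', hTT]
      apply h3 p' u' hu'
      rw [ht, ← hC, ← hC', hcc]
    · exfalso
      have ht : tr p u = t' := by rw [← hT, ← hT', hTT]
      apply h3 p u hu
      rw [ht, ← hC', ← hC, hcc]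
    · by_cases he : ((p, u) : P n × Fin n) = (p', u')
      · rw [Prod.mk.injEq] at he
        obtain ⟨rfl, rfl⟩ := he
        rw [hs, hs']
      · exfalso
        apply h2 p u p' u' hu hu' he
        · rw [← hC, ← hC', hcc]
        · rw [← hT, ← hT', hTT]

end Pool.Agent.helper7.LT
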