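import Pool.Agent.helper7.LT.ChB

/-!
# LT-Num: the numerical part

* `exp_big`: `y = x ^ (1 / 16) ≥ 2 ^ 15`, `x ^ 2 = y ^ 32`; `exp y = (exp (y / 64)) ^ 64 ≥ (y / 64) ^ 64 = y ^ 32 * (y ^ 32 / 2 ^ 384)` and
  `y ^ 32 ≥ 2 ^ 480`, so `exp y ≥ 2 ^ 96 * y ^ 32`; `128 * exp 2 ≤ 2 ^ 10`.
* `num_sum`: by `exp_big` every term is at most `1 / Nd n d` (`Nd n d ≥ Nd n dA`), and `geo3` plus the last term:
  `∑ d ∈ range (dA + 1), 1 / Nd n d ≤ 2 / Nd n dA ≤ 1 / 8`.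
* `num_delta`: `NA ^ (-1 / 8) ≤ 2 ^ (-30)`, `NA ^ (-15 / 16) ≤ 2 ^ (-225)`; so the bracket is at most
  `2 * (106500 * 2 ^ (-30)) + 12 / 2 ^ 14 + 18 * (83 * 2 ^ (-225)) * 2 ^ 15 ≤ 2 ^ (-12) + 2 ^ (-10) + 2 ^ (-12)`, and
  `exp 4 ≤ 64`.
* `exists_dA`: with `L = Nat.log 2 n`: `2 ^ L ≤ n < 2 ^ (L + 1)`, `240 ≤ L`, `d = L - 240`; `L ≤ n` (`Nat.log_le_self`).
-/

set_option autoImplicit false

open Finset
open scoped Classical

namespace Pool.Agent.helper7.LT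

theorem exp_big (x : ℝ) (hx : 2 ^ 240 ≤ x) :
    128 * Real.exp 2 * x ^ 2 ≤ Real.exp (x ^ (1 / 16 : ℝ)) := by
  have hx0 : (0 : ℝ) ≤ x := le_trans (by positivity) hx
  set y := x ^ (1 / 16 : ℝ) with hy
  have hy0 : 0 ≤ y := Real.rpow_nonneg hx0 _
  have hy16 : y ^ 16 = x := by
    rw [hy, ← Real.rpow_natCast, ← Real.rpow_mul hx0]
    norm_num
  have hy15 : (2 : ℝ) ^ 15 ≤ y := by
    have h1 : ((2 : ℝ) ^ 15) ^ 16 ≤ y ^ 16 := by
      rw [hy16, ← pow_mul]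
      exact hx
    exact (pow_le_pow_iff_left₀ (by positivity) hy0 (by norm_num)).1 h1
  have hx2 : x ^ 2 = y ^ 32 := by
    rw [← hy16, ← pow_mul]
  have h1 : Real.exp y = Real.exp (y / 64) ^ 64 := by
    rw [← Real.exp_nat_mul]
    congr 1
    push_cast
    ring
  have h2 : y / 64 ≤ Real.exp (y / 64) := by
    have := Real.add_one_le_exp (y / 64)
    linarith
  have h3 : (y / 64) ^ 64 ≤ Real.exp y := by
    rw [h1]
    exact pow_le_pow_left₀ (by positivity) h2 64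
  have h4 : ((2 : ℝ) ^ 15) ^ 32 ≤ y ^ 32 := pow_le_pow_left₀ (by positivity) hy15 32
  have h5 : (y / 64) ^ 64 = y ^ 32 * (y ^ 32 / 2 ^ 384) := by
    rw [div_pow]
    have : (64 : ℝ) ^ 64 = 2 ^ 384 := by
      rw [show (64 : ℝ) = 2 ^ 6 by norm_num, ← pow_mul]
    rw [this]
    ring
  have h6 : (2 : ℝ) ^ 96 ≤ y ^ 32 / 2 ^ 384 := by
    rw [le_div_iff₀ (by positivity)]
    refine le_trans (le_of_eq ?_) h4
    rw [← pow_add, ← pow_mul]
  have h7 : y ^ 32 * 2 ^ 96 ≤ Real.exp y := by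
    refine le_trans ?_ h3
    rw [h5]
    exact mul_le_mul_of_nonneg_left h6 (by positivity)
  have h8 : Real.exp 2 ≤ 8 := by
    have h9 : Real.exp 2 = Real.exp 1 * Real.exp 1 := by
      rw [← Real.exp_add]
      norm_num
    have h10 := Real.exp_one_lt_d9
    have h11 := Real.exp_pos 1
    rw [h9]
    nlinarith
  rw [hx2]
  refine le_trans ?_ h7
  have h9 : 0 ≤ y ^ 32 := by positivity
  have h10 : 128 * Real.exp 2 ≤ (2 : ℝ) ^ 96 := by
    refine le_trans (mul_le_mul_of_nonneg_left h8 (by norm_num)) ?_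
    norm_num
  nlinarith

theorem num_sum (n dA : ℕ) (h : 2 ^ 240 ≤ Nd n dA) :
    ∑ d ∈ range (dA + 1), 128 * Real.exp 2 * Nd n d *
      Real.exp (-(Nd n d ^ (1 / 16 : ℝ))) ≤ 1 / 8 := by
  have h0 : (0 : ℝ) < Nd n dA := lt_of_lt_of_le (by positivity) h
  have hmono : ∀ d ≤ dA, Nd n dA ≤ Nd n d := by
    intro d hd
    unfold Nd
    exact div_le_div_of_nonneg_left (Nat.cast_nonneg n) (by positivity)
      (pow_le_pow_right₀ (by norm_num) hd)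
  have hterm : ∀ d ∈ range (dA + 1), 128 * Real.exp 2 * Nd n d *
      Real.exp (-(Nd n d ^ (1 / 16 : ℝ))) ≤ 1 / Nd n d := by
    intro d hd
    have hd' : d ≤ dA := Nat.lt_succ_iff.1 (mem_range.1 hd)
    have h1 := h.trans (hmono d hd')
    have h2 : (0 : ℝ) < Nd n d := h0.trans_le (hmono d hd')
    have h3 := exp_big (Nd n d) h1
    have h4 := Real.exp_pos (Nd n d ^ (1 / 16 : ℝ))
    rw [Real.exp_neg, le_div_iff₀ h2, ← div_eq_mul_inv, div_mul_eq_mul_div, div_le_iff₀ h4]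
    calc 128 * Real.exp 2 * Nd n d * Nd n d = 128 * Real.exp 2 * Nd n d ^ 2 := by ring
      _ ≤ _ := by
        rw [one_mul]
        exact h3
  refine (Finset.sum_le_sum hterm).trans ?_
  rw [Finset.sum_range_succ]
  have h1 : (1 : ℝ) ≤ Nd n dA := le_trans (one_le_pow₀ (by norm_num)) h
  have h2 := geo3 dA h1
  have h3 : 1 / Nd n dA ≤ 1 / 16 := by
    apply one_div_le_one_div_of_le (by norm_num)
    refine le_trans ?_ h
    norm_num
  linarith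

theorem num_delta (NA NS β : ℝ) (h0 : 0 ≤ β) (h1 : β ≤ 1 / 2 ^ 510) (hA : 2 ^ 240 ≤ NA)
    (hS : 2 ^ 14 ≤ NS) (hS' : NS ≤ 2 ^ 15) :
    Real.exp 4 * (2 * (22000 * β + 71000 * NA ^ (-(1 / 8) : ℝ) +
      36 * (1912 * β + 984 * NA ^ (-(1 / 8) : ℝ))) + 12 / NS +
      18 * (81 * β + 82 * NA ^ (-(15 / 16) : ℝ)) * NS) ≤ 1 / 4 := by
  have hNA0 : (0 : ℝ) < 2 ^ 240 := by positivity
  have e1 : NA ^ (-(1 / 8) : ℝ) ≤ 1 / 2 ^ 30 := by
    refine (Real.rpow_le_rpow_of_nonpos hNA0 hA (by norm_num)).trans (le_of_eq ?_)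
    have h5 : ((240 : ℕ) : ℝ) * (-(1 / 8)) = -((30 : ℕ) : ℝ) := by norm_num
    rw [← Real.rpow_natCast, ← Real.rpow_mul (by norm_num), h5, Real.rpow_neg (by norm_num),
      Real.rpow_natCast, one_div]
  have e2 : NA ^ (-(15 / 16) : ℝ) ≤ 1 / 2 ^ 225 := by
    refine (Real.rpow_le_rpow_of_nonpos hNA0 hA (by norm_num)).trans (le_of_eq ?_)
    have h5 : ((240 : ℕ) : ℝ) * (-(15 / 16)) = -((225 : ℕ) : ℝ) := by norm_num
    rw [← Real.rpow_natCast, ← Real.rpow_mul (by norm_num), h5, Real.rpow_neg (by norm_num),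
      Real.rpow_natCast, one_div]
  have hNS0 : (0 : ℝ) < NS := lt_of_lt_of_le (by norm_num) hS
  have e3 : 12 / NS ≤ 12 / 2 ^ 14 := div_le_div_of_nonneg_left (by norm_num) (by norm_num) hS
  have hβ : β ≤ 1 / 2 ^ 30 := h1.trans
    (one_div_le_one_div_of_le (by positivity) (pow_le_pow_right₀ (by norm_num) (by norm_num)))
  have hβ' : β ≤ 1 / 2 ^ 225 := h1.trans
    (one_div_le_one_div_of_le (by positivity) (pow_le_pow_right₀ (by norm_num) (by norm_num)))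
  have e4 : 22000 * β + 71000 * NA ^ (-(1 / 8) : ℝ) +
      36 * (1912 * β + 984 * NA ^ (-(1 / 8) : ℝ)) ≤ 197256 / 2 ^ 30 := by
    have h5 : (197256 : ℝ) / 2 ^ 30 = 22000 * (1 / 2 ^ 30) + 71000 * (1 / 2 ^ 30) +
      36 * (1912 * (1 / 2 ^ 30) + 984 * (1 / 2 ^ 30)) := by norm_num
    rw [h5]
    linarith
  have e5 : 81 * β + 82 * NA ^ (-(15 / 16) : ℝ) ≤ 163 / 2 ^ 225 := by
    have h5 : (163 : ℝ) / 2 ^ 225 = 81 * (1 / 2 ^ 225) + 82 * (1 / 2 ^ 225) := by norm_num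
    rw [h5]
    linarith
  have e6 : 18 * (81 * β + 82 * NA ^ (-(15 / 16) : ℝ)) * NS ≤ 18 * (163 / 2 ^ 225) * 2 ^ 15 := by
    have h5 : 0 ≤ 81 * β + 82 * NA ^ (-(15 / 16) : ℝ) := by
      have : 0 ≤ NA ^ (-(15 / 16) : ℝ) := Real.rpow_nonneg (hNA0.le.trans hA) _
      positivity
    exact mul_le_mul (by linarith) hS' hNS0.le (by positivity)
  have e7 : 2 * (22000 * β + 71000 * NA ^ (-(1 / 8) : ℝ) +
      36 * (1912 * β + 984 * NA ^ (-(1 / 8) : ℝ))) + 12 / NS +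
      18 * (81 * β + 82 * NA ^ (-(15 / 16) : ℝ)) * NS ≤ 1 / 256 := by
    have h5 : 2 * ((197256 : ℝ) / 2 ^ 30) + 12 / 2 ^ 14 + 18 * (163 / 2 ^ 225) * 2 ^ 15 ≤
        1 / 256 := by norm_num
    linarith
  have e8 : Real.exp 4 ≤ 64 := by
    have h9 : Real.exp 4 = (Real.exp 1 * Real.exp 1) * (Real.exp 1 * Real.exp 1) := by
      rw [← Real.exp_add, ← Real.exp_add]
      norm_num
    have h10 := Real.exp_one_lt_d9
    have h11 := Real.exp_pos 1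
    have h12 : Real.exp 1 * Real.exp 1 ≤ 8 := by nlinarith
    have h13 : 0 ≤ Real.exp 1 * Real.exp 1 := by positivity
    rw [h9]
    nlinarith
  calc _ ≤ Real.exp 4 * (1 / 256) := mul_le_mul_of_nonneg_left e7 (Real.exp_pos 4).le
    _ ≤ 64 * (1 / 256) := mul_le_mul_of_nonneg_right e8 (by norm_num)
    _ = 1 / 4 := by norm_num

theorem exists_dA (n : ℕ) (h : 2 ^ 240 ≤ n) :
    ∃ d : ℕ, 2 ^ 240 ≤ Nd n d ∧ Nd n d < 2 ^ 241 ∧ d + 226 ≤ n := by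
  set L := Nat.log 2 n with hL
  have hn0 : n ≠ 0 := by
    rintro rfl
    norm_num at h
  have h1 : 2 ^ L ≤ n := Nat.pow_log_le_self 2 hn0
  have h2 : n < 2 ^ (L + 1) := Nat.lt_pow_succ_log_self (by norm_num) n
  have h3 : 240 ≤ L := by
    have h4 : 2 ^ 240 < 2 ^ (L + 1) := h.trans_lt h2
    have := (Nat.pow_lt_pow_iff_right (by norm_num : 1 < 2)).1 h4
    omega
  have h4 : L ≤ n := Nat.log_le_self 2 n
  obtain ⟨d, hd⟩ : ∃ d, L = d + 240 := ⟨L - 240, by omega⟩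
  have h1' : (2 : ℝ) ^ L ≤ n := by exact_mod_cast h1
  have h2' : (n : ℝ) < 2 ^ (L + 1) := by exact_mod_cast h2
  refine ⟨d, ?_, ?_, by omega⟩
  · unfold Nd
    rw [le_div_iff₀ (by positivity), ← pow_add]
    rw [hd, add_comm] at h1'
    exact h1'
  · unfold Nd
    rw [div_lt_iff₀ (by positivity), ← pow_add]
    have h5 : L + 1 = 241 + d := by omega
    rw [h5] at h2'
    exact h2'

end Pool.Agent.helper7.LT
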