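import Pool.Agent.helper7.LT.Pt

/-!
# LT-SumF: the sum of the weights of the bad patterns through a slot

The bad patterns are `pt x d u t ∪ pt x' d' u' t` with `x ≠ x'` and equal colours of the edges `(x, u)`, `(x', u')`
(family `F2`), and `pt x d u t` where the edge `(x, u)` and the pair edge of `t` have the same colour (family `F1`); in
both cases with nonzero weights.

* `bad_fits`: the patterns `pt x d u t`, `pt x' d' u' t` have different indices (`pt_index`, `x ≠ x'`), so for `s` in the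
  union there is exactly one triple with the index `s.1` (`pt_mem`), and `rJ s.1 * (|Y| + 1 - 1) = 1` because
  `|Y| = |X| = |L| > 0` (`card_XY`).
* `slot_sum`: let `Q S` be `∃ s ∈ S, q s`.  For `S = pt x d u t ∪ pt x' d' u' t` with `x ≠ x'` (a disjoint union) `wx rJ S`
  is at most `exp 4 * wd n d x.1 u t * wd n d' x'.1 u' t` (`pt_prod`, `pt_card`), and `Q S` implies `Q (pt x d u t)` or
  `Q (pt x' d' u' t)`; since the family is symmetric, every `S ∈ F2` with `Q S` can be written with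
  `Q (pt x d u t)`.  So the sum over `F2` is at most the sum over all `(x, d, u, t, x', d', u')` with
  `Q (pt x d u t)`, `x ≠ x'`, equal colours (nonzero weights), of `exp 4 * wd n d x.1 u t * wd n d' x'.1 u' t`
  (`Finset.sum_le_sum_of_subset_of_nonneg`, sum over an image: `Finset.sum_image_le_of_nonneg` or a
  `biUnion` / surjection argument).  For `F1`: `wx ≤ exp 2 * wd ≤ exp 4 * wd`.  Together this is
  `exp 4 * ∑ wd n d x.1 u t * YY c x u t` (sum over `d'` gives `wg`; the term of the pair edge is the last summand of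
  `YY`).
-/

set_option autoImplicit false

open Finset
open scoped Classical

namespace Pool.Agent.helper7.LT

variable {n : ℕ} {C : Type}

/-- two edges of the same colour in the same tree -/
noncomputable def F2 (c : P n → P n → C) :
    Finset (Finset ((P n × Fin n × Bool) × Fin n × Option (Fin n))) :=
  univ.filter fun S => ∃ (x x' : P n) (d d' : Fin n) (u u' t : Fin n), x ≠ x' ∧
    c x (par x u) = c x' (par x' u') ∧ wd n d x.1 u t ≠ 0 ∧ wd n d' x'.1 u' t ≠ 0 ∧
    S = pt x d u t ∪ pt x' d' u' t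

/-- an edge with the colour of the pair edge of its tree -/
noncomputable def F1 (c : P n → P n → C) :
    Finset (Finset ((P n × Fin n × Bool) × Fin n × Option (Fin n))) :=
  univ.filter fun S => ∃ (x : P n) (d : Fin n) (u t : Fin n),
    c (t, false) (t, true) = c x (par x u) ∧ wd n d x.1 u t ≠ 0 ∧ S = pt x d u t

/-- one slot: the fitting condition for a set whose triples with the index `s.1` are the one of a pattern -/
private theorem sumF_fit {x : P n} {d u t : Fin n} (h : wd n d x.1 u t ≠ 0)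
    {S : Finset ((P n × Fin n × Bool) × Fin n × Option (Fin n))}
    {s : (P n × Fin n × Bool) × Fin n × Option (Fin n)} (hs : s ∈ pt x d u t)
    (hS : S.filter (fun s' => s'.1 = s.1) = (pt x d u t).filter fun s' => s'.1 = s.1) :
    s.2.1 ∈ XJ s.1 ∧ s.2.2 ∈ YJ s.1 ∧
      1 ≤ rJ s.1 * (((YJ s.1).card : ℝ) + 1 - ((S.filter fun s' => s'.1 = s.1).card : ℝ)) := by
  obtain ⟨h1, h2, h3, h4⟩ := pt_mem h s hs
  refine ⟨h1, h2, ?_⟩
  obtain ⟨e1, e2⟩ := pt_index s hs
  rw [hS, h4, ← card_XY]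
  have hx : (XJ s.1) = Lf n d x.1 := by
    unfold XJ
    rw [e1, e2]
  have hr : rJ s.1 = 1 / ((Lf n d x.1).card : ℝ) := by
    unfold rJ
    rw [e1, e2]
  rw [hx, hr]
  have h3' : (0 : ℝ) < ((Lf n d x.1).card : ℝ) := by exact_mod_cast h3
  have : 1 / ((Lf n d x.1).card : ℝ) * (((Lf n d x.1).card : ℝ) + 1 - ((1 : ℕ) : ℝ)) = 1 := by
    push_cast
    field_simp
    ring
  rw [this]

private theorem sumF_filter {x x' : P n} {d d' u u' t : Fin n} (hne : x ≠ x')
    {s : (P n × Fin n × Bool) × Fin n × Option (Fin n)} (hs : s ∈ pt x d u t) :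
    (pt x d u t ∪ pt x' d' u' t).filter (fun s' => s'.1 = s.1) =
      (pt x d u t).filter fun s' => s'.1 = s.1 := by
  rw [filter_union]
  have : (pt x' d' u' t).filter (fun s' => s'.1 = s.1) = ∅ := by
    apply filter_eq_empty_iff.mpr
    intro s' hs' he
    have e1 := (pt_index s hs).1
    have e2 := (pt_index s' hs').1
    apply hne
    rw [← e1, ← e2, he]
  rw [this, union_empty]

theorem bad_fits (c : P n → P n → C) : ∀ S ∈ F2 c ∪ F1 c, Fits XJ YJ rJ S := by
  intro S hS
  rw [mem_union] at hS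
  rcases hS with hS | hS
  · unfold F2 at hS
    rw [mem_filter] at hS
    obtain ⟨-, x, x', d, d', u, u', t, hne, -, hw, hw', rfl⟩ := hS
    refine ⟨(pt_card x d u t).1.mono subset_union_left, ?_⟩
    intro s hs
    rw [mem_union] at hs
    rcases hs with hs | hs
    · have h6 := sumF_fit hw hs (sumF_filter (d' := d') (u' := u') hne hs)
      refine ⟨h6.1, h6.2.1, ?_⟩
      convert h6.2.2
    · have h5 := sumF_filter (d' := d) (u' := u) (Ne.symm hne) hs
      rw [union_comm (pt x' d' u' t) (pt x d u t)] at h5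
      have h6 := sumF_fit hw' hs h5
      refine ⟨h6.1, h6.2.1, ?_⟩
      convert h6.2.2
  · unfold F1 at hS
    rw [mem_filter] at hS
    obtain ⟨-, x, d, u, t, -, hw, rfl⟩ := hS
    refine ⟨(pt_card x d u t).1, ?_⟩
    intro s hs
    have h6 := sumF_fit hw hs rfl
    refine ⟨h6.1, h6.2.1, ?_⟩
    convert h6.2.2

private theorem sumF_choose {ι κ : Type} (K : Finset κ) (T : Finset ι)
    (f : κ → ℝ) (g : ι → ℝ) (π : ι → κ) (hg : ∀ i ∈ T, 0 ≤ g i)
    (h : ∀ S ∈ K, ∃ i ∈ T, π i = S ∧ f S ≤ g i) : ∑ S ∈ K, f S ≤ ∑ i ∈ T, g i := by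
  have h' : ∀ S : K, ∃ i ∈ T, π i = S.1 ∧ f S.1 ≤ g i := fun S => h S.1 S.2
  choose F hF1 hF2 hF3 using h'
  calc ∑ S ∈ K, f S = ∑ S : K, f S.1 := (Finset.sum_coe_sort K f).symm
    _ ≤ ∑ S : K, g (F S) := Finset.sum_le_sum fun S _ => hF3 S
    _ = ∑ i ∈ (univ : Finset K).image F, g i := by
        rw [Finset.sum_image]
        intro S _ S' _ hSS
        apply Subtype.ext
        rw [← hF2 S, ← hF2 S', hSS]
    _ ≤ ∑ i ∈ T, g i := by
        apply Finset.sum_le_sum_of_subset_of_nonneg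
        · intro i hi
          rw [mem_image] at hi
          obtain ⟨S, -, rfl⟩ := hi
          exact hF1 S
        · intro i hi _
          exact hg i hi

private theorem sumF_wx_nonneg (S : Finset ((P n × Fin n × Bool) × Fin n × Option (Fin n))) :
    0 ≤ wx rJ S := by
  unfold wx
  exact mul_nonneg (Finset.prod_nonneg fun s _ => rJ_nonneg s.1) (Real.exp_pos _).le

private theorem sumF_wx1 {x : P n} {d u t : Fin n} (h : wd n d x.1 u t ≠ 0) :
    wx rJ (pt x d u t) ≤ Real.exp 4 * wd n d x.1 u t := by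
  unfold wx
  rw [pt_prod h, mul_comm]
  apply mul_le_mul_of_nonneg_right _ (wd_nonneg _ _ _ _)
  apply Real.exp_le_exp.mpr
  have := (pt_card x d u t).2
  have h2 : (((pt x d u t).card : ℕ) : ℝ) ≤ 2 := by exact_mod_cast this
  linarith

private theorem sumF_disj {x x' : P n} {d d' u u' t : Fin n} (hne : x ≠ x') :
    Disjoint (pt x d u t) (pt x' d' u' t) := by
  rw [Finset.disjoint_left]
  intro s hs hs'
  apply hne
  rw [← (pt_index s hs).1, ← (pt_index s hs').1]

private theorem sumF_wx2 {x x' : P n} {d d' u u' t : Fin n} (hne : x ≠ x')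
    (h : wd n d x.1 u t ≠ 0) (h' : wd n d' x'.1 u' t ≠ 0) :
    wx rJ (pt x d u t ∪ pt x' d' u' t) ≤
      Real.exp 4 * (wd n d x.1 u t * wd n d' x'.1 u' t) := by
  unfold wx
  rw [prod_union (sumF_disj hne), pt_prod h, pt_prod h', mul_comm]
  apply mul_le_mul_of_nonneg_right _ (mul_nonneg (wd_nonneg _ _ _ _) (wd_nonneg _ _ _ _))
  apply Real.exp_le_exp.mpr
  have h1 := (pt_card x d u t).2
  have h2 := (pt_card x' d' u' t).2
  have h3 := card_union_le (pt x d u t) (pt x' d' u' t)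
  have h4 : (pt x d u t ∪ pt x' d' u' t).card ≤ 4 := by omega
  exact_mod_cast h4

theorem slot_sum (c : P n → P n → C)
    (q : (P n × Fin n × Bool) × Fin n × Option (Fin n) → Prop) :
    ∑ S ∈ (F2 c ∪ F1 c).filter (fun S => ∃ s ∈ S, q s), wx rJ S ≤
      Real.exp 4 * ∑ x : P n, ∑ d : Fin n, ∑ u : Fin n, ∑ t : Fin n,
        if wd n d x.1 u t ≠ 0 ∧ ∃ s ∈ pt x d u t, q s then wd n d x.1 u t * YY c x u t else 0 := by
  have hA : ∑ S ∈ (F2 c).filter (fun S => ∃ s ∈ S, q s), wx rJ S ≤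
      ∑ i : (P n × Fin n × Fin n × Fin n) × P n × Fin n × Fin n,
        if (wd n i.1.2.1 i.1.1.1 i.1.2.2.1 i.1.2.2.2 ≠ 0 ∧
          ∃ s ∈ pt i.1.1 i.1.2.1 i.1.2.2.1 i.1.2.2.2, q s) ∧ i.2.1 ≠ i.1.1 ∧
            c i.2.1 (par i.2.1 i.2.2.1) = c i.1.1 (par i.1.1 i.1.2.2.1) then
          Real.exp 4 * (wd n i.1.2.1 i.1.1.1 i.1.2.2.1 i.1.2.2.2 *
            wd n i.2.2.2 i.2.1.1 i.2.2.1 i.1.2.2.2) else 0 := by
    apply sumF_choose _ _ _ _ (fun i : (P n × Fin n × Fin n × Fin n) × P n × Fin n × Fin n =>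
      pt i.1.1 i.1.2.1 i.1.2.2.1 i.1.2.2.2 ∪ pt i.2.1 i.2.2.2 i.2.2.1 i.1.2.2.2)
    · intro i _
      split_ifs
      · exact mul_nonneg (Real.exp_pos _).le
          (mul_nonneg (wd_nonneg _ _ _ _) (wd_nonneg _ _ _ _))
      · exact le_rfl
    · intro S hS
      rw [mem_filter] at hS
      obtain ⟨hS, s, hs, hq⟩ := hS
      unfold F2 at hS
      rw [mem_filter] at hS
      obtain ⟨-, x, x', d, d', u, u', t, hne, hcc, hw, hw', rfl⟩ := hS
      rw [mem_union] at hs
      rcases hs with hs | hs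
      · refine ⟨((x, d, u, t), x', u', d'), mem_univ _, rfl, ?_⟩
        rw [if_pos ⟨⟨hw, s, hs, hq⟩, hne.symm, hcc.symm⟩]
        exact sumF_wx2 hne hw hw'
      · refine ⟨((x', d', u', t), x, u, d), mem_univ _, ?_, ?_⟩
        · exact union_comm _ _
        · rw [if_pos ⟨⟨hw', s, hs, hq⟩, hne, hcc⟩]
          rw [union_comm (pt x d u t) (pt x' d' u' t)]
          exact sumF_wx2 hne.symm hw' hw
  have hB : ∑ S ∈ (F1 c).filter (fun S => ∃ s ∈ S, q s), wx rJ S ≤
      ∑ i : P n × Fin n × Fin n × Fin n,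
        if (wd n i.2.1 i.1.1 i.2.2.1 i.2.2.2 ≠ 0 ∧
          ∃ s ∈ pt i.1 i.2.1 i.2.2.1 i.2.2.2, q s) ∧
            c (i.2.2.2, false) (i.2.2.2, true) = c i.1 (par i.1 i.2.2.1) then
          Real.exp 4 * wd n i.2.1 i.1.1 i.2.2.1 i.2.2.2 else 0 := by
    apply sumF_choose _ _ _ _ (fun i : P n × Fin n × Fin n × Fin n =>
      pt i.1 i.2.1 i.2.2.1 i.2.2.2)
    · intro i _
      split_ifs
      · exact mul_nonneg (Real.exp_pos _).le (wd_nonneg _ _ _ _)
      · exact le_rfl
    · intro S hS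
      rw [mem_filter] at hS
      obtain ⟨hS, s, hs, hq⟩ := hS
      unfold F1 at hS
      rw [mem_filter] at hS
      obtain ⟨-, x, d, u, t, hcc, hw, rfl⟩ := hS
      refine ⟨(x, d, u, t), mem_univ _, rfl, ?_⟩
      rw [if_pos ⟨⟨hw, s, hs, hq⟩, hcc⟩]
      exact sumF_wx1 hw
  have hC : ∑ S ∈ (F2 c ∪ F1 c).filter (fun S => ∃ s ∈ S, q s), wx rJ S ≤
      ∑ S ∈ (F2 c).filter (fun S => ∃ s ∈ S, q s), wx rJ S +
      ∑ S ∈ (F1 c).filter (fun S => ∃ s ∈ S, q s), wx rJ S := by
    rw [filter_union, ← sum_union_inter]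
    have : 0 ≤ ∑ S ∈ (F2 c).filter (fun S => ∃ s ∈ S, q s) ∩
        (F1 c).filter (fun S => ∃ s ∈ S, q s), wx rJ S :=
      sum_nonneg fun S _ => sumF_wx_nonneg S
    linarith
  refine hC.trans ((add_le_add hA hB).trans (le_of_eq ?_))
  rw [Fintype.sum_prod_type, ← sum_add_distrib, Fintype.sum_prod_type, mul_sum]
  apply sum_congr rfl
  intro x _
  rw [Fintype.sum_prod_type, mul_sum]
  apply sum_congr rfl
  intro d _
  rw [Fintype.sum_prod_type, mul_sum]
  apply sum_congr rfl
  intro u _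
  rw [mul_sum]
  apply sum_congr rfl
  intro t _
  dsimp only
  by_cases h : wd n d x.1 u t ≠ 0 ∧ ∃ s ∈ pt x d u t, q s
  · have e1 : ∀ R : Prop, ((wd n d x.1 u t ≠ 0 ∧ ∃ s ∈ pt x d u t, q s) ∧ R) ↔ R :=
      fun R => and_iff_right h
    simp only [e1]
    rw [if_pos h]
    unfold YY
    rw [mul_add, mul_add]
    congr 1
    · rw [Fintype.sum_prod_type, mul_sum, mul_sum]
      apply sum_congr rfl
      intro x' _
      rw [Fintype.sum_prod_type, mul_sum, mul_sum]
      apply sum_congr rfl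
      intro u' _
      by_cases h2 : x' ≠ x ∧ c x' (par x' u') = c x (par x u)
      · simp only [h2, if_true, ne_eq, not_false_iff, and_true]
        unfold wg
        rw [Finset.sum_range, mul_sum, mul_sum]
      · simp only [h2, if_false, mul_zero, sum_const_zero]
    · split_ifs <;> simp
  · have e1 : ∀ R : Prop, ((wd n d x.1 u t ≠ 0 ∧ ∃ s ∈ pt x d u t, q s) ∧ R) ↔ False :=
      fun R => ⟨fun hR => h hR.1, fun hR => hR.elim⟩
    simp only [e1]
    rw [if_neg h]
    simp only [if_false, mul_zero, sum_const_zero, add_zero]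

end Pool.Agent.helper7.LT
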