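import Pool.Agent.helper7.LT.Pt

/-!
# LT-TreeF: the tree of an edge

PROOF.  For `x : P n` and `u ≠ x.1` let `d` be the depth with `Sep d x.1 u` (`sep_exists`, `d < n`), `L = Lf n d x.1`,
`R = Rf n d x.1`, `α = ω (x, d, true)`, `β = ω (x, d, false)`.  `tr x u` is
* the `t ∈ R` with `α u = some t`, if `u ∈ L` and `α u ≠ none` (`α u ∈ R⁺`);
* the `t ∈ L` with `β t = none`, if `u ∈ L` and `α u = none` (then `none ∈ R⁺`, i.e. `|R| < |L|`, so such a `t` exists);
* the `t ∈ L` with `β t = some u`, if `u ∈ R`.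
(First prove for every `x`, `d`, `u` with `Sep d x.1 u`: there is a unique `t` with `wd n d x.1 u t ≠ 0` and
`Realises ω (pt x d u t)`; then choose.)
Second claim: injectivity.  If `tr x u = tr x u' = t` then `Sep d x.1 t` and `Sep d' x.1 t` for the two depths, so `d = d'`
(`sep_unique`); if `t ∈ R` then `α u = some t = α u'` and `u = u'`; if `t ∈ L` then `β t` is `some u` or `none`: in the first
case `u = u'`; in the second `α u = none = α u'`.
First claim (surjectivity): for `t ∈ R` take `u = α⁻¹ (some t)`; for `t ∈ L`: if `β t = some u` take `u`; if `β t = none`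
take `u = α⁻¹ none`.
-/

set_option autoImplicit false

open Finset
open scoped Classical

namespace Pool.Agent.helper7.LT

variable {n : ℕ}

private theorem TreeF_pos {A : Type} {L : Finset A} {u : A} (h : u ∈ L) : (L.card : ℝ) ≠ 0 := by
  have : 0 < L.card := card_pos.2 ⟨u, h⟩
  positivity

/-- the three cases -/
private theorem TreeF_iff (ω : P n × Fin n × Bool → Fin n → Option (Fin n)) (x : P n) (d : Fin n)
    (u t : Fin n) : (wd n d x.1 u t ≠ 0 ∧ Realises ω (pt x d u t)) ↔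
    (u ∈ Lf n d x.1 ∧ t ∈ Rf n d x.1 ∧ ω (x, d, true) u = some t) ∨
    (u ∈ Rf n d x.1 ∧ t ∈ Lf n d x.1 ∧ ω (x, d, false) t = some u) ∨
    (u ∈ Lf n d x.1 ∧ t ∈ Lf n d x.1 ∧ (Rf n d x.1).card < (Lf n d x.1).card ∧
      ω (x, d, true) u = none ∧ ω (x, d, false) t = none) := by
  have hdis := LR_disj (n := n) (d : ℕ) x.1
  by_cases hA : u ∈ Lf n d x.1 ∧ t ∈ Rf n d x.1
  · have hp : pt x d u t = {((x, d, true), u, some t)} := by
      unfold pt
      rw [if_pos hA]
    have hw : wd n d x.1 u t ≠ 0 := by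
      unfold wd w2
      rw [if_pos (Or.inl hA)]
      exact one_div_ne_zero (TreeF_pos hA.1)
    rw [hp]
    constructor
    · rintro ⟨-, h⟩
      exact Or.inl ⟨hA.1, hA.2, h _ (mem_singleton_self _)⟩
    · rintro (⟨-, -, h⟩ | ⟨h, -, -⟩ | ⟨-, h, -⟩)
      · refine ⟨hw, fun s hs => ?_⟩
        rw [mem_singleton] at hs
        subst hs
        exact h
      · exact absurd h (disjoint_left.1 hdis hA.1)
      · exact absurd hA.2 (disjoint_left.1 hdis h)
  · by_cases hB : u ∈ Rf n d x.1 ∧ t ∈ Lf n d x.1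
    · have hp : pt x d u t = {((x, d, false), t, some u)} := by
        unfold pt
        rw [if_neg hA, if_pos hB]
      have hw : wd n d x.1 u t ≠ 0 := by
        unfold wd w2
        rw [if_pos (Or.inr hB)]
        exact one_div_ne_zero (TreeF_pos hB.2)
      rw [hp]
      constructor
      · rintro ⟨-, h⟩
        exact Or.inr (Or.inl ⟨hB.1, hB.2, h _ (mem_singleton_self _)⟩)
      · rintro (⟨h, h', -⟩ | ⟨-, -, h⟩ | ⟨h, -, -⟩)
        · exact absurd ⟨h, h'⟩ hA
        · refine ⟨hw, fun s hs => ?_⟩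
          rw [mem_singleton] at hs
          subst hs
          exact h
        · exact absurd hB.1 (disjoint_left.1 hdis h)
    · have hn : ¬ ((u ∈ Lf n d x.1 ∧ t ∈ Rf n d x.1) ∨ (u ∈ Rf n d x.1 ∧ t ∈ Lf n d x.1)) := by
        rintro (h1 | h1)
        · exact hA h1
        · exact hB h1
      have hp : pt x d u t = {((x, d, true), u, none), ((x, d, false), t, none)} := by
        unfold pt
        rw [if_neg hA, if_neg hB]
      rw [hp]
      constructor
      · rintro ⟨hw, h⟩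
        have hC : u ∈ Lf n d x.1 ∧ t ∈ Lf n d x.1 ∧ (Rf n d x.1).card < (Lf n d x.1).card := by
          by_contra hC
          apply hw
          unfold wd w2
          rw [if_neg hn, if_neg hC]
        exact Or.inr (Or.inr ⟨hC.1, hC.2.1, hC.2.2, h _ (mem_insert_self _ _),
          h _ (mem_insert_of_mem (mem_singleton_self _))⟩)
      · rintro (⟨h, h', -⟩ | ⟨h, h', -⟩ | ⟨h1, h2, h3, h4, h5⟩)
        · exact absurd ⟨h, h'⟩ hA
        · exact absurd ⟨h, h'⟩ hB
        · refine ⟨?_, fun s hs => ?_⟩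
          · unfold wd w2
            rw [if_neg hn, if_pos ⟨h1, h2, h3⟩]
            exact one_div_ne_zero (pow_ne_zero _ (TreeF_pos h1))
          · rw [mem_insert, mem_singleton] at hs
            rcases hs with hs | hs
            · subst hs
              exact h4
            · subst hs
              exact h5

private theorem TreeF_YJ {j : P n × Fin n × Bool} {o : Option (Fin n)} (h : o ∈ YJ j) :
    (∃ t ∈ Rf n j.2.1 j.1.1, o = some t) ∨
      (o = none ∧ (Rf n j.2.1 j.1.1).card < (Lf n j.2.1 j.1.1).card) := by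
  unfold YJ at h
  rw [mem_union, mem_image] at h
  rcases h with ⟨t, ht, h⟩ | h
  · exact Or.inl ⟨t, ht, h.symm⟩
  · right
    split_ifs at h with h1
    · exact ⟨mem_singleton.1 h, h1⟩
    · simp at h

private theorem TreeF_some {j : P n × Fin n × Bool} {t : Fin n} (h : t ∈ Rf n j.2.1 j.1.1) :
    some t ∈ YJ j := mem_union_left _ (mem_image_of_mem _ h)

private theorem TreeF_none {j : P n × Fin n × Bool}
    (h : (Rf n j.2.1 j.1.1).card < (Lf n j.2.1 j.1.1).card) : (none : Option (Fin n)) ∈ YJ j := by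
  unfold YJ
  apply mem_union_right
  rw [if_pos h]
  exact mem_singleton_self _

/-- existence of the tree -/
private theorem TreeF_A {ω : P n × Fin n × Bool → Fin n → Option (Fin n)} (hω : IsBij XJ YJ ω)
    {x : P n} {d : Fin n} {u : Fin n} (h : Sep (d : ℕ) x.1 u) :
    ∃ t, wd n d x.1 u t ≠ 0 ∧ Realises ω (pt x d u t) := by
  rcases (mem_LR (d : ℕ) x.1 u).1 h with hu | hu
  · have h1 : ω (x, d, true) u ∈ YJ (x, d, true) := (hω (x, d, true)).mapsTo hu
    rcases TreeF_YJ h1 with ⟨t, ht, h2⟩ | ⟨h2, h3⟩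
    · exact ⟨t, (TreeF_iff ω x d u t).2 (Or.inl ⟨hu, ht, h2⟩)⟩
    · obtain ⟨t, ht, h4⟩ := (hω (x, d, false)).surjOn (TreeF_none (j := (x, d, false)) h3)
      exact ⟨t, (TreeF_iff ω x d u t).2 (Or.inr (Or.inr ⟨hu, ht, h3, h2, h4⟩))⟩
  · obtain ⟨t, ht, h4⟩ := (hω (x, d, false)).surjOn (TreeF_some (j := (x, d, false)) hu)
    exact ⟨t, (TreeF_iff ω x d u t).2 (Or.inr (Or.inl ⟨hu, ht, h4⟩))⟩

/-- existence of the edge -/
private theorem TreeF_B {ω : P n × Fin n × Bool → Fin n → Option (Fin n)} (hω : IsBij XJ YJ ω)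
    {x : P n} {d : Fin n} {t : Fin n} (h : Sep (d : ℕ) x.1 t) :
    ∃ u, wd n d x.1 u t ≠ 0 ∧ Realises ω (pt x d u t) := by
  rcases (mem_LR (d : ℕ) x.1 t).1 h with ht | ht
  · have h1 : ω (x, d, false) t ∈ YJ (x, d, false) := (hω (x, d, false)).mapsTo ht
    rcases TreeF_YJ h1 with ⟨u, hu, h2⟩ | ⟨h2, h3⟩
    · exact ⟨u, (TreeF_iff ω x d u t).2 (Or.inr (Or.inl ⟨hu, ht, h2⟩))⟩
    · obtain ⟨u, hu, h4⟩ := (hω (x, d, true)).surjOn (TreeF_none (j := (x, d, true)) h3)
      exact ⟨u, (TreeF_iff ω x d u t).2 (Or.inr (Or.inr ⟨hu, ht, h3, h4, h2⟩))⟩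
  · obtain ⟨u, hu, h4⟩ := (hω (x, d, true)).surjOn (TreeF_some (j := (x, d, true)) ht)
    exact ⟨u, (TreeF_iff ω x d u t).2 (Or.inl ⟨hu, ht, h4⟩)⟩

/-- uniqueness of the tree -/
private theorem TreeF_C {ω : P n × Fin n × Bool → Fin n → Option (Fin n)} (hω : IsBij XJ YJ ω)
    {x : P n} {d : Fin n} {u t t' : Fin n}
    (h : wd n d x.1 u t ≠ 0 ∧ Realises ω (pt x d u t))
    (h' : wd n d x.1 u t' ≠ 0 ∧ Realises ω (pt x d u t')) : t = t' := by
  rw [TreeF_iff] at h h'
  have hdis := LR_disj (n := n) (d : ℕ) x.1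
  rcases h with ⟨h1, h2, h3⟩ | ⟨h1, h2, h3⟩ | ⟨h1, h2, h3, h4, h5⟩ <;>
    rcases h' with ⟨k1, k2, k3⟩ | ⟨k1, k2, k3⟩ | ⟨k1, k2, k3, k4, k5⟩
  · rw [h3] at k3
    exact Option.some_injective _ k3
  · exact absurd k1 (disjoint_left.1 hdis h1)
  · rw [h3] at k4
    exact absurd k4 (by simp)
  · exact absurd h1 (disjoint_left.1 hdis k1)
  · exact (hω (x, d, false)).injOn h2 k2 (h3.trans k3.symm)
  · exact absurd h1 (disjoint_left.1 hdis k1)
  · rw [h4] at k3
    exact absurd k3 (by simp)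
  · exact absurd k1 (disjoint_left.1 hdis h1)
  · exact (hω (x, d, false)).injOn h2 k2 (h5.trans k5.symm)

/-- uniqueness of the edge -/
private theorem TreeF_D {ω : P n × Fin n × Bool → Fin n → Option (Fin n)} (hω : IsBij XJ YJ ω)
    {x : P n} {d : Fin n} {u u' t : Fin n}
    (h : wd n d x.1 u t ≠ 0 ∧ Realises ω (pt x d u t))
    (h' : wd n d x.1 u' t ≠ 0 ∧ Realises ω (pt x d u' t)) : u = u' := by
  rw [TreeF_iff] at h h'
  have hdis := LR_disj (n := n) (d : ℕ) x.1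
  rcases h with ⟨h1, h2, h3⟩ | ⟨h1, h2, h3⟩ | ⟨h1, h2, h3, h4, h5⟩ <;>
    rcases h' with ⟨k1, k2, k3⟩ | ⟨k1, k2, k3⟩ | ⟨k1, k2, k3, k4, k5⟩
  · exact (hω (x, d, true)).injOn h1 k1 (h3.trans k3.symm)
  · exact absurd h2 (disjoint_left.1 hdis k2)
  · exact absurd h2 (disjoint_left.1 hdis k2)
  · exact absurd k2 (disjoint_left.1 hdis h2)
  · rw [h3] at k3
    exact Option.some_injective _ k3
  · rw [h3] at k5
    exact absurd k5 (by simp)
  · exact absurd k2 (disjoint_left.1 hdis h2)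
  · rw [h5] at k3
    exact absurd k3 (by simp)
  · exact (hω (x, d, true)).injOn h1 k1 (h4.trans k4.symm)

theorem tree_of (ω : P n × Fin n × Bool → Fin n → Option (Fin n)) (hω : IsBij XJ YJ ω) :
    ∃ tr : P n → Fin n → Fin n,
      (∀ x d t, Sep d x.1 t → ∃ u, Sep d x.1 u ∧ tr x u = t) ∧
      (∀ x u u', u ≠ x.1 → u' ≠ x.1 → tr x u = tr x u' → u = u') ∧
      ∀ (x : P n) (d : Fin n) (u : Fin n), Sep (d : ℕ) x.1 u →
        wd n d x.1 u (tr x u) ≠ 0 ∧ Realises ω (pt x d u (tr x u)) := by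
  have hex : ∀ (x : P n) (u : Fin n), ∃ t : Fin n, ∀ d : Fin n, Sep (d : ℕ) x.1 u →
      wd n d x.1 u t ≠ 0 ∧ Realises ω (pt x d u t) := by
    intro x u
    by_cases h : ∃ d : Fin n, Sep (d : ℕ) x.1 u
    · obtain ⟨d, hd⟩ := h
      obtain ⟨t, ht⟩ := TreeF_A hω hd
      refine ⟨t, fun d' hd' => ?_⟩
      have h1 : d = d' := Fin.ext (sep_unique hd hd')
      rw [← h1]
      exact ht
    · exact ⟨u, fun d hd => absurd ⟨d, hd⟩ h⟩
  choose tr htr using hex
  refine ⟨tr, fun x d t hd => ?_, fun x u u' hu hu' he => ?_, fun x d u hd => htr x u d hd⟩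
  · have hdn := sep_lt hd
    obtain ⟨u, hu⟩ := TreeF_B hω (d := ⟨d, hdn⟩) hd
    have h1 : Sep d x.1 u := (wd_ne hu.1).1
    exact ⟨u, h1, TreeF_C hω (htr x u ⟨d, hdn⟩ h1) hu⟩
  · obtain ⟨d, hdn, hd⟩ := sep_exists hu.symm
    obtain ⟨d', hdn', hd'⟩ := sep_exists hu'.symm
    have h1 := htr x u ⟨d, hdn⟩ hd
    have h2 := htr x u' ⟨d', hdn'⟩ hd'
    rw [← he] at h2
    have h3 : d = d' := sep_unique (wd_ne h1.1).2 (wd_ne h2.1).2
    subst h3
    exact TreeF_D hω h1 h2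

end Pool.Agent.helper7.LT
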