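import Pool.Agent.helper7.LT.Loc
import Pool.Agent.helper7.LT.SumF
import Pool.Agent.helper7.LT.TreeF

/-!
# LT-S2Main: the distribution of the edges to the trees

PROOF.  `local_lemma` with `X = XJ`, `Y = YJ`, `r = rJ`, `F = F2 c ∪ F1 c` (`card_XY`, `rJ_nonneg`, `bad_fits`).
Slot sums by `slot_sum`; only the `(u, t)` for one fixed `(x, d)` contribute (`pt_left_true`, ...), and by the
hypotheses the sums are at most `exp 4 * δ ≤ 1 / 4` (`YY ≥ 0`, so one may enlarge the sums):
left slot `a` of `(x, d, true)`: only `u = a`: `h1`; left slot `a` of `(x, d, false)`: only `t = a`: `h2`;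
right slot `some a` of `(x, d, true)`: only `t = a`: `h2`; right slot `some a` of `(x, d, false)`: only `u = a`: `h1`;
right slot `none`: only `u, t ∈ L`: `h3`.
`tree_of` for the `ω` of the local lemma gives `tr`.  Second conclusion: let `(x, u) ≠ (x', u')` have the same colour and
`tr x u = tr x' u' = t`.  If `x = x'` then `u = u'` by injectivity, a contradiction.  If `x ≠ x'` take the depths `d`, `d'`
(`sep_exists`); `ω` realises `pt x d u t` and `pt x' d' u' t`, hence their union, which is in `F2 c`: a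
contradiction.  Third conclusion: `F1 c`.
-/

set_option autoImplicit false

open Finset
open scoped Classical

namespace Pool.Agent.helper7.LT

variable {n : ℕ} {C : Type}

private theorem S2Main_collapse (f : P n → Fin n → Fin n → Fin n → ℝ)
    (hf : ∀ x d u t, 0 ≤ f x d u t) (Pr : P n → Fin n → Fin n → Fin n → Prop)
    [∀ x d u t, Decidable (Pr x d u t)] (x' : P n) (d' : Fin n) (R : Fin n → Fin n → Prop)
    (h : ∀ x d u t, Pr x d u t → x = x' ∧ d = d' ∧ R u t) :
    ∑ x, ∑ d, ∑ u, ∑ t, (if Pr x d u t then f x d u t else 0) ≤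
      ∑ u, ∑ t, if R u t then f x' d' u t else 0 := by
  have h1 : ∑ x, ∑ d, ∑ u, ∑ t, (if Pr x d u t then f x d u t else 0) =
      ∑ u, ∑ t, (if Pr x' d' u t then f x' d' u t else 0) := by
    rw [sum_eq_single x', sum_eq_single d']
    · intro d _ hd
      refine sum_eq_zero fun u _ => sum_eq_zero fun t _ => ?_
      rw [if_neg]
      intro hp
      exact hd (h _ _ _ _ hp).2.1
    · intro hd
      exact absurd (mem_univ _) hd
    · intro x _ hx
      refine sum_eq_zero fun d _ => sum_eq_zero fun u _ => sum_eq_zero fun t _ => ?_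
      rw [if_neg]
      intro hp
      exact hx (h _ _ _ _ hp).1
    · intro hd
      exact absurd (mem_univ _) hd
  rw [h1]
  refine sum_le_sum fun u _ => sum_le_sum fun t _ => ?_
  by_cases hp : Pr x' d' u t
  · rw [if_pos hp, if_pos (h _ _ _ _ hp).2.2]
  · rw [if_neg hp]
    split_ifs
    · exact hf _ _ _ _
    · exact le_rfl

private theorem S2Main_YY_nonneg (c : P n → P n → C) (x : P n) (u t : Fin n) :
    0 ≤ YY c x u t := by
  unfold YY
  refine add_nonneg (sum_nonneg fun x' _ => sum_nonneg fun u' _ => ?_) ?_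
  · split_ifs
    · exact wg_nonneg _ _ _
    · exact le_rfl
  · split_ifs
    · exact zero_le_one
    · exact le_rfl

private theorem S2Main_slot (c : P n → P n → C) (δ : ℝ) (hδ : Real.exp 4 * δ ≤ 1 / 4)
    (q : (P n × Fin n × Bool) × Fin n × Option (Fin n) → Prop) (x' : P n) (d' : Fin n)
    (R : Fin n → Fin n → Prop)
    (h : ∀ (x : P n) (d u t : Fin n), wd n d x.1 u t ≠ 0 → (∃ s ∈ pt x d u t, q s) →
      x = x' ∧ d = d' ∧ R u t)
    (hs : ∑ u, ∑ t, (if R u t then wd n d' x'.1 u t * YY c x' u t else 0) ≤ δ) :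
    ∑ S ∈ (F2 c ∪ F1 c).filter (fun S => ∃ s ∈ S, q s), wx rJ S ≤ 1 / 4 := by
  refine (slot_sum c q).trans (le_trans ?_ hδ)
  refine mul_le_mul_of_nonneg_left ?_ (Real.exp_pos _).le
  refine le_trans ?_ hs
  exact S2Main_collapse (fun x d u t => wd n d x.1 u t * YY c x u t)
    (fun x d u t => mul_nonneg (wd_nonneg _ _ _ _) (S2Main_YY_nonneg c x u t))
    (fun x d u t => wd n d x.1 u t ≠ 0 ∧ ∃ s ∈ pt x d u t, q s) x' d' R
    (fun x d u t hp => h x d u t hp.1 hp.2)

private theorem S2Main_sum_left (f : Fin n → Fin n → ℝ) (a : Fin n)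
    [∀ u : Fin n, Decidable (u = a)] :
    ∑ u, ∑ t, (if u = a then f u t else 0) = ∑ t, f a t := by
  rw [sum_eq_single a]
  · simp
  · intro u _ hu
    simp [hu]
  · intro hd
    exact absurd (mem_univ _) hd

private theorem S2Main_sum_right (f : Fin n → Fin n → ℝ) (a : Fin n)
    [∀ u : Fin n, Decidable (u = a)] :
    ∑ u, ∑ t, (if t = a then f u t else 0) = ∑ u, f u a := by
  refine sum_congr rfl fun u _ => ?_
  rw [sum_eq_single a]
  · simp
  · intro t _ ht
    simp [ht]
  · intro hd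
    exact absurd (mem_univ _) hd

private theorem S2Main_sum_mem (f : Fin n → Fin n → ℝ) (L : Finset (Fin n))
    [∀ u t : Fin n, Decidable (u ∈ L ∧ t ∈ L)] :
    ∑ u, ∑ t, (if u ∈ L ∧ t ∈ L then f u t else 0) = ∑ u ∈ L, ∑ t ∈ L, f u t := by
  rw [← sum_subset (subset_univ L)]
  · refine sum_congr rfl fun u hu => ?_
    rw [← sum_subset (subset_univ L)]
    · refine sum_congr rfl fun t ht => ?_
      rw [if_pos ⟨hu, ht⟩]
    · intro t _ ht
      rw [if_neg fun hh => ht hh.2]
  · intro u _ hu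
    refine sum_eq_zero fun t _ => ?_
    rw [if_neg fun hh => hu hh.1]

theorem s2_main (c : P n → P n → C) (δ : ℝ) (hδ : Real.exp 4 * δ ≤ 1 / 4)
    (h1 : ∀ (x : P n) (d : ℕ) (u : Fin n), d < n → ∑ t, wd n d x.1 u t * YY c x u t ≤ δ)
    (h2 : ∀ (x : P n) (d : ℕ) (t : Fin n), d < n → ∑ u, wd n d x.1 u t * YY c x u t ≤ δ)
    (h3 : ∀ (x : P n) (d : ℕ), d < n →
      ∑ u ∈ Lf n d x.1, ∑ t ∈ Lf n d x.1, wd n d x.1 u t * YY c x u t ≤ δ) :
    ∃ tr : P n → Fin n → Fin n,
      (∀ x d t, Sep d x.1 t → ∃ u, Sep d x.1 u ∧ tr x u = t) ∧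
      (∀ x u x' u', u ≠ x.1 → u' ≠ x'.1 → (x, u) ≠ (x', u') →
        c x (par x u) = c x' (par x' u') → tr x u ≠ tr x' u') ∧
      ∀ x u, u ≠ x.1 → c (tr x u, false) (tr x u, true) ≠ c x (par x u) := by
  have HL1 := fun (x' : P n) (d' a : Fin n) =>
    S2Main_slot c δ hδ (fun s => s.1 = (x', d', true) ∧ s.2.1 = a) x' d'
      (fun u _ => u = a) (fun x d u t h hs => pt_left_true h hs)
      (by
        refine le_trans (le_of_eq ?_) (h1 x' d' a d'.2)
        convert S2Main_sum_left (fun u t => wd n d' x'.1 u t * YY c x' u t) a)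
  have HL2 := fun (x' : P n) (d' a : Fin n) =>
    S2Main_slot c δ hδ (fun s => s.1 = (x', d', false) ∧ s.2.1 = a) x' d'
      (fun _ t => t = a) (fun x d u t h hs => pt_left_false h hs)
      (by
        refine le_trans (le_of_eq ?_) (h2 x' d' a d'.2)
        convert S2Main_sum_right (fun u t => wd n d' x'.1 u t * YY c x' u t) a)
  have HR1 := fun (x' : P n) (d' a : Fin n) =>
    S2Main_slot c δ hδ (fun s => s.1 = (x', d', true) ∧ s.2.2 = some a) x' d'
      (fun _ t => t = a) (fun x d u t h hs => pt_right_true h hs)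
      (by
        refine le_trans (le_of_eq ?_) (h2 x' d' a d'.2)
        convert S2Main_sum_right (fun u t => wd n d' x'.1 u t * YY c x' u t) a)
  have HR2 := fun (x' : P n) (d' a : Fin n) =>
    S2Main_slot c δ hδ (fun s => s.1 = (x', d', false) ∧ s.2.2 = some a) x' d'
      (fun u _ => u = a) (fun x d u t h hs => pt_right_false h hs)
      (by
        refine le_trans (le_of_eq ?_) (h1 x' d' a d'.2)
        convert S2Main_sum_left (fun u t => wd n d' x'.1 u t * YY c x' u t) a)
  have HR3 := fun (x' : P n) (d' : Fin n) (b : Bool) =>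
    S2Main_slot c δ hδ (fun s => s.1 = (x', d', b) ∧ s.2.2 = none) x' d'
      (fun u t => u ∈ Lf n d' x'.1 ∧ t ∈ Lf n d' x'.1)
      (fun x d u t h hs => by
        obtain ⟨e1, e2, e3, e4⟩ := pt_right_none h hs
        subst e1
        subst e2
        exact ⟨rfl, rfl, e3, e4⟩)
      (by
        refine le_trans (le_of_eq ?_) (h3 x' d' d'.2)
        convert S2Main_sum_mem (fun u t => wd n d' x'.1 u t * YY c x' u t) (Lf n d' x'.1))
  have HM : ∃ ω, IsBij XJ YJ ω ∧ ∀ S ∈ F2 c ∪ F1 c, ¬ Realises ω S := by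
    refine local_lemma XJ YJ card_XY rJ rJ_nonneg _ (bad_fits c) ?_ ?_
    · rintro ⟨x', d', b⟩ a _
      cases b with
      | true =>
        have key := HL1 x' d' a
        convert key
      | false =>
        have key := HL2 x' d' a
        convert key
    · rintro ⟨x', d', b⟩ a _
      cases a with
      | none =>
        have key := HR3 x' d' b
        convert key
      | some a =>
        cases b with
        | true =>
          have key := HR1 x' d' a
          convert key
        | false =>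
          have key := HR2 x' d' a
          convert key
  obtain ⟨ω, hω, hbad⟩ := HM
  obtain ⟨tr, t1, t2, t3⟩ := tree_of ω hω
  refine ⟨tr, t1, ?_, ?_⟩
  · intro x u x' u' hu hu' hne hc heq
    by_cases hx : x = x'
    · subst hx
      exact hne (by rw [t2 x u u' hu hu' heq])
    · obtain ⟨d, hd, hs⟩ := sep_exists (Ne.symm hu)
      obtain ⟨d', hd', hs'⟩ := sep_exists (Ne.symm hu')
      obtain ⟨w1, r1⟩ := t3 x ⟨d, hd⟩ u hs
      obtain ⟨w2, r2⟩ := t3 x' ⟨d', hd'⟩ u' hs'
      rw [← heq] at w2 r2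
      refine hbad (pt x ⟨d, hd⟩ u (tr x u) ∪ pt x' ⟨d', hd'⟩ u' (tr x u)) ?_ ?_
      · refine mem_union_left _ (mem_filter.2 ⟨mem_univ _, x, x', ⟨d, hd⟩, ⟨d', hd'⟩, u, u',
          tr x u, hx, hc, w1, w2, rfl⟩)
      · intro s hs
        rcases mem_union.1 hs with h | h
        · exact r1 s h
        · exact r2 s h
  · intro x u hu hc
    obtain ⟨d, hd, hs⟩ := sep_exists (Ne.symm hu)
    obtain ⟨w1, r1⟩ := t3 x ⟨d, hd⟩ u hs
    refine hbad (pt x ⟨d, hd⟩ u (tr x u)) ?_ r1
    exact mem_union_right _ (mem_filter.2 ⟨mem_univ _, x, ⟨d, hd⟩, u, tr x u, hc, w1, rfl⟩)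

end Pool.Agent.helper7.LT
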