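import Pool.Agent.helper7.LT.XLow

/-!
# LT-XSum2: the low edges in one tree with the colours of the edges of one vertex  (author: helper58)

PROOF of `Xl_sum_u`.  Let `a = {u | Sep d x.1 u}`, the block of depth `d + 1` of `t`.  Split `Xl` into the middle part
(`dA ≤ d' < dS`) and the small part (`d' ≥ dS` and the pair edge of `t`).
* `mid_le`: for every `k` the middle part is at most `3 / Nd n dS`: the edges `(x', u')` of colour `k` with
  `wd n d' x'.1 u' t ≠ 0`, `dA ≤ d' < dS`, are inside the block of depth `dA` of `t` (`wd_ne`, `blk_le`), so there is at most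
  one such `(x', u')` by `Rain` and `edge_inj` (and one `d'` by `sep_unique`); its weight is at most
  `3 / Nd n (d' + 1) ≤ 3 / Nd n dS` (`wd_le`; `Nd` is decreasing and `3 ≤ Nd n dS ≤ Nd n (d' + 1)`).
  Sum over `u ∈ a`: at most `a.card * 3 / Nd n dS` and `a.card ≤ Nd n (d + 1) + 1 ≤ 4 / 3 * Nd n (d + 1)` (`card_Bl_le`),
  so at most `4 * Nd n (d + 1) / Nd n dS`.
* small part: for an edge `(x', u')` of colour `k'` the number of `u ∈ a` with `c x (par x u) = k'` is at most
  `dg c k' x d ≤ e3 * Nd n d` (`u ↦ par x u` is injective, `par x u ≠ x`, and `u` is in the block of depth `d` of `x.1`); the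
  same for the pair edge of `t`.  Exchange the sums: the small part is at most `e3 * Nd n d` times
  `(∑ d' ∈ Ico dS n, ∑ x', ∑ u', wd n d' x'.1 u' t) + 1`; for every `x'` the sum over `u'`, `d'` is at most `1`
  (`wd_sum_u_le`, `sep_unique`) and vanishes unless `x'.1 ≠ t` is in the block of depth `dS` of `t`, so this is at most
  `2 * ((Bl n dS (blk n dS t)).card - 1) + 1 ≤ 2 * Nd n dS + 1 ≤ 3 * Nd n dS`.
Total: `4 * Nd n (d + 1) / Nd n dS + 3 * e3 * Nd n d * Nd n dS`, and `Nd n d = 2 * Nd n (d + 1)`.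
-/

set_option autoImplicit false

open Finset
open scoped Classical

namespace Pool.Agent.helper7.LT

variable {n : ℕ} {C : Type}

private theorem XSum2_unique {ι : Type*} (s : Finset ι) (f : ι → ℝ) {B : ℝ} (hB : 0 ≤ B)
    (h1 : ∀ i ∈ s, f i ≤ B) (h2 : ∀ i ∈ s, ∀ j ∈ s, f i ≠ 0 → f j ≠ 0 → i = j) :
    ∑ i ∈ s, f i ≤ B := by
  by_cases h : ∃ i ∈ s, f i ≠ 0
  · obtain ⟨i, hi, hfi⟩ := h
    rw [sum_eq_single i]
    · exact h1 i hi
    · intro j hj hji
      by_contra hfj
      exact hji (h2 j hj i hi hfj hfi)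
    · intro h; exact absurd hi h
  · push Not at h
    rw [sum_eq_zero h]
    exact hB

private theorem XSum2_Nd (n : ℕ) {d e : ℕ} (h : d ≤ e) : Nd n e ≤ Nd n d := by
  unfold Nd
  exact div_le_div_of_nonneg_left (Nat.cast_nonneg n) (by positivity)
    (pow_le_pow_right₀ (by norm_num) h)

theorem mid_le (c : P n → P n → C) (dA dS : ℕ) (hr : Rain c dA) (hS : 3 ≤ Nd n dS) (k : C)
    (t : Fin n) :
    (∑ d ∈ Ico dA dS, ∑ x : P n, ∑ u : Fin n,
      if c x (par x u) = k then wd n d x.1 u t else 0) ≤ 3 / Nd n dS := by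
  have hpos : 0 ≤ 3 / Nd n dS := div_nonneg (by norm_num) (by linarith)
  have h0 : (∑ d ∈ Ico dA dS, ∑ x : P n, ∑ u : Fin n,
      if c x (par x u) = k then wd n d x.1 u t else 0) =
      ∑ p ∈ Ico dA dS ×ˢ ((univ : Finset (P n)) ×ˢ (univ : Finset (Fin n))),
        if c p.2.1 (par p.2.1 p.2.2) = k then wd n p.1 p.2.1.1 p.2.2 t else 0 := by
    rw [sum_product]
    refine sum_congr rfl fun d _ => ?_
    rw [sum_product]
  rw [h0]
  refine XSum2_unique _ _ hpos ?_ ?_
  · rintro ⟨d, x, u⟩ hp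
    rw [mem_product, mem_Ico] at hp
    have hd : d + 1 ≤ dS := hp.1.2
    have h1 : Nd n dS ≤ Nd n (d + 1) := XSum2_Nd n hd
    show (if c x (par x u) = k then wd n d x.1 u t else 0) ≤ 3 / Nd n dS
    split_ifs
    · refine (wd_le x.1 u t (hS.trans h1)).trans ?_
      exact div_le_div_of_nonneg_left (by norm_num) (by linarith) h1
    · exact hpos
  · rintro ⟨d, x, u⟩ hp ⟨d', x', u'⟩ hp' h h'
    rw [mem_product, mem_Ico] at hp hp'
    have hd : dA ≤ d := hp.1.1
    have hd' : dA ≤ d' := hp'.1.1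
    change (if c x (par x u) = k then wd n d x.1 u t else 0) ≠ 0 at h
    change (if c x' (par x' u') = k then wd n d' x'.1 u' t else 0) ≠ 0 at h'
    have hc : c x (par x u) = k := by
      by_contra hc; rw [if_neg hc] at h; exact h rfl
    have hc' : c x' (par x' u') = k := by
      by_contra hc; rw [if_neg hc] at h'; exact h' rfl
    rw [if_pos hc] at h
    rw [if_pos hc'] at h'
    obtain ⟨hs1, hs2⟩ := wd_ne h
    obtain ⟨hs1', hs2'⟩ := wd_ne h'
    have b1 := blk_le hd hs1.1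
    have b2 := blk_le hd hs2.1
    have b1' := blk_le hd' hs1'.1
    have b2' := blk_le hd' hs2'.1
    have hne : x ≠ par x u := fun e => sep_ne hs1 (congrArg Prod.fst e)
    have hne' : x' ≠ par x' u' := fun e => sep_ne hs1' (congrArg Prod.fst e)
    have hedge : s(x, par x u) = s(x', par x' u') := by
      refine hr x (par x u) x' (par x' u') b1 ?_ b1' hne hne' (hc.trans hc'.symm)
      show blk n dA u = blk n dA x'.1
      rw [← b1, b2, b2']
    obtain ⟨rfl, rfl⟩ := edge_inj (sep_ne hs1).symm (sep_ne hs1').symm hedge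
    have := sep_unique hs1 hs1'
    rw [this]

private theorem XSum2_count (c : P n → P n → C) {d : ℕ} (x : P n) (k : C) :
    ((univ.filter fun u : Fin n => Sep d x.1 u).filter fun u => c x (par x u) = k).card ≤
      dg c k x d := by
  unfold dg
  refine card_le_card_of_injOn (fun u => par x u) ?_ ?_
  · intro u hu
    have hu' := mem_filter.1 (mem_coe.1 hu)
    have hs : Sep d x.1 u := (mem_filter.1 hu'.1).2
    refine mem_coe.2 (mem_filter.2 ⟨mem_univ _, fun e => ?_, hu'.2, hs.1.symm⟩)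
    exact sep_ne hs (congrArg Prod.fst e).symm
  · intro u _ v _ h
    exact congrArg Prod.fst h

private theorem XSum2_ind (c : P n → P n → C) {e : ℝ} {d : ℕ} (x : P n)
    (hdeg : ∀ k, (dg c k x d : ℝ) ≤ e) (k : C) {w : ℝ} (hw : 0 ≤ w) :
    (∑ u ∈ univ.filter (fun u : Fin n => Sep d x.1 u),
      if k = c x (par x u) then w else 0) ≤ e * w := by
  rw [← sum_filter, sum_const, nsmul_eq_mul]
  refine mul_le_mul_of_nonneg_right ?_ hw
  refine le_trans ?_ (hdeg k)
  have h := XSum2_count c (d := d) x k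
  have h1 : ((univ.filter fun u : Fin n => Sep d x.1 u).filter fun u => k = c x (par x u)) =
      ((univ.filter fun u : Fin n => Sep d x.1 u).filter fun u => c x (par x u) = k) := by
    refine filter_congr fun u _ => ?_
    exact eq_comm
  rw [h1]
  exact_mod_cast h

private theorem XSum2_W (dS : ℕ) (t : Fin n) :
    (∑ d ∈ Ico dS n, ∑ x : P n, ∑ u : Fin n, wd n d x.1 u t) ≤ 2 * Nd n dS := by
  have hn : 0 < n := t.pos
  rw [sum_comm]
  have h1 : ∀ x : P n, (∑ d ∈ Ico dS n, ∑ u : Fin n, wd n d x.1 u t) ≤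
      if blk n dS x.1 = blk n dS t ∧ x.1 ≠ t then 1 else 0 := by
    intro x
    by_cases hx : ∃ d ∈ Ico dS n, Sep d x.1 t
    · obtain ⟨d, hd, hs⟩ := hx
      rw [mem_Ico] at hd
      rw [if_pos ⟨blk_le hd.1 hs.1, sep_ne hs⟩]
      refine XSum2_unique _ _ zero_le_one (fun e _ => wd_sum_u_le e x.1 t) ?_
      intro i _ j _ hi hj
      obtain ⟨u, _, hu⟩ := exists_ne_zero_of_sum_ne_zero hi
      obtain ⟨v, _, hv⟩ := exists_ne_zero_of_sum_ne_zero hj
      exact sep_unique (wd_ne hu).2 (wd_ne hv).2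
    · push Not at hx
      have h0 : (∑ d ∈ Ico dS n, ∑ u : Fin n, wd n d x.1 u t) = 0 := by
        refine sum_eq_zero fun d hd => sum_eq_zero fun u _ => ?_
        by_contra h
        exact hx d hd (wd_ne h).2
      rw [h0]
      split_ifs
      · exact zero_le_one
      · exact le_rfl
  refine (sum_le_sum fun x _ => h1 x).trans ?_
  rw [← sum_filter, sum_const, nsmul_eq_mul, mul_one]
  have h2 : (univ.filter fun x : P n => blk n dS x.1 = blk n dS t ∧ x.1 ≠ t) =
      ((Bl n dS (blk n dS t)).erase t) ×ˢ (univ : Finset Bool) := by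
    ext ⟨v, b⟩
    simp only [mem_filter, mem_univ, true_and, mem_product, mem_erase, Bl, and_true]
    exact and_comm
  have ht : t ∈ Bl n dS (blk n dS t) := by simp [Bl]
  rw [h2, card_product, card_erase_of_mem ht]
  have h3 := card_Bl_le hn dS (blk n dS t)
  have h4 : 1 ≤ (Bl n dS (blk n dS t)).card := card_pos.2 ⟨t, ht⟩
  have h5 : (((Bl n dS (blk n dS t)).card - 1 : ℕ) : ℝ) = ((Bl n dS (blk n dS t)).card : ℝ) - 1 := by
    rw [Nat.cast_sub h4, Nat.cast_one]
  have h6 : (univ : Finset Bool).card = 2 := rfl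
  rw [h6, Nat.cast_mul, h5]
  push_cast
  linarith

theorem small_sum (c : P n → P n → C) (dS : ℕ) (hS : 3 ≤ Nd n dS) (e : ℝ) (he : 0 ≤ e) {d : ℕ}
    (x : P n) (hdeg : ∀ k, (dg c k x d : ℝ) ≤ e) (t : Fin n) :
    ∑ u ∈ univ.filter (fun u : Fin n => Sep d x.1 u), Xl c dS (c x (par x u)) t ≤
      e * (3 * Nd n dS) := by
  have hsplit : ∑ u ∈ univ.filter (fun u : Fin n => Sep d x.1 u), Xl c dS (c x (par x u)) t =
      (∑ d' ∈ Ico dS n, ∑ x' : P n, ∑ u' : Fin n,
        ∑ u ∈ univ.filter (fun u : Fin n => Sep d x.1 u),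
          if c x' (par x' u') = c x (par x u) then wd n d' x'.1 u' t else 0) +
      ∑ u ∈ univ.filter (fun u : Fin n => Sep d x.1 u),
        if c (t, false) (t, true) = c x (par x u) then 1 else 0 := by
    unfold Xl
    rw [sum_add_distrib]
    congr 1
    rw [sum_comm]
    refine sum_congr rfl fun d' _ => ?_
    rw [sum_comm]
    refine sum_congr rfl fun x' _ => ?_
    rw [sum_comm]
  rw [hsplit]
  have h1 : (∑ d' ∈ Ico dS n, ∑ x' : P n, ∑ u' : Fin n,
        ∑ u ∈ univ.filter (fun u : Fin n => Sep d x.1 u),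
          if c x' (par x' u') = c x (par x u) then wd n d' x'.1 u' t else 0) ≤
      ∑ d' ∈ Ico dS n, ∑ x' : P n, ∑ u' : Fin n, e * wd n d' x'.1 u' t :=
    sum_le_sum fun d' _ => sum_le_sum fun x' _ => sum_le_sum fun u' _ =>
      XSum2_ind c x hdeg _ (wd_nonneg d' x'.1 u' t)
  have h2 : (∑ d' ∈ Ico dS n, ∑ x' : P n, ∑ u' : Fin n, e * wd n d' x'.1 u' t) =
      e * ∑ d' ∈ Ico dS n, ∑ x' : P n, ∑ u' : Fin n, wd n d' x'.1 u' t := by
    simp only [mul_sum]
  have h3 := XSum2_ind c x hdeg (c (t, false) (t, true)) zero_le_one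
  have h4 := mul_le_mul_of_nonneg_left (XSum2_W dS t) he
  rw [h2] at h1
  have h5 : e * (2 * Nd n dS) + e * 1 ≤ e * (3 * Nd n dS) := by
    rw [← mul_add]
    exact mul_le_mul_of_nonneg_left (by linarith) he
  linarith

theorem Xl_sum_u (c : P n → P n → C) (dA dS : ℕ) (hr : Rain c dA) (hAS : dA ≤ dS)
    (hSn : dS ≤ n) (hS : 3 ≤ Nd n dS) (e3 : ℝ) (he : 0 ≤ e3) {d : ℕ} (hd : d < dA) {x : P n}
    (hdeg : ∀ k, (dg c k x d : ℝ) ≤ e3 * Nd n d) {t : Fin n} (ht : Sep d x.1 t) :
    ∑ u ∈ univ.filter (fun u : Fin n => Sep d x.1 u), Xl c dA (c x (par x u)) t ≤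
      4 * Nd n (d + 1) / Nd n dS + 6 * e3 * Nd n (d + 1) * Nd n dS := by
  have hn : 0 < n := t.pos
  have hNd : Nd n d = 2 * Nd n (d + 1) := by
    unfold Nd
    rw [pow_succ]
    field_simp
  have hN1 : 3 ≤ Nd n (d + 1) := hS.trans (XSum2_Nd n (by omega))
  have hX : ∀ k, Xl c dA k t = (∑ d ∈ Ico dA dS, ∑ x : P n, ∑ u : Fin n,
      if c x (par x u) = k then wd n d x.1 u t else 0) + Xl c dS k t := by
    intro k
    unfold Xl
    rw [← sum_Ico_consecutive _ hAS hSn, add_assoc]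
  have h1 : ∑ u ∈ univ.filter (fun u : Fin n => Sep d x.1 u), Xl c dA (c x (par x u)) t ≤
      ∑ u ∈ univ.filter (fun u : Fin n => Sep d x.1 u),
        (3 / Nd n dS + Xl c dS (c x (par x u)) t) := by
    refine sum_le_sum fun u _ => ?_
    rw [hX]
    exact add_le_add (mid_le c dA dS hr hS _ t) le_rfl
  rw [sum_add_distrib, sum_const, nsmul_eq_mul] at h1
  have h2 := small_sum c dS hS (e3 * Nd n d) (mul_nonneg he (by rw [hNd]; linarith)) x hdeg t
  have h3 : (univ.filter fun u : Fin n => Sep d x.1 u) = Bl n (d + 1) (sb n d x.1) := by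
    unfold Bl
    refine filter_congr fun u _ => mem_sib d x.1 u
  have h4 := card_Bl_le hn (d + 1) (sb n d x.1)
  have h5 : ((univ.filter fun u : Fin n => Sep d x.1 u).card : ℝ) * (3 / Nd n dS) ≤
      4 * Nd n (d + 1) / Nd n dS := by
    rw [h3]
    have h6 : ((Bl n (d + 1) (sb n d x.1)).card : ℝ) ≤ 4 / 3 * Nd n (d + 1) := by linarith
    calc ((Bl n (d + 1) (sb n d x.1)).card : ℝ) * (3 / Nd n dS)
        ≤ (4 / 3 * Nd n (d + 1)) * (3 / Nd n dS) :=
          mul_le_mul_of_nonneg_right h6 (div_nonneg (by norm_num) (by linarith))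
      _ = 4 * Nd n (d + 1) / Nd n dS := by ring
  rw [hNd] at h2
  have h7 : e3 * (2 * Nd n (d + 1)) * (3 * Nd n dS) = 6 * e3 * Nd n (d + 1) * Nd n dS := by ring
  linarith

end Pool.Agent.helper7.LT
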