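import Pool.Agent.helper7.LT.XSum1
import Pool.Agent.helper7.LT.XSum2

/-!
# LT-SB: the three slot bounds of the second stage

Let `0 ≤ e1, e2, e3`.
* `sb1`: if not `Sep d x.1 u` then all weights vanish (`wd_ne`).  For `d ≥ dA`: `YY ≤ Xh ≤ e1` whenever the weight is not
  zero (`YY_low`), and `wd_sum_t_le`.  For `d < dA`: `YY ≤ e1 + Xl c dA k t` (`YY_split`), `k = c x (par x u)`,
  `wd ≤ 3 / Nd n (d + 1)` (`wd_le`; `3 ≤ Nd n dS ≤ Nd n (d + 1)` as `d + 1 ≤ dA ≤ dS`); the weights vanish unless `t` is in the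
  block `b = sb n d x.1` of depth `d + 1` (`mem_sib`), so the sum is at most
  `e1 + (3 / Nd n (d + 1)) * ∑ t ∈ Bl n (d + 1) b, Xl c dA k t ≤ e1 + (3 / Nd n (d + 1)) * oc c k (d + 1) b`
  (`Xl_sum_t`) `≤ e1 + 3 * e2` (`load`).
* `sb2`: for `Sep d x.1 t` and `L = Lf n d x.1`: the sum over the `u` with `Sep d x.1 u` of `(1 / |L|) * YY c x u t`.  For
  `d ≥ dA`: `YY ≤ e1` and there are `|L| + |R| ≤ 2 |L|` such `u` (`LR_union`, `LR_card`): at most `2 * e1`.  For `d < dA`:
  `YY ≤ e1 + Xl`, so at most `2 * e1 + (3 / Nd n (d + 1)) * (4 * Nd n (d + 1) / Nd n dS + 6 * e3 * Nd n (d + 1) * Nd n dS)`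
  `= 2 * e1 + 12 / Nd n dS + 18 * e3 * Nd n dS` (`1 / |L| ≤ 3 / Nd n (d + 1)` by `L_big`; `Xl_sum_u`).
* `sb3`: `wd n d v u t ≤ 1 / |L|` (`wd_le_inv`).
* `sb4`: for `u, t ∈ L` the weight is at most `1 / |L| ^ 2` (definition of `w2`; `L`, `R` are disjoint), exchange the sums and
  apply `sb2` to every `t ∈ L`; there are `|L|` of them (if `L` is empty the sum is `0`).
-/

set_option autoImplicit false

open Finset
open scoped Classical

namespace Pool.Agent.helper7.LT

variable {n : ℕ} {C : Type}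

private theorem SB_Nd (n : ℕ) {d e : ℕ} (h : d ≤ e) : Nd n e ≤ Nd n d := by
  unfold Nd
  exact div_le_div_of_nonneg_left (Nat.cast_nonneg n) (by positivity)
    (pow_le_pow_right₀ (by norm_num) h)

theorem sb1 (c : P n → P n → C) {dA dS : ℕ} {e1 e2 e3 : ℝ} (h : GC c dA e1 e2 e3)
    (h1 : 0 ≤ e1) (h2 : 0 ≤ e2) (hAS : dA ≤ dS) (hSn : dS ≤ n) (hS : 3 ≤ Nd n dS) (x : P n)
    (d : ℕ) (u : Fin n) : ∑ t, wd n d x.1 u t * YY c x u t ≤ e1 + 3 * e2 := by
  by_cases hu : Sep d x.1 u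
  · by_cases hd : dA ≤ d
    · have h5 : ∀ t, wd n d x.1 u t * YY c x u t ≤ wd n d x.1 u t * e1 := by
        intro t
        by_cases h0 : wd n d x.1 u t = 0
        · rw [h0, zero_mul, zero_mul]
        · exact mul_le_mul_of_nonneg_left
            ((YY_low c dA h.rain hd hu (wd_ne h0).2).trans (h.chain _ _)) (wd_nonneg _ _ _ _)
      refine (sum_le_sum fun t _ => h5 t).trans ?_
      rw [← sum_mul]
      have := mul_le_mul_of_nonneg_right (wd_sum_t_le d x.1 u) h1
      linarith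
    · have hd' : d + 1 ≤ dA := by omega
      have hN : 3 ≤ Nd n (d + 1) := hS.trans (SB_Nd n (hd'.trans hAS))
      have hN0 : 0 < Nd n (d + 1) := by linarith
      have h5 : ∀ t, wd n d x.1 u t * YY c x u t ≤ wd n d x.1 u t * e1 +
          (if t ∈ Bl n (d + 1) (sb n d x.1) then
            3 / Nd n (d + 1) * Xl c dA (c x (par x u)) t else 0) := by
        intro t
        by_cases h0 : wd n d x.1 u t = 0
        · rw [h0, zero_mul, zero_mul, zero_add]
          split_ifs
          · exact mul_nonneg (by positivity) (Xl_nonneg _ _ _ _)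
          · exact le_rfl
        · have ht : t ∈ Bl n (d + 1) (sb n d x.1) := by
            unfold Bl
            exact mem_filter.2 ⟨mem_univ _, (mem_sib d x.1 t).1 (wd_ne h0).2⟩
          rw [if_pos ht]
          have h6 : YY c x u t ≤ e1 + Xl c dA (c x (par x u)) t :=
            (YY_split c dA (hAS.trans hSn) x u t).trans (add_le_add (h.chain _ _) le_rfl)
          have h7 := mul_le_mul_of_nonneg_left h6 (wd_nonneg d x.1 u t)
          have h8 := mul_le_mul_of_nonneg_right (wd_le x.1 u t hN)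
            (Xl_nonneg c dA (c x (par x u)) t)
          rw [mul_add] at h7
          linarith
      refine (sum_le_sum fun t _ => h5 t).trans ?_
      rw [sum_add_distrib, ← sum_mul, ← sum_filter]
      have h9 : (univ.filter fun t => t ∈ Bl n (d + 1) (sb n d x.1)) =
          Bl n (d + 1) (sb n d x.1) := by
        ext t
        simp
      rw [h9, ← mul_sum]
      have h10 := mul_le_mul_of_nonneg_right (wd_sum_t_le d x.1 u) h1
      have h11 := (Xl_sum_t c dA (d + 1) (sb n d x.1) hd' (c x (par x u))).trans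
        (h.load (d + 1) hd' (sb n d x.1) (c x (par x u)))
      have h12 := mul_le_mul_of_nonneg_left h11 (show 0 ≤ 3 / Nd n (d + 1) by positivity)
      have h13 : 3 / Nd n (d + 1) * (e2 * Nd n (d + 1)) = 3 * e2 := by
        field_simp
      linarith
  · have h0 : ∑ t, wd n d x.1 u t * YY c x u t = 0 := by
      refine sum_eq_zero fun t _ => ?_
      by_contra hne
      exact hu (wd_ne (left_ne_zero_of_mul hne)).1
    rw [h0]
    linarith

theorem sb2 (c : P n → P n → C) {dA dS : ℕ} {e1 e2 e3 : ℝ} (h : GC c dA e1 e2 e3)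
    (h1 : 0 ≤ e1) (h3 : 0 ≤ e3) (hAS : dA ≤ dS) (hSn : dS ≤ n) (hS : 3 ≤ Nd n dS) (x : P n)
    (d : ℕ) (t : Fin n) (ht : Sep d x.1 t) :
    ∑ u ∈ univ.filter (fun u : Fin n => Sep d x.1 u),
      1 / ((Lf n d x.1).card : ℝ) * YY c x u t ≤ 2 * e1 + 12 / Nd n dS + 18 * e3 * Nd n dS := by
  have hL : (0 : ℝ) < ((Lf n d x.1).card : ℝ) := by exact_mod_cast L_pos ht
  have hS0 : 0 < Nd n dS := by linarith
  have hcard : ((univ.filter fun u : Fin n => Sep d x.1 u).card : ℝ) *
      (1 / ((Lf n d x.1).card : ℝ)) ≤ 2 := by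
    have h5 : (univ.filter fun u : Fin n => Sep d x.1 u).card =
        (Lf n d x.1).card + (Rf n d x.1).card := by
      rw [← LR_union, card_union_of_disjoint (LR_disj d x.1)]
    have h6 : ((univ.filter fun u : Fin n => Sep d x.1 u).card : ℝ) ≤
        2 * ((Lf n d x.1).card : ℝ) := by
      have h7 := (LR_card d x.1).1
      rw [h5]
      have h8 : ((Rf n d x.1).card : ℝ) ≤ ((Lf n d x.1).card : ℝ) := by exact_mod_cast h7
      push_cast
      linarith
    rw [mul_one_div, div_le_iff₀ hL]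
    exact h6
  have hn1 : 0 ≤ 12 / Nd n dS := by positivity
  have hn2 : 0 ≤ 18 * e3 * Nd n dS := by positivity
  by_cases hd : dA ≤ d
  · have h5 : ∀ u ∈ univ.filter (fun u : Fin n => Sep d x.1 u),
        1 / ((Lf n d x.1).card : ℝ) * YY c x u t ≤ 1 / ((Lf n d x.1).card : ℝ) * e1 := by
      intro u hu
      exact mul_le_mul_of_nonneg_left
        ((YY_low c dA h.rain hd (mem_filter.1 hu).2 ht).trans (h.chain _ _)) (by positivity)
    refine (sum_le_sum h5).trans ?_
    rw [sum_const, nsmul_eq_mul, ← mul_assoc]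
    have := mul_le_mul_of_nonneg_right hcard h1
    linarith
  · have hd' : d < dA := not_le.1 hd
    have hN : 3 ≤ Nd n (d + 1) := hS.trans (SB_Nd n (by omega))
    have hN0 : 0 < Nd n (d + 1) := by linarith
    have h5 : ∀ u ∈ univ.filter (fun u : Fin n => Sep d x.1 u),
        1 / ((Lf n d x.1).card : ℝ) * YY c x u t ≤ 1 / ((Lf n d x.1).card : ℝ) * e1 +
          1 / ((Lf n d x.1).card : ℝ) * Xl c dA (c x (par x u)) t := by
      intro u _
      rw [← mul_add]
      exact mul_le_mul_of_nonneg_left ((YY_split c dA (hAS.trans hSn) x u t).trans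
        (add_le_add (h.chain _ _) le_rfl)) (by positivity)
    refine (sum_le_sum h5).trans ?_
    rw [sum_add_distrib, sum_const, nsmul_eq_mul, ← mul_assoc, ← mul_sum]
    have h6 := mul_le_mul_of_nonneg_right hcard h1
    have h7 := Xl_sum_u c dA dS h.rain hAS hSn hS e3 h3 hd'
      (fun k => h.deg d hd'.le x k) ht
    have h8 : 1 / ((Lf n d x.1).card : ℝ) ≤ 3 / Nd n (d + 1) := by
      rw [div_le_div_iff₀ hL hN0]
      have := L_big ht hN
      linarith
    have h9 : 0 ≤ ∑ u ∈ univ.filter (fun u : Fin n => Sep d x.1 u),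
        Xl c dA (c x (par x u)) t := sum_nonneg fun u _ => Xl_nonneg _ _ _ _
    have h10 := mul_le_mul h8 h7 h9 (show 0 ≤ 3 / Nd n (d + 1) by positivity)
    have h11 : 3 / Nd n (d + 1) * (4 * Nd n (d + 1) / Nd n dS +
        6 * e3 * Nd n (d + 1) * Nd n dS) = 12 / Nd n dS + 18 * e3 * Nd n dS := by
      field_simp
      ring
    linarith

theorem sb3 (c : P n → P n → C) {dA dS : ℕ} {e1 e2 e3 : ℝ} (h : GC c dA e1 e2 e3)
    (h1 : 0 ≤ e1) (h3 : 0 ≤ e3) (hAS : dA ≤ dS) (hSn : dS ≤ n) (hS : 3 ≤ Nd n dS) (x : P n)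
    (d : ℕ) (t : Fin n) :
    ∑ u, wd n d x.1 u t * YY c x u t ≤ 2 * e1 + 12 / Nd n dS + 18 * e3 * Nd n dS := by
  have hS0 : 0 < Nd n dS := by linarith
  by_cases ht : Sep d x.1 t
  · refine le_trans ?_ (sb2 c h h1 h3 hAS hSn hS x d t ht)
    rw [sum_filter]
    refine sum_le_sum fun u _ => ?_
    split_ifs with hu
    · exact mul_le_mul_of_nonneg_right (wd_le_inv d x.1 u t) (YY_nonneg c x u t)
    · have h0 : wd n d x.1 u t = 0 := by
        by_contra hne
        exact hu (wd_ne hne).1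
      rw [h0, zero_mul]
  · have h0 : ∑ u, wd n d x.1 u t * YY c x u t = 0 := by
      refine sum_eq_zero fun u _ => ?_
      by_contra hne
      exact ht (wd_ne (left_ne_zero_of_mul hne)).2
    rw [h0]
    positivity

theorem sb4 (c : P n → P n → C) {dA dS : ℕ} {e1 e2 e3 : ℝ} (h : GC c dA e1 e2 e3)
    (h1 : 0 ≤ e1) (h3 : 0 ≤ e3) (hAS : dA ≤ dS) (hSn : dS ≤ n) (hS : 3 ≤ Nd n dS) (x : P n)
    (d : ℕ) :
    ∑ u ∈ Lf n d x.1, ∑ t ∈ Lf n d x.1, wd n d x.1 u t * YY c x u t ≤
      2 * e1 + 12 / Nd n dS + 18 * e3 * Nd n dS := by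
  have hS0 : 0 < Nd n dS := by linarith
  have hA : 0 ≤ 2 * e1 + 12 / Nd n dS + 18 * e3 * Nd n dS := by positivity
  rw [sum_comm]
  have h5 : ∀ t ∈ Lf n d x.1, ∑ u ∈ Lf n d x.1, wd n d x.1 u t * YY c x u t ≤
      1 / ((Lf n d x.1).card : ℝ) * (2 * e1 + 12 / Nd n dS + 18 * e3 * Nd n dS) := by
    intro t ht
    have hst : Sep d x.1 t := (mem_LR d x.1 t).2 (Or.inl ht)
    have hdis := LR_disj d x.1
    have h6 : ∀ u ∈ Lf n d x.1, wd n d x.1 u t * YY c x u t ≤
        1 / ((Lf n d x.1).card : ℝ) * (1 / ((Lf n d x.1).card : ℝ) * YY c x u t) := by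
      intro u hu
      rw [← mul_assoc]
      refine mul_le_mul_of_nonneg_right ?_ (YY_nonneg c x u t)
      have ht' : t ∉ Rf n d x.1 := disjoint_left.1 hdis ht
      have hu' : u ∉ Rf n d x.1 := disjoint_left.1 hdis hu
      unfold wd w2
      rw [if_neg (by rintro (⟨_, h7⟩ | ⟨h7, _⟩); exacts [ht' h7, hu' h7])]
      split_ifs
      · refine le_of_eq ?_
        rw [pow_two, one_div_mul_one_div]
      · positivity
    refine (sum_le_sum h6).trans ?_
    rw [← mul_sum]
    refine mul_le_mul_of_nonneg_left ?_ (by positivity)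
    refine le_trans ?_ (sb2 c h h1 h3 hAS hSn hS x d t hst)
    refine sum_le_sum_of_subset_of_nonneg ?_ fun u _ _ => ?_
    · intro u hu
      exact mem_filter.2 ⟨mem_univ _, (mem_LR d x.1 u).2 (Or.inl hu)⟩
    · exact mul_nonneg (by positivity) (YY_nonneg c x u t)
  refine (sum_le_sum h5).trans ?_
  rw [sum_const, nsmul_eq_mul, ← mul_assoc]
  by_cases hL : (Lf n d x.1).card = 0
  · rw [hL, Nat.cast_zero, zero_mul, zero_mul]
    exact hA
  · rw [mul_one_div_cancel (by exact_mod_cast hL), one_mul]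

end Pool.Agent.helper7.LT
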