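import Pool.Agent.helper7.LT.Place
import Pool.Agent.helper7.LT.ChB
import Pool.Agent.helper7.LT.SB
import Pool.Agent.helper7.LT.S2Main
import Pool.Agent.helper7.LT.Glue
import Pool.Agent.helper7.LT.Num

/-!
# LT-Big: rainbow decompositions for classes with at most `n / 2 ^ 511` edges

PROOF of `decomp_fin` (`C` finite).  The pairs `((0, false), (0, true))` and `((0, true), (0, false))` have the same colour `k`, so
`2 ≤ Oc c k ≤ n / 2 ^ 510` and `n ≥ 2 ^ 511`.  `β = 1 / 2 ^ 510`; `dA` from `exists_dA`, `dS = dA + 226`, so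
`2 ^ 14 ≤ Nd n dS = Nd n dA / 2 ^ 226 ≤ 2 ^ 15`.  `place` (`120000 * β * Nd n dA ^ 2 ≤ 2 ^ 17 * 2 ^ 482 / 2 ^ 510 ≤ 1 / 8`;
`num_sum`) gives `σ`; `c' x y = c (σ x) (σ y)` is symmetric, `Oc c' k = Oc c k` (bijection `Prod.map σ σ`), `gp_gc` gives `GC c' dA e1 e2 e3`.
`δ = 2 * e1 + 12 / Nd n dS + 18 * e3 * Nd n dS`, `exp 4 * δ ≤ 1 / 4` by `num_delta`; `e1 + 3 * e2 ≤ 2 * e1 ≤ δ` since
`3 * e2 ≤ 36 * e2 ≤ e1`.  `s2_main` with `sb1`, `sb3`, `sb4`, then `glue` gives `T'`; `T x y = T' (σ⁻¹ x) (σ⁻¹ y)`.  The graph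
`fromRel (T x y = t)` is isomorphic to `fromRel (T' x y = t)` (`SimpleGraph.Iso.connected_iff` or `Connected.map`), and
`s(σ⁻¹ x, σ⁻¹ y) = s(σ⁻¹ z, σ⁻¹ w)` implies `s(x, y) = s(z, w)` (`Sym2.map` is injective, or `Sym2.eq_iff`).
PROOF of `decomp`: replace `C` by the finite type `Set.range (fun e : P n × P n => c e.1 e.2)`.
-/

set_option autoImplicit false

open Finset
open scoped Classical

namespace Pool.Agent.helper7.LT

private theorem big_n {n : ℕ} (hn : 0 < n) {C : Type} (c : P n → P n → C)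
    (hc : ∀ x y, c x y = c y x) (h : ∀ k, (Oc c k : ℝ) ≤ n / 2 ^ 510) : (2 : ℝ) ^ 511 ≤ n := by
  set x : P n := (⟨0, hn⟩, false) with hx
  set y : P n := (⟨0, hn⟩, true) with hy
  have hxy : x ≠ y := by
    rw [hx, hy]
    simp
  have h1 : ({(x, y), (y, x)} : Finset (P n × P n)) ⊆
      univ.filter fun e : P n × P n => e.1 ≠ e.2 ∧ c e.1 e.2 = c x y := by
    intro e he
    rw [mem_insert, mem_singleton] at he
    rw [mem_filter]
    rcases he with rfl | rfl
    · exact ⟨mem_univ _, hxy, rfl⟩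
    · exact ⟨mem_univ _, hxy.symm, hc y x⟩
  have h2 : ({(x, y), (y, x)} : Finset (P n × P n)).card = 2 := by
    rw [card_pair]
    intro he
    exact hxy (congrArg Prod.fst he)
  have h3 : 2 ≤ Oc c (c x y) := by
    rw [← h2]
    exact card_le_card h1
  have h4 : (2 : ℝ) ≤ Oc c (c x y) := by exact_mod_cast h3
  have h5 := h4.trans (h (c x y))
  rw [le_div_iff₀ (by positivity)] at h5
  have h6 : (2 : ℝ) ^ 511 = 2 * 2 ^ 510 := by rw [← pow_succ']
  rw [h6]
  exact h5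

private theorem big_Oc {n : ℕ} {C : Type} (c : P n → P n → C) (σ : Equiv.Perm (P n)) (k : C) :
    Oc (fun x y => c (σ x) (σ y)) k = Oc c k := by
  unfold Oc
  refine card_bij' (fun e _ => (σ e.1, σ e.2)) (fun e _ => (σ.symm e.1, σ.symm e.2)) ?_ ?_ ?_ ?_
  · intro e he
    rw [mem_filter] at he ⊢
    exact ⟨mem_univ _, fun h => he.2.1 (σ.injective h), he.2.2⟩
  · intro e he
    rw [mem_filter] at he ⊢
    refine ⟨mem_univ _, fun h => he.2.1 (σ.symm.injective h), ?_⟩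
    simp only [Equiv.apply_symm_apply]
    exact he.2.2
  · intro e _
    simp
  · intro e _
    simp

theorem decomp_fin {n : ℕ} (hn : 0 < n) {C : Type} [Fintype C] (c : P n → P n → C)
    (hc : ∀ x y, c x y = c y x) (h : ∀ k, (Oc c k : ℝ) ≤ n / 2 ^ 510) :
    ∃ T : P n → P n → Fin n, (∀ x y, T x y = T y x) ∧
      (∀ t, (SimpleGraph.fromRel fun x y => T x y = t).Connected) ∧
      ∀ x y z w, x ≠ y → z ≠ w → c x y = c z w → T x y = T z w → s(x, y) = s(z, w) := by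
  have hbig := big_n hn c hc h
  have hbig' : 2 ^ 511 ≤ n := by exact_mod_cast hbig
  have hn240 : 2 ^ 240 ≤ n := le_trans (Nat.pow_le_pow_right (by norm_num) (by norm_num)) hbig'
  have hn4 : 4 ≤ n := le_trans (by norm_num) hn240
  obtain ⟨dA, hA1, hA2, hAn⟩ := exists_dA n hn240
  set NA := Nd n dA with hNA
  set β : ℝ := 1 / 2 ^ 510 with hβdef
  have hβ0 : 0 ≤ β := by positivity
  have hβ : ∀ k, (Oc c k : ℝ) ≤ β * n := by
    intro k
    refine (h k).trans (le_of_eq ?_)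
    rw [hβdef]
    ring
  have hNA1 : (1 : ℝ) ≤ NA := le_trans (one_le_pow₀ (by norm_num)) hA1
  have hNA3 : (3 : ℝ) ≤ NA := le_trans (by norm_num) hA1
  have hNS : Nd n (dA + 226) = NA / 2 ^ 226 := by
    rw [hNA, Nd, Nd, pow_add]
    field_simp
  have hb : 120000 * β * NA ^ 2 ≤ 1 / 8 := by
    have h1 : NA ^ 2 ≤ (2 ^ 241) ^ 2 := pow_le_pow_left₀ (by linarith) hA2.le 2
    have h2 : 120000 * β * NA ^ 2 ≤ 120000 * β * (2 ^ 241) ^ 2 :=
      mul_le_mul_of_nonneg_left h1 (by positivity)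
    refine h2.trans ?_
    rw [hβdef]
    have h3 : (2 : ℝ) ^ 510 = 2 ^ 28 * (2 ^ 241) ^ 2 := by
      rw [← pow_mul, ← pow_add]
    rw [h3]
    have h4 : (0 : ℝ) < (2 ^ 241) ^ 2 := by positivity
    calc 120000 * (1 / (2 ^ 28 * ((2 : ℝ) ^ 241) ^ 2)) * (2 ^ 241) ^ 2 = 120000 / 2 ^ 28 := by
          field_simp
      _ ≤ 1 / 8 := by norm_num
  have hβ7 : β ≤ 1 / 7000 := by
    rw [hβdef]
    refine one_div_le_one_div_of_le (by norm_num) ?_
    have : (2 : ℝ) ^ 13 ≤ 2 ^ 510 := pow_le_pow_right₀ (by norm_num) (by norm_num)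
    refine le_trans ?_ this
    norm_num
  obtain ⟨σ, hσ⟩ := place c hc dA β hn4 hβ0 hβ7 hβ hNA1 hb (num_sum n dA hA1)
  set c' : P n → P n → C := fun x y => c (σ x) (σ y) with hc'def
  have hc' : ∀ x y, c' x y = c' y x := fun x y => hc _ _
  have hβ' : ∀ k, (Oc c' k : ℝ) ≤ β * n := by
    intro k
    rw [hc'def, big_Oc]
    exact hβ k
  have hGC := gp_gc hc' hσ hNA3 hβ0 hβ'
  rw [← hNA] at hGC
  have hr1 : 0 ≤ NA ^ (-(1 / 8) : ℝ) := Real.rpow_nonneg (by linarith) _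
  have hr2 : 0 ≤ NA ^ (-(15 / 16) : ℝ) := Real.rpow_nonneg (by linarith) _
  set e2 : ℝ := 1912 * β + 984 * NA ^ (-(1 / 8) : ℝ) with he2
  set e3 : ℝ := 81 * β + 82 * NA ^ (-(15 / 16) : ℝ) with he3
  set e1 : ℝ := 22000 * β + 71000 * NA ^ (-(1 / 8) : ℝ) + 36 * e2 with he1
  have he20 : 0 ≤ e2 := by positivity
  have he30 : 0 ≤ e3 := by positivity
  have he10 : 0 ≤ e1 := by positivity
  have he12 : 3 * e2 ≤ e1 := by
    have : 0 ≤ 22000 * β + 71000 * NA ^ (-(1 / 8) : ℝ) := by positivity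
    linarith
  set NS := Nd n (dA + 226) with hNSdef
  have hS14 : (2 : ℝ) ^ 14 ≤ NS := by
    rw [hNS, le_div_iff₀ (by positivity), ← pow_add]
    exact hA1
  have hS15 : NS ≤ 2 ^ 15 := by
    rw [hNS, div_le_iff₀ (by positivity), ← pow_add]
    exact hA2.le
  have hS3 : (3 : ℝ) ≤ NS := le_trans (by norm_num) hS14
  have hNS0 : 0 < NS := by linarith
  have hdelta := num_delta NA NS β hβ0 le_rfl hA1 hS14 hS15
  rw [← he2, ← he3, ← he1] at hdelta
  have hAS : dA ≤ dA + 226 := Nat.le_add_right _ _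
  have hle13 : e1 + 3 * e2 ≤ 2 * e1 + 12 / NS + 18 * e3 * NS := by
    have h1 : 0 ≤ 12 / NS := by positivity
    have h2 : 0 ≤ 18 * e3 * NS := by positivity
    linarith
  obtain ⟨tr, ht1, ht2, ht3⟩ := s2_main c' (2 * e1 + 12 / NS + 18 * e3 * NS) hdelta
    (fun x d u _ => (sb1 c' hGC he10 he20 hAS hAn hS3 x d u).trans hle13)
    (fun x d t _ => sb3 c' hGC he10 he30 hAS hAn hS3 x d t)
    (fun x d _ => sb4 c' hGC he10 he30 hAS hAn hS3 x d)
  obtain ⟨T', hT1, hT2, hT3⟩ := glue c' hc' tr ht1 ht2 ht3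
  refine ⟨fun x y => T' (σ.symm x) (σ.symm y), fun x y => hT1 _ _, fun t => ?_, ?_⟩
  · let φ : (SimpleGraph.fromRel fun x y => T' x y = t) ≃g
        (SimpleGraph.fromRel fun x y => T' (σ.symm x) (σ.symm y) = t) :=
      { toEquiv := σ
        map_rel_iff' := by
          intro a b
          simp only [SimpleGraph.fromRel_adj, Equiv.symm_apply_apply, ne_eq,
            EmbeddingLike.apply_eq_iff_eq] }
    exact φ.connected_iff.1 (hT2 t)
  · intro x y z w hxy hzw hcc hTT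
    have h1 : s(σ.symm x, σ.symm y) = s(σ.symm z, σ.symm w) := by
      refine hT3 _ _ _ _ (fun h => hxy (σ.symm.injective h)) (fun h => hzw (σ.symm.injective h))
        ?_ hTT
      show c (σ (σ.symm x)) (σ (σ.symm y)) = c (σ (σ.symm z)) (σ (σ.symm w))
      simp only [Equiv.apply_symm_apply]
      exact hcc
    rw [Sym2.eq_iff] at h1 ⊢
    rcases h1 with ⟨h1, h2⟩ | ⟨h1, h2⟩
    · exact Or.inl ⟨σ.symm.injective h1, σ.symm.injective h2⟩
    · exact Or.inr ⟨σ.symm.injective h1, σ.symm.injective h2⟩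

private theorem big_congr {n : ℕ} (p q : P n × P n → Prop) {hp : DecidablePred p}
    {hq : DecidablePred q} (h : p = q) :
    (Finset.filter p univ).card = (Finset.filter q univ).card := by
  subst h
  congr!

theorem decomp {n : ℕ} (hn : 0 < n) {C : Type} (c : P n → P n → C)
    (hc : ∀ x y, c x y = c y x) (h : ∀ k, (Oc c k : ℝ) ≤ n / 2 ^ 510) :
    ∃ T : P n → P n → Fin n, (∀ x y, T x y = T y x) ∧
      (∀ t, (SimpleGraph.fromRel fun x y => T x y = t).Connected) ∧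
      ∀ x y z w, x ≠ y → z ≠ w → c x y = c z w → T x y = T z w → s(x, y) = s(z, w) := by
  have : Finite (Set.range fun e : P n × P n => c e.1 e.2) := (Set.finite_range _).to_subtype
  letI : Fintype (Set.range fun e : P n × P n => c e.1 e.2) := Fintype.ofFinite _
  let c' : P n → P n → (Set.range fun e : P n × P n => c e.1 e.2) := fun x y =>
    ⟨c x y, ⟨(x, y), rfl⟩⟩
  have hO : ∀ k : (Set.range fun e : P n × P n => c e.1 e.2), Oc c' k = Oc c k.1 := by
    intro k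
    have h1 : (fun e : P n × P n => e.1 ≠ e.2 ∧ c' e.1 e.2 = k) =
        fun e : P n × P n => e.1 ≠ e.2 ∧ c e.1 e.2 = k.1 :=
      funext fun e => propext (and_congr_right fun _ => Subtype.ext_iff)
    exact big_congr _ _ h1
  obtain ⟨T, hT1, hT2, hT3⟩ := decomp_fin hn c' (fun x y => Subtype.ext (hc x y)) (fun k => by
    rw [hO]
    exact h k.1)
  refine ⟨T, hT1, hT2, fun x y z w hxy hzw hcc hTT => hT3 x y z w hxy hzw (Subtype.ext hcc) hTT⟩

end Pool.Agent.helper7.LT
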