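import Pool.Agent.helper7.LT.Defs

/-!
# LT-Blk: blocks and separation depths

* `blk_zero`: `u < n`.  `blk_half`: `Nat.div_div_eq_div_mul`, `2 ^ (d + 1) = 2 ^ d * 2`,
  `Nat.mul_div_mul_right`.  `blk_lt`: `u * 2 ^ d < n * 2 ^ d` (`Nat.div_lt_of_lt_mul`).
* `blk_inj`: if `u < v` then `(u + 1) * 2 ^ n ≤ v * 2 ^ n` and `n ≤ 2 ^ n` (`Nat.lt_two_pow_self`), so
  `u * 2 ^ n + n ≤ v * 2 ^ n` and the quotients by `n` differ (`Nat.div` of `a + n` is `a / n + 1`).
* `blk_le`: induction on `e` from `d` with `blk_half`.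
* `sep_exists`: the least `e` with `blk n e u ≠ blk n e v` (`Nat.find`) exists and is at most `n` by `blk_inj`, it is not `0` by
  `blk_zero`; take `d = e - 1`.  `sep_unique`: `blk_le`.
* `mem_sib`: `blk_half`; if `blk n (d + 1) u / 2 = blk n (d + 1) v / 2` and the two numbers are different then
  they are `2 b` and `2 b + 1`; `omega` with the cases of the parity.
* `same_iff`: if `u ≠ v` let `e` be the depth with `Sep e u v`; by `blk_le`, `blk n d u = blk n d v` iff `d ≤ e`.
-/

set_option autoImplicit false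

open Finset
open scoped Classical

namespace Pool.Agent.helper7.LT

variable {n : ℕ}

theorem blk_zero (u : Fin n) : blk n 0 u = 0 := by
  unfold blk
  rw [pow_zero, mul_one]
  exact Nat.div_eq_of_lt u.2

theorem blk_half (d : ℕ) (u : Fin n) : blk n (d + 1) u / 2 = blk n d u := by
  unfold blk
  rw [Nat.div_div_eq_div_mul, pow_succ, ← mul_assoc, Nat.mul_div_mul_right _ _ (by norm_num)]

theorem blk_lt (d : ℕ) (u : Fin n) : blk n d u < 2 ^ d := by
  unfold blk
  apply Nat.div_lt_of_lt_mul
  exact Nat.mul_lt_mul_of_pos_right u.2 (by positivity)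

private theorem Blk_lt {u v : Fin n} (h : u < v) : blk n n u < blk n n v := by
  have hn : 0 < n := u.pos
  have h1 : n ≤ 2 ^ n := Nat.lt_two_pow_self.le
  have h2 : (u.val + 1) * 2 ^ n ≤ v.val * 2 ^ n := Nat.mul_le_mul_right _ h
  have h3 : u.val * 2 ^ n + n ≤ v.val * 2 ^ n := by
    rw [add_mul, one_mul] at h2
    omega
  have h4 := Nat.div_le_div_right (c := n) h3
  rw [Nat.add_div_right _ hn] at h4
  exact h4

theorem blk_inj {u v : Fin n} (h : blk n n u = blk n n v) : u = v := by
  rcases lt_trichotomy u v with h1 | h1 | h1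
  · exact absurd h (Blk_lt h1).ne
  · exact h1
  · exact absurd h (Blk_lt h1).ne'

theorem blk_le {d e : ℕ} (hde : d ≤ e) {u v : Fin n} (h : blk n e u = blk n e v) :
    blk n d u = blk n d v := by
  induction e, hde using Nat.le_induction with
  | base => exact h
  | succ e _ ih =>
    apply ih
    rw [← blk_half e u, ← blk_half e v, h]

theorem sep_exists {u v : Fin n} (h : u ≠ v) : ∃ d < n, Sep d u v := by
  have hex : ∃ e, blk n e u ≠ blk n e v := ⟨n, fun h1 => h (blk_inj h1)⟩
  have h1 := Nat.find_spec hex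
  have h2 : Nat.find hex ≤ n := Nat.find_min' hex fun h1 => h (blk_inj h1)
  have h3 : Nat.find hex ≠ 0 := by
    intro h0
    rw [h0, blk_zero, blk_zero] at h1
    exact h1 rfl
  obtain ⟨d, hd⟩ := Nat.exists_eq_succ_of_ne_zero h3
  rw [hd] at h1
  refine ⟨d, by omega, ?_, h1⟩
  by_contra hne
  exact Nat.find_min hex (m := d) (by omega) hne

theorem sep_unique {d e : ℕ} {u v : Fin n} (h : Sep d u v) (h' : Sep e u v) : d = e := by
  rcases lt_trichotomy d e with h1 | h1 | h1
  · exact absurd (blk_le h1 h'.1) h.2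
  · exact h1
  · exact absurd (blk_le h1 h.1) h'.2

theorem sep_symm {d : ℕ} {u v : Fin n} (h : Sep d u v) : Sep d v u :=
  ⟨h.1.symm, h.2.symm⟩

theorem sep_ne {d : ℕ} {u v : Fin n} (h : Sep d u v) : u ≠ v := by
  intro h1
  exact h.2 (by rw [h1])

theorem sep_lt {d : ℕ} {u v : Fin n} (h : Sep d u v) : d < n := by
  by_contra hd
  exact sep_ne h (blk_inj (blk_le (not_lt.1 hd) h.1))

theorem mem_sib (d : ℕ) (v u : Fin n) : Sep d v u ↔ blk n (d + 1) u = sb n d v := by
  unfold Sep sb
  rw [← blk_half d v, ← blk_half d u]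
  split_ifs <;> omega

theorem sep_block {d : ℕ} {v u t : Fin n} (hu : Sep d v u) (ht : Sep d v t) :
    blk n (d + 1) u = blk n (d + 1) t := by
  rw [(mem_sib d v u).1 hu, (mem_sib d v t).1 ht]

theorem sep_of_block {d : ℕ} {v u t : Fin n} (ht : Sep d v t)
    (h : blk n (d + 1) u = blk n (d + 1) t) : Sep d v u := by
  rw [mem_sib, h]
  exact (mem_sib d v t).1 ht

theorem same_iff (d : ℕ) (u v : Fin n) :
    blk n d u = blk n d v ↔ u = v ∨ ∃ e, d ≤ e ∧ Sep e u v := by
  constructor
  · intro h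
    by_cases huv : u = v
    · exact Or.inl huv
    · right
      obtain ⟨e, -, he⟩ := sep_exists huv
      refine ⟨e, ?_, he⟩
      by_contra hde
      exact he.2 (blk_le (not_le.1 hde) h)
  · rintro (h | ⟨e, hde, he⟩)
    · rw [h]
    · exact blk_le hde he.1

end Pool.Agent.helper7.LT
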