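import Pool.Agent.helper7.LT.Blk

/-!
# LT-BlkC: the sizes of the blocks and of their halves

* `card_Bl`: `blk n d u = b` iff `b * n ≤ u * 2 ^ d < (b + 1) * n` (`Nat.div_eq_iff` or
  `Nat.le_div_iff_mul_le`, `Nat.div_lt_iff_lt_mul`), iff `⌈b * n / 2 ^ d⌉₊ ≤ u < ⌈(b + 1) * n / 2 ^ d⌉₊` (real
  quotients); so the block is in bijection with the interval `Ico` of these two natural numbers (the upper
  one is at most `n` for `b < 2 ^ d`), and `x ≤ ⌈x⌉₊ < x + 1` (`Nat.le_ceil`, `Nat.ceil_lt_add_one`).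
* `card_Bl_le`: for `b ≥ 2 ^ d` the block is empty (`blk_lt`).
* `LR_union`, `LR_disj`: `mem_sib`, `blk_half`: an element of the block with the index `b` of depth `d + 1` has the index
  `2 b` or `2 b + 1` at depth `d + 2`.
* `LR_card`: the first part is the definition; the second: `sb n d v < 2 ^ (d + 1)` (`blk_lt`, `2 ^ (d + 1)` is even), so by
  `card_Bl` both halves have sizes in the open interval `(N - 1, N + 1)`, `N = Nd n (d + 2)`, so they differ by less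
  than `2`.  (`0 < n` because of `v`.)
* `L_big`: `|L| ≥ (|L| + |R|) / 2` and `|L| + |R|` is the size of the block, at least `Nd n (d + 1) - 1`; and
  `(N - 1) / 2 ≥ N / 3` for `N ≥ 3`.
-/

set_option autoImplicit false

open Finset
open scoped Classical

namespace Pool.Agent.helper7.LT

variable {n : ℕ}

private theorem BlkC_map (hn : 0 < n) {d b : ℕ} (hb : b < 2 ^ d) :
    (Bl n d b).map Fin.valEmbedding =
      Ico ⌈(b : ℝ) * Nd n d⌉₊ ⌈((b : ℝ) + 1) * Nd n d⌉₊ := by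
  have h2 : (0 : ℝ) < 2 ^ d := by positivity
  have key : ∀ u : ℕ, u * 2 ^ d / n = b ↔
      (b : ℝ) * Nd n d ≤ u ∧ (u : ℝ) < ((b : ℝ) + 1) * Nd n d := by
    intro u
    have e1 : ((b : ℝ) * Nd n d ≤ u) ↔ b * n ≤ u * 2 ^ d := by
      unfold Nd
      rw [← mul_div_assoc, div_le_iff₀ h2]
      exact_mod_cast Iff.rfl
    have e2 : ((u : ℝ) < ((b : ℝ) + 1) * Nd n d) ↔ u * 2 ^ d < (b + 1) * n := by
      unfold Nd
      rw [← mul_div_assoc, lt_div_iff₀ h2]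
      exact_mod_cast Iff.rfl
    rw [e1, e2, ← Nat.le_div_iff_mul_le hn, ← Nat.div_lt_iff_lt_mul hn]
    omega
  ext u
  rw [mem_map, mem_Ico, Nat.ceil_le, Nat.lt_ceil, ← key u]
  constructor
  · rintro ⟨w, hw, rfl⟩
    exact (mem_filter.1 hw).2
  · intro h
    have hu : u < n := by
      have h3 : u * 2 ^ d / n < 2 ^ d := by rw [h]; exact hb
      rw [Nat.div_lt_iff_lt_mul hn, mul_comm] at h3
      exact lt_of_mul_lt_mul_left h3 (Nat.zero_le _)
    exact ⟨⟨u, hu⟩, mem_filter.2 ⟨mem_univ _, h⟩, rfl⟩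

private theorem BlkC_Nd (n d : ℕ) : 0 ≤ Nd n d := by
  unfold Nd
  positivity

theorem card_Bl (hn : 0 < n) {d b : ℕ} (hb : b < 2 ^ d) :
    Nd n d - 1 < (Bl n d b).card ∧ ((Bl n d b).card : ℝ) < Nd n d + 1 := by
  have hN := BlkC_Nd n d
  have h1 : (Bl n d b).card = ⌈((b : ℝ) + 1) * Nd n d⌉₊ - ⌈(b : ℝ) * Nd n d⌉₊ := by
    rw [← card_map Fin.valEmbedding, BlkC_map hn hb, Nat.card_Ico]
  have h2 : ⌈(b : ℝ) * Nd n d⌉₊ ≤ ⌈((b : ℝ) + 1) * Nd n d⌉₊ :=
    Nat.ceil_mono (by nlinarith)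
  have a1 := Nat.le_ceil ((b : ℝ) * Nd n d)
  have a2 := Nat.ceil_lt_add_one (mul_nonneg (Nat.cast_nonneg b) hN : (0 : ℝ) ≤ b * Nd n d)
  have a3 := Nat.le_ceil (((b : ℝ) + 1) * Nd n d)
  have a4 := Nat.ceil_lt_add_one (mul_nonneg (by positivity) hN : 0 ≤ ((b : ℝ) + 1) * Nd n d)
  rw [h1, Nat.cast_sub h2]
  constructor <;> linarith

theorem card_Bl_le (hn : 0 < n) (d b : ℕ) : ((Bl n d b).card : ℝ) < Nd n d + 1 := by
  by_cases hb : b < 2 ^ d
  · exact (card_Bl hn hb).2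
  · have h1 : Bl n d b = ∅ := by
      unfold Bl
      rw [filter_eq_empty_iff]
      intro u _ hu
      have := blk_lt d u
      omega
    rw [h1, card_empty]
    have := BlkC_Nd n d
    push_cast
    linarith

private theorem BlkC_mem {d b : ℕ} {u : Fin n} : u ∈ Bl n d b ↔ blk n d u = b := by
  unfold Bl
  rw [mem_filter]
  exact ⟨fun h => h.2, fun h => ⟨mem_univ _, h⟩⟩

private theorem BlkC_LR (d : ℕ) (v : Fin n) :
    (Lf n d v = Bl n (d + 2) (2 * sb n d v) ∧ Rf n d v = Bl n (d + 2) (2 * sb n d v + 1) ∨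
      Lf n d v = Bl n (d + 2) (2 * sb n d v + 1) ∧ Rf n d v = Bl n (d + 2) (2 * sb n d v)) ∧
      (Rf n d v).card ≤ (Lf n d v).card := by
  unfold Lf Rf Lb Rb
  split_ifs with h
  · exact ⟨Or.inl ⟨rfl, rfl⟩, h⟩
  · exact ⟨Or.inr ⟨rfl, rfl⟩, (not_le.1 h).le⟩

theorem LR_union (d : ℕ) (v : Fin n) : Lf n d v ∪ Rf n d v = univ.filter fun u => Sep d v u := by
  ext u
  rw [mem_union, mem_filter, mem_sib]
  have h2 : blk n (d + 2) u / 2 = blk n (d + 1) u := blk_half (d + 1) u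
  rcases (BlkC_LR d v).1 with ⟨h, h'⟩ | ⟨h, h'⟩
  · rw [h, h', BlkC_mem, BlkC_mem]
    constructor
    · rintro (h1 | h1)
      · exact ⟨mem_univ _, by rw [← h2]; omega⟩
      · exact ⟨mem_univ _, by rw [← h2]; omega⟩
    · rintro ⟨-, h1⟩
      rw [← h2] at h1
      omega
  · rw [h, h', BlkC_mem, BlkC_mem]
    constructor
    · rintro (h1 | h1)
      · exact ⟨mem_univ _, by rw [← h2]; omega⟩
      · exact ⟨mem_univ _, by rw [← h2]; omega⟩
    · rintro ⟨-, h1⟩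
      rw [← h2] at h1
      omega

theorem mem_LR (d : ℕ) (v u : Fin n) : Sep d v u ↔ u ∈ Lf n d v ∨ u ∈ Rf n d v := by
  rw [← mem_union, LR_union, mem_filter]
  exact ⟨fun h => ⟨mem_univ _, h⟩, fun h => h.2⟩

theorem LR_disj (d : ℕ) (v : Fin n) : Disjoint (Lf n d v) (Rf n d v) := by
  rw [disjoint_left]
  intro u h1 h2
  rcases (BlkC_LR d v).1 with ⟨h, h'⟩ | ⟨h, h'⟩
  · rw [h, BlkC_mem] at h1
    rw [h', BlkC_mem] at h2
    omega
  · rw [h, BlkC_mem] at h1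
    rw [h', BlkC_mem] at h2
    omega

private theorem BlkC_sb (d : ℕ) (v : Fin n) : sb n d v < 2 ^ (d + 1) := by
  have h1 := blk_lt (d + 1) v
  have h2 : 2 ^ (d + 1) = 2 * 2 ^ d := by ring
  unfold sb
  split_ifs <;> omega

theorem LR_card (d : ℕ) (v : Fin n) :
    (Rf n d v).card ≤ (Lf n d v).card ∧ (Lf n d v).card ≤ (Rf n d v).card + 1 := by
  obtain ⟨h, h0⟩ := BlkC_LR d v
  refine ⟨h0, ?_⟩
  have hn : 0 < n := lt_of_le_of_lt (Nat.zero_le _) v.2
  have hb := BlkC_sb d v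
  have h2 : 2 ^ (d + 2) = 2 * 2 ^ (d + 1) := by ring
  have b1 : 2 * sb n d v < 2 ^ (d + 2) := by omega
  have b2 : 2 * sb n d v + 1 < 2 ^ (d + 2) := by omega
  obtain ⟨c1, c2⟩ := card_Bl hn b1
  obtain ⟨c3, c4⟩ := card_Bl hn b2
  have key : ((Lf n d v).card : ℝ) < (Rf n d v).card + 2 := by
    rcases h with ⟨h, h'⟩ | ⟨h, h'⟩
    · rw [h, h']
      linarith
    · rw [h, h']
      linarith
  have key2 : (Lf n d v).card < (Rf n d v).card + 2 := by exact_mod_cast key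
  omega

theorem LR_sep {d : ℕ} {v u t : Fin n} (hu : u ∈ Lf n d v) (ht : t ∈ Rf n d v) :
    Sep (d + 1) u t := by
  have e1 : blk n (d + 2) u / 2 = blk n (d + 1) u := blk_half (d + 1) u
  have e2 : blk n (d + 2) t / 2 = blk n (d + 1) t := blk_half (d + 1) t
  rcases (BlkC_LR d v).1 with ⟨h, h'⟩ | ⟨h, h'⟩
  · rw [h, BlkC_mem] at hu
    rw [h', BlkC_mem] at ht
    exact ⟨by omega, by rw [show d + 1 + 1 = d + 2 from rfl]; omega⟩
  · rw [h, BlkC_mem] at hu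
    rw [h', BlkC_mem] at ht
    exact ⟨by omega, by rw [show d + 1 + 1 = d + 2 from rfl]; omega⟩

theorem L_same {d : ℕ} {v u t : Fin n} (hu : u ∈ Lf n d v) (ht : t ∈ Lf n d v) :
    ¬ Sep (d + 1) u t := by
  rintro ⟨-, h2⟩
  apply h2
  rcases (BlkC_LR d v).1 with ⟨h, -⟩ | ⟨h, -⟩
  · rw [h, BlkC_mem] at hu ht
    exact hu.trans ht.symm
  · rw [h, BlkC_mem] at hu ht
    exact hu.trans ht.symm

theorem L_pos {d : ℕ} {v t : Fin n} (ht : Sep d v t) : 0 < (Lf n d v).card := by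
  rcases (mem_LR d v t).1 ht with h | h
  · exact card_pos.2 ⟨t, h⟩
  · exact (card_pos.2 ⟨t, h⟩).trans_le (BlkC_LR d v).2

theorem L_big {d : ℕ} {v t : Fin n} (ht : Sep d v t) (hN : 3 ≤ Nd n (d + 1)) :
    Nd n (d + 1) / 3 ≤ ((Lf n d v).card : ℝ) := by
  have hn : 0 < n := lt_of_le_of_lt (Nat.zero_le _) v.2
  have h1 : (Lf n d v).card + (Rf n d v).card = (Bl n (d + 1) (sb n d v)).card := by
    rw [← card_union_of_disjoint (LR_disj d v), LR_union]
    congr 1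
    ext u
    rw [mem_filter, mem_sib, BlkC_mem]
    exact ⟨fun h => h.2, fun h => ⟨mem_univ _, h⟩⟩
  obtain ⟨c1, -⟩ := card_Bl hn (BlkC_sb d v)
  have h2 : ((Rf n d v).card : ℝ) ≤ (Lf n d v).card := by exact_mod_cast (BlkC_LR d v).2
  rw [← h1] at c1
  push_cast at c1
  linarith

end Pool.Agent.helper7.LT
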