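import Pool.Agent.helper7.LT.BlkC

/-!
# LT-W2: the weights

* `w2_sum_t`: for `u ∈ L`: the sum over `t ∈ R` is `|R| / |L|`, the sum over `t ∈ L` is `1 / |L|` if `|R| < |L|` (then
  `|L| = |R| + 1`) and `0` if `|R| = |L|`; for `u ∈ R` the sum over `t ∈ L` is `1`.  `w2_sum_u`: `w2` is symmetric
  in `u`, `t` (`w2_symm`).
* `w2_le`: `1 / |L| ^ 2 ≤ 1 / |L|` for `|L| ≥ 1`.
* `wd_...`: the same for `L = Lf n d v`, `R = Rf n d v`, with `mem_LR`, `LR_disj`, `LR_card`, `L_big`, `LR_sep`.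
  `wd_le2`: if `u`, `t` are in different halves then `Sep (d + 1) u t` (`LR_sep`, `sep_symm`); so the weight is
  `1 / |L| ^ 2` or `0`.
* `wg_sum_t`: `wd n d v u t` vanishes unless `Sep d v u`, which holds for exactly one `d < n` if `u ≠ v`
  (`sep_exists`, `sep_unique`, `sep_lt`).
-/

set_option autoImplicit false

open Finset
open scoped Classical

namespace Pool.Agent.helper7.LT

theorem w2_nonneg {A : Type} (L R : Finset A) (u t : A) : 0 ≤ w2 L R u t := by
  rw [w2]
  split_ifs <;> positivity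

theorem w2_symm {A : Type} (L R : Finset A) (u t : A) : w2 L R u t = w2 L R t u := by
  have h1 : ((u ∈ L ∧ t ∈ R) ∨ (u ∈ R ∧ t ∈ L)) ↔ ((t ∈ L ∧ u ∈ R) ∨ (t ∈ R ∧ u ∈ L)) := by tauto
  have h2 : (u ∈ L ∧ t ∈ L ∧ R.card < L.card) ↔ (t ∈ L ∧ u ∈ L ∧ R.card < L.card) := by tauto
  rw [w2, w2]
  simp only [h1, h2]

theorem w2_le {A : Type} (L R : Finset A) (u t : A) : w2 L R u t ≤ 1 / (L.card : ℝ) := by
  rw [w2]
  split_ifs with h1 h2
  · exact le_rfl
  · have h3 : 1 ≤ L.card := Finset.card_pos.2 ⟨u, h2.1⟩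
    have h4 : (1 : ℝ) ≤ L.card := by exact_mod_cast h3
    refine one_div_le_one_div_of_le (by linarith) ?_
    nlinarith
  · positivity

theorem w2_sum_t {A : Type} [Fintype A] (L R : Finset A) (hd : Disjoint L R)
    (h1 : R.card ≤ L.card) (h2 : L.card ≤ R.card + 1) (u : A) (hu : u ∈ L ∨ u ∈ R) :
    ∑ t, w2 L R u t = 1 := by
  have hdis : ∀ t, t ∈ L → t ∉ R := fun t ht hr => (Finset.disjoint_left.1 hd) ht hr
  have hLpos : 0 < L.card := by
    rcases hu with hu | hu
    · exact Finset.card_pos.2 ⟨u, hu⟩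
    · exact lt_of_lt_of_le (Finset.card_pos.2 ⟨u, hu⟩) h1
  have hLpos' : (0 : ℝ) < L.card := by exact_mod_cast hLpos
  rcases hu with hu | hu
  · have huR := hdis u hu
    have h3 : ∀ t, w2 L R u t = (if t ∈ R then 1 / (L.card : ℝ) else 0) +
        (if t ∈ L then (if R.card < L.card then 1 / (L.card : ℝ) ^ 2 else 0) else 0) := by
      intro t
      rw [w2]
      by_cases htR : t ∈ R
      · have htL : t ∉ L := fun h => hdis t h htR
        simp [hu, htR, htL]
      · by_cases htL : t ∈ L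
        · by_cases hlt : R.card < L.card
          · simp [hu, huR, htR, htL, hlt]
          · simp [hu, huR, htR, htL, hlt]
        · simp [huR, htR, htL]
    simp only [h3, Finset.sum_add_distrib]
    rw [Finset.sum_ite_mem, Finset.sum_ite_mem, Finset.univ_inter, Finset.univ_inter,
      Finset.sum_const, Finset.sum_const, nsmul_eq_mul, nsmul_eq_mul]
    by_cases hlt : R.card < L.card
    · have h4 : L.card = R.card + 1 := by omega
      have h5 : (L.card : ℝ) = R.card + 1 := by exact_mod_cast h4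
      rw [if_pos hlt]
      have h6 : (R.card : ℝ) = L.card - 1 := by linarith
      have h7 : (L.card : ℝ) ≠ 0 := hLpos'.ne'
      have h8 : ∀ x : ℝ, x ≠ 0 → (x - 1) * (1 / x) + x * (1 / x ^ 2) = 1 := by
        intro x hx
        field_simp
        ring
      rw [h6]
      exact h8 _ h7
    · have h4 : R.card = L.card := by omega
      rw [if_neg hlt, h4, mul_zero, add_zero, mul_one_div_cancel hLpos'.ne']
  · have huL : u ∉ L := fun h => hdis u h hu
    have h3 : ∀ t, w2 L R u t = (if t ∈ L then 1 / (L.card : ℝ) else 0) := by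
      intro t
      rw [w2]
      by_cases htL : t ∈ L
      · simp [hu, htL]
      · simp [huL, htL]
    simp only [h3]
    rw [Finset.sum_ite_mem, Finset.univ_inter, Finset.sum_const, nsmul_eq_mul,
      mul_one_div_cancel hLpos'.ne']

variable {n : ℕ}

theorem wd_nonneg (d : ℕ) (v u t : Fin n) : 0 ≤ wd n d v u t := w2_nonneg _ _ _ _

theorem wd_symm (d : ℕ) (v u t : Fin n) : wd n d v u t = wd n d v t u := w2_symm _ _ _ _

theorem wd_ne {d : ℕ} {v u t : Fin n} (h : wd n d v u t ≠ 0) : Sep d v u ∧ Sep d v t := by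
  rw [mem_LR, mem_LR]
  by_contra hcon
  apply h
  rw [wd, w2]
  rw [if_neg, if_neg]
  · rintro ⟨h1, h2, -⟩
    exact hcon ⟨Or.inl h1, Or.inl h2⟩
  · rintro (⟨h1, h2⟩ | ⟨h1, h2⟩)
    · exact hcon ⟨Or.inl h1, Or.inr h2⟩
    · exact hcon ⟨Or.inr h1, Or.inl h2⟩

theorem wd_sum_t {d : ℕ} {v u : Fin n} (h : Sep d v u) : ∑ t, wd n d v u t = 1 :=
  w2_sum_t _ _ (LR_disj d v) (LR_card d v).1 (LR_card d v).2 u ((mem_LR d v u).1 h)

theorem wd_sum_t_le (d : ℕ) (v u : Fin n) : ∑ t, wd n d v u t ≤ 1 := by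
  by_cases h : Sep d v u
  · exact (wd_sum_t h).le
  · have h1 : ∀ t, wd n d v u t = 0 := by
      intro t
      by_contra h2
      exact h (wd_ne h2).1
    simp [h1]

theorem wd_sum_u {d : ℕ} {v t : Fin n} (h : Sep d v t) : ∑ u, wd n d v u t = 1 := by
  simp only [wd_symm d v _ t]
  exact wd_sum_t h

theorem wd_sum_u_le (d : ℕ) (v t : Fin n) : ∑ u, wd n d v u t ≤ 1 := by
  simp only [wd_symm d v _ t]
  exact wd_sum_t_le d v t

theorem wd_le_inv (d : ℕ) (v u t : Fin n) : wd n d v u t ≤ 1 / ((Lf n d v).card : ℝ) :=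
  w2_le _ _ _ _

theorem wd_le {d : ℕ} (v u t : Fin n) (hN : 3 ≤ Nd n (d + 1)) :
    wd n d v u t ≤ 3 / Nd n (d + 1) := by
  by_cases h : wd n d v u t = 0
  · rw [h]
    have : 0 < Nd n (d + 1) := by linarith
    positivity
  · have h1 := L_big (wd_ne h).2 hN
    refine (wd_le_inv d v u t).trans ?_
    have h2 : 0 < Nd n (d + 1) := by linarith
    have h3 : 0 < Nd n (d + 1) / 3 := by positivity
    calc 1 / ((Lf n d v).card : ℝ) ≤ 1 / (Nd n (d + 1) / 3) := one_div_le_one_div_of_le h3 h1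
      _ = 3 / Nd n (d + 1) := by field_simp

theorem wd_le2 {d : ℕ} {v u t : Fin n} (hN : 3 ≤ Nd n (d + 1)) (h : ¬ Sep (d + 1) u t) :
    wd n d v u t ≤ 9 / Nd n (d + 1) ^ 2 := by
  have h2 : 0 < Nd n (d + 1) := by linarith
  by_cases h0 : wd n d v u t = 0
  · rw [h0]
    positivity
  · have h1 := L_big (wd_ne h0).2 hN
    have h3 : 0 < Nd n (d + 1) / 3 := by positivity
    have h4 : wd n d v u t ≤ 1 / ((Lf n d v).card : ℝ) ^ 2 := by
      rw [wd, w2]
      split_ifs with h5 h6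
      · exfalso
        apply h
        rcases h5 with ⟨h6, h7⟩ | ⟨h6, h7⟩
        · exact LR_sep h6 h7
        · exact sep_symm (LR_sep h7 h6)
      · exact le_rfl
      · positivity
    refine h4.trans ?_
    calc 1 / ((Lf n d v).card : ℝ) ^ 2 ≤ 1 / (Nd n (d + 1) / 3) ^ 2 := by
          refine one_div_le_one_div_of_le (by positivity) ?_
          exact pow_le_pow_left₀ h3.le h1 2
      _ = 9 / Nd n (d + 1) ^ 2 := by
          field_simp
          norm_num

theorem wg_nonneg (v u t : Fin n) : 0 ≤ wg n v u t :=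
  Finset.sum_nonneg fun d _ => wd_nonneg d v u t

end Pool.Agent.helper7.LT
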