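import Pool.Agent.helper7.LT.ChL
import Pool.Agent.helper7.LT.W2

/-!
# LT-ChA: the contribution of one depth to the chain sum

PROOF.  Let `N = Nd n d`, `Nd n (d + 1) = N / 2 ≥ 3` (as `d + 1 ≤ dA`).  In the sum only the `(x, u)` with `Sep d x.1 u`,
`Sep d x.1 t` contribute (`wd_ne`); then `u`, `t` are in the same block of depth `d + 1` (`sep_block`).
(1) If `Sep (d + 1) u t` the weight is at most `3 / Nd n (d + 1) = 6 / N` (`wd_le`).  The number of these `(x, u)` with colour `k`
is at most the number of ordered pairs `(x, y)`, `y = par x u`, of colour `k`, with `Sep d x.1 t`, `Sep (d + 1) y.1 t`, all in the block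
of depth `d` of `t`.  Either both are light at depth `d`: at most `lc c k d (blk n d t)` pairs, or `x` is heavy: at most
`dg c k x d` pairs for each such `x` with `Sep d x.1 t`, or `y` is heavy: at most `dg c k y d` pairs for each such `y` with
`Sep (d + 1) y.1 t` (use the symmetry of `c`).  By `heavy_le` and `GP.light` the number is at most
`1748 * β * N ^ 2 / n + 984 * N ^ (7 / 8) + 82 / 2 ^ d * (sD c k t d + sD c k t (d + 1))`.
(2) Otherwise the weight is at most `9 / Nd n (d + 1) ^ 2 = 36 / N ^ 2` (`wd_le2`), and the number of all `(x, u)` of colour `k`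
inside the block of depth `d` of `t` is at most `oc c k d (blk n d t)` (`(x, u) ↦ (x, par x u)` is injective).
Total: `(6 / N) * (...) + (36 / N ^ 2) * oc`, and `(6 / N) * 82 / 2 ^ d = 492 / n`.
-/

set_option autoImplicit false

open Finset
open scoped Classical

namespace Pool.Agent.helper7.LT

variable {n : ℕ} {C : Type}

/-- sum of the degrees of the vertices separated from `t` at depth `d` -/
noncomputable def sD (c : P n → P n → C) (k : C) (t : Fin n) (d : ℕ) : ℝ :=
  ∑ v ∈ univ.filter (fun v : P n => Sep d v.1 t), (Dg c k v : ℝ)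

private theorem ChA_par_inj {x : P n} {u v : Fin n} (h : par x u = par x v) : u = v := by
  unfold par at h
  exact (Prod.mk.inj h).1

private theorem ChA_par_fst (x : P n) (u : Fin n) : (par x u).1 = u := rfl

/-- the number of the pairs at depth `d + 1` of one step -/
private theorem ChA_card1 {c : P n → P n → C} {dA : ℕ} {β : ℝ}
    (h : GP c dA β) (h1 : 1 ≤ Nd n dA) {d : ℕ} (hd : d ≤ dA) (k : C) (Q : Fin n → Prop) :
    (((univ.filter fun e : P n × P n => ¬ Lt c d k e.1 ∧ Q e.1.1 ∧ e.2 ≠ e.1 ∧ c e.1 e.2 = k ∧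
      blk n d e.2.1 = blk n d e.1.1).card : ℕ) : ℝ) ≤
      82 / 2 ^ d * ∑ v ∈ univ.filter (fun v : P n => Q v.1), (Dg c k v : ℝ) := by
  rw [Finset.card_filter, Fintype.sum_prod_type, Finset.mul_sum, Finset.sum_filter]
  push_cast
  apply Finset.sum_le_sum
  intro v _
  by_cases hQ : Q v.1
  · by_cases hL : Lt c d k v
    · simp only [hL, not_true_eq_false, false_and, if_false, Finset.sum_const_zero, hQ, if_true]
      positivity
    · have h2 := heavy_le h h1 hd hL
      have h3 : (∑ y : P n, if ¬ Lt c d k v ∧ Q v.1 ∧ y ≠ v ∧ c v y = k ∧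
          blk n d y.1 = blk n d v.1 then (1 : ℝ) else 0) = (dg c k v d : ℝ) := by
        unfold dg
        rw [Finset.card_filter]
        push_cast
        apply Finset.sum_congr rfl
        intro y _
        simp only [hL, hQ, not_false_eq_true, true_and]
      rw [h3, if_pos hQ]
      calc (dg c k v d : ℝ) ≤ 82 * ((Dg c k v : ℝ) / 2 ^ d) := h2
        _ = 82 / 2 ^ d * (Dg c k v : ℝ) := by ring
  · simp only [hQ, false_and, and_false, if_false, Finset.sum_const_zero, le_refl]

theorem chain_step {c : P n → P n → C} (hc : ∀ x y, c x y = c y x) {dA : ℕ} {β : ℝ}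
    (h : GP c dA β) (h3 : 3 ≤ Nd n dA) (h0 : 0 ≤ β) {d : ℕ} (hd : d < dA) (k : C) (t : Fin n) :
    (∑ x : P n, ∑ u : Fin n, if c x (par x u) = k then wd n d x.1 u t else 0) ≤
      6 / Nd n d * (1748 * β * Nd n d ^ 2 / n + 984 * Nd n d ^ (7 / 8 : ℝ)) +
      492 / n * (sD c k t d + sD c k t (d + 1)) +
      36 / Nd n d ^ 2 * (oc c k d (blk n d t) : ℝ) := by
  have hN3 : 3 ≤ Nd n (d + 1) := h3.trans (Nd_mono hd)
  have hNN : Nd n (d + 1) = Nd n d / 2 := by
    unfold Nd
    rw [pow_succ]
    field_simp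
  have hN : 0 < Nd n d := by linarith
  have h1 : 1 ≤ Nd n dA := by linarith
  have hn : (0 : ℝ) < n := lt_of_lt_of_le hN (Nd_le d)
  have hNn : Nd n d * 2 ^ d = n := by
    unfold Nd
    field_simp
  have hpow : 0 ≤ Nd n d ^ (7 / 8 : ℝ) := Real.rpow_nonneg hN.le _
  -- the contributing pairs
  set S : Finset (P n × Fin n) := univ.filter fun e =>
    c e.1 (par e.1 e.2) = k ∧ Sep d e.1.1 e.2 ∧ Sep d e.1.1 t with hS
  set S1 : Finset (P n × Fin n) := S.filter fun e => Sep (d + 1) e.2 t with hS1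
  set S2 : Finset (P n × Fin n) := S.filter fun e => ¬ Sep (d + 1) e.2 t with hS2
  have hsum : (∑ x : P n, ∑ u : Fin n, if c x (par x u) = k then wd n d x.1 u t else 0) =
      ∑ e ∈ S, wd n d e.1.1 e.2 t := by
    rw [← Fintype.sum_prod_type' (fun (x : P n) (u : Fin n) =>
      if c x (par x u) = k then wd n d x.1 u t else 0), hS, Finset.sum_filter]
    apply Finset.sum_congr rfl
    rintro ⟨x, u⟩ _
    simp only
    by_cases hk : c x (par x u) = k
    · by_cases hw : wd n d x.1 u t = 0
      · rw [hw]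
        simp
      · have := wd_ne hw
        simp only [hk, this.1, this.2, and_self, if_true]
    · simp only [hk, false_and, if_false]
  have hsplit : ∑ e ∈ S, wd n d e.1.1 e.2 t ≤
      (S1.card : ℝ) * (6 / Nd n d) + (S2.card : ℝ) * (36 / Nd n d ^ 2) := by
    rw [← Finset.sum_filter_add_sum_filter_not S (fun e => Sep (d + 1) e.2 t)]
    apply add_le_add
    · rw [← nsmul_eq_mul]
      apply Finset.sum_le_card_nsmul
      intro e _
      have := wd_le e.1.1 e.2 t hN3
      calc wd n d e.1.1 e.2 t ≤ 3 / Nd n (d + 1) := this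
        _ = 6 / Nd n d := by
          rw [hNN]
          field_simp
          norm_num
    · rw [← nsmul_eq_mul]
      apply Finset.sum_le_card_nsmul
      intro e he
      have := wd_le2 (v := e.1.1) hN3 (Finset.mem_filter.1 he).2
      calc wd n d e.1.1 e.2 t ≤ 9 / Nd n (d + 1) ^ 2 := this
        _ = 36 / Nd n d ^ 2 := by
          rw [hNN]
          field_simp
          norm_num
  have hc2 : (S2.card : ℝ) ≤ (oc c k d (blk n d t) : ℝ) := by
    unfold oc
    have : S2.card ≤ (univ.filter fun e : P n × P n => e.1 ≠ e.2 ∧ c e.1 e.2 = k ∧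
        blk n d e.1.1 = blk n d t ∧ blk n d e.2.1 = blk n d t).card := by
      apply Finset.card_le_card_of_injOn (fun e => (e.1, par e.1 e.2))
      · rintro ⟨x, u⟩ he
        have he' := (Finset.mem_filter.1 (Finset.mem_filter.1 (Finset.mem_coe.1 he)).1).2
        simp only at he'
        obtain ⟨hk, hu, ht⟩ := he'
        simp only [Finset.coe_filter, Finset.mem_univ, true_and, Set.mem_ofPred_eq]
        refine ⟨?_, hk, ht.1, ?_⟩
        · intro hx
          exact sep_ne hu (by rw [hx, ChA_par_fst])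
        · rw [ChA_par_fst, ← hu.1, ht.1]
      · rintro ⟨x, u⟩ _ ⟨y, v⟩ _ hxy
        simp only [Prod.mk.injEq] at hxy ⊢
        obtain ⟨hx, hp⟩ := hxy
        subst hx
        exact ⟨rfl, ChA_par_inj hp⟩
    exact_mod_cast this
  have hc1 : (S1.card : ℝ) ≤ 1748 * β * Nd n d ^ 2 / n + 984 * Nd n d ^ (7 / 8 : ℝ) +
      82 / 2 ^ d * (sD c k t d + sD c k t (d + 1)) := by
    set LL : Finset (P n × P n) := univ.filter fun e => e.1 ≠ e.2 ∧ c e.1 e.2 = k ∧
      blk n d e.1.1 = blk n d t ∧ blk n d e.2.1 = blk n d t ∧ Lt c d k e.1 ∧ Lt c d k e.2 with hLL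
    set HX : Finset (P n × P n) := univ.filter fun e => ¬ Lt c d k e.1 ∧ Sep d e.1.1 t ∧
      e.2 ≠ e.1 ∧ c e.1 e.2 = k ∧ blk n d e.2.1 = blk n d e.1.1 with hHX
    set HY : Finset (P n × P n) := univ.filter fun e => ¬ Lt c d k e.1 ∧ Sep (d + 1) e.1.1 t ∧
      e.2 ≠ e.1 ∧ c e.1 e.2 = k ∧ blk n d e.2.1 = blk n d e.1.1 with hHY
    have hle : S1.card ≤ LL.card + HX.card + HY.card := by
      have h4 : S1.card ≤ ((LL ∪ HX) ∪ HY.map (Equiv.prodComm (P n) (P n)).toEmbedding).card := by
        apply Finset.card_le_card_of_injOn (fun e => (e.1, par e.1 e.2))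
        · rintro ⟨x, u⟩ he
          have he1 := Finset.mem_filter.1 (Finset.mem_coe.1 he)
          have he' := (Finset.mem_filter.1 he1.1).2
          have he2 := he1.2
          simp only at he' he2
          obtain ⟨hk, hu, ht⟩ := he'
          have hxy : x ≠ par x u := fun hx => sep_ne hu (by rw [← ChA_par_fst x u, ← hx])
          rw [Finset.mem_coe, Finset.mem_union, Finset.mem_union]
          by_cases hx : Lt c d k x
          · by_cases hy : Lt c d k (par x u)
            · left; left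
              rw [hLL, Finset.mem_filter]
              exact ⟨Finset.mem_univ _, hxy, hk, ht.1, (by rw [ChA_par_fst, ← hu.1, ht.1]), hx, hy⟩
            · right
              rw [Finset.mem_map]
              refine ⟨(par x u, x), ?_, rfl⟩
              rw [hHY, Finset.mem_filter]
              exact ⟨Finset.mem_univ _, hy, he2, hxy, (hc _ _).trans hk, hu.1⟩
          · left; right
            rw [hHX, Finset.mem_filter]
            exact ⟨Finset.mem_univ _, hx, ht, hxy.symm, hk, hu.1.symm⟩
        · rintro ⟨x, u⟩ _ ⟨y, v⟩ _ hxy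
          simp only [Prod.mk.injEq] at hxy ⊢
          obtain ⟨hx, hp⟩ := hxy
          subst hx
          exact ⟨rfl, ChA_par_inj hp⟩
      refine h4.trans ((Finset.card_union_le _ _).trans ?_)
      rw [Finset.card_map]
      exact Nat.add_le_add_right (Finset.card_union_le _ _) _
    have hle' : (S1.card : ℝ) ≤ LL.card + HX.card + HY.card := by exact_mod_cast hle
    have hl1 : (LL.card : ℝ) ≤ 1748 * β * Nd n d ^ 2 / n + 984 * Nd n d ^ (7 / 8 : ℝ) :=
      h.light d hd.le (blk n d t) k
    have hl2 : (HX.card : ℝ) ≤ 82 / 2 ^ d * sD c k t d :=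
      ChA_card1 h h1 hd.le k (fun v => Sep d v t)
    have hl3 : (HY.card : ℝ) ≤ 82 / 2 ^ d * sD c k t (d + 1) :=
      ChA_card1 h h1 hd.le k (fun v => Sep (d + 1) v t)
    calc (S1.card : ℝ) ≤ LL.card + HX.card + HY.card := hle'
      _ ≤ (1748 * β * Nd n d ^ 2 / n + 984 * Nd n d ^ (7 / 8 : ℝ)) + 82 / 2 ^ d * sD c k t d +
          82 / 2 ^ d * sD c k t (d + 1) := by gcongr
      _ = _ := by ring
  rw [hsum]
  refine hsplit.trans ?_
  have h5 : (S1.card : ℝ) * (6 / Nd n d) ≤
      (1748 * β * Nd n d ^ 2 / n + 984 * Nd n d ^ (7 / 8 : ℝ) +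
      82 / 2 ^ d * (sD c k t d + sD c k t (d + 1))) * (6 / Nd n d) := by gcongr
  have h6 : (S2.card : ℝ) * (36 / Nd n d ^ 2) ≤
      (oc c k d (blk n d t) : ℝ) * (36 / Nd n d ^ 2) := by gcongr
  have h7 : (6 : ℝ) / Nd n d * (82 / 2 ^ d) = 492 / n := by
    rw [← hNn]
    field_simp
    norm_num
  calc _ ≤ _ := add_le_add h5 h6
    _ = 6 / Nd n d * (1748 * β * Nd n d ^ 2 / n + 984 * Nd n d ^ (7 / 8 : ℝ)) +
      (6 / Nd n d * (82 / 2 ^ d)) * (sD c k t d + sD c k t (d + 1)) +
      36 / Nd n d ^ 2 * (oc c k d (blk n d t) : ℝ) := by ring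
    _ = _ := by rw [h7]

end Pool.Agent.helper7.LT
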