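import Pool.Agent.helper7.LT.Defs

/-!
author: helper41
# LT-ChL: degrees and loads inside blocks

Let `N = Nd n d`, `N₀ = Nd n dA`; for `d ≤ dA`: `1 ≤ N₀ ≤ N ≤ n` (`n` is positive because `1 ≤ N₀`).
* `Dg_le`: `y ↦ (v, y)` maps the set of `Dg` into the set of `Oc`.  `Dg_sum`: `∑ v, Dg c k v = Oc c k`
  (`Finset.card_sigma` or `Finset.card_filter` and `Fintype.sum_prod_type`).
* `heavy_le`: if `v` is not light at depth `d` (`¬ Lt c d k v`) then `N ^ (1 / 16) < Dg / 2 ^ d`, so the maximum is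
  `Dg / 2 ^ d > N ^ (1 / 16) ≥ 1`, and `dg ≤ 81 * (Dg / 2 ^ d) + 1 ≤ 82 * (Dg / 2 ^ d)`.
* `gp_deg`: `dg ≤ 81 * max ... + 1 ≤ 81 * (Dg / 2 ^ d) + 81 * N ^ (1 / 16) + 1 ≤ 81 * β * N + 82 * N ^ (1 / 16)`
  (`Dg ≤ Oc ≤ β * n`, `n / 2 ^ d = N`), and `N ^ (1 / 16) = N * N ^ (-15 / 16) ≤ N * N₀ ^ (-15 / 16)`.
* `gp_load`: the pairs counted by `oc` are light pairs or one of the two vertices is heavy; the number of the
  pairs with a heavy vertex `v` of the block is at most `2 * dg c k v d ≤ 164 * Dg / 2 ^ d` (`hc` for the pairs `(y, v)`), the sum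
  over `v` is at most `164 * Oc / 2 ^ d ≤ 164 * β * N`.  So
  `oc ≤ 1748 * β * N ^ 2 / n + 984 * N ^ (7 / 8) + 164 * β * N ≤ (1912 * β + 984 * N₀ ^ (-1 / 8)) * N`
  (`N ≤ n`, `N ^ (7 / 8) = N * N ^ (-1 / 8) ≤ N * N₀ ^ (-1 / 8)`).
-/

set_option autoImplicit false

open Finset
open scoped Classical

namespace Pool.Agent.helper7.LT

variable {n : ℕ} {C : Type}

theorem Nd_mono {d e : ℕ} (h : d ≤ e) : Nd n e ≤ Nd n d := by
  unfold Nd
  have h1 : (2 : ℝ) ^ d ≤ 2 ^ e := pow_le_pow_right₀ (by norm_num) h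
  exact div_le_div_of_nonneg_left (Nat.cast_nonneg n) (by positivity) h1

theorem Nd_le (d : ℕ) : Nd n d ≤ n := by
  unfold Nd
  have h1 : (1 : ℝ) ≤ 2 ^ d := one_le_pow₀ (by norm_num)
  exact div_le_self (Nat.cast_nonneg n) h1

theorem Dg_le (c : P n → P n → C) (k : C) (v : P n) : Dg c k v ≤ Oc c k := by
  unfold Dg Oc
  refine Finset.card_le_card_of_injOn (fun y => (v, y)) ?_ ?_
  · intro y hy
    have hy' := (Finset.mem_filter.1 hy).2
    exact Finset.mem_coe.2 (Finset.mem_filter.2 ⟨Finset.mem_univ _, hy'.1.symm, hy'.2⟩)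
  · intro y _ y' _ h
    exact (Prod.mk.inj h).2

theorem Dg_sum (c : P n → P n → C) (k : C) : ∑ v, Dg c k v = Oc c k := by
  unfold Dg Oc
  simp only [Finset.card_filter]
  have h2 := Fintype.sum_prod_type
    (fun e : P n × P n => if e.1 ≠ e.2 ∧ c e.1 e.2 = k then (1 : ℕ) else 0)
  rw [h2]
  refine Finset.sum_congr rfl fun v _ => Finset.sum_congr rfl fun y _ => ?_
  simp only [ne_comm]

private theorem ChL_pow_ge_one {N : ℝ} (h : 1 ≤ N) : 1 ≤ N ^ (1 / 16 : ℝ) :=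
  Real.one_le_rpow h (by norm_num)

private theorem ChL_neg {N N₀ : ℝ} (h0 : 1 ≤ N₀) (h : N₀ ≤ N) {z : ℝ} (hz : z ≤ 0) :
    N ^ (1 + z) ≤ N₀ ^ z * N := by
  have h1 : (0 : ℝ) < N := by linarith
  rw [Real.rpow_add h1, Real.rpow_one, mul_comm]
  exact mul_le_mul_of_nonneg_right
    (Real.rpow_le_rpow_of_nonpos (by linarith) h hz) h1.le

theorem heavy_le {c : P n → P n → C} {dA : ℕ} {β : ℝ} (h : GP c dA β) (h1 : 1 ≤ Nd n dA)
    {d : ℕ} (hd : d ≤ dA) {k : C} {v : P n} (hv : ¬ Lt c d k v) :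
    (dg c k v d : ℝ) ≤ 82 * ((Dg c k v : ℝ) / 2 ^ d) := by
  have h2 := h.deg d hd v k
  unfold Lt at hv
  push Not at hv
  rw [max_eq_left hv.le] at h2
  have h3 := ChL_pow_ge_one (h1.trans (Nd_mono (n := n) hd))
  linarith

theorem gp_deg {c : P n → P n → C} {dA : ℕ} {β : ℝ} (h : GP c dA β) (h1 : 1 ≤ Nd n dA)
    (hβ : ∀ k, (Oc c k : ℝ) ≤ β * n) {d : ℕ} (hd : d ≤ dA) (v : P n) (k : C) :
    (dg c k v d : ℝ) ≤ (81 * β + 82 * Nd n dA ^ (-(15 / 16) : ℝ)) * Nd n d := by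
  have h2 := h.deg d hd v k
  have hN := Nd_mono (n := n) hd
  have h3 := ChL_pow_ge_one (h1.trans hN)
  have h4 : (Dg c k v : ℝ) / 2 ^ d ≤ β * Nd n d := by
    have h5 : (Dg c k v : ℝ) ≤ β * n := (Nat.cast_le.2 (Dg_le c k v)).trans (hβ k)
    unfold Nd
    rw [← mul_div_assoc]
    exact div_le_div_of_nonneg_right h5 (by positivity)
  have h6 : 0 ≤ (Dg c k v : ℝ) / 2 ^ d := by positivity
  have h7 : max ((Dg c k v : ℝ) / 2 ^ d) (Nd n d ^ (1 / 16 : ℝ)) ≤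
      (Dg c k v : ℝ) / 2 ^ d + Nd n d ^ (1 / 16 : ℝ) := by
    refine max_le ?_ ?_ <;> linarith
  have h8 := ChL_neg h1 hN (z := -(15 / 16)) (by norm_num)
  have h9 : (1 + -(15 / 16) : ℝ) = 1 / 16 := by norm_num
  rw [h9] at h8
  rw [add_mul]
  linarith

/-- pairs with a heavy first vertex -/
private theorem ChL_heavy {c : P n → P n → C} {dA : ℕ} {β : ℝ} (h : GP c dA β)
    (h1 : 1 ≤ Nd n dA) {d : ℕ} (hd : d ≤ dA) (b : ℕ) (k : C) :
    (((univ.filter fun e : P n × P n => (e.1 ≠ e.2 ∧ c e.1 e.2 = k ∧ blk n d e.1.1 = b ∧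
      blk n d e.2.1 = b) ∧ ¬ Lt c d k e.1).card : ℕ) : ℝ) ≤ 82 * ((Oc c k : ℝ) / 2 ^ d) := by
  have h2 := Finset.card_eq_sum_card_fiberwise (f := Prod.fst)
    (s := univ.filter fun e : P n × P n => (e.1 ≠ e.2 ∧ c e.1 e.2 = k ∧ blk n d e.1.1 = b ∧
      blk n d e.2.1 = b) ∧ ¬ Lt c d k e.1) (t := univ) (fun e _ => by simp)
  rw [h2, Nat.cast_sum, ← Dg_sum, Nat.cast_sum, Finset.sum_div, Finset.mul_sum]
  refine Finset.sum_le_sum fun v _ => ?_
  by_cases hv : Lt c d k v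
  · have h3 : (univ.filter fun e : P n × P n => (e.1 ≠ e.2 ∧ c e.1 e.2 = k ∧
        blk n d e.1.1 = b ∧ blk n d e.2.1 = b) ∧ ¬ Lt c d k e.1).filter (fun e => e.1 = v) = ∅ := by
      refine Finset.filter_eq_empty_iff.2 fun e he hev => ?_
      have := (Finset.mem_filter.1 he).2.2
      rw [hev] at this
      exact this hv
    rw [h3, Finset.card_empty]
    simp only [Nat.cast_zero]
    positivity
  · refine le_trans ?_ (heavy_le h h1 hd hv)
    refine Nat.cast_le.2 ?_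
    unfold dg
    refine Finset.card_le_card_of_injOn Prod.snd ?_ ?_
    · intro e he
      obtain ⟨he1, he2⟩ := Finset.mem_filter.1 he
      obtain ⟨⟨e1, e2, e3, e4⟩, e5⟩ := (Finset.mem_filter.1 he1).2
      refine Finset.mem_coe.2 (Finset.mem_filter.2 ⟨Finset.mem_univ _, ?_, ?_, ?_⟩)
      · rw [← he2]
        exact e1.symm
      · rw [← he2]
        exact e2
      · rw [← he2, e3, e4]
    · intro e he e' he' hee
      have he2 := (Finset.mem_filter.1 he).2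
      have he2' := (Finset.mem_filter.1 he').2
      exact Prod.ext (he2.trans he2'.symm) hee

theorem gp_load {c : P n → P n → C} (hc : ∀ x y, c x y = c y x) {dA : ℕ} {β : ℝ}
    (h : GP c dA β) (h1 : 1 ≤ Nd n dA) (h0 : 0 ≤ β) (hβ : ∀ k, (Oc c k : ℝ) ≤ β * n) {d : ℕ}
    (hd : d ≤ dA) (b : ℕ) (k : C) :
    (oc c k d b : ℝ) ≤ (1912 * β + 984 * Nd n dA ^ (-(1 / 8) : ℝ)) * Nd n d := by
  have hN := Nd_mono (n := n) hd
  have hN1 : 1 ≤ Nd n d := h1.trans hN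
  have hn1 : (1 : ℝ) ≤ n := hN1.trans (Nd_le d)
  -- splitting
  set A := univ.filter fun e : P n × P n => (e.1 ≠ e.2 ∧ c e.1 e.2 = k ∧ blk n d e.1.1 = b ∧
      blk n d e.2.1 = b) ∧ ¬ Lt c d k e.1 with hA
  have hsub : oc c k d b ≤ lc c k d b + A.card + (A.image Prod.swap).card := by
    unfold oc lc
    refine le_trans (Finset.card_le_card ?_) ((Finset.card_union_le _ _).trans
      (Nat.add_le_add_right (Finset.card_union_le _ _) _))
    intro e he
    obtain ⟨e1, e2, e3, e4⟩ := (Finset.mem_filter.1 he).2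
    by_cases l1 : Lt c d k e.1
    · by_cases l2 : Lt c d k e.2
      · exact Finset.mem_union_left _ (Finset.mem_union_left _
          (Finset.mem_filter.2 ⟨Finset.mem_univ _, e1, e2, e3, e4, l1, l2⟩))
      · refine Finset.mem_union_right _ (Finset.mem_image.2 ⟨e.swap, ?_, Prod.swap_swap e⟩)
        exact Finset.mem_filter.2 ⟨Finset.mem_univ _, ⟨e1.symm, by rw [hc]; exact e2, e4, e3⟩, l2⟩
    · exact Finset.mem_union_left _ (Finset.mem_union_right _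
        (Finset.mem_filter.2 ⟨Finset.mem_univ _, ⟨e1, e2, e3, e4⟩, l1⟩))
  have hA1 : (A.card : ℝ) ≤ 82 * ((Oc c k : ℝ) / 2 ^ d) := ChL_heavy h h1 hd b k
  have hA2 : ((A.image Prod.swap).card : ℝ) ≤ 82 * ((Oc c k : ℝ) / 2 ^ d) :=
    le_trans (Nat.cast_le.2 Finset.card_image_le) hA1
  have hO : (Oc c k : ℝ) / 2 ^ d ≤ β * Nd n d := by
    unfold Nd
    rw [← mul_div_assoc]
    exact div_le_div_of_nonneg_right (hβ k) (by positivity)
  have hs : (oc c k d b : ℝ) ≤ lc c k d b + A.card + (A.image Prod.swap).card := by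
    exact_mod_cast hsub
  have hl := h.light d hd b k
  have h5 : 1748 * β * Nd n d ^ 2 / n ≤ 1748 * β * Nd n d := by
    rw [div_le_iff₀ (by linarith)]
    have h6 : Nd n d ^ 2 ≤ Nd n d * n := by
      rw [pow_two]
      exact mul_le_mul_of_nonneg_left (Nd_le d) (by linarith)
    have := mul_le_mul_of_nonneg_left h6 (show 0 ≤ 1748 * β by linarith)
    linarith
  have h8 := ChL_neg h1 hN (z := -(1 / 8)) (by norm_num)
  have h9 : (1 + -(1 / 8) : ℝ) = 7 / 8 := by norm_num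
  rw [h9] at h8
  rw [add_mul]
  linarith

end Pool.Agent.helper7.LT
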