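import Pool.Agent.helper7.LT.Defs

/-!
# LT-Cnt1: two edges of the same colour inside a block

The sets `{x, y, z}` with `c x y = c x z` and `{x, y, z, w}` with `c x y = c z w` (different vertices).  The sum over the `W` with
`x₀ ∈ W` is at most the sum over the tuples which contain `x₀`.
* Triples: `x₀ = x`: for every `y` (`2 n`) there are at most `Dg c (c x y) x ≤ Oc ≤ β * n` vertices `z`; `x₀ = y`: for every `x` at
  most `Dg c (c x y) x` vertices `z`; `x₀ = z` the same.  Together at most `6 * β * n ^ 2`; every term is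
  `2 ^ d * (4 * exp 1 / 2 ^ d) ^ 3 = 64 * exp 3 / 4 ^ d`; `n ^ 2 / 4 ^ d = Nd n d ^ 2`: total `384 * exp 3 * β * Nd ^ 2`.
* Quadruples: for `x₀ = x` (or `y`): for every `y` (or `x`) at most `Oc c (c x y) ≤ β * n` pairs `(z, w)`; for `x₀ = z` (or `w`): for
  every `w` (or `z`) at most `β * n` pairs `(x, y)`.  Together at most `8 * β * n ^ 2`; every term is
  `2 ^ d * (4 * exp 1 / 2 ^ d) ^ 4 = 256 * exp 4 / 8 ^ d`: total `2048 * exp 4 * β * Nd ^ 3 / n ≤ 2048 * exp 4 * β * Nd ^ 2`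
  (`Nd ≤ n`; for `n = 0` there is no `x₀`).
* `384 * exp 3 + 2048 * exp 4 ≤ 120000` (it is `119529.8...`; `exp 1 < 2.7182818286`, `Real.exp_one_lt_d9`).
* `F1c_card`: the sets have `3` or `4` elements.
-/

set_option autoImplicit false

open Finset
open scoped Classical

namespace Pool.Agent.helper7.LT

variable {n : ℕ} {C : Type}

/-- the vertex sets of two different edges of the same colour -/
noncomputable def F1c (c : P n → P n → C) : Finset (Finset (P n)) :=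
  univ.filter fun W =>
    (∃ x y z : P n, x ≠ y ∧ x ≠ z ∧ y ≠ z ∧ c x y = c x z ∧ W = {x, y, z}) ∨
    ∃ x y z w : P n, x ≠ y ∧ x ≠ z ∧ x ≠ w ∧ y ≠ z ∧ y ≠ w ∧ z ≠ w ∧ c x y = c z w ∧
      W = {x, y, z, w}

private theorem Cnt1_card3 {x y z : P n} (h1 : x ≠ y) (h2 : x ≠ z) (h3 : y ≠ z) :
    ({x, y, z} : Finset (P n)).card = 3 := by
  rw [Finset.card_insert_of_notMem, Finset.card_insert_of_notMem, Finset.card_singleton]
  · simpa using h3
  · simpa using ⟨h1, h2⟩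

private theorem Cnt1_card4 {x y z w : P n} (h1 : x ≠ y) (h2 : x ≠ z) (h3 : x ≠ w) (h4 : y ≠ z)
    (h5 : y ≠ w) (h6 : z ≠ w) : ({x, y, z, w} : Finset (P n)).card = 4 := by
  rw [Finset.card_insert_of_notMem, Cnt1_card3 h4 h5 h6]
  simpa using ⟨h1, h2, h3⟩

theorem F1c_card (c : P n → P n → C) : ∀ W ∈ F1c c, W.Nonempty ∧ W.card ≤ 4 := by
  intro W hW
  unfold F1c at hW
  rcases (Finset.mem_filter.1 hW).2 with ⟨x, y, z, h1, h2, h3, -, rfl⟩ |
    ⟨x, y, z, w, h1, h2, h3, h4, h5, h6, -, rfl⟩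
  · exact ⟨Finset.insert_nonempty _ _, by rw [Cnt1_card3 h1 h2 h3]; norm_num⟩
  · exact ⟨Finset.insert_nonempty _ _, by rw [Cnt1_card4 h1 h2 h3 h4 h5 h6]⟩

private theorem Cnt1_cover {A : Type} {ι : Type} [Fintype ι] (S : Finset A) (Q : ι → A → Prop)
    (f : A → ℝ) (hf : ∀ a, 0 ≤ f a) (h : ∀ a ∈ S, ∃ i, Q i a) :
    ∑ a ∈ S, f a ≤ ∑ i, ∑ a ∈ S.filter (Q i), f a := by
  have h1 : ∀ i, ∑ a ∈ S.filter (Q i), f a = ∑ a ∈ S, if Q i a then f a else 0 := fun i =>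
    Finset.sum_filter _ _
  simp only [h1]
  rw [Finset.sum_comm]
  refine Finset.sum_le_sum fun a ha => ?_
  obtain ⟨i, hi⟩ := h a ha
  have h2 := Finset.single_le_sum (f := fun i => if Q i a then f a else 0)
    (fun j _ => by
      show 0 ≤ (if Q j a then f a else 0)
      split_ifs
      · exact hf a
      · exact le_rfl) (Finset.mem_univ i)
  simpa [hi] using h2

private theorem Cnt1_core {B : Type} [Fintype B] (S : Finset (Finset (P n)))
    (f : Finset (P n) → ℝ) (Q : P n → B → Prop) (g : P n → B → Finset (P n)) (v K : ℝ)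
    (hv : 0 ≤ v) (hK : ∀ a, ((univ.filter (Q a)).card : ℝ) ≤ K)
    (h : ∀ W ∈ S, f W = v ∧ ∃ a b, Q a b ∧ g a b = W) :
    ∑ W ∈ S, f W ≤ 2 * n * K * v := by
  have h1 : ∑ W ∈ S, f W = S.card * v := by
    rw [Finset.sum_congr rfl (fun W hW => (h W hW).1), Finset.sum_const, nsmul_eq_mul]
  rw [h1]
  refine mul_le_mul_of_nonneg_right ?_ hv
  have h2 : S ⊆ (univ.filter fun p : P n × B => Q p.1 p.2).image fun p => g p.1 p.2 := by
    intro W hW
    obtain ⟨-, a, b, hab, hg⟩ := h W hW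
    exact Finset.mem_image.2 ⟨(a, b), Finset.mem_filter.2 ⟨Finset.mem_univ _, hab⟩, hg⟩
  have h3 : S.card ≤ (univ.filter fun p : P n × B => Q p.1 p.2).card :=
    (Finset.card_le_card h2).trans Finset.card_image_le
  have h4 : (univ.filter fun p : P n × B => Q p.1 p.2).card =
      ∑ a : P n, (univ.filter (Q a)).card := by
    simp only [Finset.card_filter, Fintype.sum_prod_type]
  calc (S.card : ℝ) ≤ ((univ.filter fun p : P n × B => Q p.1 p.2).card : ℝ) := by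
        exact_mod_cast h3
    _ = ∑ a : P n, ((univ.filter (Q a)).card : ℝ) := by rw [h4]; push_cast; rfl
    _ ≤ ∑ _a : P n, K := Finset.sum_le_sum fun a _ => hK a
    _ = 2 * n * K := by
        rw [Finset.sum_const, Finset.card_univ, Fintype.card_prod, Fintype.card_fin,
          Fintype.card_bool, nsmul_eq_mul]
        push_cast
        ring

private theorem Cnt1_Dg_le (c : P n → P n → C) (k : C) (v : P n) : Dg c k v ≤ Oc c k := by
  unfold Dg Oc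
  refine Finset.card_le_card_of_injOn (fun y => (v, y)) ?_ ?_
  · intro y hy
    rw [Finset.mem_coe, Finset.mem_filter] at hy
    rw [Finset.mem_coe, Finset.mem_filter]
    exact ⟨Finset.mem_univ _, hy.2.1.symm, hy.2.2⟩
  · intro y _ y' _ h
    exact (Prod.ext_iff.1 h).2

theorem cnt1 (c : P n → P n → C) (d : ℕ) (β : ℝ) (h0 : 0 ≤ β)
    (hβ : ∀ k, (Oc c k : ℝ) ≤ β * n) (x₀ : P n) :
    ∑ W ∈ (F1c c).filter (fun W => x₀ ∈ W),
      (2 : ℝ) ^ d * (4 * Real.exp 1 / 2 ^ d) ^ W.card ≤ 120000 * β * Nd n d ^ 2 := by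
  set q : ℝ := 4 * Real.exp 1 / 2 ^ d with hq
  have hq0 : 0 ≤ q := by positivity
  have hDg : ∀ k v, (Dg c k v : ℝ) ≤ β * n := fun k v =>
    (Nat.cast_le.2 (Cnt1_Dg_le c k v)).trans (hβ k)
  let f : Finset (P n) → ℝ := fun W => (2 : ℝ) ^ d * q ^ W.card
  let Q : Fin 7 → Finset (P n) → Prop := fun i W =>
    match i with
    | 0 => W.card = 3 ∧ ∃ y z, (z ≠ x₀ ∧ c x₀ z = c x₀ y) ∧ W = {x₀, y, z}
    | 1 => W.card = 3 ∧ ∃ x z, (z ≠ x ∧ c x z = c x x₀) ∧ W = {x, x₀, z}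
    | 2 => W.card = 3 ∧ ∃ x y, (y ≠ x ∧ c x y = c x x₀) ∧ W = {x, y, x₀}
    | 3 => W.card = 4 ∧ ∃ (y : P n) (e : P n × P n), (e.1 ≠ e.2 ∧ c e.1 e.2 = c x₀ y) ∧
        W = {x₀, y, e.1, e.2}
    | 4 => W.card = 4 ∧ ∃ (x : P n) (e : P n × P n), (e.1 ≠ e.2 ∧ c e.1 e.2 = c x x₀) ∧
        W = {x, x₀, e.1, e.2}
    | 5 => W.card = 4 ∧ ∃ (w : P n) (e : P n × P n), (e.1 ≠ e.2 ∧ c e.1 e.2 = c x₀ w) ∧
        W = {e.1, e.2, x₀, w}
    | 6 => W.card = 4 ∧ ∃ (z : P n) (e : P n × P n), (e.1 ≠ e.2 ∧ c e.1 e.2 = c z x₀) ∧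
        W = {e.1, e.2, z, x₀}
  have hcov : ∀ W ∈ (F1c c).filter (fun W => x₀ ∈ W), ∃ i, Q i W := by
    intro W hW
    have hx := (Finset.mem_filter.1 hW).2
    have hW' := (Finset.mem_filter.1 hW).1
    unfold F1c at hW'
    rcases (Finset.mem_filter.1 hW').2 with ⟨x, y, z, h1, h2, h3, h4, rfl⟩ |
      ⟨x, y, z, w, h1, h2, h3, h4, h5, h6, h7, rfl⟩
    · have hc := Cnt1_card3 h1 h2 h3
      simp only [Finset.mem_insert, Finset.mem_singleton] at hx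
      rcases hx with rfl | rfl | rfl
      · exact ⟨0, hc, y, z, ⟨h2.symm, h4.symm⟩, rfl⟩
      · exact ⟨1, hc, x, z, ⟨h2.symm, h4.symm⟩, rfl⟩
      · exact ⟨2, hc, x, y, ⟨h1.symm, h4⟩, rfl⟩
    · have hc := Cnt1_card4 h1 h2 h3 h4 h5 h6
      simp only [Finset.mem_insert, Finset.mem_singleton] at hx
      rcases hx with rfl | rfl | rfl | rfl
      · exact ⟨3, hc, y, (z, w), ⟨h6, h7.symm⟩, rfl⟩
      · exact ⟨4, hc, x, (z, w), ⟨h6, h7.symm⟩, rfl⟩
      · exact ⟨5, hc, w, (x, y), ⟨h1, h7⟩, rfl⟩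
      · exact ⟨6, hc, z, (x, y), ⟨h1, h7⟩, rfl⟩
  have hsum := Cnt1_cover ((F1c c).filter (fun W => x₀ ∈ W)) Q f
    (fun W => by show 0 ≤ (2 : ℝ) ^ d * q ^ W.card; positivity) hcov
  have hv3 : (0 : ℝ) ≤ 2 ^ d * q ^ 3 := by positivity
  have hv4 : (0 : ℝ) ≤ 2 ^ d * q ^ 4 := by positivity
  have hb : ∀ i : Fin 7, ∑ W ∈ ((F1c c).filter (fun W => x₀ ∈ W)).filter (Q i), f W ≤
      if i.val < 3 then 2 * n * (β * n) * (2 ^ d * q ^ 3) else
        2 * n * (β * n) * (2 ^ d * q ^ 4) := by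
    intro i
    fin_cases i
    · refine Cnt1_core _ f (fun y z : P n => z ≠ x₀ ∧ c x₀ z = c x₀ y)
        (fun y z => {x₀, y, z}) _ (β * n) hv3 (fun y => by
        have h9 := hDg (c x₀ y) x₀
        unfold Dg at h9
        convert h9) ?_
      intro W hW
      obtain ⟨hc, y, z, h1, rfl⟩ := ((@Finset.mem_filter _ _ (_) _ _).1 hW).2
      exact ⟨by show (2 : ℝ) ^ d * q ^ _ = _; rw [hc], y, z, h1, rfl⟩
    · refine Cnt1_core _ f (fun x z : P n => z ≠ x ∧ c x z = c x x₀)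
        (fun x z => {x, x₀, z}) _ (β * n) hv3 (fun x => by
        have h9 := hDg (c x x₀) x
        unfold Dg at h9
        convert h9) ?_
      intro W hW
      obtain ⟨hc, x, z, h1, rfl⟩ := ((@Finset.mem_filter _ _ (_) _ _).1 hW).2
      exact ⟨by show (2 : ℝ) ^ d * q ^ _ = _; rw [hc], x, z, h1, rfl⟩
    · refine Cnt1_core _ f (fun x y : P n => y ≠ x ∧ c x y = c x x₀)
        (fun x y => {x, y, x₀}) _ (β * n) hv3 (fun x => by
        have h9 := hDg (c x x₀) x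
        unfold Dg at h9
        convert h9) ?_
      intro W hW
      obtain ⟨hc, x, y, h1, rfl⟩ := ((@Finset.mem_filter _ _ (_) _ _).1 hW).2
      exact ⟨by show (2 : ℝ) ^ d * q ^ _ = _; rw [hc], x, y, h1, rfl⟩
    · refine Cnt1_core _ f (fun (y : P n) (e : P n × P n) => e.1 ≠ e.2 ∧ c e.1 e.2 = c x₀ y)
        (fun y e => {x₀, y, e.1, e.2}) _ (β * n) hv4 (fun y => by
        have h9 := hβ (c x₀ y)
        unfold Oc at h9
        convert h9) ?_
      intro W hW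
      obtain ⟨hc, y, e, h1, rfl⟩ := ((@Finset.mem_filter _ _ (_) _ _).1 hW).2
      exact ⟨by show (2 : ℝ) ^ d * q ^ _ = _; rw [hc], y, e, h1, rfl⟩
    · refine Cnt1_core _ f (fun (y : P n) (e : P n × P n) => e.1 ≠ e.2 ∧ c e.1 e.2 = c y x₀)
        (fun y e => {y, x₀, e.1, e.2}) _ (β * n) hv4 (fun y => by
        have h9 := hβ (c y x₀)
        unfold Oc at h9
        convert h9) ?_
      intro W hW
      obtain ⟨hc, y, e, h1, rfl⟩ := ((@Finset.mem_filter _ _ (_) _ _).1 hW).2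
      exact ⟨by show (2 : ℝ) ^ d * q ^ _ = _; rw [hc], y, e, h1, rfl⟩
    · refine Cnt1_core _ f (fun (y : P n) (e : P n × P n) => e.1 ≠ e.2 ∧ c e.1 e.2 = c x₀ y)
        (fun y e => {e.1, e.2, x₀, y}) _ (β * n) hv4 (fun y => by
        have h9 := hβ (c x₀ y)
        unfold Oc at h9
        convert h9) ?_
      intro W hW
      obtain ⟨hc, y, e, h1, rfl⟩ := ((@Finset.mem_filter _ _ (_) _ _).1 hW).2
      exact ⟨by show (2 : ℝ) ^ d * q ^ _ = _; rw [hc], y, e, h1, rfl⟩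
    · refine Cnt1_core _ f (fun (y : P n) (e : P n × P n) => e.1 ≠ e.2 ∧ c e.1 e.2 = c y x₀)
        (fun y e => {e.1, e.2, y, x₀}) _ (β * n) hv4 (fun y => by
        have h9 := hβ (c y x₀)
        unfold Oc at h9
        convert h9) ?_
      intro W hW
      obtain ⟨hc, y, e, h1, rfl⟩ := ((@Finset.mem_filter _ _ (_) _ _).1 hW).2
      exact ⟨by show (2 : ℝ) ^ d * q ^ _ = _; rw [hc], y, e, h1, rfl⟩
  refine hsum.trans ((Finset.sum_le_sum fun i _ => hb i).trans ?_)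
  have h8 : ∑ i : Fin 7, (if i.val < 3 then 2 * n * (β * n) * (2 ^ d * q ^ 3) else
      2 * n * (β * n) * (2 ^ d * q ^ 4) : ℝ) =
      3 * (2 * n * (β * n) * (2 ^ d * q ^ 3)) + 4 * (2 * n * (β * n) * (2 ^ d * q ^ 4)) := by
    simp [Fin.sum_univ_succ]
    ring
  rw [h8]
  set r : ℝ := 1 / 2 ^ d with hr
  have hr0 : 0 < r := by positivity
  have hr1 : r ≤ 1 := by
    rw [hr, div_le_one (by positivity)]
    exact one_le_pow₀ (by norm_num)
  have h2r : (2 : ℝ) ^ d * r = 1 := by rw [hr]; field_simp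
  have hqr : q = 4 * Real.exp 1 * r := by rw [hq, hr]; ring
  have hNd : Nd n d = n * r := by rw [Nd, hr]; ring
  have e3 : (2 : ℝ) ^ d * q ^ 3 = 64 * Real.exp 1 ^ 3 * r ^ 2 := by
    calc (2 : ℝ) ^ d * q ^ 3 = 64 * Real.exp 1 ^ 3 * r ^ 2 * (2 ^ d * r) := by rw [hqr]; ring
      _ = _ := by rw [h2r, mul_one]
  have e4 : (2 : ℝ) ^ d * q ^ 4 = 256 * Real.exp 1 ^ 4 * r ^ 3 := by
    calc (2 : ℝ) ^ d * q ^ 4 = 256 * Real.exp 1 ^ 4 * r ^ 3 * (2 ^ d * r) := by rw [hqr]; ring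
      _ = _ := by rw [h2r, mul_one]
  rw [e3, e4, hNd]
  have he := Real.exp_one_lt_d9
  have he0 := Real.exp_pos 1
  have hnum : 384 * Real.exp 1 ^ 3 + 2048 * Real.exp 1 ^ 4 ≤ 120000 := by
    have h3 : Real.exp 1 ^ 3 ≤ 2.7182818286 ^ 3 := pow_le_pow_left₀ he0.le he.le 3
    have h4 : Real.exp 1 ^ 4 ≤ 2.7182818286 ^ 4 := pow_le_pow_left₀ he0.le he.le 4
    calc 384 * Real.exp 1 ^ 3 + 2048 * Real.exp 1 ^ 4 ≤
        384 * 2.7182818286 ^ 3 + 2048 * 2.7182818286 ^ 4 := by linarith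
      _ ≤ 120000 := by norm_num
  have hr3 : r ^ 3 ≤ r ^ 2 := by
    calc r ^ 3 = r ^ 2 * r := by ring
      _ ≤ r ^ 2 * 1 := mul_le_mul_of_nonneg_left hr1 (by positivity)
      _ = r ^ 2 := mul_one _
  have hB : (0 : ℝ) ≤ β * n ^ 2 := by positivity
  calc 3 * (2 * (n : ℝ) * (β * n) * (64 * Real.exp 1 ^ 3 * r ^ 2)) +
      4 * (2 * n * (β * n) * (256 * Real.exp 1 ^ 4 * r ^ 3)) =
      (β * n ^ 2) * (384 * Real.exp 1 ^ 3 * r ^ 2 + 2048 * Real.exp 1 ^ 4 * r ^ 3) := by ring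
    _ ≤ (β * n ^ 2) * (384 * Real.exp 1 ^ 3 * r ^ 2 + 2048 * Real.exp 1 ^ 4 * r ^ 2) := by
        gcongr
    _ = (β * n ^ 2) * ((384 * Real.exp 1 ^ 3 + 2048 * Real.exp 1 ^ 4) * r ^ 2) := by ring
    _ ≤ (β * n ^ 2) * (120000 * r ^ 2) := by gcongr
    _ = 120000 * β * (n * r) ^ 2 := by ring

end Pool.Agent.helper7.LT
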