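import Mathlib

/-!
# LT-Expo: bounds for binomial coefficients

* `pow_div_le`: for `j = 0` we have `a = 0` or the claim `1 ≤ 1` (`a ^ 0 = 1`); for `j ≥ 1`:
  `a ^ j / j! ≤ (j / exp 2) ^ j / j! = exp (-2 j) * (j ^ j / j!) ≤ exp (-2 j) * exp j`
  (`Real.pow_div_factorial_le_exp`).
* `choose_le`: `m.choose j ≤ m ^ j / j!` (`Nat.choose_le_pow_div`), so `m.choose j * q ^ j ≤ (m q) ^ j / j!`, then
  `pow_div_le` with `a = m q`.
* `choose_succ_le`: `m.choose (j + 1) * q ^ (j + 1) ≤ (m q) ^ (j + 1) / (j + 1)! ≤ (m q) * ((m q) ^ j / j!)`.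
-/

set_option autoImplicit false

namespace Pool.Agent.helper7.LT

theorem pow_div_le (a : ℝ) (j : ℕ) (ha : 0 ≤ a) (h : Real.exp 2 * a ≤ j) :
    a ^ j / j.factorial ≤ Real.exp (-(j : ℝ)) := by
  have he : 0 < Real.exp 2 := Real.exp_pos 2
  have h1 : a ≤ j * Real.exp (-2) := by
    rw [Real.exp_neg, ← div_eq_mul_inv, le_div_iff₀ he, mul_comm]
    exact h
  have hf : (0 : ℝ) < j.factorial := by exact_mod_cast Nat.factorial_pos j
  calc a ^ j / j.factorial ≤ (j * Real.exp (-2)) ^ j / j.factorial := by gcongr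
    _ = Real.exp (-2) ^ j * ((j : ℝ) ^ j / j.factorial) := by rw [mul_pow]; ring
    _ ≤ Real.exp (-2) ^ j * Real.exp j := by
        gcongr
        exact Real.pow_div_factorial_le_exp (j : ℝ) (by positivity) j
    _ = Real.exp (-(j : ℝ)) := by
        rw [← Real.exp_nat_mul, ← Real.exp_add]
        congr 1
        ring

theorem choose_le (m j : ℕ) (q : ℝ) (hq : 0 ≤ q) (h : Real.exp 2 * (m * q) ≤ j) :
    (m.choose j : ℝ) * q ^ j ≤ Real.exp (-(j : ℝ)) := by
  have h1 : (m.choose j : ℝ) ≤ (m : ℝ) ^ j / j.factorial := by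
    exact Nat.choose_le_pow_div j m
  calc (m.choose j : ℝ) * q ^ j ≤ ((m : ℝ) ^ j / j.factorial) * q ^ j := by gcongr
    _ = (m * q) ^ j / j.factorial := by rw [mul_pow]; ring
    _ ≤ Real.exp (-(j : ℝ)) := pow_div_le _ _ (by positivity) h

theorem choose_succ_le (m j : ℕ) (q : ℝ) (hq : 0 ≤ q) (h : Real.exp 2 * (m * q) ≤ j) :
    (m.choose (j + 1) : ℝ) * q ^ (j + 1) ≤ m * q * Real.exp (-(j : ℝ)) := by
  have h1 : (m.choose (j + 1) : ℝ) ≤ (m : ℝ) ^ (j + 1) / (j + 1).factorial := by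
    exact Nat.choose_le_pow_div (j + 1) m
  have hf : (0 : ℝ) < j.factorial := by exact_mod_cast Nat.factorial_pos j
  have hf1 : (j.factorial : ℝ) ≤ (j + 1).factorial := by
    exact_mod_cast Nat.factorial_le (Nat.le_succ j)
  calc (m.choose (j + 1) : ℝ) * q ^ (j + 1)
      ≤ ((m : ℝ) ^ (j + 1) / (j + 1).factorial) * q ^ (j + 1) := by gcongr
    _ = (m * q) ^ (j + 1) / (j + 1).factorial := by rw [mul_pow]; ring
    _ ≤ (m * q) ^ (j + 1) / j.factorial := by gcongr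
    _ = (m * q) * ((m * q) ^ j / j.factorial) := by rw [pow_succ]; ring
    _ ≤ m * q * Real.exp (-(j : ℝ)) := by
        have := pow_div_le (m * q) j (by positivity) h
        gcongr

/-- the constants of the thresholds -/
theorem const81 : 4 * Real.exp 3 ≤ 81 := by
  have h := Real.exp_one_lt_d9
  have h0 := Real.exp_pos 1
  have h1 : Real.exp 3 = Real.exp 1 ^ 3 := by
    rw [← Real.exp_nat_mul]; norm_num
  rw [h1]
  have h2 : Real.exp 1 ^ 3 ≤ 2.7182818286 ^ 3 := by gcongr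
  have h3 : (4 : ℝ) * 2.7182818286 ^ 3 ≤ 81 := by norm_num
  linarith

theorem const874 : 16 * Real.exp 4 ≤ 874 := by
  have h := Real.exp_one_lt_d9
  have h0 := Real.exp_pos 1
  have h1 : Real.exp 4 = Real.exp 1 ^ 4 := by
    rw [← Real.exp_nat_mul]; norm_num
  rw [h1]
  have h2 : Real.exp 1 ^ 4 ≤ 2.7182818286 ^ 4 := by gcongr
  have h3 : (16 : ℝ) * 2.7182818286 ^ 4 ≤ 874 := by norm_num
  linarith

end Pool.Agent.helper7.LT
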