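import Pool.Agent.helper7.LT.Defs
import Pool.Agent.helper7.LT.Expo

/-!
# LT-CntA: stars in one colour inside a block

The sets `W = insert v W'`, `W'` a set of `j v k + 1` neighbours of `v` in colour `k`.  All have `W.card = j v k + 2`
(`v ∉ W'`).  Let `q = 4 * exp 1 / 2 ^ d`; then `exp 2 * (Dg c k v * q) = 4 * exp 3 * Dg / 2 ^ d ≤ 81 * Dg / 2 ^ d ≤ j v k`
(`const81`), so `choose_le`, `choose_succ_le` apply with `m = Dg c k v`, `j = j v k`.
The sum over the `W` with `x ∈ W` is at most the sum over the tuples `(v, k, W')` with `x = v` or `x ∈ W'`.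
* `x = v`: for each `k` there are `(Dg c k x).choose (j + 1)` sets `W'`, each term is `2 ^ d * q ^ (j + 2) = 4 * exp 1 * q ^ (j + 1)`;
  by `choose_succ_le` the sum over `W'` is at most `4 * exp 1 * Dg c k x * q * exp (-j) ≤ 4 * exp 1 * q * Dg c k x * exp (-thr)`;
  `∑ k, Dg c k x ≤ 2 n` (the sets of `Dg` are disjoint subsets of `P n`).  Total `32 * exp 2 * Nd n d * exp (-thr)`.
* `x ∈ W'`: `v` is arbitrary (`2 n` possibilities), `k = c v x` is determined, and the number of `W' ∋ x` is at most
  `(Dg c k v - 1).choose j ≤ (Dg c k v).choose j` (remove `x`); each term is `2 ^ d * q ^ 2 * q ^ j`; by `choose_le` the sum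
  over `W'` is at most `2 ^ d * q ^ 2 * exp (-j) ≤ 16 * exp 2 / 2 ^ d * exp (-thr)`.  Total `32 * exp 2 * Nd n d * exp (-thr)`.
-/

set_option autoImplicit false

open Finset
open scoped Classical

namespace Pool.Agent.helper7.LT

variable {n : ℕ} {C : Type}

/-- a vertex `v` together with `j v k + 1` neighbours in colour `k` -/
noncomputable def FA (c : P n → P n → C) (j : P n → C → ℕ) : Finset (Finset (P n)) :=
  univ.filter fun W => ∃ (v : P n) (k : C) (W' : Finset (P n)),
    W' ⊆ univ.filter (fun y => y ≠ v ∧ c v y = k) ∧ W'.card = j v k + 1 ∧ W = insert v W'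

private theorem CntA_union {A T : Type} (S : Finset A) (R : Finset T) (g : T → A) (f : A → ℝ)
    (Q : A → Prop) [DecidablePred Q] (hf : ∀ a, 0 ≤ f a) (h : ∀ a ∈ S, ∃ t ∈ R, g t = a) (hQ : ∀ a ∈ S, Q a) :
    ∑ a ∈ S, f a ≤ ∑ t ∈ R, if Q (g t) then f (g t) else 0 := by
  calc ∑ a ∈ S, f a ≤ ∑ a ∈ S, ∑ t ∈ R, if g t = a then f a else 0 := by
        refine Finset.sum_le_sum fun a ha => ?_
        obtain ⟨t, ht, hta⟩ := h a ha
        have h1 := Finset.single_le_sum (f := fun t => if g t = a then f a else 0)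
          (fun t _ => by
            show 0 ≤ (if g t = a then f a else 0)
            split_ifs
            · exact hf a
            · exact le_rfl) ht
        simpa [hta] using h1
    _ = ∑ t ∈ R, ∑ a ∈ S, if g t = a then f a else 0 := Finset.sum_comm
    _ ≤ ∑ t ∈ R, if Q (g t) then f (g t) else 0 := by
        refine Finset.sum_le_sum fun t _ => ?_
        rw [Finset.sum_ite_eq]
        by_cases ht : g t ∈ S
        · rw [if_pos ht, if_pos (hQ _ ht)]
        · rw [if_neg ht]
          split_ifs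
          · exact hf _
          · exact le_rfl

private theorem CntA_Dg_sum [Fintype C] (c : P n → P n → C) (x : P n) :
    ∑ k : C, (Dg c k x : ℝ) ≤ 2 * n := by
  have h1 : (univ.filter fun y : P n => y ≠ x).card =
      ∑ k : C, ((univ.filter fun y : P n => y ≠ x).filter fun y => c x y = k).card :=
    Finset.card_eq_sum_card_fiberwise fun _ _ => by simp
  have h2 : ∀ k : C, ((univ.filter fun y : P n => y ≠ x).filter fun y => c x y = k).card =
      Dg c k x := by
    intro k
    unfold Dg
    rw [Finset.filter_filter]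
  have h3 : (univ.filter fun y : P n => y ≠ x).card ≤ 2 * n := by
    refine (Finset.card_filter_le _ _).trans ?_
    rw [Finset.card_univ, Fintype.card_prod, Fintype.card_fin, Fintype.card_bool, mul_comm]
  rw [← Nat.cast_sum]
  have h4 : ∑ k : C, Dg c k x = (univ.filter fun y : P n => y ≠ x).card := by
    rw [h1]
    exact Finset.sum_congr rfl fun k _ => (h2 k).symm
  rw [h4]
  exact_mod_cast h3

private theorem CntA_pair (c : P n → P n → C) (d : ℕ) (j0 : ℕ) (thr : ℝ) (v : P n) (k : C)
    (hj : 81 * ((Dg c k v : ℝ) / 2 ^ d) ≤ j0 ∧ thr ≤ j0) (x : P n) :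
    ∑ W' ∈ powersetCard (j0 + 1) (univ.filter fun y : P n => y ≠ v ∧ c v y = k),
      (if x ∈ insert v W' then (2 : ℝ) ^ d * (4 * Real.exp 1 / 2 ^ d) ^ (insert v W').card else 0) ≤
    (if v = x then 4 * Real.exp 1 * (4 * Real.exp 1 / 2 ^ d) * Real.exp (-thr) * Dg c k v else 0) +
    (if v ≠ x ∧ c v x = k then 2 ^ d * (4 * Real.exp 1 / 2 ^ d) ^ 2 * Real.exp (-thr) else 0) := by
  set q : ℝ := 4 * Real.exp 1 / 2 ^ d with hq
  have hq0 : 0 ≤ q := by positivity
  have h2q : (2 : ℝ) ^ d * q = 4 * Real.exp 1 := by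
    rw [hq]; field_simp
  set N := univ.filter (fun y : P n => y ≠ v ∧ c v y = k) with hN
  have hNc : N.card = Dg c k v := rfl
  have hcard : ∀ W' ∈ powersetCard (j0 + 1) N, (insert v W').card = j0 + 2 := by
    intro W' hW'
    rw [Finset.mem_powersetCard] at hW'
    rw [Finset.card_insert_of_notMem, hW'.2]
    intro hv
    have := hW'.1 hv
    rw [hN, Finset.mem_filter] at this
    exact this.2.1 rfl
  have hexp : Real.exp 2 * ((Dg c k v : ℝ) * q) ≤ j0 := by
    have h3 : Real.exp 2 * ((Dg c k v : ℝ) * q) =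
        4 * Real.exp 3 * ((Dg c k v : ℝ) / 2 ^ d) := by
      rw [hq]
      have : Real.exp 3 = Real.exp 2 * Real.exp 1 := by rw [← Real.exp_add]; norm_num
      rw [this]
      ring
    rw [h3]
    refine le_trans ?_ hj.1
    exact mul_le_mul_of_nonneg_right const81 (by positivity)
  have hthr : Real.exp (-(j0 : ℝ)) ≤ Real.exp (-thr) := by
    rw [Real.exp_le_exp]
    linarith [hj.2]
  have hexp0 := Real.exp_pos (-thr)
  by_cases hvx : v = x
  · subst hvx
    rw [if_pos rfl, if_neg (by simp), add_zero]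
    have h1 : ∑ W' ∈ powersetCard (j0 + 1) N,
        (if v ∈ insert v W' then (2 : ℝ) ^ d * q ^ (insert v W').card else 0) =
        ((Dg c k v).choose (j0 + 1) : ℝ) * (2 ^ d * q ^ (j0 + 2)) := by
      rw [Finset.sum_congr rfl (g := fun _ => (2 : ℝ) ^ d * q ^ (j0 + 2)) fun W' hW' => by
        rw [if_pos (Finset.mem_insert_self _ _), hcard W' hW'], Finset.sum_const,
        Finset.card_powersetCard, hNc, nsmul_eq_mul]
    rw [h1]
    have h2 := choose_succ_le (Dg c k v) j0 q hq0 hexp
    calc ((Dg c k v).choose (j0 + 1) : ℝ) * (2 ^ d * q ^ (j0 + 2)) =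
        (2 ^ d * q) * (((Dg c k v).choose (j0 + 1) : ℝ) * q ^ (j0 + 1)) := by ring
      _ ≤ (2 ^ d * q) * (Dg c k v * q * Real.exp (-(j0 : ℝ))) :=
          mul_le_mul_of_nonneg_left h2 (by positivity)
      _ ≤ (2 ^ d * q) * (Dg c k v * q * Real.exp (-thr)) := by gcongr
      _ = 4 * Real.exp 1 * q * Real.exp (-thr) * Dg c k v := by rw [h2q]; ring
  · rw [if_neg hvx, zero_add]
    by_cases hk : c v x = k
    · rw [if_pos ⟨hvx, hk⟩]
      have h1 : ∑ W' ∈ powersetCard (j0 + 1) N,
          (if x ∈ insert v W' then (2 : ℝ) ^ d * q ^ (insert v W').card else 0) =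
          (((powersetCard (j0 + 1) N).filter fun W' => x ∈ W').card : ℝ) *
            (2 ^ d * q ^ (j0 + 2)) := by
        rw [Finset.sum_congr rfl (g := fun W' => if x ∈ W' then (2 : ℝ) ^ d * q ^ (j0 + 2) else 0)
          fun W' hW' => by
            rw [hcard W' hW']
            simp [Ne.symm hvx], ← Finset.sum_filter, Finset.sum_const, nsmul_eq_mul]
      have h2 : ((powersetCard (j0 + 1) N).filter fun W' => x ∈ W').card ≤
          (Dg c k v).choose j0 := by
        rw [← hNc, ← Finset.card_powersetCard]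
        refine Finset.card_le_card_of_injOn (fun W' => W'.erase x) ?_ ?_
        · intro W' hW'
          rw [Finset.mem_coe, Finset.mem_filter, Finset.mem_powersetCard] at hW'
          rw [Finset.mem_coe, Finset.mem_powersetCard, Finset.card_erase_of_mem hW'.2, hW'.1.2]
          exact ⟨(Finset.erase_subset _ _).trans hW'.1.1, rfl⟩
        · intro W1 h3 W2 h4 h5
          rw [Finset.mem_coe, Finset.mem_filter] at h3 h4
          have h6 := congrArg (insert x) h5
          simpa [Finset.insert_erase h3.2, Finset.insert_erase h4.2] using h6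
      rw [h1]
      have h3 := choose_le (Dg c k v) j0 q hq0 hexp
      calc (((powersetCard (j0 + 1) N).filter fun W' => x ∈ W').card : ℝ) *
            (2 ^ d * q ^ (j0 + 2)) ≤ ((Dg c k v).choose j0 : ℝ) * (2 ^ d * q ^ (j0 + 2)) := by
            have : (((powersetCard (j0 + 1) N).filter fun W' => x ∈ W').card : ℝ) ≤
              ((Dg c k v).choose j0 : ℝ) := by exact_mod_cast h2
            exact mul_le_mul_of_nonneg_right this (by positivity)
        _ = (2 ^ d * q ^ 2) * (((Dg c k v).choose j0 : ℝ) * q ^ j0) := by ring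
        _ ≤ (2 ^ d * q ^ 2) * Real.exp (-(j0 : ℝ)) :=
            mul_le_mul_of_nonneg_left h3 (by positivity)
        _ ≤ (2 ^ d * q ^ 2) * Real.exp (-thr) := by gcongr
    · rw [if_neg (fun h => hk h.2)]
      refine le_of_eq (Finset.sum_eq_zero fun W' hW' => ?_)
      rw [if_neg]
      intro hx
      rcases Finset.mem_insert.1 hx with h1 | h1
      · exact hvx h1.symm
      · rw [Finset.mem_powersetCard] at hW'
        have h2 := hW'.1 h1
        rw [hN, Finset.mem_filter] at h2
        exact hk h2.2.2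

theorem cntA [Fintype C] (c : P n → P n → C) (d : ℕ) (j : P n → C → ℕ) (thr : ℝ)
    (hj : ∀ v k, 81 * ((Dg c k v : ℝ) / 2 ^ d) ≤ j v k ∧ thr ≤ j v k) (x : P n) :
    ∑ W ∈ (FA c j).filter (fun W => x ∈ W),
      (2 : ℝ) ^ d * (4 * Real.exp 1 / 2 ^ d) ^ W.card ≤
      64 * Real.exp 2 * Nd n d * Real.exp (-thr) := by
  set q : ℝ := 4 * Real.exp 1 / 2 ^ d with hq
  have hq0 : 0 ≤ q := by positivity
  let R : Finset ((_ : P n × C) × Finset (P n)) := (univ : Finset (P n × C)).sigma fun a =>
    powersetCard (j a.1 a.2 + 1) (univ.filter fun y : P n => y ≠ a.1 ∧ c a.1 y = a.2)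
  have h1 : ∑ W ∈ (FA c j).filter (fun W => x ∈ W), (2 : ℝ) ^ d * q ^ W.card ≤
      ∑ t ∈ R, if x ∈ insert t.1.1 t.2 then (2 : ℝ) ^ d * q ^ (insert t.1.1 t.2).card else 0 := by
    refine CntA_union _ R (fun t => insert t.1.1 t.2) (fun W => (2 : ℝ) ^ d * q ^ W.card)
      (fun W => x ∈ W) (fun _ => by positivity) ?_ (fun W hW => (Finset.mem_filter.1 hW).2)
    intro W hW
    have hW' := (Finset.mem_filter.1 hW).1
    unfold FA at hW'
    obtain ⟨v, k, W', h2, h3, h4⟩ := (@Finset.mem_filter _ _ (_) _ _).1 hW' |>.2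
    refine ⟨⟨(v, k), W'⟩, ?_, h4.symm⟩
    rw [Finset.mem_sigma]
    exact ⟨Finset.mem_univ _, Finset.mem_powersetCard.2 ⟨h2, h3⟩⟩
  refine h1.trans ?_
  rw [Finset.sum_sigma, Fintype.sum_prod_type]
  have hexp0 := Real.exp_pos (-thr)
  have h2 : ∀ v : P n, ∀ k : C,
      ∑ W' ∈ powersetCard (j v k + 1) (univ.filter fun y : P n => y ≠ v ∧ c v y = k),
      (if x ∈ insert v W' then (2 : ℝ) ^ d * q ^ (insert v W').card else 0) ≤
      (if v = x then 4 * Real.exp 1 * q * Real.exp (-thr) * Dg c k v else 0) +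
      (if v ≠ x ∧ c v x = k then 2 ^ d * q ^ 2 * Real.exp (-thr) else 0) := fun v k =>
    CntA_pair c d (j v k) thr v k (hj v k) x
  refine (Finset.sum_le_sum fun v _ => Finset.sum_le_sum fun k _ => h2 v k).trans ?_
  simp only [Finset.sum_add_distrib]
  have h3 : ∑ v : P n, ∑ k : C,
      (if v = x then 4 * Real.exp 1 * q * Real.exp (-thr) * Dg c k v else 0) ≤
      32 * Real.exp 2 * Nd n d * Real.exp (-thr) := by
    rw [Finset.sum_comm]
    simp only [Finset.sum_ite_eq', Finset.mem_univ, if_true]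
    rw [← Finset.mul_sum]
    calc 4 * Real.exp 1 * q * Real.exp (-thr) * ∑ k : C, (Dg c k x : ℝ) ≤
        4 * Real.exp 1 * q * Real.exp (-thr) * (2 * n) :=
          mul_le_mul_of_nonneg_left (CntA_Dg_sum c x) (by positivity)
      _ = 32 * Real.exp 2 * Nd n d * Real.exp (-thr) := by
          have : Real.exp 2 = Real.exp 1 * Real.exp 1 := by rw [← Real.exp_add]; norm_num
          rw [this, hq, Nd]
          ring
  have h4 : ∑ v : P n, ∑ k : C,
      (if v ≠ x ∧ c v x = k then 2 ^ d * q ^ 2 * Real.exp (-thr) else 0) ≤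
      32 * Real.exp 2 * Nd n d * Real.exp (-thr) := by
    calc ∑ v : P n, ∑ k : C,
        (if v ≠ x ∧ c v x = k then 2 ^ d * q ^ 2 * Real.exp (-thr) else 0) ≤
        ∑ v : P n, 2 ^ d * q ^ 2 * Real.exp (-thr) := by
          refine Finset.sum_le_sum fun v _ => ?_
          by_cases hv : v ≠ x
          · simp [hv]
          · simp only [hv, false_and, if_false, Finset.sum_const_zero]
            positivity
      _ = 2 * n * (2 ^ d * q ^ 2 * Real.exp (-thr)) := by
          rw [Finset.sum_const, Finset.card_univ, Fintype.card_prod, Fintype.card_fin,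
            Fintype.card_bool, nsmul_eq_mul]
          push_cast
          ring
      _ = 32 * Real.exp 2 * Nd n d * Real.exp (-thr) := by
          have : Real.exp 2 = Real.exp 1 * Real.exp 1 := by rw [← Real.exp_add]; norm_num
          rw [this, hq, Nd]
          field_simp
          ring
  calc _ ≤ 32 * Real.exp 2 * Nd n d * Real.exp (-thr) +
        32 * Real.exp 2 * Nd n d * Real.exp (-thr) := add_le_add h3 h4
    _ = 64 * Real.exp 2 * Nd n d * Real.exp (-thr) := by ring

end Pool.Agent.helper7.LT
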