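import Pool.Agent.helper7.LT.Defs
import Pool.Agent.helper7.LT.Expo

/-!
# LT-CntM: matchings with one label inside a block

The sets `W` of the `2 * (g l + 1)` end points of `g l + 1` pairwise disjoint (ordered) pairs with the same label `l`.  Let
`q = 4 * exp 1 / 2 ^ d`, `q ^ 2 = 16 * exp 2 / 4 ^ d`; then `exp 2 * (Ol lb l * q ^ 2) = 16 * exp 4 * Ol / 4 ^ d ≤ 874 * Ol / 4 ^ d ≤ g l`
(`const874`), so `choose_le` applies with `m = Ol lb l`, `j = g l` and `q ^ 2`.
The sum over the `W ∋ x` is at most the sum over the pairs `(e, M)`, `e ∈ M`, `x = e.1` or `x = e.2`, `M` a set of `g l + 1`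
pairs with label `l`: there are at most `4 n` such `e` (`(x, y)` and `(y, x)`), `l` is determined by `e`, and for given `e` there are
at most `(Ol lb l).choose (g l)` sets `M \ {e}`; each term is `2 ^ d * q ^ 2 * (q ^ 2) ^ (g l)` (`W.card = 2 * (g l + 1)`), so by
`choose_le` the sum over `M` is at most `2 ^ d * q ^ 2 * exp (-g l) ≤ 16 * exp 2 / 2 ^ d * exp (-thr)`.
Total: `64 * exp 2 * Nd n d * exp (-thr)`.
-/

set_option autoImplicit false

open Finset
open scoped Classical

namespace Pool.Agent.helper7.LT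

variable {n : ℕ}

/-- the pairs in `M` are disjoint -/
def Mat {V : Type} (M : Finset (V × V)) : Prop :=
  (∀ e ∈ M, e.1 ≠ e.2) ∧ ∀ e ∈ M, ∀ e' ∈ M, e ≠ e' →
    e.1 ≠ e'.1 ∧ e.1 ≠ e'.2 ∧ e.2 ≠ e'.1 ∧ e.2 ≠ e'.2

/-- number of ordered pairs with label `l` -/
noncomputable def Ol {L : Type} (lb : P n → P n → Option L) (l : L) : ℕ :=
  (univ.filter fun e : P n × P n => e.1 ≠ e.2 ∧ lb e.1 e.2 = some l).card

/-- the end points of `g l + 1` disjoint pairs with label `l` -/
noncomputable def FM {L : Type} (lb : P n → P n → Option L) (g : L → ℕ) :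
    Finset (Finset (P n)) :=
  univ.filter fun W => ∃ (l : L) (M : Finset (P n × P n)), Mat M ∧
    (∀ e ∈ M, lb e.1 e.2 = some l) ∧ M.card = g l + 1 ∧ W = M.image Prod.fst ∪ M.image Prod.snd

private theorem CntM_union {A T : Type} (S : Finset A) (R : Finset T) (g : T → A) (f : A → ℝ)
    (F : T → ℝ) (hF : ∀ t ∈ R, 0 ≤ F t) (h : ∀ a ∈ S, ∃ t ∈ R, g t = a ∧ f a ≤ F t) :
    ∑ a ∈ S, f a ≤ ∑ t ∈ R, F t := by
  calc ∑ a ∈ S, f a ≤ ∑ a ∈ S, ∑ t ∈ R, if g t = a then F t else 0 := by
        refine Finset.sum_le_sum fun a ha => ?_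
        obtain ⟨t, ht, hta, hle⟩ := h a ha
        have h1 := Finset.single_le_sum (f := fun t => if g t = a then F t else 0)
          (fun t ht' => by
            show 0 ≤ (if g t = a then F t else 0)
            split_ifs
            · exact hF t ht'
            · exact le_rfl) ht
        simp only [hta, if_true] at h1
        exact hle.trans h1
    _ = ∑ t ∈ R, ∑ a ∈ S, if g t = a then F t else 0 := Finset.sum_comm
    _ ≤ ∑ t ∈ R, F t := by
        refine Finset.sum_le_sum fun t ht => ?_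
        rw [Finset.sum_ite_eq]
        split_ifs
        · exact le_rfl
        · exact hF t ht

theorem FM_card {L : Type} (M : Finset (P n × P n)) (h : Mat M) :
    (M.image Prod.fst ∪ M.image Prod.snd).card = 2 * M.card := by
  rw [Finset.card_union_of_disjoint, Finset.card_image_of_injOn, Finset.card_image_of_injOn,
    two_mul]
  · intro e he e' he' heq
    by_contra hne
    exact (h.2 e he e' he' hne).2.2.2 heq
  · intro e he e' he' heq
    by_contra hne
    exact (h.2 e he e' he' hne).1 heq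
  · rw [Finset.disjoint_left]
    intro x hx hx'
    obtain ⟨e, he, rfl⟩ := Finset.mem_image.1 hx
    obtain ⟨e', he', heq⟩ := Finset.mem_image.1 hx'
    by_cases hne : e = e'
    · subst hne
      exact h.1 e he heq.symm
    · exact (h.2 e he e' he' hne).2.1 heq.symm

private theorem CntM_star (x : P n) :
    (univ.filter fun e : P n × P n => x = e.1 ∨ x = e.2).card ≤ 4 * n := by
  have h1 : (univ.filter fun e : P n × P n => x = e.1 ∨ x = e.2) ⊆
      (univ : Finset (P n)).image (fun y => (x, y)) ∪ univ.image (fun y => (y, x)) := by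
    rintro ⟨a, b⟩ he
    rw [Finset.mem_filter] at he
    rcases he.2 with h | h
    · exact Finset.mem_union_left _ (Finset.mem_image.2 ⟨b, Finset.mem_univ _, by
        simp only at h; rw [h]⟩)
    · exact Finset.mem_union_right _ (Finset.mem_image.2 ⟨a, Finset.mem_univ _, by
        simp only at h; rw [h]⟩)
  have h2 : (univ : Finset (P n)).card = 2 * n := by
    rw [Finset.card_univ, Fintype.card_prod, Fintype.card_fin, Fintype.card_bool, mul_comm]
  refine (Finset.card_le_card h1).trans ((Finset.card_union_le _ _).trans ?_)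
  have h3 : ((univ : Finset (P n)).image (fun y => (x, y))).card ≤ 2 * n := by
    rw [← h2]; exact Finset.card_image_le
  have h4 : ((univ : Finset (P n)).image (fun y => (y, x))).card ≤ 2 * n := by
    rw [← h2]; exact Finset.card_image_le
  omega

theorem cntM {L : Type} (lb : P n → P n → Option L) (d : ℕ) (g : L → ℕ) (thr : ℝ)
    (hg : ∀ l, 874 * ((Ol lb l : ℝ) / 4 ^ d) ≤ g l ∧ thr ≤ g l) (x : P n) :
    ∑ W ∈ (FM lb g).filter (fun W => x ∈ W),
      (2 : ℝ) ^ d * (4 * Real.exp 1 / 2 ^ d) ^ W.card ≤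
      64 * Real.exp 2 * Nd n d * Real.exp (-thr) := by
  set q : ℝ := 4 * Real.exp 1 / 2 ^ d with hq
  have hq0 : 0 ≤ q := by positivity
  have hexp0 := Real.exp_pos (-thr)
  have he2 : Real.exp 2 = Real.exp 1 * Real.exp 1 := by rw [← Real.exp_add]; norm_num
  have he4 : Real.exp 4 = Real.exp 2 * Real.exp 2 := by rw [← Real.exp_add]; norm_num
  have h4d : (4 : ℝ) ^ d = 2 ^ d * 2 ^ d := by rw [← mul_pow]; norm_num
  have hq2 : q ^ 2 = 16 * Real.exp 2 / 4 ^ d := by
    rw [hq, he2, h4d]; ring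
  let Oset : L → Finset (P n × P n) := fun l =>
    univ.filter fun e : P n × P n => e.1 ≠ e.2 ∧ lb e.1 e.2 = some l
  have hOc : ∀ l, (Oset l).card = Ol lb l := fun l => rfl
  let Cls : P n × P n → Finset (Finset (P n × P n)) := fun e =>
    (lb e.1 e.2).elim ∅ fun l => powersetCard (g l) (Oset l)
  let Fe : P n × P n → ℝ := fun e => (lb e.1 e.2).elim 0 fun l => 2 ^ d * q ^ (2 * (g l + 1))
  have hFe : ∀ e, 0 ≤ Fe e := by
    intro e
    show 0 ≤ (lb e.1 e.2).elim 0 fun l => 2 ^ d * q ^ (2 * (g l + 1))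
    rcases lb e.1 e.2 with _ | l
    · exact le_rfl
    · show 0 ≤ 2 ^ d * q ^ (2 * (g l + 1))
      positivity
  let R : Finset ((_ : P n × P n) × Finset (P n × P n)) :=
    (univ.filter fun e : P n × P n => x = e.1 ∨ x = e.2).sigma fun e => Cls e
  have h1 : ∑ W ∈ (FM lb g).filter (fun W => x ∈ W), (2 : ℝ) ^ d * q ^ W.card ≤
      ∑ t ∈ R, Fe t.1 := by
    refine CntM_union _ R (fun t => (insert t.1 t.2).image Prod.fst ∪
      (insert t.1 t.2).image Prod.snd) _ (fun t => Fe t.1) (fun t _ => hFe t.1) ?_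
    intro W hW
    have hxW : x ∈ W := (Finset.mem_filter.1 hW).2
    have hW' := (Finset.mem_filter.1 hW).1
    unfold FM at hW'
    obtain ⟨l, M, hM, hl, hcard, rfl⟩ := (Finset.mem_filter.1 hW').2
    obtain ⟨e, he, hxe⟩ : ∃ e ∈ M, x = e.1 ∨ x = e.2 := by
      rcases Finset.mem_union.1 hxW with h | h
      · obtain ⟨e, he, heq⟩ := Finset.mem_image.1 h
        exact ⟨e, he, Or.inl heq.symm⟩
      · obtain ⟨e, he, heq⟩ := Finset.mem_image.1 h
        exact ⟨e, he, Or.inr heq.symm⟩
    refine ⟨⟨e, M.erase e⟩, ?_, ?_, ?_⟩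
    · rw [Finset.mem_sigma, Finset.mem_filter]
      refine ⟨⟨Finset.mem_univ _, hxe⟩, ?_⟩
      show M.erase e ∈ (lb e.1 e.2).elim ∅ fun l => powersetCard (g l) (Oset l)
      rw [hl e he]
      show M.erase e ∈ powersetCard (g l) (Oset l)
      rw [Finset.mem_powersetCard, Finset.card_erase_of_mem he, hcard]
      refine ⟨fun e' he' => ?_, rfl⟩
      have h2 := Finset.mem_of_mem_erase he'
      exact Finset.mem_filter.2 ⟨Finset.mem_univ _, hM.1 e' h2, hl e' h2⟩
    · show (insert e (M.erase e)).image Prod.fst ∪ (insert e (M.erase e)).image Prod.snd = _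
      rw [Finset.insert_erase he]
    · show _ ≤ (lb e.1 e.2).elim 0 fun l => 2 ^ d * q ^ (2 * (g l + 1))
      rw [hl e he, FM_card (L := L) M hM, hcard]
      exact le_rfl
  refine h1.trans ?_
  rw [Finset.sum_sigma]
  have h2 : ∀ e : P n × P n, ∑ _M' ∈ Cls e, Fe e ≤ 2 ^ d * q ^ 2 * Real.exp (-thr) := by
    intro e
    rw [Finset.sum_const, nsmul_eq_mul]
    show (((lb e.1 e.2).elim ∅ fun l => powersetCard (g l) (Oset l)).card : ℝ) *
      ((lb e.1 e.2).elim 0 fun l => 2 ^ d * q ^ (2 * (g l + 1))) ≤ _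
    rcases hlb : lb e.1 e.2 with _ | l
    · show ((∅ : Finset (Finset (P n × P n))).card : ℝ) * 0 ≤ _
      rw [mul_zero]
      positivity
    · show (((powersetCard (g l) (Oset l)).card : ℕ) : ℝ) * (2 ^ d * q ^ (2 * (g l + 1))) ≤ _
      rw [Finset.card_powersetCard, hOc]
      have hexp : Real.exp 2 * ((Ol lb l : ℝ) * q ^ 2) ≤ g l := by
        have h3 : Real.exp 2 * ((Ol lb l : ℝ) * q ^ 2) =
            16 * Real.exp 4 * ((Ol lb l : ℝ) / 4 ^ d) := by
          rw [hq2, he4]; ring
        rw [h3]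
        exact (mul_le_mul_of_nonneg_right const874 (by positivity)).trans (hg l).1
      have h4 := choose_le (Ol lb l) (g l) (q ^ 2) (by positivity) hexp
      have hthr : Real.exp (-(g l : ℝ)) ≤ Real.exp (-thr) := by
        rw [Real.exp_le_exp]
        linarith [(hg l).2]
      calc ((Ol lb l).choose (g l) : ℝ) * (2 ^ d * q ^ (2 * (g l + 1))) =
          (2 ^ d * q ^ 2) * (((Ol lb l).choose (g l) : ℝ) * (q ^ 2) ^ (g l)) := by
            rw [← pow_mul]; ring
        _ ≤ (2 ^ d * q ^ 2) * Real.exp (-(g l : ℝ)) :=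
            mul_le_mul_of_nonneg_left h4 (by positivity)
        _ ≤ (2 ^ d * q ^ 2) * Real.exp (-thr) := by gcongr
  calc ∑ e ∈ univ.filter (fun e : P n × P n => x = e.1 ∨ x = e.2), ∑ _M' ∈ Cls e, Fe e ≤
      ∑ e ∈ univ.filter (fun e : P n × P n => x = e.1 ∨ x = e.2),
        2 ^ d * q ^ 2 * Real.exp (-thr) := Finset.sum_le_sum fun e _ => h2 e
    _ = ((univ.filter (fun e : P n × P n => x = e.1 ∨ x = e.2)).card : ℝ) *
        (2 ^ d * q ^ 2 * Real.exp (-thr)) := by rw [Finset.sum_const, nsmul_eq_mul]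
    _ ≤ (4 * n : ℝ) * (2 ^ d * q ^ 2 * Real.exp (-thr)) := by
        have : ((univ.filter (fun e : P n × P n => x = e.1 ∨ x = e.2)).card : ℝ) ≤ 4 * n := by
          exact_mod_cast CntM_star x
        exact mul_le_mul_of_nonneg_right this (by positivity)
    _ = 64 * Real.exp 2 * Nd n d * Real.exp (-thr) := by
        rw [hq2, h4d, Nd]
        field_simp
        ring

end Pool.Agent.helper7.LT
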