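import Mathlib

/-!
# LT: rainbow spanning tree decompositions for arbitrary edge colourings with linear classes (MP_387ec7_co)

PLAN.  The vertices (and the positions) are the elements of `P n = Fin n × Bool`: `n` pairs.  A symmetric
function `c : P n → P n → C` is an edge colouring of the complete graph `K_{2n}` (NOT necessarily proper).
`blk n d u = ⌊u 2 ^ d / n⌋` is the index of the block of depth `d` which contains the pair `u`; the blocks of
depth `d` have about `Nd n d = n / 2 ^ d` elements.  `Sep d u v`: the pairs `u`, `v` are in the same block of depth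
`d` but in different blocks of depth `d + 1`; for `u ≠ v` there is exactly one such `d`, and `d < n`.

Edges between different pairs are parametrised by `(x, u)`, where `x : P n` is the child and `u ≠ x.1` the
pair of the parent `par x u`.  The trees are indexed by `t : Fin n`.  For a child `x` and a depth `d` let `a` be the
sibling block `{u | Sep d x.1 u}`, with the two halves `Lf n d x.1`, `Rf n d x.1`,
`|R| ≤ |L| ≤ |R| + 1`.  A random bijection of `a` to itself (parents to trees) distributes the edges `(x, u)`,
`u ∈ a`, to the trees `t ∈ a`; it maps `L` to `R` and `R` to `L` (with one exception if `|L| = |R| + 1`); the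
probability that the edge `(x, u)` is in the tree `t` is `wd n d x.1 u t`.
-/

set_option autoImplicit false

open Finset
open scoped Classical

namespace Pool.Agent.helper7.LT

/-- vertices and positions: `n` pairs -/
abbrev P (n : ℕ) : Type := Fin n × Bool

/-- index of the block of depth `d` which contains the pair `u` -/
def blk (n d : ℕ) (u : Fin n) : ℕ := u.val * 2 ^ d / n

/-- `u`, `v` are in the same block of depth `d` but in different blocks of depth `d + 1` -/
def Sep {n : ℕ} (d : ℕ) (u v : Fin n) : Prop :=
  blk n d u = blk n d v ∧ blk n (d + 1) u ≠ blk n (d + 1) v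

/-- the size (real number) of the blocks of depth `d` -/
noncomputable def Nd (n d : ℕ) : ℝ := (n : ℝ) / 2 ^ d

/-- the block of depth `d` with index `b` -/
noncomputable def Bl (n d b : ℕ) : Finset (Fin n) := univ.filter fun u => blk n d u = b

/-- index of the sibling (at depth `d + 1`) of the block of `v` -/
def sb (n d : ℕ) (v : Fin n) : ℕ :=
  if blk n (d + 1) v % 2 = 0 then blk n (d + 1) v + 1 else blk n (d + 1) v - 1

/-- the larger half of the block of depth `d` with index `b` -/
noncomputable def Lb (n d b : ℕ) : Finset (Fin n) :=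
  if (Bl n (d + 1) (2 * b + 1)).card ≤ (Bl n (d + 1) (2 * b)).card then Bl n (d + 1) (2 * b)
  else Bl n (d + 1) (2 * b + 1)

/-- the smaller half of the block of depth `d` with index `b` -/
noncomputable def Rb (n d b : ℕ) : Finset (Fin n) :=
  if (Bl n (d + 1) (2 * b + 1)).card ≤ (Bl n (d + 1) (2 * b)).card then Bl n (d + 1) (2 * b + 1)
  else Bl n (d + 1) (2 * b)

/-- larger half of the sibling block `{u | Sep d v u}` -/
noncomputable def Lf (n d : ℕ) (v : Fin n) : Finset (Fin n) := Lb n (d + 1) (sb n d v)

/-- smaller half of the sibling block `{u | Sep d v u}` -/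
noncomputable def Rf (n d : ℕ) (v : Fin n) : Finset (Fin n) := Rb n (d + 1) (sb n d v)

/-- the probability that a random bijection which exchanges the halves `L`, `R` as far as possible maps
`u` to `t` -/
noncomputable def w2 {A : Type} (L R : Finset A) (u t : A) : ℝ :=
  if (u ∈ L ∧ t ∈ R) ∨ (u ∈ R ∧ t ∈ L) then 1 / (L.card : ℝ)
  else if u ∈ L ∧ t ∈ L ∧ R.card < L.card then 1 / (L.card : ℝ) ^ 2 else 0

/-- the probability that the edge `(x, u)` with `x` in the pair `v` and `Sep d v u` is in the tree `t` -/
noncomputable def wd (n d : ℕ) (v u t : Fin n) : ℝ := w2 (Lf n d v) (Rf n d v) u t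

/-- the same for the edge `(x, u)`, `x` in the pair `v`, without the depth -/
noncomputable def wg (n : ℕ) (v u t : Fin n) : ℝ := ∑ d ∈ range n, wd n d v u t

/-- the parent with the child `x` in the pair `u` -/
def par {n : ℕ} (x : P n) (u : Fin n) : P n := (u, if u < x.1 then x.2 else !x.2)

variable {n : ℕ} {C : Type}

/-- the expected number of conflicts of the edge `(x, u)` in the tree `t` -/
noncomputable def YY (c : P n → P n → C) (x : P n) (u t : Fin n) : ℝ :=
  (∑ x' : P n, ∑ u' : Fin n,
    if x' ≠ x ∧ c x' (par x' u') = c x (par x u) then wg n x'.1 u' t else 0) +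
  if c (t, false) (t, true) = c x (par x u) then 1 else 0

/-- the expected number of edges of colour `k` in the tree `t` at the depths `< dA` -/
noncomputable def Xh (c : P n → P n → C) (dA : ℕ) (k : C) (t : Fin n) : ℝ :=
  ∑ d ∈ range dA, ∑ x : P n, ∑ u : Fin n, if c x (par x u) = k then wd n d x.1 u t else 0

/-- the expected number of edges of colour `k` in the tree `t` at the depths `≥ dA` -/
noncomputable def Xl (c : P n → P n → C) (dA : ℕ) (k : C) (t : Fin n) : ℝ :=
  (∑ d ∈ Ico dA n, ∑ x : P n, ∑ u : Fin n, if c x (par x u) = k then wd n d x.1 u t else 0) +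
  if c (t, false) (t, true) = k then 1 else 0

/-- degree of `v` in colour `k` -/
noncomputable def Dg (c : P n → P n → C) (k : C) (v : P n) : ℕ :=
  (univ.filter fun y : P n => y ≠ v ∧ c v y = k).card

/-- degree of `v` in colour `k` inside its block of depth `d` -/
noncomputable def dg (c : P n → P n → C) (k : C) (v : P n) (d : ℕ) : ℕ :=
  (univ.filter fun y : P n => y ≠ v ∧ c v y = k ∧ blk n d y.1 = blk n d v.1).card

/-- number of ordered pairs of colour `k` -/
noncomputable def Oc (c : P n → P n → C) (k : C) : ℕ :=
  (univ.filter fun e : P n × P n => e.1 ≠ e.2 ∧ c e.1 e.2 = k).card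

/-- number of ordered pairs of colour `k` inside the block of depth `d` with index `b` -/
noncomputable def oc (c : P n → P n → C) (k : C) (d b : ℕ) : ℕ :=
  (univ.filter fun e : P n × P n => e.1 ≠ e.2 ∧ c e.1 e.2 = k ∧ blk n d e.1.1 = b ∧
    blk n d e.2.1 = b).card

/-- `v` is light for colour `k` at depth `d` -/
def Lt (c : P n → P n → C) (d : ℕ) (k : C) (v : P n) : Prop :=
  (Dg c k v : ℝ) / 2 ^ d ≤ Nd n d ^ (1 / 16 : ℝ)

/-- number of ordered pairs of light vertices of colour `k` in the block of depth `d` with index `b` -/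
noncomputable def lc (c : P n → P n → C) (k : C) (d b : ℕ) : ℕ :=
  (univ.filter fun e : P n × P n => e.1 ≠ e.2 ∧ c e.1 e.2 = k ∧ blk n d e.1.1 = b ∧
    blk n d e.2.1 = b ∧ Lt c d k e.1 ∧ Lt c d k e.2).card

/-- all edges inside a block of depth `dA` have different colours -/
def Rain (c : P n → P n → C) (dA : ℕ) : Prop :=
  ∀ x y z w : P n, blk n dA x.1 = blk n dA y.1 → blk n dA y.1 = blk n dA z.1 →
    blk n dA z.1 = blk n dA w.1 → x ≠ y → z ≠ w → c x y = c z w → s(x, y) = s(z, w)

/-- The outcome of the first stage (placement of the vertices). -/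
structure GP (c : P n → P n → C) (dA : ℕ) (β : ℝ) : Prop where
  rain : Rain c dA
  deg : ∀ d ≤ dA, ∀ v k, (dg c k v d : ℝ) ≤
    81 * max ((Dg c k v : ℝ) / 2 ^ d) (Nd n d ^ (1 / 16 : ℝ)) + 1
  light : ∀ d ≤ dA, ∀ b k, (lc c k d b : ℝ) ≤
    1748 * β * Nd n d ^ 2 / n + 984 * Nd n d ^ (7 / 8 : ℝ)

/-- The conditions for the second stage (distribution of the edges to the trees). -/
structure GC (c : P n → P n → C) (dA : ℕ) (e1 e2 e3 : ℝ) : Prop where
  rain : Rain c dA
  chain : ∀ k t, Xh c dA k t ≤ e1
  load : ∀ d ≤ dA, ∀ b k, (oc c k d b : ℝ) ≤ e2 * Nd n d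
  deg : ∀ d ≤ dA, ∀ v k, (dg c k v d : ℝ) ≤ e3 * Nd n d

end Pool.Agent.helper7.LT
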