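import Mathlib

/-!
# LT-Refine: splitting colour classes

* `refine`: enumerate every class `{e ∈ E | c e = k}` (a finset of size `m_k`) by `Fin m_k` (`Finset.equivFin`) and let `idx e` be the
  quotient of the number of `e` by `q`; the part `(k, i)` has at most `q` elements (the numbers in `[i q, (i + 1) q)`), and
  `idx e * q ≤ (number of e) < m_k`, so `idx e < ⌈m_k / q⌉`, i.e. `idx e < (m_k + q - 1) / q`.
* `parts_le`: the elements of colour `k` in `A` have different indices below `(m_k + q - 1) / q`.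
* `ceil_le`: let `x = n / 2 ^ 511 ≥ 1`, `q = ⌊x⌋₊ ≥ x / 2 = n / 2 ^ 512`; `(m + q - 1) / q ≤ ⌈m / q⌉ ≤ ⌈2 ^ 512 * m / n⌉`.
-/

set_option autoImplicit false

open Finset
open scoped Classical

namespace Pool.Agent.helper7.LT

/-- the number of an element in its class -/
private noncomputable def RefineNum {E C : Type} (S : Finset E) (c : E → C) (k : C) (e : E) : ℕ :=
  if h : e ∈ S.filter fun e => c e = k then ((S.filter fun e => c e = k).equivFin ⟨e, h⟩).val
  else 0

private theorem RefineNum_lt {E C : Type} {S : Finset E} {c : E → C} {k : C} {e : E} (he : e ∈ S)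
    (hk : c e = k) : RefineNum S c k e < (S.filter fun e => c e = k).card := by
  have h : e ∈ S.filter fun e => c e = k := Finset.mem_filter.2 ⟨he, hk⟩
  unfold RefineNum
  rw [dif_pos h]
  exact ((S.filter fun e => c e = k).equivFin ⟨e, h⟩).isLt

private theorem RefineNum_inj {E C : Type} {S : Finset E} {c : E → C} {k : C} {e e' : E}
    (he : e ∈ S) (hk : c e = k) (he' : e' ∈ S) (hk' : c e' = k)
    (h : RefineNum S c k e = RefineNum S c k e') : e = e' := by
  have h1 : e ∈ S.filter fun e => c e = k := Finset.mem_filter.2 ⟨he, hk⟩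
  have h2 : e' ∈ S.filter fun e => c e = k := Finset.mem_filter.2 ⟨he', hk'⟩
  unfold RefineNum at h
  rw [dif_pos h1, dif_pos h2] at h
  have h3 := (S.filter fun e => c e = k).equivFin.injective (Fin.ext h)
  exact congrArg Subtype.val h3

theorem refine_classes {E C : Type} [Fintype E] (S : Finset E) (c : E → C) (q : ℕ) (hq : 0 < q) :
    ∃ idx : E → ℕ, (∀ k i, (S.filter fun e => c e = k ∧ idx e = i).card ≤ q) ∧
      ∀ e ∈ S, idx e < ((S.filter fun e' => c e' = c e).card + q - 1) / q := by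
  refine ⟨fun e => RefineNum S c (c e) e / q, fun k i => ?_, fun e he => ?_⟩
  · have h1 : (Finset.Ico (i * q) ((i + 1) * q)).card = q := by
      rw [Nat.card_Ico]
      have : (i + 1) * q = i * q + q := by ring
      omega
    refine le_of_le_of_eq ?_ h1
    refine Finset.card_le_card_of_injOn (fun e => RefineNum S c k e) ?_ ?_
    · intro e he
      have he' := Finset.mem_filter.1 (Finset.mem_coe.1 he)
      obtain ⟨-, hk, hi⟩ := he'
      replace hi : RefineNum S c (c e) e / q = i := hi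
      rw [hk] at hi
      rw [Finset.mem_coe, Finset.mem_Ico, ← hi]
      refine ⟨Nat.div_mul_le_self _ _, ?_⟩
      have := Nat.lt_div_mul_add (a := RefineNum S c k e) hq
      calc RefineNum S c k e < RefineNum S c k e / q * q + q := this
        _ = (RefineNum S c k e / q + 1) * q := by ring
    · intro e he e' he' hee
      have he1 := Finset.mem_filter.1 (Finset.mem_coe.1 he)
      have he2 := Finset.mem_filter.1 (Finset.mem_coe.1 he')
      exact RefineNum_inj he1.1 he1.2.1 he2.1 he2.2.1 hee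
  · have h1 := RefineNum_lt (c := c) he rfl
    have h2 : RefineNum S c (c e) e / q + 1 = (RefineNum S c (c e) e + q) / q :=
      (Nat.add_div_right _ hq).symm
    have h3 : (RefineNum S c (c e) e + q) / q ≤
        ((S.filter fun e' => c e' = c e).card + q - 1) / q := Nat.div_le_div_right (by omega)
    show RefineNum S c (c e) e / q < _
    omega

theorem parts_le {E C : Type} [Fintype E] (S : Finset E) (c : E → C) (idx : E → ℕ) (r : C → ℕ)
    (h : ∀ e ∈ S, idx e < r (c e)) (A : Finset E) (hA : A ⊆ S)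
    (hi : ∀ e ∈ A, ∀ e' ∈ A, c e = c e' → idx e = idx e' → e = e') (k : C) :
    (A.filter fun e => c e = k).card ≤ r k := by
  refine le_of_le_of_eq ?_ (Finset.card_range (r k))
  refine Finset.card_le_card_of_injOn idx ?_ ?_
  · intro e he
    obtain ⟨h2, h3⟩ := Finset.mem_filter.1 (Finset.mem_coe.1 he)
    rw [Finset.mem_coe, Finset.mem_range, ← h3]
    exact h e (hA h2)
  · intro e he e' he' hee
    obtain ⟨h2, h3⟩ := Finset.mem_filter.1 (Finset.mem_coe.1 he)
    obtain ⟨h4, h5⟩ := Finset.mem_filter.1 (Finset.mem_coe.1 he')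
    exact hi e h2 e' h4 (h3.trans h5.symm) hee

private theorem Refine_ceil (n m p : ℕ) (hp : 0 < p) (hn : p ≤ n) :
    (((m + n / p - 1) / (n / p) : ℕ) : ℤ) ≤ ⌈(2 * (p : ℚ) * (m : ℚ)) / n⌉ := by
  obtain ⟨q, hq⟩ : ∃ q, q = n / p := ⟨_, rfl⟩
  rw [← hq]
  have hq0 : 0 < q := by
    rw [hq]
    exact Nat.div_pos hn hp
  have hnq : n ≤ 2 * p * q := by
    have h1 := Nat.lt_div_mul_add (a := n) hp
    rw [← hq] at h1
    nlinarith
  have hn0 : (0 : ℚ) < n := by exact_mod_cast lt_of_lt_of_le hp hn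
  have ht0 : 0 ≤ ⌈(2 * (p : ℚ) * (m : ℚ)) / n⌉ := Int.ceil_nonneg (by positivity)
  obtain ⟨T, hT⟩ := Int.eq_ofNat_of_zero_le ht0
  rw [hT]
  have h1 : (2 * (p : ℚ) * (m : ℚ)) / n ≤ T := by
    have h2 := Int.le_ceil ((2 * (p : ℚ) * (m : ℚ)) / n)
    rw [hT] at h2
    exact_mod_cast h2
  rw [div_le_iff₀ hn0] at h1
  have h2 : 2 * p * m ≤ T * n := by exact_mod_cast h1
  have h3 : m ≤ T * q := by
    have h4 : 2 * p * m ≤ 2 * p * (T * q) := by
      calc 2 * p * m ≤ T * n := h2
        _ ≤ T * (2 * p * q) := Nat.mul_le_mul_left T hnq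
        _ = 2 * p * (T * q) := by ring
    exact Nat.le_of_mul_le_mul_left h4 (by positivity)
  have h5 : (m + q - 1) / q ≤ T := by
    rw [Nat.div_le_iff_le_mul_add_pred hq0]
    have : q * T = T * q := Nat.mul_comm q T
    omega
  exact_mod_cast h5

theorem ceil_le (n m : ℕ) (hn : 2 ^ 511 ≤ n) :
    (((m + n / 2 ^ 511 - 1) / (n / 2 ^ 511) : ℕ) : ℤ) ≤ ⌈(2 ^ 512 * (m : ℚ)) / n⌉ := by
  have h := Refine_ceil n m (2 ^ 511) (by positivity) hn
  have h1 : (2 * ((2 ^ 511 : ℕ) : ℚ) * (m : ℚ)) = 2 ^ 512 * (m : ℚ) := by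
    rw [Nat.cast_pow, Nat.cast_ofNat, pow_succ' (2 : ℚ) 511]
  rw [h1] at h
  exact h

end Pool.Agent.helper7.LT
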