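import Pool.Agent.helper7.LT.Big
import Pool.Agent.helper7.LT.Refine
import Pool.Agent.helper7.RT.Tree
import Pool.Agent.helper7.RT.Core
import Pool.Agent.helper7.RT.Pairs

/-!
# LT-Fin2: all colourings, all `n`

PROOF of `rainbow` (`0 < n`): let `e : P n ≃ Fin (2 * n)` (`Fintype.equivOfCardEq`), `c' x y = c s(e x, e y)`; the ordered pairs of
colour `k` are at most twice the edges of colour `k` (`RT.pairs_le` in `Pool/Agent/helper7/RT/Pairs.lean` for the colouring
`c ∘ Sym2.map e`, or directly: the map `(x, y) ↦ s(e x, e y)` is at most two to one), so `Oc c' k ≤ 2 * (n / 2 ^ 511) ≤ n / 2 ^ 510`.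
`decomp` gives `T`; `t s(a, b) = T (e.symm a) (e.symm b)` (`Sym2.lift`).  Connected graphs are transported by `e`, and `RT.tree_count`
shows that all graphs are trees.
PROOF of `some_trees`: `RT.pm` with `s = n` (`RT.pm_symm`, `RT.pm_connected`) and `RT.tree_count`.
PROOF of `all_colourings`: `n = 0`: `Sym2 (Fin (2 * 0))` and `Fin 0` are empty.  `0 < n < 2 ^ 511`: `some_trees`; the set on the left is a
subset of the class, so its size is at most `m ≤ ⌈2 ^ 512 * m / n⌉` (`1 ≤ 2 ^ 512 / n`).  `n ≥ 2 ^ 511`: `q = n / 2 ^ 511 ≥ 1`,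
`refine_classes` for the edges which are not diagonal gives `idx`; `rainbow` for the colouring `e ↦ (c e, idx e)`; then `parts_le`
for `A` = the edges of the tree `i`, with `r k = (m_k + q - 1) / q`, and `ceil_le`.
-/

set_option autoImplicit false

open Finset
open scoped Classical

namespace Pool.Agent.helper7.LT

private theorem Fin2_card (n : ℕ) : Fintype.card (P n) = Fintype.card (Fin (2 * n)) := by
  rw [Fintype.card_prod, Fintype.card_fin, Fintype.card_bool, Fintype.card_fin, mul_comm]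

/-- the transported tree function -/
private def Fin2_t {n : ℕ} (e : P n ≃ Fin (2 * n)) (T : P n → P n → Fin n)
    (hT : ∀ x y, T x y = T y x) : Sym2 (Fin (2 * n)) → Fin n :=
  Sym2.lift ⟨fun a b => T (e.symm a) (e.symm b), fun _ _ => hT _ _⟩

private theorem Fin2_t_mk {n : ℕ} (e : P n ≃ Fin (2 * n)) (T : P n → P n → Fin n)
    (hT : ∀ x y, T x y = T y x) (a b : Fin (2 * n)) :
    Fin2_t e T hT s(a, b) = T (e.symm a) (e.symm b) := rfl

private theorem Fin2_tree {n : ℕ} (e : P n ≃ Fin (2 * n)) (T : P n → P n → Fin n)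
    (hT : ∀ x y, T x y = T y x)
    (hc : ∀ t, (SimpleGraph.fromRel fun x y => T x y = t).Connected) (i : Fin n) :
    (SimpleGraph.fromEdgeSet {e' | Fin2_t e T hT e' = i}).IsTree := by
  refine RT.tree_count n (Fin2_t e T hT) (fun j => ?_) i
  have hiso : (SimpleGraph.fromRel fun x y : P n => T x y = j) ≃g
      (SimpleGraph.fromEdgeSet {e' | Fin2_t e T hT e' = j}) :=
    { toEquiv := e
      map_rel_iff' := by
        intro a b
        rw [SimpleGraph.fromRel_adj, SimpleGraph.fromEdgeSet_adj]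
        show (Fin2_t e T hT s(e a, e b) = j ∧ e a ≠ e b) ↔ (a ≠ b ∧ (T a b = j ∨ T b a = j))
        rw [Fin2_t_mk, Equiv.symm_apply_apply, Equiv.symm_apply_apply, hT b a, or_self,
          e.injective.ne_iff, and_comm] }
  exact hiso.connected_iff.1 (hc j)

private theorem Fin2_ceil (a m n K : ℕ) (hn : 0 < n) (h1 : a ≤ m) (h2 : n ≤ K) :
    (a : ℤ) ≤ ⌈((K : ℚ) * (m : ℚ)) / n⌉ := by
  have hnq : (0 : ℚ) < n := by exact_mod_cast hn
  have h3 : (a : ℚ) ≤ ((K : ℚ) * (m : ℚ)) / n := by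
    rw [le_div_iff₀ hnq, mul_comm (K : ℚ)]
    have h5 : (a : ℚ) ≤ m := by exact_mod_cast h1
    have h6 : (n : ℚ) ≤ K := by exact_mod_cast h2
    exact mul_le_mul h5 h6 hnq.le (by positivity)
  have h7 := h3.trans (Int.le_ceil _)
  exact_mod_cast h7

private theorem Fin2_half (x : ℝ) : (2 : ℝ) * (x / 2 ^ 511) = x / 2 ^ 510 := by
  rw [show (2 : ℝ) ^ 511 = 2 * 2 ^ 510 by rw [← pow_succ']]
  field_simp

private theorem Fin2_oc {n : ℕ} {C : Type} (c : Sym2 (Fin (2 * n)) → C)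
    (e : P n ≃ Fin (2 * n)) (q : ℕ) (h : ∀ k, {e | ¬ e.IsDiag ∧ c e = k}.ncard ≤ q) (k : C) :
    Oc (fun x y => c s(e x, e y)) k ≤ 2 * q := by
  have h1 := RT.pairs_le (fun z : Sym2 (P n) => c (z.map e)) k
  have h2 : {z : Sym2 (P n) | ¬ z.IsDiag ∧ c (z.map e) = k}.ncard ≤
      {z : Sym2 (Fin (2 * n)) | ¬ z.IsDiag ∧ c z = k}.ncard := by
    refine Set.ncard_le_ncard_of_injOn (Sym2.map e) ?_ ?_ (Set.toFinite _)
    · rintro z ⟨hz, hz'⟩
      refine ⟨?_, hz'⟩
      induction z using Sym2.ind with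
      | _ x y =>
        rw [Sym2.map_mk, Sym2.mk_isDiag_iff, e.injective.eq_iff]
        rwa [Sym2.mk_isDiag_iff] at hz
    · exact (Sym2.map.injective e.injective).injOn
  have h3 : Oc (fun x y => c s(e x, e y)) k =
      {z : P n × P n | z.1 ≠ z.2 ∧ c (Sym2.map e s(z.1, z.2)) = k}.ncard := by
    unfold Oc
    rw [← Set.ncard_coe_finset]
    congr 1
    ext z
    simp
  rw [h3]
  exact h1.trans (Nat.mul_le_mul_left 2 (h2.trans (h k)))

theorem rainbow (n : ℕ) (hn : 0 < n) (C : Type) (c : Sym2 (Fin (2 * n)) → C)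
    (h : ∀ k, {e | ¬ e.IsDiag ∧ c e = k}.ncard ≤ n / 2 ^ 511) :
    ∃ t : Sym2 (Fin (2 * n)) → Fin n,
      (∀ i, (SimpleGraph.fromEdgeSet {e | t e = i}).IsTree) ∧
      ∀ e e', ¬ e.IsDiag → ¬ e'.IsDiag → c e = c e' → t e = t e' → e = e' := by
  obtain ⟨e⟩ : Nonempty (P n ≃ Fin (2 * n)) := ⟨Fintype.equivOfCardEq (Fin2_card n)⟩
  have hcs : ∀ x y : P n, c s(e x, e y) = c s(e y, e x) := fun x y => by rw [Sym2.eq_swap]
  have hOc : ∀ k, (Oc (fun x y => c s(e x, e y)) k : ℝ) ≤ n / 2 ^ 510 := by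
    intro k
    have h1 := Fin2_oc c e (n / 2 ^ 511) h k
    have h2 : ((Oc (fun x y => c s(e x, e y)) k : ℕ) : ℝ) ≤ ((2 * (n / 2 ^ 511) : ℕ) : ℝ) := by
      exact_mod_cast h1
    have h3 : ((n / 2 ^ 511 : ℕ) : ℝ) ≤ (n : ℝ) / 2 ^ 511 := by
      have h4 := Nat.cast_div_le (α := ℝ) (m := n) (n := 2 ^ 511)
      rwa [Nat.cast_pow, Nat.cast_ofNat] at h4
    have h5 := Fin2_half (n : ℝ)
    rw [Nat.cast_mul, Nat.cast_ofNat] at h2
    exact h2.trans (le_trans (mul_le_mul_of_nonneg_left h3 zero_le_two) h5.le)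
  obtain ⟨T, hT, hcon, hrb⟩ := decomp hn (fun x y => c s(e x, e y)) hcs hOc
  refine ⟨Fin2_t e T hT, Fin2_tree e T hT hcon, ?_⟩
  intro z z' hz hz' hcz htz
  induction z using Sym2.ind with
  | _ a b =>
    induction z' using Sym2.ind with
    | _ a' b' =>
      rw [Sym2.mk_isDiag_iff] at hz hz'
      rw [Fin2_t_mk, Fin2_t_mk] at htz
      have h1 := hrb (e.symm a) (e.symm b) (e.symm a') (e.symm b')
        (e.symm.injective.ne hz) (e.symm.injective.ne hz') (by simpa using hcz) htz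
      have h2 := congrArg (Sym2.map e) h1
      simpa using h2

theorem some_trees (n : ℕ) : ∃ t : Sym2 (Fin (2 * n)) → Fin n,
    ∀ i, (SimpleGraph.fromEdgeSet {e | t e = i}).IsTree := by
  obtain ⟨e⟩ : Nonempty (P n ≃ Fin (2 * n)) := ⟨Fintype.equivOfCardEq (Fin2_card n)⟩
  exact ⟨Fin2_t e RT.pm RT.pm_symm, Fin2_tree e RT.pm RT.pm_symm fun t => RT.pm_connected t⟩

theorem all_colourings (n : ℕ) (C : Type) (c : Sym2 (Fin (2 * n)) → C) :
    ∃ t : Sym2 (Fin (2 * n)) → Fin n,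
      (∀ i, (SimpleGraph.fromEdgeSet {e | t e = i}).IsTree) ∧
      ∀ k i, ({e | ¬ e.IsDiag ∧ t e = i ∧ c e = k}.ncard : ℤ) ≤
        ⌈(2 ^ 512 * ({e | ¬ e.IsDiag ∧ c e = k}.ncard : ℚ)) / n⌉ := by
  rcases lt_or_ge n (2 ^ 511) with hn | hn
  · obtain ⟨t, ht⟩ := some_trees n
    refine ⟨t, ht, fun k i => ?_⟩
    have hn0 : 0 < n := i.pos
    have h1 : {e | ¬ e.IsDiag ∧ t e = i ∧ c e = k}.ncard ≤ {e | ¬ e.IsDiag ∧ c e = k}.ncard :=
      Set.ncard_le_ncard (fun e he => ⟨he.1, he.2.2⟩) (Set.toFinite _)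
    generalize {e | ¬ e.IsDiag ∧ t e = i ∧ c e = k}.ncard = a at h1
    generalize {e | ¬ e.IsDiag ∧ c e = k}.ncard = m at h1
    have h4 : n ≤ 2 ^ 512 := hn.le.trans (Nat.pow_le_pow_right (by norm_num) (by norm_num))
    have h5 := Fin2_ceil a m n (2 ^ 512) hn0 h1 h4
    rwa [Nat.cast_pow, Nat.cast_ofNat] at h5
  · have hn0 : 0 < n := lt_of_lt_of_le (by positivity) hn
    have hq : 0 < n / 2 ^ 511 := Nat.div_pos hn (by positivity)
    set S : Finset (Sym2 (Fin (2 * n))) := univ.filter fun e => ¬ e.IsDiag with hS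
    obtain ⟨idx, h1, h2⟩ := refine_classes S c (n / 2 ^ 511) hq
    obtain ⟨t, ht, hrb⟩ := rainbow n hn0 (C × ℕ) (fun e => (c e, idx e)) (fun k => by
      have h3 := h1 k.1 k.2
      refine le_of_eq_of_le ?_ h3
      rw [← Set.ncard_coe_finset]
      congr 1
      ext e
      simp [hS, Prod.ext_iff])
    refine ⟨t, ht, fun k i => ?_⟩
    have h4 := parts_le S c idx (fun k => ((S.filter fun e' => c e' = k).card + n / 2 ^ 511 - 1) /
      (n / 2 ^ 511)) h2 (S.filter fun e => t e = i) (filter_subset _ _) (by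
        intro e he e' he' hc hi
        rw [mem_filter, hS, mem_filter] at he he'
        refine hrb e e' he.1.2 he'.1.2 ?_ (he.2.trans he'.2.symm)
        show (c e, idx e) = (c e', idx e')
        rw [hc, hi]) k
    have h5 : {e | ¬ e.IsDiag ∧ t e = i ∧ c e = k}.ncard =
        ((S.filter fun e => t e = i).filter fun e => c e = k).card := by
      rw [← Set.ncard_coe_finset]
      congr 1
      ext e
      simp [hS, and_assoc]
    have h6 : {e | ¬ e.IsDiag ∧ c e = k}.ncard = (S.filter fun e => c e = k).card := by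
      rw [← Set.ncard_coe_finset]
      congr 1
      ext e
      simp [hS]
    rw [h5, h6]
    refine le_trans ?_ (ceil_le n _ hn)
    exact_mod_cast h4

end Pool.Agent.helper7.LT
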