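import Mathlib

/-!
# LT-Greedy: greedy edge colouring and maximal matchings

* `greedy_edge`: for every finite set `E` of elements `s(x, y)` with `x ≠ y`, `r x y`, there is `f : Sym2 V → Fin (2 * D + 1)` with
  `f s(x, y) ≠ f s(x, z)` for all `s(x, y), s(x, z) ∈ E` with `y ≠ z`; induction on `E` (`Finset.induction_on`): for the new
  edge `s(x, y)` the other edges of `E` through `x` are at most `D` many and those through `y` at most `D`, so one of the
  `2 * D + 1` values is free; `Function.update`.  Then take `E` = all such edges.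
* `match_cover`: take a matching `M ⊆ E` of maximal size (`Finset.exists_max_image`), `M.card ≤ g`; every `e ∈ E` has a common
  vertex with some `e' ∈ M` (or is in `M`), otherwise `insert e M` would be a larger matching.  So `E` is covered by the
  sets `{e ∈ E | e.1 = v ∨ e.2 = v}`, `v` an end point of an element of `M`; there are at most `2 * g` such `v`.
-/

set_option autoImplicit false

open Finset
open scoped Classical

namespace Pool.Agent.helper7.LT

private theorem greedy_aux {V : Type} [Fintype V] (r : V → V → Prop)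
    (D : ℕ) (hD : ∀ x, (univ.filter fun y => y ≠ x ∧ r x y).card ≤ D) (E : Finset (Sym2 V)) :
    ∃ f : Sym2 V → Fin (2 * D + 1), ∀ x y z, x ≠ y → x ≠ z → y ≠ z → r x y → r x z →
      s(x, y) ∈ E → s(x, z) ∈ E → f s(x, y) ≠ f s(x, z) := by
  induction E using Finset.induction_on with
  | empty => exact ⟨fun _ => 0, by simp⟩
  | insert e E he ih =>
    obtain ⟨f, hf⟩ := ih
    by_cases h : ∃ a b, a ≠ b ∧ r a b ∧ e = s(a, b)
    · obtain ⟨a, b, hab, hr, rfl⟩ := h
      set B : Finset (Fin (2 * D + 1)) :=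
        ((univ.filter fun w => w ≠ a ∧ r a w).image fun w => f s(a, w)) ∪
          ((univ.filter fun w => w ≠ b ∧ r b w).image fun w => f s(b, w)) with hB
      have hc : B.card < (univ : Finset (Fin (2 * D + 1))).card := by
        rw [Finset.card_univ, Fintype.card_fin]
        have h1 : B.card ≤ D + D := (Finset.card_union_le _ _).trans
          (Nat.add_le_add (Finset.card_image_le.trans (hD a)) (Finset.card_image_le.trans (hD b)))
        omega
      obtain ⟨c, -, hcB⟩ := Finset.exists_mem_notMem_of_card_lt_card hc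
      have hkey : ∀ x y z, x ≠ z → r x z → s(x, y) = s(a, b) → f s(x, z) ≠ c := by
        intro x y z hxz hr' hxy heq
        refine hcB ?_
        rcases Sym2.eq_iff.1 hxy with ⟨rfl, rfl⟩ | ⟨rfl, rfl⟩
        · refine Finset.mem_union_left _ (Finset.mem_image.2 ⟨z, ?_, heq⟩)
          exact Finset.mem_filter.2 ⟨Finset.mem_univ _, hxz.symm, hr'⟩
        · refine Finset.mem_union_right _ (Finset.mem_image.2 ⟨z, ?_, heq⟩)
          exact Finset.mem_filter.2 ⟨Finset.mem_univ _, hxz.symm, hr'⟩
      refine ⟨Function.update f s(a, b) c, ?_⟩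
      intro x y z hxy hxz hyz hrxy hrxz hy hz
      by_cases e1 : s(x, y) = s(a, b)
      · by_cases e2 : s(x, z) = s(a, b)
        · exact absurd (Sym2.congr_right.1 (e1.trans e2.symm)) hyz
        · rw [e1, Function.update_self, Function.update_of_ne e2]
          exact (hkey x y z hxz hrxz e1).symm
      · by_cases e2 : s(x, z) = s(a, b)
        · rw [e2, Function.update_self, Function.update_of_ne e1]
          exact hkey x z y hxy hrxy e2
        · rw [Function.update_of_ne e1, Function.update_of_ne e2]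
          exact hf x y z hxy hxz hyz hrxy hrxz ((Finset.mem_insert.1 hy).resolve_left e1)
            ((Finset.mem_insert.1 hz).resolve_left e2)
    · refine ⟨f, ?_⟩
      intro x y z hxy hxz hyz hrxy hrxz hy hz
      refine hf x y z hxy hxz hyz hrxy hrxz ((Finset.mem_insert.1 hy).resolve_left ?_)
        ((Finset.mem_insert.1 hz).resolve_left ?_)
      · exact fun h' => h ⟨x, y, hxy, hrxy, h'.symm⟩
      · exact fun h' => h ⟨x, z, hxz, hrxz, h'.symm⟩

theorem greedy_edge {V : Type} [Fintype V] (r : V → V → Prop) (hs : ∀ x y, r x y → r y x)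
    (D : ℕ) (hD : ∀ x, (univ.filter fun y => y ≠ x ∧ r x y).card ≤ D) :
    ∃ f : Sym2 V → Fin (2 * D + 1), ∀ x y z, x ≠ y → x ≠ z → y ≠ z → r x y → r x z →
      f s(x, y) ≠ f s(x, z) := by
  have _ := hs
  obtain ⟨f, hf⟩ := greedy_aux r D hD (univ : Finset (Sym2 V))
  exact ⟨f, fun x y z h1 h2 h3 h4 h5 => hf x y z h1 h2 h3 h4 h5 (Finset.mem_univ _)
    (Finset.mem_univ _)⟩

theorem match_cover {V : Type} [Fintype V] (E : Finset (V × V)) (hE : ∀ e ∈ E, e.1 ≠ e.2)
    (g D : ℕ) (hD : ∀ v, (E.filter fun e => e.1 = v ∨ e.2 = v).card ≤ D)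
    (hg : ∀ M ⊆ E, (∀ e ∈ M, ∀ e' ∈ M, e ≠ e' →
      e.1 ≠ e'.1 ∧ e.1 ≠ e'.2 ∧ e.2 ≠ e'.1 ∧ e.2 ≠ e'.2) → M.card ≤ g) :
    E.card ≤ 2 * g * D := by
  have _ := hE
  set F : Finset (Finset (V × V)) := E.powerset.filter fun M => ∀ e ∈ M, ∀ e' ∈ M, e ≠ e' →
      e.1 ≠ e'.1 ∧ e.1 ≠ e'.2 ∧ e.2 ≠ e'.1 ∧ e.2 ≠ e'.2 with hF
  have hne : F.Nonempty := ⟨∅, by simp [hF]⟩
  obtain ⟨M, hM, hmax⟩ := F.exists_max_image Finset.card hne
  rw [hF, Finset.mem_filter, Finset.mem_powerset] at hM
  obtain ⟨hME, hMm⟩ := hM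
  have hMg := hg M hME hMm
  set W : Finset V := M.image Prod.fst ∪ M.image Prod.snd with hW
  have hWc : W.card ≤ 2 * g := by
    have h1 : W.card ≤ M.card + M.card := (Finset.card_union_le _ _).trans
      (Nat.add_le_add Finset.card_image_le Finset.card_image_le)
    omega
  have hW1 : ∀ e ∈ M, e.1 ∈ W := fun e he =>
    Finset.mem_union_left _ (Finset.mem_image_of_mem _ he)
  have hW2 : ∀ e ∈ M, e.2 ∈ W := fun e he =>
    Finset.mem_union_right _ (Finset.mem_image_of_mem _ he)
  have hcov : E ⊆ W.biUnion fun v => E.filter fun e => e.1 = v ∨ e.2 = v := by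
    intro e he
    rw [Finset.mem_biUnion]
    by_contra hno
    have h1 : e.1 ∉ W := fun h => hno ⟨e.1, h, Finset.mem_filter.2 ⟨he, Or.inl rfl⟩⟩
    have h2 : e.2 ∉ W := fun h => hno ⟨e.2, h, Finset.mem_filter.2 ⟨he, Or.inr rfl⟩⟩
    have heM : e ∉ M := fun h => h1 (hW1 e h)
    have hne1 : ∀ e' ∈ M, e.1 ≠ e'.1 ∧ e.1 ≠ e'.2 ∧ e.2 ≠ e'.1 ∧ e.2 ≠ e'.2 := by
      intro e' he'
      exact ⟨fun h => h1 (h ▸ hW1 e' he'), fun h => h1 (h ▸ hW2 e' he'),
        fun h => h2 (h ▸ hW1 e' he'), fun h => h2 (h ▸ hW2 e' he')⟩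
    have h3 : insert e M ∈ F := by
      rw [hF, Finset.mem_filter, Finset.mem_powerset]
      refine ⟨Finset.insert_subset he hME, ?_⟩
      intro a ha b hb hab
      rcases Finset.mem_insert.1 ha with ha' | ha'
      · rcases Finset.mem_insert.1 hb with hb' | hb'
        · exact absurd (ha'.trans hb'.symm) hab
        · rw [ha']; exact hne1 b hb'
      · rcases Finset.mem_insert.1 hb with hb' | hb'
        · obtain ⟨k1, k2, k3, k4⟩ := hne1 a ha'
          rw [hb']
          exact ⟨k1.symm, k3.symm, k2.symm, k4.symm⟩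
        · exact hMm a ha' b hb' hab
    have h4 := hmax _ h3
    rw [Finset.card_insert_of_notMem heM] at h4
    omega
  calc E.card ≤ (W.biUnion fun v => E.filter fun e => e.1 = v ∨ e.2 = v).card :=
        Finset.card_le_card hcov
    _ ≤ W.card * D := Finset.card_biUnion_le_card_mul _ _ _ fun v _ => hD v
    _ ≤ 2 * g * D := Nat.mul_le_mul_right _ hWc

end Pool.Agent.helper7.LT
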