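import Mathlib

/-!
# LT-LDefs: patterns for families of bijections (definitions)

`ω : J → A → B` is a family of functions; `IsBij X Y ω`: every `ω j` is a bijection from `X j` to `Y j` (the
values outside `X j` are arbitrary).  A pattern is a finite set of triples `(j, a, b)`.
-/

set_option autoImplicit false

open Finset
open scoped Classical

namespace Pool.Agent.helper7.LT

variable {J A B : Type}

/-- `ω j` is a bijection from `X j` to `Y j` -/
def IsBij (X : J → Finset A) (Y : J → Finset B) (ω : J → A → B) : Prop :=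
  ∀ j, Set.BijOn (ω j) (X j) (Y j)

/-- `ω` has all the values prescribed by the pattern `S` -/
def Realises (ω : J → A → B) (S : Finset (J × A × B)) : Prop := ∀ s ∈ S, ω s.1 s.2.1 = s.2.2

/-- two patterns have a common left slot or a common right slot -/
def Touch (S S' : Finset (J × A × B)) : Prop :=
  ∃ s ∈ S, ∃ s' ∈ S', s.1 = s'.1 ∧ (s.2.1 = s'.2.1 ∨ s.2.2 = s'.2.2)

/-- the pattern `S` lives on `X`, `Y`, and `r j` bounds the probability of a further prescribed value -/
def Fits (X : J → Finset A) (Y : J → Finset B) (r : J → ℝ) (S : Finset (J × A × B)) : Prop :=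
  S.Nonempty ∧ ∀ s ∈ S, s.2.1 ∈ X s.1 ∧ s.2.2 ∈ Y s.1 ∧
    1 ≤ r s.1 * (((Y s.1).card : ℝ) + 1 - ((S.filter fun s' => s'.1 = s.1).card : ℝ))

/-- the weight of a pattern in the local lemma -/
noncomputable def wx (r : J → ℝ) (S : Finset (J × A × B)) : ℝ :=
  (∏ s ∈ S, r s.1) * Real.exp S.card

/-- number of families of bijections which realise no pattern of `F` and realise `S` -/
noncomputable def cnt [Fintype J] [Fintype A] [Fintype B] (X : J → Finset A) (Y : J → Finset B)
    (F : Finset (Finset (J × A × B))) (S : Finset (J × A × B)) : ℕ :=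
  {ω : J → A → B | IsBij X Y ω ∧ (∀ S' ∈ F, ¬ Realises ω S') ∧ Realises ω S}.ncard

end Pool.Agent.helper7.LT
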