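import Pool.Agent.helper7.LT.CntM

/-!
# LT-LightD: the property of the labels which control the light edges (definition)
-/

set_option autoImplicit false

open Finset
open scoped Classical

namespace Pool.Agent.helper7.LT

variable {n : ℕ} {C : Type}

/-- The labelling `lb` with the thresholds `g` controls the light edges at depth `d`. -/
def LP (c : P n → P n → C) (d : ℕ) (β : ℝ) (lb : P n → P n → Option (C × ℕ))
    (g : C × ℕ → ℕ) : Prop :=
  (∀ x y l, lb x y = some l → c x y = l.1) ∧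
  (∀ l, 874 * ((Ol lb l : ℝ) / 4 ^ d) ≤ g l ∧ Nd n d ^ (1 / 16 : ℝ) ≤ g l) ∧
  ∀ ω : Equiv.Perm (P n), (∀ W ∈ FM lb g, ∀ b, ∃ x ∈ W, blk n d (ω x).1 ≠ b) →
    (∀ v k, ((univ.filter fun y : P n => y ≠ v ∧ c v y = k ∧
      blk n d (ω y).1 = blk n d (ω v).1).card : ℝ) ≤
      81 * max ((Dg c k v : ℝ) / 2 ^ d) (Nd n d ^ (1 / 16 : ℝ)) + 1) →
    ∀ (b : ℕ) (k : C), ((univ.filter fun e : P n × P n => e.1 ≠ e.2 ∧ c e.1 e.2 = k ∧
      blk n d (ω e.1).1 = b ∧ blk n d (ω e.2).1 = b ∧ Lt c d k e.1 ∧ Lt c d k e.2).card : ℝ) ≤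
      1748 * β * Nd n d ^ 2 / n + 984 * Nd n d ^ (7 / 8 : ℝ)

end Pool.Agent.helper7.LT
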