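import Pool.Agent.helper7.LT.ChL
import Pool.Agent.helper7.LT.LightD
import Pool.Agent.helper7.LT.Greedy

/-!
# LT-LightHi: the light edges at the large scales

Let `N = Nd n d ≥ 1`, `c` symmetric, `Oc c k ≤ β * n` for all `k`, `β ≤ 1 / 7000`.  The first part of `LP` (the labels refine the
colours) is clear.
* `light_high` (case `8 * n ≤ N ^ (7 / 4)`): for every `k` let `r x y` be: `x ≠ y`, `c x y = k`, `x`, `y` light at depth `d`; the degrees
  are at most `D = ⌊n / N ^ (15 / 16)⌋₊` (`Dg ≤ 2 ^ d * N ^ (1 / 16) = n * N ^ (-15 / 16)`; `0` for heavy `x`); `greedy_edge` gives `f k`.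
  `lb x y = some (k, f k s(x, y))` with `k = c x y` for light `x`, `y`, and `none` otherwise;
  `g l = ⌈874 * (Ol lb l / 4 ^ d) + N ^ (1 / 16)⌉₊`.
  For a good placement, `b`, `k`, `j`: the pairs `(x, y)` in question with label `(k, j)`: two of them are disjoint or `(x, y)`,
  `(y, x)`; choosing one of each two there are at most `g (k, j)`, so there are at most `2 * g (k, j)`.  Sum over `j < 2 * D + 1`:
  `2 * ∑ (874 * Ol (k, j) / 4 ^ d + N ^ (1 / 16) + 1) ≤ 1748 * Oc c k / 4 ^ d + 2 * (2 * D + 1) * 2 * N ^ (1 / 16)`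
  `≤ 1748 * β * N ^ 2 / n + 8 * n * N ^ (-7 / 8) + 4 * N ^ (1 / 16) ≤ 1748 * β * N ^ 2 / n + 5 * N ^ (7 / 8)`.

author: helper59
-/

set_option autoImplicit false

open Finset
open scoped Classical

namespace Pool.Agent.helper7.LT

variable {n : ℕ} {C : Type}

private theorem LightHi_greedy {V : Type} [Fintype V] (r : V → V → Prop)
    (hs : ∀ x y, r x y → r y x) (D : ℕ)
    (hD : ∀ x, ∀ S : Finset V, (∀ y ∈ S, y ≠ x ∧ r x y) → S.card ≤ D) :
    ∃ f : Sym2 V → Fin (2 * D + 1), ∀ x y z, x ≠ y → x ≠ z → y ≠ z → r x y → r x z →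
      f s(x, y) ≠ f s(x, z) :=
  greedy_edge r hs D fun x => hD x _ fun _ hy => (Finset.mem_filter.1 hy).2

private theorem LightHi_Ol {L : Type} (lb : P n → P n → Option L) (l : L)
    (S : Finset (P n × P n)) (h : ∀ e : P n × P n, e.1 ≠ e.2 → lb e.1 e.2 = some l → e ∈ S) :
    Ol lb l ≤ S.card := by
  unfold Ol
  apply Finset.card_le_card
  intro e he
  obtain ⟨-, h3, h4⟩ := Finset.mem_filter.1 he
  exact h e h3 h4

private theorem LightHi_half (E : Finset (P n × P n)) (hE : ∀ e ∈ E, e.1 ≠ e.2)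
    (hd : ∀ e ∈ E, ∀ e' ∈ E, s(e.1, e.2) ≠ s(e'.1, e'.2) →
      e.1 ≠ e'.1 ∧ e.1 ≠ e'.2 ∧ e.2 ≠ e'.1 ∧ e.2 ≠ e'.2) (g : ℕ)
    (hg : ∀ M ⊆ E, Mat M → M.card ≠ g + 1) : E.card ≤ 2 * g := by
  by_contra hcon
  have hcon' : 2 * g < E.card := not_le.1 hcon
  have hne : Nonempty (P n × P n) := by
    obtain ⟨e, -⟩ := Finset.card_pos.1 (by omega : 0 < E.card)
    exact ⟨e⟩
  have hfib : E.card ≤ 2 * (E.image fun e => s(e.1, e.2)).card := by
    apply Finset.card_le_mul_card_image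
    intro t ht
    obtain ⟨e0, -, rfl⟩ := Finset.mem_image.1 ht
    have hsub : (E.filter fun e => s(e.1, e.2) = s(e0.1, e0.2)) ⊆ {(e0.1, e0.2), (e0.2, e0.1)} := by
      rintro ⟨x, y⟩ he
      have h2 := (Finset.mem_filter.1 he).2
      rcases Sym2.eq_iff.1 h2 with ⟨h3, h4⟩ | ⟨h3, h4⟩
      · simp only at h3 h4
        rw [h3, h4]
        exact Finset.mem_insert_self _ _
      · simp only at h3 h4
        rw [h3, h4]
        exact Finset.mem_insert_of_mem (Finset.mem_singleton_self _)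
    exact (Finset.card_le_card hsub).trans Finset.card_le_two
  obtain ⟨T, hT, hTc⟩ := Finset.exists_subset_card_eq
    (by omega : g + 1 ≤ (E.image fun e => s(e.1, e.2)).card)
  have hinv : ∀ t ∈ T, Function.invFunOn (fun e : P n × P n => s(e.1, e.2)) (E : Set (P n × P n)) t ∈ E ∧
      s((Function.invFunOn (fun e : P n × P n => s(e.1, e.2)) (E : Set (P n × P n)) t).1,
        (Function.invFunOn (fun e : P n × P n => s(e.1, e.2)) (E : Set (P n × P n)) t).2) = t := by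
    intro t ht
    obtain ⟨e, he, het⟩ := Finset.mem_image.1 (hT ht)
    have hex : ∃ a ∈ (E : Set (P n × P n)), (fun e : P n × P n => s(e.1, e.2)) a = t := ⟨e, he, het⟩
    exact ⟨Function.invFunOn_mem hex, Function.invFunOn_eq hex⟩
  set G := Function.invFunOn (fun e : P n × P n => s(e.1, e.2)) (E : Set (P n × P n)) with hG
  have hinj : Set.InjOn G T := by
    intro t ht t' ht' h
    rw [← (hinv t ht).2, ← (hinv t' ht').2, h]
  refine hg (T.image G) ?_ ⟨?_, ?_⟩ ?_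
  · intro e he
    obtain ⟨t, ht, rfl⟩ := Finset.mem_image.1 he
    exact (hinv t ht).1
  · intro e he
    obtain ⟨t, ht, rfl⟩ := Finset.mem_image.1 he
    exact hE _ (hinv t ht).1
  · intro e he e' he' hee
    obtain ⟨t, ht, rfl⟩ := Finset.mem_image.1 he
    obtain ⟨t', ht', rfl⟩ := Finset.mem_image.1 he'
    apply hd _ (hinv t ht).1 _ (hinv t' ht').1
    intro h
    apply hee
    rw [(hinv t ht).2, (hinv t' ht').2] at h
    rw [h]
  · rw [Finset.card_image_of_injOn hinj, hTc]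

private theorem LightHi_num {N n0 β a o D E : ℝ} {d : ℕ} (hN : 1 ≤ N) (hn0 : 0 < n0)
    (hNd : N = n0 / 2 ^ d) (h : 8 * n0 ≤ N ^ (7 / 4 : ℝ)) (ha : a = N ^ (1 / 16 : ℝ))
    (ho : o ≤ β * n0) (hD : D ≤ 2 ^ d * a)
    (hE : E ≤ 1748 * (o / 4 ^ d) + (2 * D + 1) * (2 * (a + 1))) :
    E ≤ 1748 * β * N ^ 2 / n0 + 984 * N ^ (7 / 8 : ℝ) := by
  have hN0 : 0 < N := by linarith
  have ha1 : 1 ≤ a := by
    rw [ha]
    exact Real.one_le_rpow hN (by norm_num)
  have h2d : (0 : ℝ) < 2 ^ d := by positivity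
  have h4d : (4 : ℝ) ^ d = 2 ^ d * 2 ^ d := by rw [← mul_pow]; norm_num
  have hn0' : n0 = N * 2 ^ d := by
    rw [hNd]
    field_simp
  have e1 : 1748 * (o / 4 ^ d) ≤ 1748 * β * N ^ 2 / n0 := by
    have h3 : 1748 * β * N ^ 2 / n0 = 1748 * (β * n0 / 4 ^ d) := by
      rw [h4d, hn0']
      field_simp
    rw [h3]
    gcongr
  have ha2 : a ^ 2 = N ^ (1 / 8 : ℝ) := by
    rw [ha, ← Real.rpow_natCast, ← Real.rpow_mul hN0.le]
    norm_num
  have e2 : 8 * (2 ^ d * a ^ 2) ≤ N ^ (7 / 8 : ℝ) := by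
    have h5 : N ^ (7 / 4 : ℝ) * N ^ (1 / 8 : ℝ) = N * N ^ (7 / 8 : ℝ) := by
      nth_rewrite 3 [← Real.rpow_one N]
      rw [← Real.rpow_add hN0, ← Real.rpow_add hN0]
      norm_num
    have h6 : N * (8 * (2 ^ d * a ^ 2)) ≤ N * N ^ (7 / 8 : ℝ) := by
      rw [← h5, ha2]
      have h7 : N * (8 * (2 ^ d * N ^ (1 / 8 : ℝ))) = 8 * n0 * N ^ (1 / 8 : ℝ) := by
        rw [hn0']
        ring
      rw [h7]
      have : 0 ≤ N ^ (1 / 8 : ℝ) := Real.rpow_nonneg hN0.le _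
      gcongr
    exact le_of_mul_le_mul_left h6 hN0
  have e3 : a ≤ N ^ (7 / 8 : ℝ) := by
    rw [ha]
    exact Real.rpow_le_rpow_of_exponent_le hN (by norm_num)
  have e4 : (2 * D + 1) * (2 * (a + 1)) ≤ (2 * (2 ^ d * a) + 1) * (2 * (a + a)) := by
    have : 0 ≤ 2 ^ d * a := by positivity
    gcongr
  have e5 : (2 * (2 ^ d * a) + 1) * (2 * (a + a)) = 8 * (2 ^ d * a ^ 2) + 4 * a := by ring
  have e6 : 0 ≤ N ^ (7 / 8 : ℝ) := Real.rpow_nonneg hN0.le _
  linarith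

theorem light_high (c : P n → P n → C) (hc : ∀ x y, c x y = c y x) (d : ℕ) (β : ℝ) (h0 : 0 ≤ β)
    (h1 : β ≤ 1 / 7000) (hβ : ∀ k, (Oc c k : ℝ) ≤ β * n) (hN : 1 ≤ Nd n d)
    (h : 8 * n ≤ Nd n d ^ (7 / 4 : ℝ)) : ∃ lb g, LP c d β lb g := by
  have hN0 : 0 < Nd n d := by linarith
  have hn0 : (0 : ℝ) < n := by
    rcases (Nat.cast_nonneg n : (0 : ℝ) ≤ n).lt_or_eq with h2 | h2
    · exact h2
    · unfold Nd at hN0
      rw [← h2, zero_div] at hN0
      exact absurd hN0 (lt_irrefl _)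
  obtain ⟨D, hDdef⟩ : ∃ D : ℕ, D = ⌊(2 : ℝ) ^ d * Nd n d ^ (1 / 16 : ℝ)⌋₊ := ⟨_, rfl⟩
  have hDle : (D : ℝ) ≤ 2 ^ d * Nd n d ^ (1 / 16 : ℝ) := by
    rw [hDdef]
    exact Nat.floor_le (by positivity)
  have hgr : ∀ k : C, ∃ f : Sym2 (P n) → Fin (2 * D + 1), ∀ x y z, x ≠ y → x ≠ z → y ≠ z →
      (x ≠ y ∧ c x y = k ∧ Lt c d k x ∧ Lt c d k y) → (x ≠ z ∧ c x z = k ∧ Lt c d k x ∧ Lt c d k z) →
      f s(x, y) ≠ f s(x, z) := by
    intro k
    refine LightHi_greedy (fun x y => x ≠ y ∧ c x y = k ∧ Lt c d k x ∧ Lt c d k y) ?_ D ?_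
    · rintro x y ⟨h2, h3, h4, h5⟩
      exact ⟨h2.symm, by rw [hc]; exact h3, h5, h4⟩
    · intro x S hS'
      have key : ∀ S : Finset (P n), (∀ y ∈ S, y ≠ x ∧ c x y = k ∧ Lt c d k x) → S.card ≤ D := by
        intro S hS
        by_cases hx : Lt c d k x
        · rw [hDdef]
          apply Nat.le_floor
          have h2 : S.card ≤ Dg c k x := by
            unfold Dg
            apply Finset.card_le_card
            intro y hy
            exact Finset.mem_filter.2 ⟨Finset.mem_univ _, (hS y hy).1, (hS y hy).2.1⟩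
          have h3 : (Dg c k x : ℝ) / 2 ^ d ≤ Nd n d ^ (1 / 16 : ℝ) := hx
          rw [div_le_iff₀ (by positivity)] at h3
          have h4 : (S.card : ℝ) ≤ Dg c k x := by
            exact_mod_cast h2
          linarith
        · have h2 : S = ∅ := Finset.eq_empty_of_forall_notMem fun y hy => hx (hS y hy).2.2
          rw [h2, Finset.card_empty]
          exact Nat.zero_le _
      exact key S fun y hy => ⟨(hS' y hy).1, (hS' y hy).2.2.1, (hS' y hy).2.2.2.1⟩
  choose f hf using hgr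
  obtain ⟨lb, hlb⟩ : ∃ lb : P n → P n → Option (C × ℕ), ∀ x y, lb x y =
      if Lt c d (c x y) x ∧ Lt c d (c x y) y then some (c x y, (f (c x y) s(x, y)).val) else none :=
    ⟨_, fun x y => rfl⟩
  have hlb1 : ∀ x y k j, lb x y = some (k, j) → c x y = k ∧ (f k s(x, y)).val = j := by
    intro x y k j h2
    rw [hlb] at h2
    split_ifs at h2 with h3
    have h4 := Option.some.inj h2
    have h5 : c x y = k := congrArg Prod.fst h4
    have h6 : (f (c x y) s(x, y)).val = j := congrArg Prod.snd h4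
    refine ⟨h5, ?_⟩
    rw [← h5]
    exact h6
  have hlb2 : ∀ x y k, c x y = k → Lt c d k x → Lt c d k y →
      lb x y = some (k, (f k s(x, y)).val) := by
    rintro x y k rfl h3 h4
    rw [hlb, if_pos ⟨h3, h4⟩]
  obtain ⟨g, hg⟩ : ∃ g : C × ℕ → ℕ, ∀ l, g l =
      ⌈874 * ((Ol lb l : ℝ) / 4 ^ d) + Nd n d ^ (1 / 16 : ℝ)⌉₊ := ⟨_, fun l => rfl⟩
  have ha0 : 0 ≤ Nd n d ^ (1 / 16 : ℝ) := Real.rpow_nonneg hN0.le _
  refine ⟨lb, g, ?_, ?_, ?_⟩
  · rintro x y ⟨k, j⟩ h2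
    exact (hlb1 x y k j h2).1
  · intro l
    have h2 : 874 * ((Ol lb l : ℝ) / 4 ^ d) + Nd n d ^ (1 / 16 : ℝ) ≤ g l := by
      rw [hg]
      exact Nat.le_ceil _
    have h3 : 0 ≤ 874 * ((Ol lb l : ℝ) / 4 ^ d) := by positivity
    exact ⟨by linarith, by linarith⟩
  · intro ω hω _ b k
    obtain ⟨E, hEdef⟩ : ∃ E : Finset (P n × P n), E = (univ.filter fun e : P n × P n =>
      e.1 ≠ e.2 ∧ c e.1 e.2 = k ∧ blk n d (ω e.1).1 = b ∧ blk n d (ω e.2).1 = b ∧
        Lt c d k e.1 ∧ Lt c d k e.2) := ⟨_, rfl⟩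
    have hEm : ∀ e ∈ E, e.1 ≠ e.2 ∧ c e.1 e.2 = k ∧ blk n d (ω e.1).1 = b ∧
        blk n d (ω e.2).1 = b ∧ Lt c d k e.1 ∧ Lt c d k e.2 := by
      intro e he
      rw [hEdef] at he
      exact (Finset.mem_filter.1 he).2
    rw [← hEdef]
    have hEj : ∀ j, (E.filter fun e => (f k s(e.1, e.2)).val = j).card ≤ 2 * g (k, j) := by
      intro j
      apply LightHi_half
      · intro e he
        exact (hEm e (Finset.mem_filter.1 he).1).1
      · rintro ⟨x, y⟩ he ⟨x', y'⟩ he' hne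
        obtain ⟨he1, he2⟩ := Finset.mem_filter.1 he
        obtain ⟨he3, he4⟩ := Finset.mem_filter.1 he'
        obtain ⟨p1, p2, -, -, p3, p4⟩ := hEm _ he1
        obtain ⟨q1, q2, -, -, q3, q4⟩ := hEm _ he3
        simp only at he2 he4 p1 p2 p3 p4 q1 q2 q3 q4 hne ⊢
        have heq : f k s(x, y) = f k s(x', y') := Fin.ext (he2.trans he4.symm)
        have p2' : c y x = k := by rw [hc]; exact p2
        have q2' : c y' x' = k := by rw [hc]; exact q2
        refine ⟨?_, ?_, ?_, ?_⟩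
        · rintro rfl
          have hyy : y ≠ y' := fun h2 => hne (by rw [h2])
          exact hf k x y y' p1 q1 hyy ⟨p1, p2, p3, p4⟩ ⟨q1, q2, q3, q4⟩ heq
        · rintro rfl
          have hyy : y ≠ x' := fun h2 => hne (by rw [h2, Sym2.eq_swap])
          refine hf k x y x' p1 q1.symm hyy ⟨p1, p2, p3, p4⟩ ⟨q1.symm, q2', q4, q3⟩ ?_
          rw [heq, Sym2.eq_swap]
        · rintro rfl
          have hyy : x ≠ y' := fun h2 => hne (by rw [h2, Sym2.eq_swap])
          refine hf k y x y' p1.symm q1 hyy ⟨p1.symm, p2', p4, p3⟩ ⟨q1, q2, q3, q4⟩ ?_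
          rw [← heq, Sym2.eq_swap]
        · rintro rfl
          have hyy : x ≠ x' := fun h2 => hne (by rw [h2])
          refine hf k y x x' p1.symm q1.symm hyy ⟨p1.symm, p2', p4, p3⟩
            ⟨q1.symm, q2', q4, q3⟩ ?_
          rw [Sym2.eq_swap, heq, Sym2.eq_swap]
      · intro M hM hmat hcard
        have hME : ∀ e ∈ M, e ∈ E ∧ (f k s(e.1, e.2)).val = j := fun e he =>
          Finset.mem_filter.1 (hM he)
        have hW : M.image Prod.fst ∪ M.image Prod.snd ∈ FM lb g := by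
          unfold FM
          refine Finset.mem_filter.2 ⟨Finset.mem_univ _, (k, j), M, hmat, fun e he => ?_, hcard, rfl⟩
          obtain ⟨h2, h3⟩ := hME e he
          obtain ⟨p1, p2, -, -, p3, p4⟩ := hEm _ h2
          rw [hlb2 e.1 e.2 k p2 p3 p4, h3]
        obtain ⟨x, hx, hxb⟩ := hω _ hW b
        apply hxb
        rcases Finset.mem_union.1 hx with h2 | h2
        · obtain ⟨e, he, rfl⟩ := Finset.mem_image.1 h2
          exact (hEm e (hME e he).1).2.2.1
        · obtain ⟨e, he, rfl⟩ := Finset.mem_image.1 h2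
          exact (hEm e (hME e he).1).2.2.2.1
    have hsum : E.card = ∑ j ∈ range (2 * D + 1),
        (E.filter fun e => (f k s(e.1, e.2)).val = j).card :=
      Finset.card_eq_sum_card_fiberwise fun e _ => Finset.mem_coe.2 (Finset.mem_range.2 (Fin.is_lt _))
    have hOl : ∑ j ∈ range (2 * D + 1), Ol lb (k, j) ≤ Oc c k := by
      have h2 : Oc c k = ∑ j ∈ range (2 * D + 1),
          ((univ.filter fun e : P n × P n => e.1 ≠ e.2 ∧ c e.1 e.2 = k).filter
            fun e => (f k s(e.1, e.2)).val = j).card :=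
        Finset.card_eq_sum_card_fiberwise
          fun e _ => Finset.mem_coe.2 (Finset.mem_range.2 (Fin.is_lt _))
      rw [h2]
      refine Finset.sum_le_sum fun j _ => ?_
      apply LightHi_Ol
      intro e h3 h4
      obtain ⟨h5, h6⟩ := hlb1 _ _ _ _ h4
      exact Finset.mem_filter.2 ⟨Finset.mem_filter.2 ⟨Finset.mem_univ _, h3, h5⟩, h6⟩
    have hOl' : ∑ j ∈ range (2 * D + 1), (Ol lb (k, j) : ℝ) ≤ Oc c k := by
      exact_mod_cast hOl
    have hE1 : (E.card : ℝ) ≤ ∑ j ∈ range (2 * D + 1),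
        2 * (874 * ((Ol lb (k, j) : ℝ) / 4 ^ d) + Nd n d ^ (1 / 16 : ℝ) + 1) := by
      rw [hsum]
      push_cast
      refine Finset.sum_le_sum fun j _ => ?_
      have h2 : ((E.filter fun e => (f k s(e.1, e.2)).val = j).card : ℝ) ≤ 2 * (g (k, j) : ℝ) := by
        exact_mod_cast hEj j
      have h3 : (g (k, j) : ℝ) ≤ 874 * ((Ol lb (k, j) : ℝ) / 4 ^ d) + Nd n d ^ (1 / 16 : ℝ) + 1 := by
        rw [hg]
        exact (Nat.ceil_lt_add_one (by positivity)).le
      linarith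
    have hE2 : ∑ j ∈ range (2 * D + 1),
        2 * (874 * ((Ol lb (k, j) : ℝ) / 4 ^ d) + Nd n d ^ (1 / 16 : ℝ) + 1) =
        1748 * ((∑ j ∈ range (2 * D + 1), (Ol lb (k, j) : ℝ)) / 4 ^ d) +
          (2 * (D : ℝ) + 1) * (2 * (Nd n d ^ (1 / 16 : ℝ) + 1)) := by
      rw [Finset.sum_div, Finset.mul_sum]
      have h2 : ∀ j ∈ range (2 * D + 1),
          2 * (874 * ((Ol lb (k, j) : ℝ) / 4 ^ d) + Nd n d ^ (1 / 16 : ℝ) + 1) =
          1748 * ((Ol lb (k, j) : ℝ) / 4 ^ d) + 2 * (Nd n d ^ (1 / 16 : ℝ) + 1) := by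
        intro j _
        ring
      rw [Finset.sum_congr rfl h2, Finset.sum_add_distrib, Finset.sum_const, Finset.card_range,
        nsmul_eq_mul]
      push_cast
      ring
    refine LightHi_num (N := Nd n d) (n0 := n) (β := β) (a := Nd n d ^ (1 / 16 : ℝ))
      (o := ∑ j ∈ range (2 * D + 1), (Ol lb (k, j) : ℝ)) (D := D) (d := d) hN hn0 rfl h rfl
      (hOl'.trans (hβ k)) hDle ?_
    rw [← hE2]
    exact hE1

end Pool.Agent.helper7.LT
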