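import Pool.Agent.helper7.LT.ChL
import Pool.Agent.helper7.LT.LightD
import Pool.Agent.helper7.LT.Greedy

/-!
# LT-LightLo: the light edges at the small scales

Let `N = Nd n d ≥ 1`, `c` symmetric, `Oc c k ≤ β * n` for all `k`, `β ≤ 1 / 7000`.  The first part of `LP` (the labels refine the
colours) is clear.
* `light_low` (case `N ^ (7 / 4) < 8 * n`): `lb x y = some (c x y, 0)` if `x`, `y` are light at depth `d` for the colour `c x y`
  (`Lt c d (c x y) x`, `Lt c d (c x y) y`), and `none` otherwise; `g l = ⌈874 * (Ol lb l / 4 ^ d) + N ^ (13 / 16)⌉₊`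
  (`N ^ (1 / 16) ≤ N ^ (13 / 16)`).
  Let `ω` be a placement such that no set of `FM lb g` is inside a block of depth `d`, with the degree bounds `hdeg`.  Let
  `E` be the set of the pairs in question for `b`, `k`.  There is no matching of `g (k, 0) + 1` pairs in `E`; every `v` is in at most
  `2 * (81 * N ^ (1 / 16) + 1) ≤ 164 * N ^ (1 / 16)` pairs of `E` (only light `v`; the maximum in `hdeg` is `N ^ (1 / 16)`; the
  pairs `(v, y)` and `(y, v)`).  `match_cover`: `E.card ≤ 2 * g * (164 * N ^ (1 / 16))` (with real numbers or floors), and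
  `g ≤ 874 * β * n / 4 ^ d + N ^ (13 / 16) + 1 = 874 * β * N ^ 2 / n + N ^ (13 / 16) + 1 ≤ 3 * N ^ (13 / 16)`, because
  `N ^ 2 / n ≤ 8 * N ^ (1 / 4) ≤ 8 * N ^ (13 / 16)` and `874 * 8 * β ≤ 1`.  So `E.card ≤ 984 * N ^ (7 / 8)`.
-/

set_option autoImplicit false

open Finset
open scoped Classical

namespace Pool.Agent.helper7.LT

variable {n : ℕ} {C : Type}

/-- the labels: light pairs get the label `(colour, 0)` -/
private noncomputable def LightLo_lb (c : P n → P n → C) (d : ℕ) (x y : P n) :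
    Option (C × ℕ) :=
  if Lt c d (c x y) x ∧ Lt c d (c x y) y then some (c x y, 0) else none

private theorem LightLo_num {N m β : ℝ} (hm : 0 < m) (hN : 1 ≤ N) (h0 : 0 ≤ β)
    (h1 : β ≤ 1 / 7000) (h : N ^ (7 / 4 : ℝ) < 8 * m) :
    874 * (β * (N ^ 2 / m)) ≤ N ^ (13 / 16 : ℝ) := by
  have hN0 : 0 < N := by linarith
  have e1 : N ^ 2 = N ^ (7 / 4 : ℝ) * N ^ (1 / 4 : ℝ) := by
    rw [← Real.rpow_add hN0, ← Real.rpow_natCast]
    norm_num
  have e2 : 0 < N ^ (1 / 4 : ℝ) := Real.rpow_pos_of_pos hN0 _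
  have e3 : N ^ 2 / m ≤ 8 * N ^ (1 / 4 : ℝ) := by
    rw [div_le_iff₀ hm, e1]
    nlinarith
  have e4 : N ^ (1 / 4 : ℝ) ≤ N ^ (13 / 16 : ℝ) :=
    Real.rpow_le_rpow_of_exponent_le hN (by norm_num)
  have e5 : β * (N ^ 2 / m) ≤ 1 / 7000 * (8 * N ^ (1 / 4 : ℝ)) :=
    mul_le_mul h1 e3 (by positivity) (by norm_num)
  linarith

private theorem LightLo_mat {c : P n → P n → C} {d : ℕ} {g : C × ℕ → ℕ} {ω : Equiv.Perm (P n)}
    (hω : ∀ W ∈ FM (LightLo_lb c d) g, ∀ b, ∃ x ∈ W, blk n d (ω x).1 ≠ b) (b : ℕ) (k : C)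
    (M : Finset (P n × P n))
    (hM : M ⊆ univ.filter fun e : P n × P n => e.1 ≠ e.2 ∧ c e.1 e.2 = k ∧
      blk n d (ω e.1).1 = b ∧ blk n d (ω e.2).1 = b ∧ Lt c d k e.1 ∧ Lt c d k e.2)
    (hM' : ∀ e ∈ M, ∀ e' ∈ M, e ≠ e' →
      e.1 ≠ e'.1 ∧ e.1 ≠ e'.2 ∧ e.2 ≠ e'.1 ∧ e.2 ≠ e'.2) : M.card ≤ g (k, 0) := by
  by_contra hcon
  push Not at hcon
  obtain ⟨M', hM'M, hcard⟩ := Finset.exists_subset_card_eq (Nat.succ_le_of_lt hcon)
  have hmem : ∀ e ∈ M', e.1 ≠ e.2 ∧ c e.1 e.2 = k ∧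
      blk n d (ω e.1).1 = b ∧ blk n d (ω e.2).1 = b ∧ Lt c d k e.1 ∧ Lt c d k e.2 :=
    fun e he => (Finset.mem_filter.1 (hM (hM'M he))).2
  obtain ⟨x, hx, hxb⟩ := hω (M'.image Prod.fst ∪ M'.image Prod.snd) (by
    unfold FM
    rw [Finset.mem_filter]
    refine ⟨Finset.mem_univ _, (k, 0), M', ⟨fun e he => (hmem e he).1,
      fun e he e' he' => hM' e (hM'M he) e' (hM'M he')⟩, ?_, hcard, rfl⟩
    intro e he
    obtain ⟨-, h2, -, -, h5, h6⟩ := hmem e he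
    unfold LightLo_lb
    rw [h2, if_pos ⟨h5, h6⟩]) b
  rcases Finset.mem_union.1 hx with h | h
  · obtain ⟨e, he, rfl⟩ := Finset.mem_image.1 h
    exact hxb (hmem e he).2.2.1
  · obtain ⟨e, he, rfl⟩ := Finset.mem_image.1 h
    exact hxb (hmem e he).2.2.2.1

private theorem LightLo_deg {c : P n → P n → C} (hc : ∀ x y, c x y = c y x) {d : ℕ}
    {ω : Equiv.Perm (P n)}
    (hdeg : ∀ v k, ((univ.filter fun y : P n => y ≠ v ∧ c v y = k ∧
      blk n d (ω y).1 = blk n d (ω v).1).card : ℝ) ≤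
      81 * max ((Dg c k v : ℝ) / 2 ^ d) (Nd n d ^ (1 / 16 : ℝ)) + 1) (b : ℕ) (k : C) (v : P n) :
    (((univ.filter fun e : P n × P n => e.1 ≠ e.2 ∧ c e.1 e.2 = k ∧
      blk n d (ω e.1).1 = b ∧ blk n d (ω e.2).1 = b ∧ Lt c d k e.1 ∧ Lt c d k e.2).filter
      fun e => e.1 = v ∨ e.2 = v).card) ≤ 2 * ⌊81 * Nd n d ^ (1 / 16 : ℝ) + 1⌋₊ := by
  set E := univ.filter fun e : P n × P n => e.1 ≠ e.2 ∧ c e.1 e.2 = k ∧
      blk n d (ω e.1).1 = b ∧ blk n d (ω e.2).1 = b ∧ Lt c d k e.1 ∧ Lt c d k e.2 with hE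
  set X := univ.filter fun y : P n => y ≠ v ∧ c v y = k ∧
      blk n d (ω y).1 = blk n d (ω v).1 with hX
  by_cases hemp : (E.filter fun e => e.1 = v ∨ e.2 = v) = ∅
  · rw [hemp, Finset.card_empty]
    exact Nat.zero_le _
  · obtain ⟨e0, he0⟩ := Finset.nonempty_iff_ne_empty.2 hemp
    rw [Finset.mem_filter, hE, Finset.mem_filter] at he0
    obtain ⟨⟨-, -, -, h3, h4, h5, h6⟩, h7⟩ := he0
    have hv : blk n d (ω v).1 = b ∧ Lt c d k v := by
      rcases h7 with h7 | h7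
      · rw [← h7]
        exact ⟨h3, h5⟩
      · rw [← h7]
        exact ⟨h4, h6⟩
    have hXle : X.card ≤ ⌊81 * Nd n d ^ (1 / 16 : ℝ) + 1⌋₊ := by
      apply Nat.le_floor
      have h8 := hdeg v k
      have h9 : (Dg c k v : ℝ) / 2 ^ d ≤ Nd n d ^ (1 / 16 : ℝ) := hv.2
      rw [max_eq_right h9] at h8
      exact h8
    have hsub : (E.filter fun e => e.1 = v ∨ e.2 = v) ⊆
        X.image (fun y => (v, y)) ∪ X.image (fun y => (y, v)) := by
      rintro ⟨x, y⟩ he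
      rw [Finset.mem_filter, hE, Finset.mem_filter] at he
      obtain ⟨⟨-, g1, g2, g3, g4, -, -⟩, g7⟩ := he
      simp only at g1 g2 g3 g4 g7
      rcases g7 with g7 | g7
      · subst g7
        refine Finset.mem_union_left _ (Finset.mem_image.2 ⟨y, ?_, rfl⟩)
        rw [hX, Finset.mem_filter]
        exact ⟨Finset.mem_univ _, g1.symm, g2, by rw [g4, g3]⟩
      · subst g7
        refine Finset.mem_union_right _ (Finset.mem_image.2 ⟨x, ?_, rfl⟩)
        rw [hX, Finset.mem_filter]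
        exact ⟨Finset.mem_univ _, g1, by rw [hc]; exact g2, by rw [g4, g3]⟩
    have hcard := (Finset.card_le_card hsub).trans (Finset.card_union_le _ _)
    have h10 : (X.image fun y => (v, y)).card ≤ X.card := Finset.card_image_le
    have h11 : (X.image fun y => (y, v)).card ≤ X.card := Finset.card_image_le
    omega

theorem light_low (c : P n → P n → C) (hc : ∀ x y, c x y = c y x) (d : ℕ) (β : ℝ) (h0 : 0 ≤ β)
    (h1 : β ≤ 1 / 7000) (hβ : ∀ k, (Oc c k : ℝ) ≤ β * n) (hN : 1 ≤ Nd n d)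
    (h : Nd n d ^ (7 / 4 : ℝ) < 8 * n) : ∃ lb g, LP c d β lb g := by
  have hn0 : 0 ≤ (n : ℝ) := Nat.cast_nonneg n
  have hn : 0 < (n : ℝ) := by
    rcases hn0.lt_or_eq with h2 | h2
    · exact h2
    · unfold Nd at hN
      rw [← h2, zero_div] at hN
      linarith
  have hN0 : 0 < Nd n d := by linarith
  have hN1 : 1 ≤ Nd n d ^ (1 / 16 : ℝ) := Real.one_le_rpow hN (by norm_num)
  have hN2 : Nd n d ^ (1 / 16 : ℝ) ≤ Nd n d ^ (13 / 16 : ℝ) :=
    Real.rpow_le_rpow_of_exponent_le hN (by norm_num)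
  refine ⟨LightLo_lb c d, fun l => ⌈874 * ((Ol (LightLo_lb c d) l : ℝ) / 4 ^ d) +
    Nd n d ^ (13 / 16 : ℝ)⌉₊, ?_, ?_, ?_⟩
  · intro x y l hl
    unfold LightLo_lb at hl
    split_ifs at hl
    rw [← Option.some_inj.1 hl]
  · intro l
    have h2 := Nat.le_ceil (874 * ((Ol (LightLo_lb c d) l : ℝ) / 4 ^ d) +
      Nd n d ^ (13 / 16 : ℝ))
    have h3 : 0 ≤ 874 * ((Ol (LightLo_lb c d) l : ℝ) / 4 ^ d) := by positivity
    constructor
    · linarith
    · linarith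
  · intro ω hω hdeg b k
    set E := univ.filter fun e : P n × P n => e.1 ≠ e.2 ∧ c e.1 e.2 = k ∧
      blk n d (ω e.1).1 = b ∧ blk n d (ω e.2).1 = b ∧ Lt c d k e.1 ∧ Lt c d k e.2 with hE
    set G : ℕ := ⌈874 * ((Ol (LightLo_lb c d) (k, 0) : ℝ) / 4 ^ d) +
      Nd n d ^ (13 / 16 : ℝ)⌉₊ with hG
    have hcov := match_cover E (fun e he => (Finset.mem_filter.1 he).2.1) G
      (2 * ⌊81 * Nd n d ^ (1 / 16 : ℝ) + 1⌋₊) (fun v => by convert LightLo_deg hc hdeg b k v)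
      (fun M hM hM' => LightLo_mat hω b k M hM hM')
    have hOl : (Ol (LightLo_lb c d) (k, 0) : ℝ) ≤ β * n := by
      refine le_trans ?_ (hβ k)
      have h2 : Ol (LightLo_lb c d) (k, 0) ≤ Oc c k := by
        unfold Ol Oc
        apply Finset.card_le_card
        intro e he
        simp only [Finset.mem_filter, Finset.mem_univ, true_and] at he ⊢
        refine ⟨he.1, ?_⟩
        have h3 := he.2
        unfold LightLo_lb at h3
        split_ifs at h3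
        exact congrArg Prod.fst (Option.some_inj.1 h3)
      exact_mod_cast h2
    have hGle : (G : ℝ) ≤ 3 * Nd n d ^ (13 / 16 : ℝ) := by
      have h2 := Nat.ceil_lt_add_one (a := 874 * ((Ol (LightLo_lb c d) (k, 0) : ℝ) / 4 ^ d) +
        Nd n d ^ (13 / 16 : ℝ)) (by positivity)
      rw [← hG] at h2
      have h3 : (n : ℝ) / 4 ^ d = Nd n d ^ 2 / n := by
        have h4 : (4 : ℝ) ^ d = 2 ^ d * 2 ^ d := by rw [← mul_pow]; norm_num
        unfold Nd
        rw [h4]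
        field_simp
      have h5 : (Ol (LightLo_lb c d) (k, 0) : ℝ) / 4 ^ d ≤ β * (Nd n d ^ 2 / n) := by
        rw [← h3, ← mul_div_assoc]
        exact div_le_div_of_nonneg_right hOl (by positivity)
      have h6 := LightLo_num hn hN h0 h1 h
      linarith
    have hfl : ((⌊81 * Nd n d ^ (1 / 16 : ℝ) + 1⌋₊ : ℕ) : ℝ) ≤ 82 * Nd n d ^ (1 / 16 : ℝ) := by
      have h2 := Nat.floor_le (a := 81 * Nd n d ^ (1 / 16 : ℝ) + 1) (by positivity)
      linarith
    have hmul : Nd n d ^ (13 / 16 : ℝ) * Nd n d ^ (1 / 16 : ℝ) = Nd n d ^ (7 / 8 : ℝ) := by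
      rw [← Real.rpow_add hN0]
      norm_num
    have hcov' : (E.card : ℝ) ≤
        2 * (G : ℝ) * (2 * ((⌊81 * Nd n d ^ (1 / 16 : ℝ) + 1⌋₊ : ℕ) : ℝ)) := by
      exact_mod_cast hcov
    have hfin : 2 * (G : ℝ) * (2 * ((⌊81 * Nd n d ^ (1 / 16 : ℝ) + 1⌋₊ : ℕ) : ℝ)) ≤
        2 * (3 * Nd n d ^ (13 / 16 : ℝ)) * (2 * (82 * Nd n d ^ (1 / 16 : ℝ))) :=
      mul_le_mul (mul_le_mul_of_nonneg_left hGle (by norm_num))
        (mul_le_mul_of_nonneg_left hfl (by norm_num)) (by positivity) (by positivity)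
    have hlast : 2 * (3 * Nd n d ^ (13 / 16 : ℝ)) * (2 * (82 * Nd n d ^ (1 / 16 : ℝ))) =
        984 * Nd n d ^ (7 / 8 : ℝ) := by
      rw [← hmul]
      ring
    have hpos : 0 ≤ 1748 * β * Nd n d ^ 2 / n := by positivity
    linarith

end Pool.Agent.helper7.LT
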