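import Pool.Agent.helper7.LT.Swap

/-!
# LT-Loc: the local lemma for families of bijections  (author: helper16)

PROOF of `loc_step`.  Let `x_S = wx r S`.  For every `S ∈ F` (a nonempty set) `x_S ≤ 1 / 4` by `hl`, and for every
`S ∈ F` the sum of `x_{S'}` over the `S' ∈ F` which touch `S` is at most
`∑ s ∈ S, (sum over the left slot of s + sum over the right slot of s) ≤ S.card / 2`.
Claim: for all `G ⊆ F` and `S ∈ F`: `cnt X Y G S ≤ x_S * cnt X Y G ∅`.  Strong induction on `G.card`.  Let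
`G₁` be the set of the `S' ∈ G` which touch `S`, `G₂ = G \ G₁`.
(1) `cnt G S ≤ cnt G₂ S ≤ (∏ s ∈ S, r s.1) * cnt G₂ ∅` (more conditions; `swap_count`).
(2) `cnt G ∅ ≥ (∏ S' ∈ G₁, (1 - x_{S'})) * cnt G₂ ∅`: for all `H ⊆ G₁`,
`cnt (G₂ ∪ H) ∅ ≥ (∏ S' ∈ H, (1 - x_{S'})) * cnt G₂ ∅`, by induction on `H`:
`cnt (insert S' G') ∅ = cnt G' ∅ - cnt G' S'` and `cnt G' S' ≤ x_{S'} * cnt G' ∅` by the induction hypothesis for
`G' = G₂ ∪ H'`, which has fewer elements than `G` (`S' ∈ G \ G'`).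
(3) `1 - x ≥ exp (- 2 x)` for `0 ≤ x ≤ 1 / 4` (for instance `exp (2 x) ≤ 1 / (1 - 2 x)`, hmm: use
`exp (- 2 x) ≤ 1 / (1 + 2 x) ≤ 1 - x`, by `Real.add_one_le_exp` and `1 ≤ (1 - x) * (1 + 2 x)` for `x ≤ 1 / 2`), so the
product is at least `exp (- 2 * ∑ x_{S'}) ≥ exp (- S.card)`.
So `cnt G S ≤ (∏ r) * cnt G₂ ∅ ≤ (∏ r) * exp S.card * cnt G ∅ = x_S * cnt G ∅`.
PROOF of `local_lemma`: by the claim and (2) with `G₂ = ∅`, `H = F`: `cnt F ∅ ≥ ∏ (1 - x_S) * cnt ∅ ∅ > 0`, and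
`cnt ∅ ∅ > 0` by `exists_bij`.  So there is an `ω` (`Set.nonempty_of_ncard_ne_zero`).
-/

set_option autoImplicit false

open Finset
open scoped Classical

namespace Pool.Agent.helper7.LT

variable {J A B : Type} [Fintype J] [Fintype A] [Fintype B]

private theorem Loc_cnt_anti (X : J → Finset A) (Y : J → Finset B) {F F' : Finset (Finset (J × A × B))}
    (h : F ⊆ F') (S : Finset (J × A × B)) : cnt X Y F' S ≤ cnt X Y F S := by
  apply Set.ncard_le_ncard _ (Set.toFinite _)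
  rintro ω ⟨h1, h2, h3⟩
  exact ⟨h1, fun S' hS' => h2 S' (h hS'), h3⟩

private theorem Loc_cnt_insert (X : J → Finset A) (Y : J → Finset B) (F : Finset (Finset (J × A × B)))
    (S : Finset (J × A × B)) : cnt X Y (insert S F) ∅ + cnt X Y F S = cnt X Y F ∅ := by
  unfold cnt
  rw [← Set.ncard_union_eq _ (Set.toFinite _) (Set.toFinite _)]
  · congr 1
    ext ω
    constructor
    · rintro (⟨h1, h2, h3⟩ | ⟨h1, h2, h3⟩)
      · exact ⟨h1, fun S' hS' => h2 S' (mem_insert_of_mem hS'), h3⟩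
      · exact ⟨h1, h2, fun s hs => absurd hs (notMem_empty s)⟩
    · rintro ⟨h1, h2, h3⟩
      by_cases h4 : Realises ω S
      · exact Or.inr ⟨h1, h2, h4⟩
      · refine Or.inl ⟨h1, fun S' hS' => ?_, h3⟩
        rcases mem_insert.1 hS' with h5 | h5
        · rw [h5]; exact h4
        · exact h2 S' h5
  · rw [Set.disjoint_left]
    rintro ω ⟨h1, h2, h3⟩ ⟨h4, h5, h6⟩
    exact h2 S (mem_insert_self _ _) h6

private theorem Loc_prod_le (X : J → Finset A) (Y : J → Finset B) (x : Finset (J × A × B) → ℝ)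
    (G₂ H : Finset (Finset (J × A × B))) (hx : ∀ S' ∈ H, x S' ≤ 1)
    (hyp : ∀ S' ∈ H, ∀ H' ⊆ H, S' ∉ H' →
      (cnt X Y (G₂ ∪ H') S' : ℝ) ≤ x S' * cnt X Y (G₂ ∪ H') ∅) :
    (∏ S' ∈ H, (1 - x S')) * cnt X Y G₂ ∅ ≤ cnt X Y (G₂ ∪ H) ∅ := by
  induction H using Finset.induction_on with
  | empty => simp
  | insert a H ha ih =>
    have h1 := ih (fun S' hS' => hx S' (mem_insert_of_mem hS'))
      (fun S' hS' H' hH' => hyp S' (mem_insert_of_mem hS') H' (hH'.trans (subset_insert _ _)))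
    have h2 := hyp a (mem_insert_self _ _) H (subset_insert _ _) ha
    have h3 : G₂ ∪ insert a H = insert a (G₂ ∪ H) := by
      ext z; simp only [mem_union, mem_insert]; tauto
    have h4 : (cnt X Y (insert a (G₂ ∪ H)) ∅ : ℝ) + cnt X Y (G₂ ∪ H) a = cnt X Y (G₂ ∪ H) ∅ := by
      exact_mod_cast Loc_cnt_insert X Y (G₂ ∪ H) a
    have h5 : 0 ≤ 1 - x a := by linarith [hx a (mem_insert_self _ _)]
    rw [prod_insert ha, h3]
    have h6 := mul_le_mul_of_nonneg_left h1 h5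
    nlinarith

private theorem Loc_wx_nonneg {r : J → ℝ} (hr : ∀ j, 0 ≤ r j) (S : Finset (J × A × B)) : 0 ≤ wx r S :=
  mul_nonneg (prod_nonneg fun s _ => hr s.1) (Real.exp_pos _).le

private theorem Loc_wx_le (X : J → Finset A) (Y : J → Finset B) (r : J → ℝ) (hr : ∀ j, 0 ≤ r j)
    (F : Finset (Finset (J × A × B))) (hF : ∀ S ∈ F, Fits X Y r S)
    (hl : ∀ j, ∀ a ∈ X j, ∑ S ∈ F.filter (fun S => ∃ s ∈ S, s.1 = j ∧ s.2.1 = a), wx r S ≤ 1 / 4)
    (S : Finset (J × A × B)) (hS : S ∈ F) : wx r S ≤ 1 / 4 := by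
  obtain ⟨⟨s, hs⟩, h1⟩ := hF S hS
  refine le_trans ?_ (hl s.1 s.2.1 (h1 s hs).1)
  exact single_le_sum (f := fun S => wx r S) (fun S' _ => Loc_wx_nonneg hr S')
    (mem_filter.2 ⟨hS, s, hs, rfl, rfl⟩)

private theorem Loc_touch_sum (X : J → Finset A) (Y : J → Finset B) (r : J → ℝ) (hr : ∀ j, 0 ≤ r j)
    (F : Finset (Finset (J × A × B))) (hF : ∀ S ∈ F, Fits X Y r S)
    (hl : ∀ j, ∀ a ∈ X j, ∑ S ∈ F.filter (fun S => ∃ s ∈ S, s.1 = j ∧ s.2.1 = a), wx r S ≤ 1 / 4)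
    (hq : ∀ j, ∀ b ∈ Y j, ∑ S ∈ F.filter (fun S => ∃ s ∈ S, s.1 = j ∧ s.2.2 = b), wx r S ≤ 1 / 4)
    (S : Finset (J × A × B)) (hS : S ∈ F) :
    ∑ S' ∈ F.filter (fun S' => Touch S S'), wx r S' ≤ (S.card : ℝ) / 2 := by
  have hn : ∀ S' : Finset (J × A × B), 0 ≤ wx r S' := Loc_wx_nonneg hr
  calc ∑ S' ∈ F.filter (fun S' => Touch S S'), wx r S'
      = ∑ S' ∈ F, if Touch S S' then wx r S' else 0 := by rw [sum_filter]
    _ ≤ ∑ S' ∈ F, ∑ s ∈ S, ((if (∃ s' ∈ S', s'.1 = s.1 ∧ s'.2.1 = s.2.1) then wx r S' else 0) +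
          (if (∃ s' ∈ S', s'.1 = s.1 ∧ s'.2.2 = s.2.2) then wx r S' else 0)) := by
        apply sum_le_sum
        intro S' _
        have hterm : ∀ s ∈ S, 0 ≤ ((if (∃ s' ∈ S', s'.1 = s.1 ∧ s'.2.1 = s.2.1) then wx r S' else 0) +
          (if (∃ s' ∈ S', s'.1 = s.1 ∧ s'.2.2 = s.2.2) then wx r S' else 0)) := by
          intro s _
          have := hn S'
          split_ifs <;> linarith
        split_ifs with ht
        · obtain ⟨s, hs, s', hs', h1, h2⟩ := ht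
          refine le_trans ?_ (single_le_sum hterm hs)
          rcases h2 with h2 | h2
          · rw [if_pos ⟨s', hs', h1.symm, h2.symm⟩]
            have := hn S'
            split_ifs <;> linarith
          · rw [if_pos (c := ∃ s' ∈ S', s'.1 = s.1 ∧ s'.2.2 = s.2.2) ⟨s', hs', h1.symm, h2.symm⟩]
            have := hn S'
            split_ifs <;> linarith
        · exact sum_nonneg hterm
    _ = ∑ s ∈ S, ((∑ S' ∈ F.filter (fun S' => ∃ s' ∈ S', s'.1 = s.1 ∧ s'.2.1 = s.2.1), wx r S') +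
          ∑ S' ∈ F.filter (fun S' => ∃ s' ∈ S', s'.1 = s.1 ∧ s'.2.2 = s.2.2), wx r S') := by
        rw [sum_comm]
        apply sum_congr rfl
        intro s _
        rw [sum_add_distrib, sum_filter, sum_filter]
    _ ≤ ∑ s ∈ S, (1 / 2 : ℝ) := by
        apply sum_le_sum
        intro s hs
        have h1 := hl s.1 s.2.1 ((hF S hS).2 s hs).1
        have h2 := hq s.1 s.2.2 ((hF S hS).2 s hs).2.1
        linarith
    _ = (S.card : ℝ) / 2 := by
        rw [sum_const, nsmul_eq_mul]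
        ring

private theorem Loc_exp_le {x : ℝ} (h0 : 0 ≤ x) (h1 : x ≤ 1 / 4) : Real.exp (-(2 * x)) ≤ 1 - x := by
  have h2 : 1 + 2 * x ≤ Real.exp (2 * x) := by linarith [Real.add_one_le_exp (2 * x)]
  rw [Real.exp_neg]
  have h3 : (Real.exp (2 * x))⁻¹ ≤ (1 + 2 * x)⁻¹ := inv_anti₀ (by linarith) h2
  refine h3.trans ?_
  rw [inv_le_iff_one_le_mul₀ (by linarith)]
  nlinarith

theorem loc_step (X : J → Finset A) (Y : J → Finset B) (r : J → ℝ) (hr : ∀ j, 0 ≤ r j)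
    (F : Finset (Finset (J × A × B))) (hF : ∀ S ∈ F, Fits X Y r S)
    (hl : ∀ j, ∀ a ∈ X j, ∑ S ∈ F.filter (fun S => ∃ s ∈ S, s.1 = j ∧ s.2.1 = a), wx r S ≤ 1 / 4)
    (hq : ∀ j, ∀ b ∈ Y j, ∑ S ∈ F.filter (fun S => ∃ s ∈ S, s.1 = j ∧ s.2.2 = b), wx r S ≤ 1 / 4)
    (G : Finset (Finset (J × A × B))) (hG : G ⊆ F) (S : Finset (J × A × B)) (hS : S ∈ F) :
    (cnt X Y G S : ℝ) ≤ wx r S * cnt X Y G ∅ := by
  revert hG S
  induction G using Finset.strongInduction with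
  | H G ih =>
    intro hG S hS
    set G₁ := G.filter (fun S' => Touch S S') with hG₁
    set G₂ := G.filter (fun S' => ¬ Touch S S') with hG₂
    have hun : G₂ ∪ G₁ = G := by
      rw [union_comm]
      exact filter_union_filter_not_eq _ _
    have hx4 : ∀ S' ∈ F, wx r S' ≤ 1 / 4 := Loc_wx_le X Y r hr F hF hl
    -- (1)
    have s1 : (cnt X Y G S : ℝ) ≤ cnt X Y G₂ S := by
      exact_mod_cast Loc_cnt_anti X Y (filter_subset _ _) S
    have s2 : (cnt X Y G₂ S : ℝ) ≤ (∏ s ∈ S, r s.1) * cnt X Y G₂ ∅ := by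
      apply swap_count X Y r hr S (hF S hS)
      intro S' hS'
      have h1 := mem_filter.1 hS'
      exact ⟨fun s hs => ((hF S' (hG h1.1)).2 s hs).1, h1.2⟩
    -- (2)
    have s3 : (∏ S' ∈ G₁, (1 - wx r S')) * cnt X Y G₂ ∅ ≤ cnt X Y (G₂ ∪ G₁) ∅ := by
      apply Loc_prod_le X Y (wx r) G₂ G₁
      · intro S' hS'
        linarith [hx4 S' (hG (mem_filter.1 hS').1)]
      · intro S' hS' H' hH' hn
        have hm := mem_filter.1 hS'
        have hsub : G₂ ∪ H' ⊆ G := union_subset (filter_subset _ _) (hH'.trans (filter_subset _ _))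
        have hss : G₂ ∪ H' ⊂ G := by
          refine ⟨hsub, fun hle => ?_⟩
          rcases mem_union.1 (hle hm.1) with h1 | h1
          · exact (mem_filter.1 h1).2 hm.2
          · exact hn h1
        exact ih _ hss (hsub.trans hG) S' (hG hm.1)
    rw [hun] at s3
    -- (3)
    have s4 : Real.exp (-(S.card : ℝ)) ≤ ∏ S' ∈ G₁, (1 - wx r S') := by
      have h1 : ∏ S' ∈ G₁, Real.exp (-(2 * wx r S')) ≤ ∏ S' ∈ G₁, (1 - wx r S') := by
        apply prod_le_prod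
        · intro S' _
          exact (Real.exp_pos _).le
        · intro S' hS'
          exact Loc_exp_le (Loc_wx_nonneg hr S') (hx4 S' (hG (mem_filter.1 hS').1))
      refine le_trans ?_ h1
      rw [← Real.exp_sum]
      apply Real.exp_le_exp.2
      rw [sum_neg_distrib, ← mul_sum]
      have h2 : ∑ S' ∈ G₁, wx r S' ≤ ∑ S' ∈ F.filter (fun S' => Touch S S'), wx r S' := by
        apply sum_le_sum_of_subset_of_nonneg
        · exact filter_subset_filter _ hG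
        · intro S' _ _
          exact Loc_wx_nonneg hr S'
      have h3 := Loc_touch_sum X Y r hr F hF hl hq S hS
      linarith
    have hc2 : (0 : ℝ) ≤ cnt X Y G₂ ∅ := Nat.cast_nonneg _
    have s5 : Real.exp (-(S.card : ℝ)) * cnt X Y G₂ ∅ ≤ cnt X Y G ∅ :=
      (mul_le_mul_of_nonneg_right s4 hc2).trans s3
    have s6 : (cnt X Y G₂ ∅ : ℝ) ≤ Real.exp S.card * cnt X Y G ∅ := by
      have h1 := mul_le_mul_of_nonneg_left s5 (Real.exp_pos (S.card : ℝ)).le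
      rw [← mul_assoc, ← Real.exp_add, add_neg_cancel, Real.exp_zero, one_mul] at h1
      exact h1
    have hp : 0 ≤ ∏ s ∈ S, r s.1 := prod_nonneg fun s _ => hr s.1
    calc (cnt X Y G S : ℝ) ≤ (∏ s ∈ S, r s.1) * cnt X Y G₂ ∅ := s1.trans s2
      _ ≤ (∏ s ∈ S, r s.1) * (Real.exp S.card * cnt X Y G ∅) := mul_le_mul_of_nonneg_left s6 hp
      _ = wx r S * cnt X Y G ∅ := by unfold wx; ring

theorem local_lemma [Nonempty B] (X : J → Finset A) (Y : J → Finset B)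
    (hXY : ∀ j, (X j).card = (Y j).card) (r : J → ℝ) (hr : ∀ j, 0 ≤ r j)
    (F : Finset (Finset (J × A × B))) (hF : ∀ S ∈ F, Fits X Y r S)
    (hl : ∀ j, ∀ a ∈ X j, ∑ S ∈ F.filter (fun S => ∃ s ∈ S, s.1 = j ∧ s.2.1 = a), wx r S ≤ 1 / 4)
    (hq : ∀ j, ∀ b ∈ Y j, ∑ S ∈ F.filter (fun S => ∃ s ∈ S, s.1 = j ∧ s.2.2 = b), wx r S ≤ 1 / 4) :
    ∃ ω : J → A → B, IsBij X Y ω ∧ ∀ S ∈ F, ¬ Realises ω S := by
  have hx4 : ∀ S' ∈ F, wx r S' ≤ 1 / 4 := Loc_wx_le X Y r hr F hF hl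
  have h1 : (∏ S' ∈ F, (1 - wx r S')) * cnt X Y ∅ ∅ ≤ cnt X Y (∅ ∪ F) ∅ := by
    apply Loc_prod_le X Y (wx r) ∅ F
    · intro S' hS'
      linarith [hx4 S' hS']
    · intro S' hS' H' hH' _
      exact loc_step X Y r hr F hF hl hq _ (by rw [empty_union]; exact hH') S' hS'
  have h2 : 0 < ∏ S' ∈ F, (1 - wx r S') := prod_pos fun S' hS' => by linarith [hx4 S' hS']
  have h3 : (0 : ℝ) < cnt X Y ∅ ∅ := by
    obtain ⟨ω, hω⟩ := exists_bij X Y hXY
    have h4 : 0 < cnt X Y ∅ ∅ := by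
      apply (Set.ncard_pos (Set.toFinite _)).2
      exact ⟨ω, hω, fun S' hS' => absurd hS' (notMem_empty _), fun s hs => absurd hs (notMem_empty _)⟩
    exact_mod_cast h4
  have h4 : (0 : ℝ) < cnt X Y (∅ ∪ F) ∅ := lt_of_lt_of_le (mul_pos h2 h3) h1
  have h5 : cnt X Y (∅ ∪ F) ∅ ≠ 0 := by
    intro h6
    rw [h6] at h4
    simp at h4
  rw [empty_union] at h5
  obtain ⟨ω, h6, h7, h8⟩ := Set.nonempty_of_ncard_ne_zero h5
  exact ⟨ω, h6, h7⟩

end Pool.Agent.helper7.LT
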