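import Pool.Agent.helper7.LT.PL
import Pool.Agent.helper7.LT.CntA
import Pool.Agent.helper7.LT.Cnt1
import Pool.Agent.helper7.LT.LightD
import Pool.Agent.helper7.LT.ChL

/-!
# LT-Omega: the placement of the vertices

PROOF of `exists_omega`.  For `d ≤ dA` (`1 ≤ Nd n dA ≤ Nd n d`, so `2 ^ d ≤ n`) let
`j d v k = ⌈81 * max (Dg c k v / 2 ^ d) (Nd n d ^ (1 / 16))⌉₊`.  Let `F` be the set of all
`(dA, W)`, `W ∈ F1c c`, and `(d, W)`, `d ≤ dA`, `W ∈ FA c (j d) ∪ FM (lb d) (g d)` (images and a `biUnion` over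
`range (dA + 1)`).  Conditions of `placement`:
* the sets are nonempty and have at most `n` elements: `F1c`: at most `4 ≤ n`; `FA`: `W.card ≤ j + 2`, and `W'` consists of
  neighbours of `v` in colour `k`, so `j + 1 ≤ Dg c k v ≤ Oc c k ≤ β * n ≤ n / 7000`, and `j + 2 ≤ n`; `FM`: `W.card = 2 * (g l + 1)`
  (`FM_card`), the `g l + 1` pairs of `M` have the colour `l.1` (first part of `LP`) and different end points, so
  `g l + 1 ≤ Oc c l.1 ≤ n / 7000`, and `2 * (g l + 1) ≤ n`.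
* sum condition: at most `120000 * β * Nd n dA ^ 2` (`cnt1`) plus
  `∑ d ≤ dA, 128 * exp 2 * Nd n d * exp (-(Nd n d ^ (1 / 16)))` (`cntA`, `cntM` with `thr = Nd n d ^ (1 / 16)`), at most
  `1 / 8 + 1 / 8`.
`placement` gives `ω`.  Second conclusion: if there are at least `j d v k + 1` such `y` choose `j d v k + 1` of them as `W'`: the set
`insert v W'` of `FA c (j d)` would be mapped into one block of depth `d`; so there are at most
`j d v k ≤ 81 * max ... + 1` (`Nat.ceil_lt_add_one`).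
-/

set_option autoImplicit false

open Finset
open scoped Classical

namespace Pool.Agent.helper7.LT

variable {n : ℕ} {C : Type}

private theorem Omega_sum_union {α : Type} [DecidableEq α] (s t : Finset α) (f : α → ℝ) (hf : ∀ a, 0 ≤ f a) :
    ∑ a ∈ s ∪ t, f a ≤ ∑ a ∈ s, f a + ∑ a ∈ t, f a := by
  rw [← sum_union_inter]
  have : 0 ≤ ∑ a ∈ s ∩ t, f a := sum_nonneg fun a _ => hf a
  linarith

private theorem Omega_sum_biUnion {α : Type} [DecidableEq α] (m : ℕ) (A : ℕ → Finset α) (f : α → ℝ)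
    (hf : ∀ a, 0 ≤ f a) :
    ∑ a ∈ (range m).biUnion A, f a ≤ ∑ d ∈ range m, ∑ a ∈ A d, f a := by
  induction m with
  | zero => simp
  | succ m ih =>
    rw [range_add_one, biUnion_insert, sum_insert (by simp)]
    refine (Omega_sum_union _ _ f hf).trans ?_
    linarith

private theorem Omega_sum_image (d : ℕ) (A : Finset (Finset (P n))) (f : ℕ × Finset (P n) → ℝ) :
    ∑ a ∈ A.image (fun W => (d, W)), f a = ∑ W ∈ A, f (d, W) := by
  rw [sum_image]
  intro W _ W' _ h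
  exact (Prod.mk.inj h).2

private theorem Omega_mem_FA (c : P n → P n → C) (j : P n → C → ℕ) (W : Finset (P n)) :
    W ∈ FA c j ↔ ∃ (v : P n) (k : C) (W' : Finset (P n)),
    W' ⊆ univ.filter (fun y => y ≠ v ∧ c v y = k) ∧ W'.card = j v k + 1 ∧ W = insert v W' := by
  unfold FA
  rw [mem_filter]
  simp only [mem_univ, true_and]

theorem exists_omega [Fintype C] (c : P n → P n → C) (hc : ∀ x y, c x y = c y x) (dA : ℕ) (β : ℝ)
    (hn : 4 ≤ n) (h0 : 0 ≤ β) (h1 : β ≤ 1 / 7000) (hβ : ∀ k, (Oc c k : ℝ) ≤ β * n)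
    (hN : 1 ≤ Nd n dA) (hb : 120000 * β * Nd n dA ^ 2 ≤ 1 / 8)
    (hs : ∑ d ∈ range (dA + 1), 128 * Real.exp 2 * Nd n d *
      Real.exp (-(Nd n d ^ (1 / 16 : ℝ))) ≤ 1 / 8)
    (lb : ℕ → P n → P n → Option (C × ℕ)) (g : ℕ → C × ℕ → ℕ)
    (hL : ∀ d ≤ dA, LP c d β (lb d) (g d)) :
    ∃ ω : Equiv.Perm (P n),
      (∀ W ∈ F1c c, ∀ b, ∃ x ∈ W, blk n dA (ω x).1 ≠ b) ∧
      (∀ d ≤ dA, ∀ v k, ((univ.filter fun y : P n => y ≠ v ∧ c v y = k ∧
        blk n d (ω y).1 = blk n d (ω v).1).card : ℝ) ≤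
        81 * max ((Dg c k v : ℝ) / 2 ^ d) (Nd n d ^ (1 / 16 : ℝ)) + 1) ∧
      ∀ d ≤ dA, ∀ W ∈ FM (lb d) (g d), ∀ b, ∃ x ∈ W, blk n d (ω x).1 ≠ b := by
  have hn0 : (4 : ℝ) ≤ n := by exact_mod_cast hn
  set j : ℕ → P n → C → ℕ := fun d v k =>
    ⌈81 * max ((Dg c k v : ℝ) / 2 ^ d) (Nd n d ^ (1 / 16 : ℝ))⌉₊ with hj
  have hNd0 : ∀ d, 0 ≤ Nd n d := fun d => by unfold Nd; positivity
  set F : Finset (ℕ × Finset (P n)) := (F1c c).image (fun W => (dA, W)) ∪
    (range (dA + 1)).biUnion (fun d => (FA c (j d) ∪ FM (lb d) (g d)).image (fun W => (d, W)))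
    with hFdef
  have hF1 : ∀ W ∈ F1c c, (dA, W) ∈ F := fun W hW =>
    mem_union_left _ (mem_image.2 ⟨W, hW, rfl⟩)
  have hFA : ∀ d ≤ dA, ∀ W ∈ FA c (j d), (d, W) ∈ F := fun d hd W hW =>
    mem_union_right _ (mem_biUnion.2 ⟨d, mem_range.2 (by omega),
      mem_image.2 ⟨W, mem_union_left _ hW, rfl⟩⟩)
  have hFM : ∀ d ≤ dA, ∀ W ∈ FM (lb d) (g d), (d, W) ∈ F := fun d hd W hW =>
    mem_union_right _ (mem_biUnion.2 ⟨d, mem_range.2 (by omega),
      mem_image.2 ⟨W, mem_union_right _ hW, rfl⟩⟩)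
  have h2n : 2 ^ dA ≤ n := by
    have h2 : (1 : ℝ) ≤ n / 2 ^ dA := hN
    rw [le_div_iff₀ (by positivity), one_mul] at h2
    exact_mod_cast h2
  have hOc : ∀ k, (Oc c k : ℝ) ≤ n / 7000 := by
    intro k
    refine (hβ k).trans ?_
    have : β * n ≤ 1 / 7000 * n := mul_le_mul_of_nonneg_right h1 (by linarith)
    linarith
  have hF : ∀ f ∈ F, 2 ^ f.1 ≤ n ∧ f.2.Nonempty ∧ f.2.card ≤ n := by
    intro f hf
    rcases mem_union.1 hf with hf | hf
    · obtain ⟨W, hW, rfl⟩ := mem_image.1 hf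
      obtain ⟨h3, h4⟩ := F1c_card c W hW
      exact ⟨h2n, h3, h4.trans hn⟩
    · obtain ⟨d, hd, hf⟩ := mem_biUnion.1 hf
      obtain ⟨W, hW, rfl⟩ := mem_image.1 hf
      have hd' := mem_range.1 hd
      refine ⟨(Nat.pow_le_pow_right (by norm_num) (by omega : d ≤ dA)).trans h2n, ?_⟩
      rcases mem_union.1 hW with hW | hW
      · obtain ⟨v, k, W', h3, h4, h5⟩ := (Omega_mem_FA c (j d) W).1 hW
        subst h5
        refine ⟨insert_nonempty _ _, ?_⟩
        have h6 : W'.card ≤ Dg c k v := by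
          unfold Dg
          exact card_le_card h3
        have h7 : (W'.card : ℝ) ≤ n / 7000 :=
          le_trans (by exact_mod_cast h6.trans (Dg_le c k v)) (hOc k)
        have h8 : ((insert v W').card : ℝ) ≤ W'.card + 1 := by
          exact_mod_cast card_insert_le v W'
        have h9 : ((insert v W').card : ℝ) ≤ n := by linarith
        exact_mod_cast h9
      · obtain ⟨l, M, h3, h4, h5, h6⟩ := (mem_filter.1 hW).2
        have h7 : W.card = 2 * M.card := by
          rw [h6]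
          first
            | exact FM_card (L := Unit) M h3
            | exact FM_card M h3
        have h8 : M.card ≤ Oc c l.1 := by
          unfold Oc
          refine card_le_card fun e he => mem_filter.2 ⟨mem_univ _, h3.1 e he, ?_⟩
          exact (hL d (by omega)).1 _ _ _ (h4 e he)
        constructor
        · rw [← card_pos, h7, h5]
          omega
        · have h9 : (M.card : ℝ) ≤ n / 7000 := le_trans (by exact_mod_cast h8) (hOc _)
          have h10 : (W.card : ℝ) ≤ n := by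
            rw [h7]
            push_cast
            linarith
          exact_mod_cast h10
  have hsum : ∀ x : P n, ∑ f ∈ F.filter (fun f => x ∈ f.2),
      (2 : ℝ) ^ f.1 * (4 * Real.exp 1 / 2 ^ f.1) ^ f.2.card ≤ 1 / 4 := by
    intro x
    rw [sum_filter]
    set v : ℕ × Finset (P n) → ℝ := fun f => if x ∈ f.2 then
      (2 : ℝ) ^ f.1 * (4 * Real.exp 1 / 2 ^ f.1) ^ f.2.card else 0 with hv
    have hv0 : ∀ f, 0 ≤ v f := by
      intro f
      simp only [hv]
      split_ifs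
      · positivity
      · exact le_rfl
    have e1 : ∑ f ∈ (F1c c).image (fun W => (dA, W)), v f ≤ 1 / 8 := by
      rw [Omega_sum_image]
      have h3 := cnt1 c dA β h0 hβ x
      rw [sum_filter] at h3
      exact h3.trans hb
    have e2 : ∑ f ∈ (range (dA + 1)).biUnion (fun d => (FA c (j d) ∪ FM (lb d) (g d)).image
        (fun W => (d, W))), v f ≤ 1 / 8 := by
      refine (Omega_sum_biUnion _ _ v hv0).trans (le_trans (sum_le_sum fun d hd => ?_) hs)
      have hd' := mem_range.1 hd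
      rw [Omega_sum_image]
      have h4 : ∑ W ∈ FA c (j d), v (d, W) ≤ 64 * Real.exp 2 * Nd n d *
          Real.exp (-(Nd n d ^ (1 / 16 : ℝ))) := by
        have h5 := cntA c d (j d) (Nd n d ^ (1 / 16 : ℝ)) (fun w k => by
          have h6 : 81 * max ((Dg c k w : ℝ) / 2 ^ d) (Nd n d ^ (1 / 16 : ℝ)) ≤ j d w k :=
            Nat.le_ceil _
          have h7 := le_max_left ((Dg c k w : ℝ) / 2 ^ d) (Nd n d ^ (1 / 16 : ℝ))
          have h8 := le_max_right ((Dg c k w : ℝ) / 2 ^ d) (Nd n d ^ (1 / 16 : ℝ))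
          have h9 : 0 ≤ Nd n d ^ (1 / 16 : ℝ) := Real.rpow_nonneg (hNd0 d) _
          constructor <;> linarith) x
        rw [sum_filter] at h5
        exact h5
      have h5 : ∑ W ∈ FM (lb d) (g d), v (d, W) ≤ 64 * Real.exp 2 * Nd n d *
          Real.exp (-(Nd n d ^ (1 / 16 : ℝ))) := by
        have h5 := cntM (lb d) d (g d) (Nd n d ^ (1 / 16 : ℝ)) (hL d (by omega)).2.1 x
        rw [sum_filter] at h5
        exact h5
      refine (Omega_sum_union _ _ _ fun W => hv0 _).trans ?_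
      linarith
    refine (Omega_sum_union _ _ v hv0).trans ?_
    linarith
  obtain ⟨ω, hω⟩ := placement n (by omega) F hF hsum
  refine ⟨ω, fun W hW => hω _ (hF1 W hW), ?_, fun d hd W hW => hω _ (hFM d hd W hW)⟩
  intro d hd v k
  by_contra hcon
  rw [not_le] at hcon
  set S := univ.filter fun y : P n => y ≠ v ∧ c v y = k ∧
    blk n d (ω y).1 = blk n d (ω v).1 with hS
  have hlt : (j d v k : ℝ) < 81 * max ((Dg c k v : ℝ) / 2 ^ d) (Nd n d ^ (1 / 16 : ℝ)) + 1 := by
    refine Nat.ceil_lt_add_one ?_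
    have h8 := le_max_right ((Dg c k v : ℝ) / 2 ^ d) (Nd n d ^ (1 / 16 : ℝ))
    have h9 : 0 ≤ Nd n d ^ (1 / 16 : ℝ) := Real.rpow_nonneg (hNd0 d) _
    linarith
  have h3 : j d v k + 1 ≤ S.card := by
    have : (j d v k : ℝ) < S.card := hlt.trans hcon
    exact_mod_cast this
  obtain ⟨W', hW', hc'⟩ := exists_subset_card_eq h3
  have h4 : insert v W' ∈ FA c (j d) := by
    refine (Omega_mem_FA c (j d) _).2 ⟨v, k, W', fun y hy => ?_, hc', rfl⟩
    have := (mem_filter.1 (hW' hy)).2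
    exact mem_filter.2 ⟨mem_univ _, this.1, this.2.1⟩
  obtain ⟨y, hy, hne⟩ := hω _ (hFA d hd _ h4) (blk n d (ω v).1)
  rcases mem_insert.1 hy with rfl | hy
  · exact hne rfl
  · exact hne (mem_filter.1 (hW' hy)).2.2.2

end Pool.Agent.helper7.LT
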