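import Pool.Agent.helper7.LT.Loc
import Pool.Agent.helper7.LT.BlkC

/-!
# LT-PL: placements of the vertices which avoid sets inside a block

PROOF.  `local_lemma` with `J = Unit`, `A = B = P n`, `X = Y = univ` (`2 n` elements), `r = 1 / n`, and `F'` = the set of all
patterns `{((), w, g w) | w ∈ W}` (`W.image`), where `(d, W) ∈ F`, `b < 2 ^ d` and `g : P n → P n` satisfies
`blk n d (g w).1 = b` for all `w ∈ W`.
* `Fits`: `W` is nonempty, the pattern has `W.card ≤ n` elements, and `1 ≤ (1 / n) * (2 n + 1 - W.card)`.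
* The number of patterns for given `(d, W)`, `b` is at most `(2 * (Bl n d b).card) ^ W.card ≤ (4 * Nd n d) ^ W.card`
  (`card_Bl_le`, `1 ≤ Nd n d` because `2 ^ d ≤ n`; the pattern is determined by the restriction of `g` to `W`,
  an element of `W → {p | blk n d p.1 = b}`); each has the weight `(exp 1 / n) ^ W.card`
  (`Real.exp_nat_mul` or `Real.exp_one_rpow`).
* Left slot `x`: the sum is at most
  `∑ (d, W) ∋ x, ∑ b < 2 ^ d, (4 * Nd n d * exp 1 / n) ^ W.card = ∑ 2 ^ d * (4 * exp 1 / 2 ^ d) ^ W.card ≤ 1 / 4`.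
* Right slot `p`: `b = blk n d p.1` is determined, one of the `W.card` elements is mapped to `p`, so there are at most
  `W.card * (4 * Nd n d) ^ (W.card - 1)` patterns for each `(d, W)` and the sum is at most
  `∑ (d, W), (W.card / (4 * Nd n d)) * (4 * exp 1 / 2 ^ d) ^ W.card`
  `= (1 / (4 n)) * ∑ (d, W), W.card * 2 ^ d * (4 * exp 1 / 2 ^ d) ^ W.card`
  `= (1 / (4 n)) * ∑ x : P n, ∑ (d, W) ∋ x, 2 ^ d * (4 * exp 1 / 2 ^ d) ^ W.card ≤ (1 / (4 n)) * (2 n) * (1 / 4) ≤ 1 / 4`
  (exchange of the sums, `Finset.card_eq_sum_ones`).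
* The bijection `ω ()` avoids all patterns; if all `w ∈ W` were mapped into the block `b` (then `b < 2 ^ d` by `blk_lt`),
  the pattern with `g = ω ()` would be realised.  `Equiv.ofBijective`.
-/

set_option autoImplicit false

open Finset
open scoped Classical

namespace Pool.Agent.helper7.LT

private noncomputable def PL_SB (n d b : ℕ) : Finset (P n) := univ.filter fun p => blk n d p.1 = b

private theorem PL_one_le_Nd {n d : ℕ} (hd : 2 ^ d ≤ n) : 1 ≤ Nd n d := by
  unfold Nd
  rw [one_le_div (by positivity)]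
  exact_mod_cast hd

private theorem PL_card_SB {n : ℕ} (hn : 0 < n) (d b : ℕ) (hd : 2 ^ d ≤ n) :
    ((PL_SB n d b).card : ℝ) ≤ 4 * Nd n d := by
  have h1 : PL_SB n d b = (Bl n d b) ×ˢ (univ : Finset Bool) := by
    ext ⟨u, c⟩; simp [PL_SB, Bl]
  have h2 := PL_one_le_Nd hd
  have h3 := card_Bl_le hn d b
  rw [h1, card_product, card_univ, Fintype.card_bool]
  push_cast
  linarith

private noncomputable def PL_pat {n : ℕ} (W : Finset (P n)) (g : P n → P n) :
    Finset (Unit × P n × P n) :=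
  W.image fun w => ((), w, g w)

private theorem PL_card_pat {n : ℕ} (W : Finset (P n)) (g : P n → P n) :
    (PL_pat W g).card = W.card := by
  unfold PL_pat
  apply card_image_of_injective
  intro a b h
  simp only [Prod.mk.injEq, true_and] at h
  exact h.1

private theorem PL_mem_pat {n : ℕ} {W : Finset (P n)} {g : P n → P n} {s : Unit × P n × P n} :
    s ∈ PL_pat W g ↔ s.2.1 ∈ W ∧ g s.2.1 = s.2.2 := by
  unfold PL_pat
  rw [mem_image]
  constructor
  · rintro ⟨w, hw, rfl⟩
    exact ⟨hw, rfl⟩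
  · rintro ⟨h1, h2⟩
    exact ⟨s.2.1, h1, by rw [h2]⟩

private theorem PL_wx_pat {n : ℕ} (W : Finset (P n)) (g : P n → P n) :
    wx (fun _ : Unit => 1 / (n : ℝ)) (PL_pat W g) = (Real.exp 1 / n) ^ W.card := by
  unfold wx
  rw [prod_const, PL_card_pat, ← Real.exp_one_pow, ← mul_pow]
  congr 1
  ring

/-- the functions which map `W` into one block and fix the other elements -/
private noncomputable def PL_G (n d : ℕ) (W : Finset (P n)) : Finset (P n → P n) :=
  (range (2 ^ d)).biUnion fun b =>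
    Fintype.piFinset fun w => if w ∈ W then PL_SB n d b else {w}

private noncomputable def PL_F {n : ℕ} (F : Finset (ℕ × Finset (P n))) :
    Finset (Finset (Unit × P n × P n)) :=
  (F.sigma fun f => PL_G n f.1 f.2).image fun i => PL_pat i.1.2 i.2

private theorem PL_sum {n : ℕ} (F : Finset (ℕ × Finset (P n)))
    (Q : Finset (Unit × P n × P n) → Prop) :
    ∑ S ∈ (PL_F F).filter Q, wx (fun _ : Unit => 1 / (n : ℝ)) S ≤
      ∑ f ∈ F, (((PL_G n f.1 f.2).filter fun g => Q (PL_pat f.2 g)).card : ℝ) *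
        (Real.exp 1 / n) ^ f.2.card := by
  unfold PL_F
  rw [filter_image]
  refine (sum_image_le_of_nonneg ?_).trans ?_
  · intro S _
    unfold wx
    positivity
  · apply le_of_eq
    rw [sum_filter, sum_sigma]
    apply sum_congr rfl
    intro f _
    rw [← sum_filter, ← nsmul_eq_mul, ← sum_const]
    apply sum_congr rfl
    intro g _
    exact PL_wx_pat f.2 g

private theorem PL_card_pi {n : ℕ} (W : Finset (P n)) (T : Finset (P n)) :
    (Fintype.piFinset fun w => if w ∈ W then T else {w}).card = T.card ^ W.card := by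
  rw [Fintype.card_piFinset]
  have h1 : ∀ w : P n, (if w ∈ W then T else {w}).card = if w ∈ W then T.card else 1 := by
    intro w
    split_ifs <;> simp
  simp only [h1]
  rw [prod_ite_mem, univ_inter, prod_const]

private theorem PL_card_G {n : ℕ} (hn : 0 < n) {d : ℕ} (hd : 2 ^ d ≤ n) (W : Finset (P n)) :
    ((PL_G n d W).card : ℝ) ≤ 2 ^ d * (4 * Nd n d) ^ W.card := by
  unfold PL_G
  have h1 : (((range (2 ^ d)).biUnion fun b =>
      Fintype.piFinset fun w => if w ∈ W then PL_SB n d b else {w}).card : ℝ) ≤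
      ∑ b ∈ range (2 ^ d), ((Fintype.piFinset fun w : P n =>
        if w ∈ W then PL_SB n d b else {w}).card : ℝ) := by
    exact_mod_cast card_biUnion_le
  refine h1.trans ?_
  have h2 : ∑ b ∈ range (2 ^ d), ((Fintype.piFinset fun w : P n =>
        if w ∈ W then PL_SB n d b else {w}).card : ℝ) ≤
        ∑ b ∈ range (2 ^ d), (4 * Nd n d) ^ W.card := by
    apply sum_le_sum
    intro b _
    rw [PL_card_pi]
    push_cast
    exact pow_le_pow_left₀ (Nat.cast_nonneg _) (PL_card_SB hn d b hd) _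
  refine h2.trans ?_
  rw [sum_const, card_range, nsmul_eq_mul]
  push_cast
  exact le_rfl

private theorem PL_card_Gp {n : ℕ} (hn : 0 < n) {d : ℕ} (hd : 2 ^ d ≤ n) (W : Finset (P n))
    (p : P n) :
    (((PL_G n d W).filter fun g => ∃ w ∈ W, g w = p).card : ℝ) ≤
      W.card * (4 * Nd n d) ^ (W.card - 1) := by
  have h1 : ((PL_G n d W).filter fun g => ∃ w ∈ W, g w = p) ⊆
      W.biUnion fun w0 => (Fintype.piFinset fun w =>
        if w ∈ W.erase w0 then PL_SB n d (blk n d p.1) else if w = w0 then {p} else {w}) := by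
    intro g hg
    rw [mem_filter] at hg
    obtain ⟨hg, w0, hw0, hp⟩ := hg
    unfold PL_G at hg
    rw [mem_biUnion] at hg ⊢
    obtain ⟨b, hb, hg⟩ := hg
    rw [Fintype.mem_piFinset] at hg
    have hb' : blk n d p.1 = b := by
      have := hg w0
      rw [if_pos hw0, hp] at this
      simpa [PL_SB] using this
    refine ⟨w0, hw0, ?_⟩
    rw [Fintype.mem_piFinset]
    intro w
    have hw := hg w
    by_cases h2 : w = w0
    · rw [if_neg (by rw [h2]; simp), if_pos h2, h2, hp]
      simp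
    · by_cases h3 : w ∈ W
      · rw [if_pos (mem_erase.2 ⟨h2, h3⟩), hb']
        rw [if_pos h3] at hw
        exact hw
      · rw [if_neg (fun h4 => h3 (mem_erase.1 h4).2), if_neg h2]
        rw [if_neg h3] at hw
        exact hw
  have h2 : (((PL_G n d W).filter fun g => ∃ w ∈ W, g w = p).card : ℝ) ≤
      ∑ w0 ∈ W, ((Fintype.piFinset fun w =>
        if w ∈ W.erase w0 then PL_SB n d (blk n d p.1) else if w = w0 then {p} else {w}).card : ℝ) := by
    exact_mod_cast (card_le_card h1).trans card_biUnion_le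
  refine h2.trans ?_
  rw [← nsmul_eq_mul, ← sum_const]
  apply sum_le_sum
  intro w0 hw0
  rw [Fintype.card_piFinset]
  have h3 : ∀ w : P n, (if w ∈ W.erase w0 then PL_SB n d (blk n d p.1) else
      if w = w0 then {p} else {w}).card =
      if w ∈ W.erase w0 then (PL_SB n d (blk n d p.1)).card else 1 := by
    intro w
    split_ifs <;> simp
  simp only [h3]
  rw [prod_ite_mem, univ_inter, prod_const, card_erase_of_mem hw0]
  push_cast
  exact pow_le_pow_left₀ (Nat.cast_nonneg _) (PL_card_SB hn d _ hd) _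

private theorem PL_term {n : ℕ} (hn : 0 < n) (d k : ℕ) :
    (4 * Nd n d) ^ k * (Real.exp 1 / n) ^ k = (4 * Real.exp 1 / 2 ^ d) ^ k := by
  rw [← mul_pow]
  congr 1
  unfold Nd
  have : (n : ℝ) ≠ 0 := by positivity
  field_simp

theorem placement (n : ℕ) (hn : 0 < n) (F : Finset (ℕ × Finset (P n)))
    (hF : ∀ f ∈ F, 2 ^ f.1 ≤ n ∧ f.2.Nonempty ∧ f.2.card ≤ n)
    (h : ∀ x : P n, ∑ f ∈ F.filter (fun f => x ∈ f.2),
      (2 : ℝ) ^ f.1 * (4 * Real.exp 1 / 2 ^ f.1) ^ f.2.card ≤ 1 / 4) :
    ∃ ω : Equiv.Perm (P n), ∀ f ∈ F, ∀ b, ∃ x ∈ f.2, blk n f.1 (ω x).1 ≠ b := by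
  have hn' : (0 : ℝ) < n := by exact_mod_cast hn
  have : Nonempty (P n) := ⟨(⟨0, hn⟩, true)⟩
  have key := local_lemma (J := Unit) (A := P n) (B := P n) (fun _ => univ) (fun _ => univ)
    (fun _ => rfl) (fun _ => 1 / (n : ℝ)) (fun _ => by positivity) (PL_F F) ?_ ?_ ?_
  · obtain ⟨ω, h1, h2⟩ := key
    have h3 : Function.Bijective (ω ()) := by
      have := h1 ()
      simpa [Set.bijOn_univ] using this
    refine ⟨Equiv.ofBijective _ h3, ?_⟩
    intro f hf b
    by_contra hcon
    push Not at hcon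
    obtain ⟨h4, ⟨x0, hx0⟩, h5⟩ := hF f hf
    have hcon' : ∀ x ∈ f.2, blk n f.1 (ω () x).1 = b := hcon
    let g : P n → P n := fun w => if w ∈ f.2 then ω () w else w
    have hg : PL_pat f.2 g ∈ PL_F F := by
      unfold PL_F
      rw [mem_image]
      refine ⟨⟨f, g⟩, mem_sigma.2 ⟨hf, ?_⟩, rfl⟩
      show g ∈ PL_G n f.1 f.2
      unfold PL_G
      rw [mem_biUnion]
      refine ⟨b, ?_, ?_⟩
      · rw [mem_range, ← hcon' x0 hx0]
        exact blk_lt _ _
      · rw [Fintype.mem_piFinset]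
        intro w
        by_cases hw : w ∈ f.2
        · simp only [g, if_pos hw]
          simp only [PL_SB, mem_filter, mem_univ, true_and]
          exact hcon' w hw
        · simp only [g, if_neg hw]
          exact mem_singleton_self _
    apply h2 _ hg
    intro s hs
    rw [PL_mem_pat] at hs
    rw [← hs.2]
    simp only [g, if_pos hs.1]
  · -- Fits
    intro S hS
    unfold PL_F at hS
    rw [mem_image] at hS
    obtain ⟨⟨f, g⟩, hi, rfl⟩ := hS
    rw [mem_sigma] at hi
    obtain ⟨h4, h6, h5⟩ := hF f hi.1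
    refine ⟨?_, ?_⟩
    · simp only [PL_pat]
      exact h6.image _
    · intro s _
      refine ⟨mem_univ _, mem_univ _, ?_⟩
      have h7 : (((PL_pat f.2 g).filter fun s' => s'.1 = s.1).card : ℝ) ≤ n := by
        have : ((PL_pat f.2 g).filter fun s' => s'.1 = s.1).card ≤ n :=
          (card_filter_le _ _).trans ((PL_card_pat f.2 g).trans_le h5)
        exact_mod_cast this
      have h8 : ((univ : Finset (P n)).card : ℝ) = 2 * n := by
        rw [card_univ, Fintype.card_prod, Fintype.card_fin, Fintype.card_bool]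
        push_cast
        ring
      simp only [h8]
      rw [div_mul_eq_mul_div, one_mul, one_le_div hn']
      simp only at h7 ⊢
      linarith
  · -- left slots
    intro j x _
    have e1 : ∑ S ∈ (PL_F F).filter (fun S => ∃ s ∈ S, s.1 = j ∧ s.2.1 = x),
        wx (fun _ : Unit => 1 / (n : ℝ)) S ≤
        ∑ f ∈ F, (((PL_G n f.1 f.2).filter fun g =>
          ∃ s ∈ PL_pat f.2 g, s.1 = j ∧ s.2.1 = x).card : ℝ) *
        (Real.exp 1 / n) ^ f.2.card := by
      convert PL_sum F (fun S => ∃ s ∈ S, s.1 = j ∧ s.2.1 = x)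
    refine le_trans (le_of_eq (by congr!)) (e1.trans ?_)
    refine le_trans ?_ (h x)
    rw [sum_filter]
    apply sum_le_sum
    intro f hf
    obtain ⟨h4, h6, h5⟩ := hF f hf
    by_cases hx : x ∈ f.2
    · rw [if_pos hx]
      have h7 : (((PL_G n f.1 f.2).filter fun g =>
          ∃ s ∈ PL_pat f.2 g, s.1 = j ∧ s.2.1 = x).card : ℝ) ≤
          2 ^ f.1 * (4 * Nd n f.1) ^ f.2.card := by
        refine le_trans ?_ (PL_card_G hn h4 f.2)
        exact_mod_cast card_filter_le _ _
      calc (((PL_G n f.1 f.2).filter fun g =>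
          ∃ s ∈ PL_pat f.2 g, s.1 = j ∧ s.2.1 = x).card : ℝ) * (Real.exp 1 / n) ^ f.2.card
          ≤ 2 ^ f.1 * (4 * Nd n f.1) ^ f.2.card * (Real.exp 1 / n) ^ f.2.card := by
            apply mul_le_mul_of_nonneg_right h7
            positivity
        _ = 2 ^ f.1 * (4 * Real.exp 1 / 2 ^ f.1) ^ f.2.card := by
            rw [mul_assoc, PL_term hn]
    · rw [if_neg hx]
      have h7 : ((PL_G n f.1 f.2).filter fun g =>
          ∃ s ∈ PL_pat f.2 g, s.1 = j ∧ s.2.1 = x) = ∅ := by
        apply filter_eq_empty_iff.2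
        rintro g _ ⟨s, hs, _, h8⟩
        rw [PL_mem_pat, h8] at hs
        exact hx hs.1
      rw [h7]
      simp
  · -- right slots
    intro j p _
    have e1 : ∑ S ∈ (PL_F F).filter (fun S => ∃ s ∈ S, s.1 = j ∧ s.2.2 = p),
        wx (fun _ : Unit => 1 / (n : ℝ)) S ≤
        ∑ f ∈ F, (((PL_G n f.1 f.2).filter fun g =>
          ∃ s ∈ PL_pat f.2 g, s.1 = j ∧ s.2.2 = p).card : ℝ) *
        (Real.exp 1 / n) ^ f.2.card := by
      convert PL_sum F (fun S => ∃ s ∈ S, s.1 = j ∧ s.2.2 = p)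
    refine le_trans (le_of_eq (by congr!)) (e1.trans ?_)
    have hstep : ∀ f ∈ F, (((PL_G n f.1 f.2).filter fun g =>
          ∃ s ∈ PL_pat f.2 g, s.1 = j ∧ s.2.2 = p).card : ℝ) * (Real.exp 1 / n) ^ f.2.card ≤
          (1 / (4 * n)) * ∑ x : P n, if x ∈ f.2 then
            (2 : ℝ) ^ f.1 * (4 * Real.exp 1 / 2 ^ f.1) ^ f.2.card else 0 := by
      intro f hf
      obtain ⟨h4, h6, h5⟩ := hF f hf
      have hN := PL_one_le_Nd h4
      have h7 : (((PL_G n f.1 f.2).filter fun g =>
          ∃ s ∈ PL_pat f.2 g, s.1 = j ∧ s.2.2 = p).card : ℝ) ≤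
          f.2.card * (4 * Nd n f.1) ^ (f.2.card - 1) := by
        refine le_trans ?_ (PL_card_Gp hn h4 f.2 p)
        have : ((PL_G n f.1 f.2).filter fun g =>
          ∃ s ∈ PL_pat f.2 g, s.1 = j ∧ s.2.2 = p) ⊆
          ((PL_G n f.1 f.2).filter fun g => ∃ w ∈ f.2, g w = p) := by
          intro g hg
          rw [mem_filter] at hg ⊢
          obtain ⟨hg, s, hs, _, h8⟩ := hg
          rw [PL_mem_pat] at hs
          exact ⟨hg, s.2.1, hs.1, hs.2.trans h8⟩
        exact_mod_cast card_le_card this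
      have h9 : (4 * Nd n f.1) ^ (f.2.card - 1) = (4 * Nd n f.1) ^ f.2.card / (4 * Nd n f.1) := by
        rw [eq_div_iff (by positivity), ← pow_succ, Nat.sub_add_cancel h6.card_pos]
      have h10 : (4 * Nd n f.1) = 4 * n / 2 ^ f.1 := by unfold Nd; ring
      rw [sum_ite_mem, univ_inter, sum_const, nsmul_eq_mul]
      calc (((PL_G n f.1 f.2).filter fun g =>
          ∃ s ∈ PL_pat f.2 g, s.1 = j ∧ s.2.2 = p).card : ℝ) * (Real.exp 1 / n) ^ f.2.card
          ≤ (f.2.card * (4 * Nd n f.1) ^ (f.2.card - 1)) * (Real.exp 1 / n) ^ f.2.card := by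
            apply mul_le_mul_of_nonneg_right h7
            positivity
        _ = f.2.card / (4 * Nd n f.1) *
              ((4 * Nd n f.1) ^ f.2.card * (Real.exp 1 / n) ^ f.2.card) := by
            rw [h9]; ring
        _ = 1 / (4 * n) * (f.2.card * (2 ^ f.1 * (4 * Real.exp 1 / 2 ^ f.1) ^ f.2.card)) := by
            rw [PL_term hn, h10]
            have : (n : ℝ) ≠ 0 := hn'.ne'
            field_simp
        _ ≤ _ := le_rfl
    refine (sum_le_sum hstep).trans ?_
    rw [← mul_sum, sum_comm]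
    have h11 : ∑ x : P n, ∑ f ∈ F, (if x ∈ f.2 then
            (2 : ℝ) ^ f.1 * (4 * Real.exp 1 / 2 ^ f.1) ^ f.2.card else 0) ≤
            ∑ x : P n, (1 / 4 : ℝ) := by
      apply sum_le_sum
      intro x _
      rw [← sum_filter]
      exact h x
    rw [sum_const, card_univ, Fintype.card_prod, Fintype.card_fin, Fintype.card_bool,
      nsmul_eq_mul] at h11
    push_cast at h11
    calc 1 / (4 * (n : ℝ)) * _ ≤ 1 / (4 * (n : ℝ)) * (n * 2 * (1 / 4)) :=
          mul_le_mul_of_nonneg_left h11 (by positivity)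
      _ ≤ 1 / 4 := by
          have : (n : ℝ) ≠ 0 := hn'.ne'
          field_simp
          norm_num

end Pool.Agent.helper7.LT
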