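import Pool.Agent.helper7.LT.Omega
import Pool.Agent.helper7.LT.LightLo
import Pool.Agent.helper7.LT.LightHi

/-!
# LT-Place: the first stage

PROOF of `place`: choose `lb`, `g` by `light_low` or `light_high` for every `d ≤ dA`, `ω` from `exists_omega`, `σ = ω⁻¹`,
`c' x y = c (σ x) (σ y)`.  `Dg c' k v = Dg c k (σ v)`, `Lt c' d k v ↔ Lt c d k (σ v)` (the bijection `σ`), `dg c' k v d` is the number of
`y ≠ σ v` with `c (σ v) y = k` and `blk n d (ω y).1 = blk n d (ω (σ v)).1`, similarly for `lc`.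
* `Rain`: two different edges of the same colour inside a block of depth `dA` (positions) have three or four end points; their
  images under `σ` form a set of `F1c c` (use `hc` to put the common vertex first) which `ω` maps into one block.
* `deg`: second conclusion of `exists_omega`.  `light`: the last part of `LP`.
-/

set_option autoImplicit false

open Finset
open scoped Classical

namespace Pool.Agent.helper7.LT

variable {n : ℕ} {C : Type}

private theorem Place_card {A : Type} [Fintype A] (e : Equiv.Perm A) (p q : A → Prop)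
    [DecidablePred p] [DecidablePred q] (h : ∀ a, p a ↔ q (e a)) :
    (univ.filter p).card = (univ.filter q).card := by
  refine Finset.card_bij (fun a _ => e a) ?_ ?_ ?_
  · intro a ha
    rw [mem_filter] at ha ⊢
    exact ⟨mem_univ _, (h a).1 ha.2⟩
  · intro a _ a' _ haa
    exact e.injective haa
  · intro b hb
    rw [mem_filter] at hb
    refine ⟨e.symm b, ?_, e.apply_symm_apply b⟩
    rw [mem_filter]
    refine ⟨mem_univ _, (h _).2 ?_⟩
    rw [e.apply_symm_apply]
    exact hb.2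

private theorem Place_rain {c : P n → P n → C} (hc : ∀ x y, c x y = c y x) {dA : ℕ}
    {ω : Equiv.Perm (P n)} (h : ∀ W ∈ F1c c, ∀ b, ∃ x ∈ W, blk n dA (ω x).1 ≠ b)
    {x y z w : P n} (h1 : blk n dA (ω x).1 = blk n dA (ω y).1)
    (h2 : blk n dA (ω y).1 = blk n dA (ω z).1) (h3 : blk n dA (ω z).1 = blk n dA (ω w).1)
    (hxy : x ≠ y) (hzw : z ≠ w) (hcc : c x y = c z w) : s(x, y) = s(z, w) := by
  have tri : ∀ u v t : P n, u ≠ v → u ≠ t → v ≠ t → c u v = c u t →
      blk n dA (ω u).1 = blk n dA (ω x).1 → blk n dA (ω v).1 = blk n dA (ω x).1 →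
      blk n dA (ω t).1 = blk n dA (ω x).1 → False := by
    intro u v t a1 a2 a3 a4 b1 b2 b3
    obtain ⟨s, hs, hs'⟩ := h {u, v, t} (by
      unfold F1c
      rw [mem_filter]
      exact ⟨mem_univ _, Or.inl ⟨u, v, t, a1, a2, a3, a4, rfl⟩⟩) (blk n dA (ω x).1)
    simp only [mem_insert, mem_singleton] at hs
    rcases hs with rfl | rfl | rfl
    · exact hs' b1
    · exact hs' b2
    · exact hs' b3
  have e2 : blk n dA (ω y).1 = blk n dA (ω x).1 := h1.symm
  have e3 : blk n dA (ω z).1 = blk n dA (ω x).1 := h2.symm.trans e2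
  have e4 : blk n dA (ω w).1 = blk n dA (ω x).1 := h3.symm.trans e3
  by_contra hne
  by_cases hxz : x = z
  · subst hxz
    have hyw : y ≠ w := by
      rintro rfl
      exact hne rfl
    exact tri x y w hxy hzw hyw hcc rfl e2 e4
  by_cases hxw : x = w
  · subst hxw
    have hyz : y ≠ z := by
      rintro rfl
      exact hne Sym2.eq_swap
    exact tri x y z hxy hxz hyz (hcc.trans (hc _ _)) rfl e2 e3
  by_cases hyz : y = z
  · subst hyz
    exact tri y x w hxy.symm hzw hxw ((hc _ _).trans hcc) e2 rfl e4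
  by_cases hyw : y = w
  · subst hyw
    exact tri y x z hxy.symm hyz hxz (((hc _ _).trans hcc).trans (hc _ _)) e2 rfl e3
  obtain ⟨s, hs, hs'⟩ := h {x, y, z, w} (by
    unfold F1c
    rw [mem_filter]
    exact ⟨mem_univ _, Or.inr ⟨x, y, z, w, hxy, hxz, hxw, hyz, hyw, hzw, hcc, rfl⟩⟩)
    (blk n dA (ω x).1)
  simp only [mem_insert, mem_singleton] at hs
  rcases hs with rfl | rfl | rfl | rfl
  · exact hs' rfl
  · exact hs' e2
  · exact hs' e3
  · exact hs' e4

theorem place [Fintype C] (c : P n → P n → C) (hc : ∀ x y, c x y = c y x) (dA : ℕ) (β : ℝ)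
    (hn : 4 ≤ n) (h0 : 0 ≤ β) (h1 : β ≤ 1 / 7000) (hβ : ∀ k, (Oc c k : ℝ) ≤ β * n)
    (hN : 1 ≤ Nd n dA) (hb : 120000 * β * Nd n dA ^ 2 ≤ 1 / 8)
    (hs : ∑ d ∈ range (dA + 1), 128 * Real.exp 2 * Nd n d *
      Real.exp (-(Nd n d ^ (1 / 16 : ℝ))) ≤ 1 / 8) :
    ∃ σ : Equiv.Perm (P n), GP (fun x y => c (σ x) (σ y)) dA β := by
  have hlab : ∀ d, ∃ (lb : P n → P n → Option (C × ℕ)) (g : C × ℕ → ℕ), d ≤ dA →
      LP c d β lb g := by
    intro d
    by_cases hd : d ≤ dA
    · have hNd : 1 ≤ Nd n d := hN.trans (Nd_mono hd)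
      rcases lt_or_ge (Nd n d ^ (7 / 4 : ℝ)) (8 * n) with h | h
      · obtain ⟨lb, g, hl⟩ := light_low c hc d β h0 h1 hβ hNd h
        exact ⟨lb, g, fun _ => hl⟩
      · obtain ⟨lb, g, hl⟩ := light_high c hc d β h0 h1 hβ hNd h
        exact ⟨lb, g, fun _ => hl⟩
    · exact ⟨fun _ _ => none, fun _ => 0, fun h => absurd h hd⟩
  choose lb g hL using hlab
  obtain ⟨ω, hA, hB, hC⟩ := exists_omega c hc dA β hn h0 h1 hβ hN hb hs lb g hL
  have hDg : ∀ k v, Dg (fun x y => c (ω.symm x) (ω.symm y)) k v = Dg c k (ω.symm v) := by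
    intro k v
    unfold Dg
    refine Place_card ω.symm _ _ fun y => ?_
    rw [Ne, Ne, ω.symm.injective.eq_iff]
  have hLt : ∀ d k v, Lt (fun x y => c (ω.symm x) (ω.symm y)) d k v ↔ Lt c d k (ω.symm v) := by
    intro d k v
    unfold Lt
    rw [hDg]
  refine ⟨ω.symm, ?_, ?_, ?_⟩
  · intro x y z w a1 a2 a3 hxy hzw hcc
    have h5 := Place_rain hc hA (x := ω.symm x) (y := ω.symm y) (z := ω.symm z)
      (w := ω.symm w) (by simpa using a1) (by simpa using a2) (by simpa using a3)
      (ω.symm.injective.ne hxy) (ω.symm.injective.ne hzw) hcc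
    have h6 := congrArg (Sym2.map ω) h5
    simpa using h6
  · intro d hd v k
    have h5 := hB d hd (ω.symm v) k
    have h6 : dg (fun x y => c (ω.symm x) (ω.symm y)) k v d =
        (univ.filter fun y : P n => y ≠ ω.symm v ∧ c (ω.symm v) y = k ∧
          blk n d (ω y).1 = blk n d (ω (ω.symm v)).1).card := by
      unfold dg
      refine Place_card ω.symm _ _ fun y => ?_
      rw [Ne, Ne, ω.symm.injective.eq_iff, ω.apply_symm_apply, ω.apply_symm_apply]
    rw [h6, hDg]
    exact h5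
  · intro d hd b k
    have h5 := (hL d hd).2.2 ω (hC d hd) (hB d hd) b k
    have h6 : lc (fun x y => c (ω.symm x) (ω.symm y)) k d b =
        (univ.filter fun e : P n × P n => e.1 ≠ e.2 ∧ c e.1 e.2 = k ∧
          blk n d (ω e.1).1 = b ∧ blk n d (ω e.2).1 = b ∧ Lt c d k e.1 ∧ Lt c d k e.2).card := by
      unfold lc
      refine Place_card (Equiv.prodCongr ω.symm ω.symm) _ _ fun e => ?_
      show _ ↔ (ω.symm e.1 ≠ ω.symm e.2 ∧ c (ω.symm e.1) (ω.symm e.2) = k ∧
        blk n d (ω (ω.symm e.1)).1 = b ∧ blk n d (ω (ω.symm e.2)).1 = b ∧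
        Lt c d k (ω.symm e.1) ∧ Lt c d k (ω.symm e.2))
      rw [hLt, hLt, Ne, Ne, ω.symm.injective.eq_iff, ω.apply_symm_apply, ω.apply_symm_apply]
    rw [h6]
    exact h5

end Pool.Agent.helper7.LT
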