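import Pool.Agent.helper7.LT.LDefs
import Pool.Agent.helper7.LT.W2

/-!
# LT-Pt: the patterns of the second stage

The index set is `J = P n × Fin n × Bool`: a child `x`, a depth `d`, and one of two bijections
`α = ω (x, d, true)`, `β = ω (x, d, false)`, both from `L = Lf n d x.1` to `R⁺` = `R` together with a further element
`none` if `|R| < |L|` (as elements of `Option (Fin n)`).  They define the bijection `φ` of `L ∪ R` with
`φ u = α u` for `u ∈ L`, `α u ≠ none`; `φ u = β⁻¹ none` for `u ∈ L`, `α u = none`; `φ u = β⁻¹ u` for `u ∈ R`.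
`pt x d u t` is the pattern which says that `φ u = t`.

* `card_XY`: `|R⁺| = |R|` if `|R| = |L|`, and `|R| + 1 = |L|` otherwise (`LR_card`; `some` is injective).
* `pt_prod`: if `wd n d x.1 u t ≠ 0` then one of the three cases `u ∈ L, t ∈ R`; `u ∈ R, t ∈ L`; `u, t ∈ L`, `|R| < |L|`
  holds (the first two exclude the third because `L`, `R` are disjoint), and the product is `1 / |L|`, `1 / |L|`,
  `(1 / |L|) ^ 2`.
* `pt_fits`: in the third case the two triples have the different indices `(x, d, true)`, `(x, d, false)`; so there is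
  exactly one triple with the index of `s`.
* `pt_left_true` etc.: unfold `pt` (cases).
-/

set_option autoImplicit false

open Finset
open scoped Classical

namespace Pool.Agent.helper7.LT

variable {n : ℕ}

/-- domains of the bijections -/
noncomputable def XJ (j : P n × Fin n × Bool) : Finset (Fin n) := Lf n j.2.1 j.1.1

/-- codomains of the bijections -/
noncomputable def YJ (j : P n × Fin n × Bool) : Finset (Option (Fin n)) :=
  (Rf n j.2.1 j.1.1).image some ∪
    if (Rf n j.2.1 j.1.1).card < (Lf n j.2.1 j.1.1).card then {none} else ∅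

/-- probability of one prescribed value -/
noncomputable def rJ (j : P n × Fin n × Bool) : ℝ := 1 / ((Lf n j.2.1 j.1.1).card : ℝ)

/-- the pattern of `the edge (x, u) is in the tree t` at the depth `d` -/
noncomputable def pt (x : P n) (d : Fin n) (u t : Fin n) :
    Finset ((P n × Fin n × Bool) × Fin n × Option (Fin n)) :=
  if u ∈ Lf n d x.1 ∧ t ∈ Rf n d x.1 then {((x, d, true), u, some t)}
  else if u ∈ Rf n d x.1 ∧ t ∈ Lf n d x.1 then {((x, d, false), t, some u)}
  else {((x, d, true), u, none), ((x, d, false), t, none)}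

private theorem Pt_cases {x : P n} {d : Fin n} {u t : Fin n} (h : wd n d x.1 u t ≠ 0) :
    (u ∈ Lf n d x.1 ∧ t ∈ Rf n d x.1 ∧ wd n d x.1 u t = 1 / ((Lf n d x.1).card : ℝ) ∧
      pt x d u t = {((x, d, true), u, some t)}) ∨
    (u ∈ Rf n d x.1 ∧ t ∈ Lf n d x.1 ∧ wd n d x.1 u t = 1 / ((Lf n d x.1).card : ℝ) ∧
      pt x d u t = {((x, d, false), t, some u)}) ∨
    (u ∈ Lf n d x.1 ∧ t ∈ Lf n d x.1 ∧ (Rf n d x.1).card < (Lf n d x.1).card ∧
      wd n d x.1 u t = 1 / ((Lf n d x.1).card : ℝ) ^ 2 ∧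
      pt x d u t = {((x, d, true), u, none), ((x, d, false), t, none)}) := by
  by_cases hA : u ∈ Lf n d x.1 ∧ t ∈ Rf n d x.1
  · left
    refine ⟨hA.1, hA.2, ?_, ?_⟩
    · unfold wd w2
      rw [if_pos (Or.inl hA)]
    · unfold pt
      rw [if_pos hA]
  · by_cases hB : u ∈ Rf n d x.1 ∧ t ∈ Lf n d x.1
    · right; left
      refine ⟨hB.1, hB.2, ?_, ?_⟩
      · unfold wd w2
        rw [if_pos (Or.inr hB)]
      · unfold pt
        rw [if_neg hA, if_pos hB]
    · right; right
      have hn : ¬ ((u ∈ Lf n d x.1 ∧ t ∈ Rf n d x.1) ∨ (u ∈ Rf n d x.1 ∧ t ∈ Lf n d x.1)) := by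
        rintro (h1 | h1)
        · exact hA h1
        · exact hB h1
      have hC : u ∈ Lf n d x.1 ∧ t ∈ Lf n d x.1 ∧ (Rf n d x.1).card < (Lf n d x.1).card := by
        by_contra hC
        apply h
        unfold wd w2
        rw [if_neg hn, if_neg hC]
      refine ⟨hC.1, hC.2.1, hC.2.2, ?_, ?_⟩
      · unfold wd w2
        rw [if_neg hn, if_pos hC]
      · unfold pt
        rw [if_neg hA, if_neg hB]

private theorem Pt_ne (x : P n) (d : Fin n) (u t : Fin n) :
    (((x, d, true), u, none) : (P n × Fin n × Bool) × Fin n × Option (Fin n)) ≠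
      ((x, d, false), t, none) := by
  simp

theorem card_XY (j : P n × Fin n × Bool) : (XJ j).card = (YJ j).card := by
  obtain ⟨h1, h2⟩ := LR_card (n := n) (j.2.1 : ℕ) j.1.1
  have h3 : ((Rf n j.2.1 j.1.1).image some).card = (Rf n j.2.1 j.1.1).card :=
    card_image_of_injective _ (Option.some_injective _)
  unfold XJ YJ
  by_cases h : (Rf n j.2.1 j.1.1).card < (Lf n j.2.1 j.1.1).card
  · rw [if_pos h, card_union_of_disjoint, h3, card_singleton]
    · omega
    · rw [disjoint_singleton_right]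
      simp
  · rw [if_neg h, union_empty, h3]
    omega

theorem rJ_nonneg (j : P n × Fin n × Bool) : 0 ≤ rJ j := by
  unfold rJ
  positivity

theorem pt_index {x : P n} {d : Fin n} {u t : Fin n} :
    ∀ s ∈ pt x d u t, s.1.1 = x ∧ s.1.2.1 = d := by
  intro s hs
  unfold pt at hs
  split_ifs at hs with h1 h2
  · rw [mem_singleton] at hs
    rw [hs]
    exact ⟨rfl, rfl⟩
  · rw [mem_singleton] at hs
    rw [hs]
    exact ⟨rfl, rfl⟩
  · rw [mem_insert, mem_singleton] at hs
    rcases hs with hs | hs <;> rw [hs] <;> exact ⟨rfl, rfl⟩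

theorem pt_card (x : P n) (d : Fin n) (u t : Fin n) :
    (pt x d u t).Nonempty ∧ (pt x d u t).card ≤ 2 := by
  unfold pt
  split_ifs with h1 h2
  · exact ⟨singleton_nonempty _, by rw [card_singleton]; omega⟩
  · exact ⟨singleton_nonempty _, by rw [card_singleton]; omega⟩
  · exact ⟨insert_nonempty _ _, card_le_two⟩

theorem pt_prod {x : P n} {d : Fin n} {u t : Fin n} (h : wd n d x.1 u t ≠ 0) :
    ∏ s ∈ pt x d u t, rJ s.1 = wd n d x.1 u t := by
  rcases Pt_cases h with ⟨-, -, h1, h2⟩ | ⟨-, -, h1, h2⟩ | ⟨-, -, -, h1, h2⟩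
  · rw [h1, h2, prod_singleton]
    rfl
  · rw [h1, h2, prod_singleton]
    rfl
  · rw [h1, h2, prod_pair (Pt_ne x d u t)]
    show 1 / ((Lf n d x.1).card : ℝ) * (1 / ((Lf n d x.1).card : ℝ)) = _
    rw [div_mul_div_comm, one_mul, sq]

theorem pt_mem {x : P n} {d : Fin n} {u t : Fin n} (h : wd n d x.1 u t ≠ 0) :
    ∀ s ∈ pt x d u t, s.2.1 ∈ XJ s.1 ∧ s.2.2 ∈ YJ s.1 ∧ 0 < (Lf n d x.1).card ∧
      ((pt x d u t).filter fun s' => s'.1 = s.1).card = 1 := by
  intro s hs
  rcases Pt_cases h with ⟨hu, ht, -, h2⟩ | ⟨hu, ht, -, h2⟩ | ⟨hu, ht, hlt, -, h2⟩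
  · rw [h2, mem_singleton] at hs
    refine ⟨?_, ?_, card_pos.2 ⟨u, hu⟩, ?_⟩
    · rw [hs]
      exact hu
    · rw [hs]
      exact mem_union_left _ (mem_image_of_mem _ ht)
    · rw [h2, hs, filter_singleton, if_pos rfl, card_singleton]
  · rw [h2, mem_singleton] at hs
    refine ⟨?_, ?_, card_pos.2 ⟨t, ht⟩, ?_⟩
    · rw [hs]
      exact ht
    · rw [hs]
      exact mem_union_left _ (mem_image_of_mem _ hu)
    · rw [h2, hs, filter_singleton, if_pos rfl, card_singleton]
  · rw [h2, mem_insert, mem_singleton] at hs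
    have hnone : ∀ b : Bool, (none : Option (Fin n)) ∈ YJ ((x, d, b) : P n × Fin n × Bool) := by
      intro b
      unfold YJ
      apply mem_union_right
      rw [if_pos (show (Rf n d x.1).card < (Lf n d x.1).card from hlt)]
      exact mem_singleton_self _
    rcases hs with hs | hs
    · refine ⟨?_, ?_, card_pos.2 ⟨u, hu⟩, ?_⟩
      · rw [hs]
        exact hu
      · rw [hs]
        exact hnone true
      · rw [h2, hs, filter_insert, filter_singleton, if_pos rfl, if_neg (by simp)]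
        simp
    · refine ⟨?_, ?_, card_pos.2 ⟨u, hu⟩, ?_⟩
      · rw [hs]
        exact ht
      · rw [hs]
        exact hnone false
      · rw [h2, hs, filter_insert, filter_singleton, if_neg (by simp), if_pos rfl,
          card_singleton]

/-- the left slot `u` of `(x, d, true)` occurs only in patterns of the edge `(x, u)` -/
theorem pt_left_true {x x' : P n} {d d' : Fin n} {u t a : Fin n} (h : wd n d x.1 u t ≠ 0)
    (hs : ∃ s ∈ pt x d u t, s.1 = (x', d', true) ∧ s.2.1 = a) :
    x = x' ∧ d = d' ∧ u = a := by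
  obtain ⟨s, hs, h1, h2⟩ := hs
  rcases Pt_cases h with ⟨-, -, -, h3⟩ | ⟨-, -, -, h3⟩ | ⟨-, -, -, -, h3⟩
  · rw [h3, mem_singleton] at hs
    subst hs
    simp only [Prod.mk.injEq] at h1
    exact ⟨h1.1, h1.2.1, h2⟩
  · rw [h3, mem_singleton] at hs
    subst hs
    simp at h1
  · rw [h3, mem_insert, mem_singleton] at hs
    rcases hs with hs | hs
    · subst hs
      simp only [Prod.mk.injEq] at h1
      exact ⟨h1.1, h1.2.1, h2⟩
    · subst hs
      simp at h1

/-- the left slot `t` of `(x, d, false)` occurs only in patterns of the tree `t` -/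
theorem pt_left_false {x x' : P n} {d d' : Fin n} {u t a : Fin n} (h : wd n d x.1 u t ≠ 0)
    (hs : ∃ s ∈ pt x d u t, s.1 = (x', d', false) ∧ s.2.1 = a) :
    x = x' ∧ d = d' ∧ t = a := by
  obtain ⟨s, hs, h1, h2⟩ := hs
  rcases Pt_cases h with ⟨-, -, -, h3⟩ | ⟨-, -, -, h3⟩ | ⟨-, -, -, -, h3⟩
  · rw [h3, mem_singleton] at hs
    subst hs
    simp at h1
  · rw [h3, mem_singleton] at hs
    subst hs
    simp only [Prod.mk.injEq] at h1
    exact ⟨h1.1, h1.2.1, h2⟩
  · rw [h3, mem_insert, mem_singleton] at hs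
    rcases hs with hs | hs
    · subst hs
      simp at h1
    · subst hs
      simp only [Prod.mk.injEq] at h1
      exact ⟨h1.1, h1.2.1, h2⟩

theorem pt_right_true {x x' : P n} {d d' : Fin n} {u t a : Fin n} (h : wd n d x.1 u t ≠ 0)
    (hs : ∃ s ∈ pt x d u t, s.1 = (x', d', true) ∧ s.2.2 = some a) :
    x = x' ∧ d = d' ∧ t = a := by
  obtain ⟨s, hs, h1, h2⟩ := hs
  rcases Pt_cases h with ⟨-, -, -, h3⟩ | ⟨-, -, -, h3⟩ | ⟨-, -, -, -, h3⟩
  · rw [h3, mem_singleton] at hs
    subst hs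
    simp only [Prod.mk.injEq] at h1
    exact ⟨h1.1, h1.2.1, Option.some_injective _ h2⟩
  · rw [h3, mem_singleton] at hs
    subst hs
    simp at h1
  · rw [h3, mem_insert, mem_singleton] at hs
    rcases hs with hs | hs
    · subst hs
      simp at h2
    · subst hs
      simp at h1

theorem pt_right_false {x x' : P n} {d d' : Fin n} {u t a : Fin n} (h : wd n d x.1 u t ≠ 0)
    (hs : ∃ s ∈ pt x d u t, s.1 = (x', d', false) ∧ s.2.2 = some a) :
    x = x' ∧ d = d' ∧ u = a := by
  obtain ⟨s, hs, h1, h2⟩ := hs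
  rcases Pt_cases h with ⟨-, -, -, h3⟩ | ⟨-, -, -, h3⟩ | ⟨-, -, -, -, h3⟩
  · rw [h3, mem_singleton] at hs
    subst hs
    simp at h1
  · rw [h3, mem_singleton] at hs
    subst hs
    simp only [Prod.mk.injEq] at h1
    exact ⟨h1.1, h1.2.1, Option.some_injective _ h2⟩
  · rw [h3, mem_insert, mem_singleton] at hs
    rcases hs with hs | hs
    · subst hs
      simp at h1
    · subst hs
      simp at h2

theorem pt_right_none {x x' : P n} {d d' : Fin n} {b : Bool} {u t : Fin n}
    (h : wd n d x.1 u t ≠ 0)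
    (hs : ∃ s ∈ pt x d u t, s.1 = (x', d', b) ∧ s.2.2 = none) :
    x = x' ∧ d = d' ∧ u ∈ Lf n d x.1 ∧ t ∈ Lf n d x.1 := by
  obtain ⟨s, hs, h1, h2⟩ := hs
  rcases Pt_cases h with ⟨-, -, -, h3⟩ | ⟨-, -, -, h3⟩ | ⟨hu, ht, -, -, h3⟩
  · rw [h3, mem_singleton] at hs
    subst hs
    simp at h2
  · rw [h3, mem_singleton] at hs
    subst hs
    simp at h2
  · rw [h3, mem_insert, mem_singleton] at hs
    rcases hs with hs | hs
    · subst hs
      simp only [Prod.mk.injEq] at h1
      exact ⟨h1.1, h1.2.1, hu, ht⟩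
    · subst hs
      simp only [Prod.mk.injEq] at h1
      exact ⟨h1.1, h1.2.1, hu, ht⟩

end Pool.Agent.helper7.LT
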