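import Pool.Agent.helper7.LT.LDefs

/-!
# LT-Swap: negative dependence of patterns  (author: helper16)

PROOF of `swap_count`.  Induction on `T ⊆ S`: for all `T ⊆ S`,
`cnt X Y F T ≤ (∏ s ∈ T, r s.1) * cnt X Y F ∅`.
Step: `T = insert s T₀`, `s = (j, x, y) ∉ T₀`.  Let `Z` be the set of the `ω` counted by `cnt X Y F T`, `Z₀` the set of those
counted by `cnt X Y F T₀`, and `D = Y j \ {b | (j, a, b) ∈ T₀ for some a}`, a set with at least
`(Y j).card - (T₀.filter (·.1 = j)).card ≥ (Y j).card + 1 - (S.filter (·.1 = j)).card` elements (`s` is in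
`S.filter` but not in `T₀.filter`).  The map `Z × D → Z₀`, `(ω, z) ↦ ω'`, `ω' j = Equiv.swap y z ∘ ω j`, `ω' i = ω i` for
`i ≠ j`, is injective (`ω' j x = z`, since `ω j x = y`, and `ω j = swap y z ∘ ω' j`), and its values are in `Z₀`:
* `IsBij`: `swap y z` permutes `Y j` (`y, z ∈ Y j`).
* `ω'` realises `T₀`: for `(j, x', y') ∈ T₀`: `ω j x' = y'`, `y' ≠ z` (`z ∈ D`); if `x' = x` then `y' = ω j x = y`, so
  `(j, x', y') = s ∈ T₀`, a contradiction; so `x' ≠ x` and `y' ≠ y` because `ω j` is injective on `X j` (`x, x' ∈ X j`);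
  hence `swap y z y' = y'`.
* `ω'` realises no `S' ∈ F`: suppose it does.  `S'` does not touch `S`, so for all `(j, x', y') ∈ S'`: `x' ≠ x`,
  `y' ≠ y`; `x' ∈ X j`; `ω' j x' = y' ≠ ω' j x = z` by injectivity; so `y' ∉ {y, z}` and `ω j x' = y'`.  So `ω`
  realises `S'`, a contradiction.
So `cnt T * D.card ≤ cnt T₀`, and `1 ≤ r j * D.card`, hence `cnt T ≤ r j * cnt T₀`.
`realises_zero`: if `S` contains a triple outside of `X`, `Y`... is not needed.
`exists_bij`: choose a bijection for every `j` (`Finset.equivOfCardEq`), extended by any element of `B`.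
-/

set_option autoImplicit false

open Finset
open scoped Classical

namespace Pool.Agent.helper7.LT

variable {J A B : Type} [Fintype J] [Fintype A] [Fintype B]

private theorem Swap_step (X : J → Finset A) (Y : J → Finset B) (r : J → ℝ) (hr : ∀ j, 0 ≤ r j)
    (S : Finset (J × A × B)) (hS : Fits X Y r S) (F : Finset (Finset (J × A × B)))
    (hF : ∀ S' ∈ F, (∀ s ∈ S', s.2.1 ∈ X s.1) ∧ ¬ Touch S S') (s : J × A × B) (hs : s ∈ S)
    (T : Finset (J × A × B)) (hT : T ⊆ S) (hsT : s ∉ T) :
    (cnt X Y F (insert s T) : ℝ) ≤ r s.1 * cnt X Y F T := by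
  obtain ⟨j, x, y⟩ := s
  obtain ⟨hx, hy, hr1⟩ := hS.2 _ hs
  simp only at hx hy hr1 ⊢
  set D : Finset B := (Y j) \ ((T.filter fun s' => s'.1 = j).image fun s' => s'.2.2) with hD
  have hDmem : ∀ z ∈ D, z ∈ Y j ∧ ∀ a, (j, a, z) ∉ T := by
    intro z hz
    rw [hD, mem_sdiff] at hz
    refine ⟨hz.1, fun a ha => hz.2 (mem_image.2 ⟨(j, a, z), mem_filter.2 ⟨ha, rfl⟩, rfl⟩)⟩
  have hDcard : (Y j).card + 1 ≤ D.card + (S.filter fun s' => s'.1 = j).card := by
    have h1 : (Y j).card ≤ D.card + ((T.filter fun s' => s'.1 = j).image fun s' => s'.2.2).card := by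
      rw [hD]
      exact le_trans (card_le_card (fun b hb => by
        rw [mem_union, mem_sdiff]; tauto)) (card_union_le _ _)
    have h2 : ((T.filter fun s' => s'.1 = j).image fun s' => s'.2.2).card ≤
        (T.filter fun s' => s'.1 = j).card := card_image_le
    have h3 : (T.filter fun s' => s'.1 = j).card < (S.filter fun s' => s'.1 = j).card := by
      apply card_lt_card
      refine ⟨filter_subset_filter _ hT, fun hle => ?_⟩
      have h4 := hle (mem_filter.2 ⟨hs, rfl⟩)
      exact hsT (mem_filter.1 h4).1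
    omega
  have hDr : 1 ≤ r j * (D.card : ℝ) := by
    refine hr1.trans (mul_le_mul_of_nonneg_left ?_ (hr j))
    have : ((Y j).card : ℝ) + 1 ≤ D.card + ((S.filter fun s' => s'.1 = j).card : ℝ) := by
      exact_mod_cast hDcard
    linarith
  have hcount : cnt X Y F (insert (j, x, y) T) * D.card ≤ cnt X Y F T := by
    unfold cnt
    rw [← Set.ncard_coe_finset D, ← Set.ncard_prod]
    refine Set.ncard_le_ncard_of_injOn
      (fun p : (J → A → B) × B => fun i a => if i = j then Equiv.swap y p.2 (p.1 i a) else p.1 i a)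
      ?_ ?_ (Set.toFinite _)
    · rintro ⟨ω, z⟩ hp
      obtain ⟨⟨hb, hav, hre⟩, hz⟩ := hp
      simp only at hb hav hre hz ⊢
      obtain ⟨hzY, hzT⟩ := hDmem z (by exact_mod_cast hz)
      have hωx : ω j x = y := hre (j, x, y) (mem_insert_self _ _)
      refine ⟨fun i => ?_, fun S' hS' hre' => ?_, fun s' hs' => ?_⟩
      · by_cases hi : i = j
        · subst hi
          simp only [if_true]
          refine ⟨fun a ha => ?_, fun a ha b hb' hab => ?_, fun b hb' => ?_⟩
          · have h1 := (hb i).mapsTo ha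
            show Equiv.swap y z (ω i a) ∈ (Y i : Set B)
            rcases eq_or_ne (ω i a) y with h2 | h2
            · rw [h2, Equiv.swap_apply_left]; exact hzY
            · rcases eq_or_ne (ω i a) z with h3 | h3
              · rw [h3, Equiv.swap_apply_right]; exact hy
              · rw [Equiv.swap_apply_of_ne_of_ne h2 h3]; exact h1
          · exact (hb i).injOn ha hb' ((Equiv.swap y z).injective hab)
          · have hb2 : Equiv.swap y z b ∈ (Y i : Set B) := by
              rcases eq_or_ne b y with h2 | h2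
              · rw [h2, Equiv.swap_apply_left]; exact hzY
              · rcases eq_or_ne b z with h3 | h3
                · rw [h3, Equiv.swap_apply_right]; exact hy
                · rw [Equiv.swap_apply_of_ne_of_ne h2 h3]; exact hb'
            obtain ⟨a, ha, hab⟩ := (hb i).surjOn hb2
            refine ⟨a, ha, ?_⟩
            show Equiv.swap y z (ω i a) = b
            rw [hab, Equiv.swap_apply_self]
        · simp only [if_neg hi]
          exact hb i
      · obtain ⟨hX', hT'⟩ := hF S' hS'
        apply hav S' hS'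
        intro s' hs'
        have h1 := hre' s' hs'
        simp only at h1
        by_cases hi : s'.1 = j
        · rw [if_pos hi] at h1
          have hx' : s'.2.1 ≠ x := fun h => hT' ⟨(j, x, y), hs, s', hs', hi.symm, Or.inl h.symm⟩
          have hy' : s'.2.2 ≠ y := fun h => hT' ⟨(j, x, y), hs, s', hs', hi.symm, Or.inr h.symm⟩
          have hX1 : s'.2.1 ∈ X j := by rw [← hi]; exact hX' s' hs'
          rw [hi] at h1 ⊢
          have h2 : ω j s'.2.1 ≠ y := fun h => hx' ((hb j).injOn hX1 hx (h.trans hωx.symm))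
          have h3 : ω j s'.2.1 ≠ z := by
            intro h
            rw [h, Equiv.swap_apply_right] at h1
            exact hy' h1.symm
          rwa [Equiv.swap_apply_of_ne_of_ne h2 h3] at h1
        · rwa [if_neg hi] at h1
      · have h1 := hre s' (mem_insert_of_mem hs')
        show (if s'.1 = j then Equiv.swap y z (ω s'.1 s'.2.1) else ω s'.1 s'.2.1) = s'.2.2
        by_cases hi : s'.1 = j
        · rw [if_pos hi, h1]
          have h2 : s'.2.2 ≠ z := by
            intro h
            apply hzT s'.2.1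
            have h3 : (j, s'.2.1, z) = s' := by rw [← h, ← hi]
            rw [h3]; exact hs'
          have h3 : s'.2.2 ≠ y := by
            intro h
            apply hsT
            have hX1 : s'.2.1 ∈ X j := by rw [← hi]; exact (hS.2 s' (hT hs')).1
            have h4 : s'.2.1 = x := (hb j).injOn hX1 hx (by
              rw [hωx, ← h, ← h1, hi])
            have h5 : s' = (j, x, y) := by rw [← h4, ← h, ← hi]
            rw [← h5]; exact hs'
          exact Equiv.swap_apply_of_ne_of_ne h3 h2
        · rw [if_neg hi, h1]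
    · rintro ⟨ω, z⟩ hp ⟨ω₂, z₂⟩ hp₂ heq
      obtain ⟨⟨hb, hav, hre⟩, hz⟩ := hp
      obtain ⟨⟨hb₂, hav₂, hre₂⟩, hz₂⟩ := hp₂
      simp only at hre hre₂ heq
      have hωx : ω j x = y := hre (j, x, y) (mem_insert_self _ _)
      have hωx₂ : ω₂ j x = y := hre₂ (j, x, y) (mem_insert_self _ _)
      have h1 := congrFun (congrFun heq j) x
      simp only [if_true, hωx, hωx₂, Equiv.swap_apply_left] at h1
      subst h1
      have h2 : ω = ω₂ := by
        funext i a
        have h3 := congrFun (congrFun heq i) a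
        by_cases hi : i = j
        · rw [if_pos hi, if_pos hi] at h3
          exact (Equiv.swap y z).injective h3
        · rwa [if_neg hi, if_neg hi] at h3
      rw [h2]
  have hc : (cnt X Y F (insert (j, x, y) T) : ℝ) * D.card ≤ cnt X Y F T := by exact_mod_cast hcount
  have h0 : (0 : ℝ) ≤ cnt X Y F (insert (j, x, y) T) := Nat.cast_nonneg _
  calc (cnt X Y F (insert (j, x, y) T) : ℝ)
      ≤ cnt X Y F (insert (j, x, y) T) * (r j * (D.card : ℝ)) := le_mul_of_one_le_right h0 hDr
    _ = r j * ((cnt X Y F (insert (j, x, y) T) : ℝ) * D.card) := by ring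
    _ ≤ r j * cnt X Y F T := mul_le_mul_of_nonneg_left hc (hr j)

theorem swap_count (X : J → Finset A) (Y : J → Finset B) (r : J → ℝ) (hr : ∀ j, 0 ≤ r j)
    (S : Finset (J × A × B)) (hS : Fits X Y r S) (F : Finset (Finset (J × A × B)))
    (hF : ∀ S' ∈ F, (∀ s ∈ S', s.2.1 ∈ X s.1) ∧ ¬ Touch S S') :
    (cnt X Y F S : ℝ) ≤ (∏ s ∈ S, r s.1) * cnt X Y F ∅ := by
  have key : ∀ T : Finset (J × A × B), T ⊆ S →
      (cnt X Y F T : ℝ) ≤ (∏ s ∈ T, r s.1) * cnt X Y F ∅ := by
    intro T
    induction T using Finset.induction_on with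
    | empty => intro _; simp
    | insert s T hsT ih =>
      intro hsub
      have h1 : s ∈ S := hsub (mem_insert_self _ _)
      have h2 : T ⊆ S := (subset_insert _ _).trans hsub
      have h3 := Swap_step X Y r hr S hS F hF s h1 T h2 hsT
      rw [prod_insert hsT]
      calc (cnt X Y F (insert s T) : ℝ) ≤ r s.1 * cnt X Y F T := h3
        _ ≤ r s.1 * ((∏ s ∈ T, r s.1) * cnt X Y F ∅) := mul_le_mul_of_nonneg_left (ih h2) (hr _)
        _ = r s.1 * (∏ s ∈ T, r s.1) * cnt X Y F ∅ := by ring
  exact key S (Subset.refl S)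

theorem exists_bij [Nonempty B] (X : J → Finset A) (Y : J → Finset B)
    (hXY : ∀ j, (X j).card = (Y j).card) : ∃ ω : J → A → B, IsBij X Y ω := by
  let e : ∀ j, X j ≃ Y j := fun j => Finset.equivOfCardEq (hXY j)
  refine ⟨fun j a => if h : a ∈ X j then (e j ⟨a, h⟩ : B) else Classical.arbitrary B, fun j => ?_⟩
  refine ⟨fun a ha => ?_, fun a ha b hb hab => ?_, fun b hb => ?_⟩
  · have ha' : a ∈ X j := ha
    simp only [dif_pos ha']
    exact (e j ⟨a, ha'⟩).2
  · have ha' : a ∈ X j := ha
    have hb' : b ∈ X j := hb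
    simp only [dif_pos ha', dif_pos hb'] at hab
    have h1 := (e j).injective (Subtype.ext hab)
    exact congrArg Subtype.val h1
  · have hb' : b ∈ Y j := hb
    refine ⟨((e j).symm ⟨b, hb'⟩ : A), ((e j).symm ⟨b, hb'⟩).2, ?_⟩
    have h1 : (((e j).symm ⟨b, hb'⟩ : X j) : A) ∈ X j := ((e j).symm ⟨b, hb'⟩).2
    simp only [dif_pos h1]
    have h2 : (⟨(((e j).symm ⟨b, hb'⟩ : X j) : A), h1⟩ : X j) = (e j).symm ⟨b, hb'⟩ := rfl
    rw [h2, Equiv.apply_symm_apply]

end Pool.Agent.helper7.LT
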