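import Pool.Agent.helper7.LT.W2
import Pool.Agent.helper7.LT.Glue

/-!
# LT-XLow: the expected number of conflicts of an edge

* `YY_split`: drop the condition `x' ≠ x` (all terms are nonnegative), exchange the sums, split
  `range n = range dA ∪ Ico dA n`.
* `edge_inj`: the edge `{x, par x u}` determines `(x, u)` for `u ≠ x.1`: if `s(x, par x u) = s(x', par x' u')` and
  `x' ≠ x` then `x' = par x u` and `x = par x' u'`, so `x'.1 = u`, `x.1 = u'`, and both alternatives of `par_cases x x'`
  would hold, a contradiction.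
* `YY_low`: let `dA ≤ d`, `Sep d x.1 u`, `Sep d x.1 t`.  Claim: the terms of `YY c x u t` with a depth `d' ≥ dA` vanish.
  If `wd n d' x'.1 u' t ≠ 0` and `dA ≤ d'` then `Sep d' x'.1 u'`, `Sep d' x'.1 t` (`wd_ne`), so `x'.1`, `u'`, `t`, `x.1`,
  `u` are all in the same block of depth `dA` (`blk_le`); if the colours of `(x', u')`, `(x, u)` are equal then `Rain`
  gives `s(x', par x' u') = s(x, par x u)`, so `x' = x` by `edge_inj`, against the condition `x' ≠ x` of the sum.
  If `c (t, false) (t, true) = c x (par x u)` then `s((t, false), (t, true)) = s(x, par x u)`, impossible because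
  `x.1 ≠ u = (par x u).1`.  The remaining terms (`d' < dA`) are at most `Xh c dA (c x (par x u)) t`.
-/

set_option autoImplicit false

open Finset
open scoped Classical

namespace Pool.Agent.helper7.LT

variable {n : ℕ} {C : Type}

private theorem XLow_wg (c : P n → P n → C) (k : C) (S : Finset ℕ) (t : Fin n) :
    ∑ d ∈ S, ∑ x : P n, ∑ u : Fin n, (if c x (par x u) = k then wd n d x.1 u t else 0) =
      ∑ x : P n, ∑ u : Fin n, ∑ d ∈ S, (if c x (par x u) = k then wd n d x.1 u t else 0) := by
  rw [Finset.sum_comm]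
  refine Finset.sum_congr rfl fun x _ => ?_
  rw [Finset.sum_comm]

theorem YY_nonneg (c : P n → P n → C) (x : P n) (u t : Fin n) : 0 ≤ YY c x u t := by
  unfold YY
  refine add_nonneg (Finset.sum_nonneg fun x' _ => Finset.sum_nonneg fun u' _ => ?_) ?_
  · split_ifs
    · exact wg_nonneg _ _ _
    · exact le_rfl
  · split_ifs
    · exact zero_le_one
    · exact le_rfl

theorem Xh_nonneg (c : P n → P n → C) (dA : ℕ) (k : C) (t : Fin n) : 0 ≤ Xh c dA k t := by
  unfold Xh
  refine Finset.sum_nonneg fun d _ => Finset.sum_nonneg fun x' _ =>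
    Finset.sum_nonneg fun u' _ => ?_
  split_ifs
  · exact wd_nonneg _ _ _ _
  · exact le_rfl

theorem Xl_nonneg (c : P n → P n → C) (dA : ℕ) (k : C) (t : Fin n) : 0 ≤ Xl c dA k t := by
  unfold Xl
  refine add_nonneg (Finset.sum_nonneg fun d _ => Finset.sum_nonneg fun x' _ =>
    Finset.sum_nonneg fun u' _ => ?_) ?_
  · split_ifs
    · exact wd_nonneg _ _ _ _
    · exact le_rfl
  · split_ifs
    · exact zero_le_one
    · exact le_rfl

theorem edge_inj {x x' : P n} {u u' : Fin n} (hu : u ≠ x.1) (hu' : u' ≠ x'.1)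
    (h : s(x, par x u) = s(x', par x' u')) : x = x' ∧ u = u' := by
  rw [Sym2.eq_iff] at h
  rcases h with ⟨h1, h2⟩ | ⟨h1, h2⟩
  · exact ⟨h1, congrArg Prod.fst h2⟩
  · exfalso
    have e1 : x.1 = u' := congrArg Prod.fst h1
    have e2 : u = x'.1 := congrArg Prod.fst h2
    have h3 : x.1 ≠ x'.1 := by
      rw [← e2]
      exact hu.symm
    rcases par_cases h3 with ⟨-, h4⟩ | ⟨h4, -⟩
    · apply h4
      rw [e1]
      exact h1
    · apply h4
      rw [← e2]
      exact h2.symm

theorem YY_split (c : P n → P n → C) (dA : ℕ) (hd : dA ≤ n) (x : P n) (u t : Fin n) :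
    YY c x u t ≤ Xh c dA (c x (par x u)) t + Xl c dA (c x (par x u)) t := by
  unfold YY Xh Xl
  rw [← add_assoc, Finset.sum_range_add_sum_Ico _ hd, XLow_wg]
  refine add_le_add_left (Finset.sum_le_sum fun x' _ => Finset.sum_le_sum fun u' _ => ?_) _
  by_cases h1 : c x' (par x' u') = c x (par x u)
  · have h2 : ∑ d ∈ range n, (if c x' (par x' u') = c x (par x u) then wd n d x'.1 u' t
        else 0) = wg n x'.1 u' t := by
      unfold wg
      refine Finset.sum_congr rfl fun d _ => ?_
      rw [if_pos h1]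
    rw [h2]
    split_ifs
    · exact le_rfl
    · exact wg_nonneg _ _ _
  · rw [if_neg fun h => h1 h.2]
    refine Finset.sum_nonneg fun d _ => ?_
    rw [if_neg h1]

theorem YY_low (c : P n → P n → C) (dA : ℕ) (hr : Rain c dA) {d : ℕ} (hd : dA ≤ d) {x : P n}
    {u t : Fin n} (hu : Sep d x.1 u) (ht : Sep d x.1 t) :
    YY c x u t ≤ Xh c dA (c x (par x u)) t := by
  have hdn : dA ≤ n := hd.trans (sep_lt hu).le
  have hux : u ≠ x.1 := (sep_ne hu).symm
  have bu : blk n dA x.1 = blk n dA u := blk_le hd hu.1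
  have bt : blk n dA x.1 = blk n dA t := blk_le hd ht.1
  have hxp : x ≠ par x u := fun h => hux (congrArg Prod.fst h).symm
  have h0 : ¬ c (t, false) (t, true) = c x (par x u) := by
    intro h
    have h1 := hr (t, false) (t, true) x (par x u) rfl bt.symm bu (by simp) hxp h
    rw [Sym2.eq_iff] at h1
    rcases h1 with ⟨h1, h2⟩ | ⟨h1, h2⟩
    · have e1 : t = x.1 := congrArg Prod.fst h1
      have e2 : t = u := congrArg Prod.fst h2
      exact hux (e2.symm.trans e1)
    · have e1 : t = u := congrArg Prod.fst h1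
      have e2 : t = x.1 := congrArg Prod.fst h2
      exact hux (e1.symm.trans e2)
  unfold YY Xh
  rw [if_neg h0, add_zero, XLow_wg]
  refine Finset.sum_le_sum fun x' _ => Finset.sum_le_sum fun u' _ => ?_
  by_cases h1 : x' ≠ x ∧ c x' (par x' u') = c x (par x u)
  · rw [if_pos h1]
    unfold wg
    rw [← Finset.sum_range_add_sum_Ico _ hdn]
    have h2 : ∑ d' ∈ Ico dA n, wd n d' x'.1 u' t = 0 := by
      refine Finset.sum_eq_zero fun d' hd' => ?_
      by_contra hne
      obtain ⟨s1, s2⟩ := wd_ne hne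
      have hdd : dA ≤ d' := (Finset.mem_Ico.1 hd').1
      have b1 : blk n dA x'.1 = blk n dA u' := blk_le hdd s1.1
      have b2 : blk n dA x'.1 = blk n dA t := blk_le hdd s2.1
      have hux' : u' ≠ x'.1 := (sep_ne s1).symm
      have hxp' : x' ≠ par x' u' := fun h => hux' (congrArg Prod.fst h).symm
      have h3 := hr x' (par x' u') x (par x u) b1 (b1.symm.trans (b2.trans bt.symm)) bu hxp' hxp
        h1.2
      exact h1.1 (edge_inj hux' hux h3).1
    rw [h2, add_zero]
    refine le_of_eq (Finset.sum_congr rfl fun d' _ => ?_)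
    rw [if_pos h1.2]
  · rw [if_neg h1]
    refine Finset.sum_nonneg fun d' _ => ?_
    split_ifs
    · exact wd_nonneg _ _ _ _
    · exact le_rfl

end Pool.Agent.helper7.LT
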