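import Pool.Agent.helper7.LT.XLow

/-!
# LT-XSum1: the low edges of a colour in the trees of a block

PROOF.  The set `E` of the ordered pairs counted by `oc c k e b` contains the elements `(x, par x u)` for all `x`, `u` with
`u ≠ x.1`, `c x (par x u) = k`, `blk n e x.1 = b`, `blk n e u = b`, and the elements `((t, false), (t, true))` for
`blk n e t = b`, `c (t, false) (t, true) = k`; all these elements are different (`(x, u) ↦ (x, par x u)` is injective, and
`x.1 ≠ (par x u).1`).  In the sum on the left exchange the sums: for fixed `(x, u)` with colour `k` the sum over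
`t ∈ Bl n e b` and `d ∈ Ico dA n` of `wd n d x.1 u t` is at most `1` if `u ≠ x.1` and `x.1`, `u` are in the block `(e, b)`,
and `0` otherwise: `wd n d x.1 u t ≠ 0` implies `Sep d x.1 u` (one `d` only, `sep_unique`) and `Sep d x.1 t`, `d ≥ dA ≥ e`, so
`x.1`, `u`, `t` are in the same block of depth `e` (`blk_le`); then use `wd_sum_t_le`.
-/

set_option autoImplicit false

open Finset
open scoped Classical

namespace Pool.Agent.helper7.LT

variable {n : ℕ} {C : Type}

private theorem XSum1_mem {e b : ℕ} {t : Fin n} : t ∈ Bl n e b ↔ blk n e t = b := by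
  simp only [Bl, mem_filter, mem_univ, true_and]

/-- the weights of one edge -/
private theorem XSum1_one (dA e b : ℕ) (he : e ≤ dA) (v u : Fin n) :
    ∑ d ∈ Ico dA n, ∑ t ∈ Bl n e b, wd n d v u t ≤
      if u ≠ v ∧ blk n e v = b ∧ blk n e u = b then 1 else 0 := by
  have hz : ∀ d ∈ Ico dA n, ∀ t ∈ Bl n e b, wd n d v u t ≠ 0 →
      Sep d v u ∧ u ≠ v ∧ blk n e v = b ∧ blk n e u = b := by
    intro d hd t ht hw
    obtain ⟨h1, h2⟩ := wd_ne hw
    have hed : e ≤ d := he.trans (mem_Ico.1 hd).1
    have h3 : blk n e v = blk n e t := blk_le hed h2.1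
    have h4 : blk n e v = blk n e u := blk_le hed h1.1
    have h5 := XSum1_mem.1 ht
    exact ⟨h1, (sep_ne h1).symm, h3.trans h5, h4.symm.trans (h3.trans h5)⟩
  split_ifs with hc
  · by_cases hex : ∃ d ∈ Ico dA n, Sep d v u
    · obtain ⟨d, hd, hs⟩ := hex
      rw [sum_eq_single d]
      · refine le_trans ?_ (wd_sum_t_le d v u)
        exact sum_le_sum_of_subset_of_nonneg (subset_univ _) fun _ _ _ => wd_nonneg _ _ _ _
      · intro d' hd' hne
        refine sum_eq_zero fun t ht => ?_
        by_contra hw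
        exact hne (sep_unique (hz d' hd' t ht hw).1 hs)
      · exact fun h => absurd hd h
    · have h0 : ∑ d ∈ Ico dA n, ∑ t ∈ Bl n e b, wd n d v u t = 0 := by
        refine sum_eq_zero fun d hd => sum_eq_zero fun t ht => ?_
        by_contra hw
        exact hex ⟨d, hd, (hz d hd t ht hw).1⟩
      rw [h0]
      exact zero_le_one
  · refine le_of_eq ?_
    refine sum_eq_zero fun d hd => sum_eq_zero fun t ht => ?_
    by_contra hw
    exact hc (hz d hd t ht hw).2

theorem Xl_sum_t (c : P n → P n → C) (dA e b : ℕ) (he : e ≤ dA) (k : C) :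
    ∑ t ∈ Bl n e b, Xl c dA k t ≤ (oc c k e b : ℝ) := by
  -- the edges inside the block
  set A : Finset (P n × Fin n) := univ.filter fun p => c p.1 (par p.1 p.2) = k ∧
    (p.2 ≠ p.1.1 ∧ blk n e p.1.1 = b ∧ blk n e p.2 = b) with hA
  set B : Finset (Fin n) := (Bl n e b).filter fun t => c (t, false) (t, true) = k with hB
  have h1 : ∑ t ∈ Bl n e b, (∑ d ∈ Ico dA n, ∑ x : P n, ∑ u : Fin n,
      if c x (par x u) = k then wd n d x.1 u t else 0) ≤ (A.card : ℝ) := by
    have e1 : ∑ t ∈ Bl n e b, (∑ d ∈ Ico dA n, ∑ x : P n, ∑ u : Fin n,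
        if c x (par x u) = k then wd n d x.1 u t else 0) =
        ∑ p : P n × Fin n, if c p.1 (par p.1 p.2) = k then
          ∑ d ∈ Ico dA n, ∑ t ∈ Bl n e b, wd n d p.1.1 p.2 t else 0 := by
      have e2 : ∀ t ∈ Bl n e b, (∑ d ∈ Ico dA n, ∑ x : P n, ∑ u : Fin n,
          if c x (par x u) = k then wd n d x.1 u t else 0) =
          ∑ d ∈ Ico dA n, ∑ p : P n × Fin n,
            if c p.1 (par p.1 p.2) = k then wd n d p.1.1 p.2 t else 0 := by
        intro t _
        refine sum_congr rfl fun d _ => ?_
        exact (Fintype.sum_prod_type (fun p : P n × Fin n =>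
          if c p.1 (par p.1 p.2) = k then wd n d p.1.1 p.2 t else 0)).symm
      rw [sum_congr rfl e2, sum_comm]
      have e3 : ∀ d ∈ Ico dA n, ∑ t ∈ Bl n e b, ∑ p : P n × Fin n,
          (if c p.1 (par p.1 p.2) = k then wd n d p.1.1 p.2 t else 0) =
          ∑ p : P n × Fin n, if c p.1 (par p.1 p.2) = k then
            ∑ t ∈ Bl n e b, wd n d p.1.1 p.2 t else 0 := by
        intro d _
        rw [sum_comm]
        refine sum_congr rfl fun p _ => ?_
        split_ifs
        · rfl
        · exact sum_const_zero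
      rw [sum_congr rfl e3, sum_comm]
      refine sum_congr rfl fun p _ => ?_
      split_ifs
      · rfl
      · exact sum_const_zero
    rw [e1, hA, card_filter]
    push_cast
    refine sum_le_sum fun p _ => ?_
    by_cases hk : c p.1 (par p.1 p.2) = k
    · rw [if_pos hk]
      refine (XSum1_one dA e b he p.1.1 p.2).trans ?_
      by_cases hc : p.2 ≠ p.1.1 ∧ blk n e p.1.1 = b ∧ blk n e p.2 = b
      · rw [if_pos hc, if_pos ⟨hk, hc⟩]
      · rw [if_neg hc, if_neg fun h => hc h.2]
    · rw [if_neg hk, if_neg fun h => hk h.1]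
  have h2 : ∑ t ∈ Bl n e b, (if c (t, false) (t, true) = k then (1 : ℝ) else 0) = (B.card : ℝ) := by
    rw [hB, card_filter]
    push_cast
    rfl
  have h3 : A.card + B.card ≤ oc c k e b := by
    unfold oc
    set F : Finset (P n × P n) := A.image fun p => (p.1, par p.1 p.2) with hF
    set G : Finset (P n × P n) := B.image fun t => (((t, false) : P n), ((t, true) : P n)) with hG
    have hFc : F.card = A.card := by
      refine card_image_of_injOn ?_
      rintro ⟨x, u⟩ _ ⟨x', u'⟩ _ hxy
      simp only [Prod.mk.injEq] at hxy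
      obtain ⟨hx, hp⟩ := hxy
      have hu : u = u' := congrArg Prod.fst hp
      rw [hx, hu]
    have hGc : G.card = B.card := by
      refine card_image_of_injective _ ?_
      intro t t' htt
      simp only [Prod.mk.injEq] at htt
      exact htt.1.1
    have hdis : Disjoint F G := by
      rw [disjoint_left]
      rintro q hq hq'
      obtain ⟨p, hp, rfl⟩ := mem_image.1 hq
      obtain ⟨t, _, ht⟩ := mem_image.1 hq'
      simp only [Prod.mk.injEq] at ht
      have hp2 := (mem_filter.1 hp).2.2.1
      apply hp2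
      have h4 : (par p.1 p.2).1 = p.2 := rfl
      rw [← h4, ← ht.2, ← ht.1]
    rw [← hFc, ← hGc, ← card_union_of_disjoint hdis]
    refine card_le_card ?_
    intro q hq
    rcases mem_union.1 hq with h | h
    · obtain ⟨p, hp, rfl⟩ := mem_image.1 h
      obtain ⟨_, hk, hne, hb1, hb2⟩ := mem_filter.1 hp
      refine mem_filter.2 ⟨mem_univ _, ?_, hk, hb1, hb2⟩
      intro h5
      exact hne (congrArg Prod.fst h5).symm
    · obtain ⟨t, ht, rfl⟩ := mem_image.1 h
      obtain ⟨htb, hk⟩ := mem_filter.1 ht
      have hb := XSum1_mem.1 htb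
      refine mem_filter.2 ⟨mem_univ _, ?_, hk, hb, hb⟩
      intro h5
      simp at h5
  unfold Xl
  rw [sum_add_distrib, h2]
  have h4 : ((A.card + B.card : ℕ) : ℝ) ≤ (oc c k e b : ℝ) := by exact_mod_cast h3
  push_cast at h4
  linarith

end Pool.Agent.helper7.LT
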